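import Pool.Agent.P.MP_9957ef_pr.Prob

/-! Exponential integrals, change of rates, hinge functions. -/

set_option autoImplicit false

noncomputable section

open MeasureTheory ProbabilityTheory Finset
open scoped ENNReal

namespace Pool.Agent.P.MP_9957ef_pr

lemma ex_lintegral {f : ℝ → ℝ≥0∞} (hf : Measurable f) :
    ∫⁻ x, f x ∂ex = ∫⁻ x in Set.Ioi (0 : ℝ), ENNReal.ofReal (Real.exp (-x)) * f x := by
  unfold ex expMeasure gammaMeasure
  rw [lintegral_withDensity_eq_lintegral_mul _ (f := gammaPDF 1 1)
      (measurable_gammaPDFReal 1 1).ennreal_ofReal hf,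
    ← setLIntegral_congr (Ioi_ae_eq_Ici (a := (0 : ℝ))).symm, ← lintegral_indicator measurableSet_Ici]
  refine lintegral_congr fun x => ?_
  by_cases hx : 0 ≤ x
  · rw [Set.indicator_of_mem (show x ∈ Set.Ici 0 from hx)]
    simp [gammaPDF, gammaPDFReal, hx]
  · rw [Set.indicator_of_notMem (show x ∉ Set.Ici 0 from hx)]
    simp [gammaPDF, gammaPDFReal, hx]

lemma ex_lintegral' {f : ℝ → ℝ≥0∞} (hf : Measurable f) :
    ∫⁻ x, f x ∂ex = ∫⁻ x, if 0 < x then ENNReal.ofReal (Real.exp (-x)) * f x else 0 := by
  rw [ex_lintegral hf, ← lintegral_indicator measurableSet_Ioi]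
  refine lintegral_congr fun x => ?_
  simp [Set.indicator]

lemma ex_ae_nonneg : ∀ᵐ x ∂ex, 0 ≤ x := by
  rw [ae_iff]
  have h : MeasurableSet {x : ℝ | ¬ 0 ≤ x} := (measurableSet_le measurable_const measurable_id).compl
  rw [← lintegral_indicator_one h, ex_lintegral' (measurable_one.indicator h)]
  refine (lintegral_congr fun x => ?_).trans lintegral_zero
  split_ifs with hx
  · simp [Set.indicator, hx.le]
  · rfl

lemma ex_mgf {l : ℝ} (hl : l < 1) :
    ∫⁻ x, ENNReal.ofReal (Real.exp (l * |x|)) ∂ex = ENNReal.ofReal (1 / (1 - l)) := by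
  rw [ex_lintegral (by fun_prop)]
  have h1 : l - 1 < 0 := by linarith
  have e : (1 : ℝ) / (1 - l) = ∫ x in Set.Ioi (0 : ℝ), Real.exp ((l - 1) * x) := by
    rw [integral_exp_mul_Ioi h1]
    simp only [mul_zero, Real.exp_zero]
    rw [neg_div, ← div_neg, neg_sub]
  rw [e, ofReal_integral_eq_lintegral_ofReal (integrableOn_exp_mul_Ioi h1 0)
    (Filter.Eventually.of_forall fun x => (Real.exp_pos _).le)]
  refine setLIntegral_congr_fun measurableSet_Ioi fun x hx => ?_
  rw [← ENNReal.ofReal_mul (Real.exp_pos _).le, ← Real.exp_add, abs_of_pos hx]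
  congr 2
  ring

lemma ex_memoryless {τ : ℝ} (hτ : 0 ≤ τ) {f : ℝ → ℝ≥0∞} (hf : Measurable f) :
    ∫⁻ x, (if τ < |x| then f (|x| - τ) else 0) ∂ex =
      ENNReal.ofReal (Real.exp (-τ)) * ∫⁻ x, f |x| ∂ex := by
  rw [ex_lintegral' (Measurable.ite (measurableSet_lt measurable_const (by fun_prop))
      (by fun_prop) measurable_const), ex_lintegral' (f := fun x => f |x|) (by fun_prop),
    ← lintegral_const_mul' _ _ ENNReal.ofReal_ne_top, ← lintegral_add_right_eq_self _ τ]
  refine lintegral_congr fun y => ?_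
  by_cases hy : 0 < y
  · have h1 : 0 < y + τ := by linarith
    rw [if_pos h1, if_pos hy, abs_of_pos h1, abs_of_pos hy, if_pos (by linarith),
      add_sub_cancel_right, ← mul_assoc, ← ENNReal.ofReal_mul (Real.exp_pos _).le, ← Real.exp_add]
    congr 3
    ring
  · rw [if_neg hy, mul_zero]
    split_ifs with h1 h2
    · rw [abs_of_pos h1] at h2
      exact absurd (by linarith) hy
    · exact mul_zero _
    · rfl

lemma ex_scale {ρ : ℝ} (hρ : 0 < ρ) {f : ℝ → ℝ≥0∞} (hf : Measurable f) :
    ∫⁻ x, f (x / ρ) ∂ex = ∫⁻ x, ENNReal.ofReal (ρ * Real.exp (-((ρ - 1) * |x|))) * f x ∂ex := by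
  rw [ex_lintegral' (f := fun x => f (x / ρ)) (by fun_prop), ex_lintegral' (by fun_prop)]
  conv_lhs => rw [← Real.smul_map_volume_mul_left hρ.ne']
  rw [lintegral_smul_measure, lintegral_map (Measurable.ite
    (measurableSet_lt measurable_const measurable_id') (by fun_prop) measurable_const)
      (by fun_prop),
    smul_eq_mul, ← lintegral_const_mul' _ _ ENNReal.ofReal_ne_top]
  refine lintegral_congr fun y => ?_
  by_cases hy : 0 < y
  · rw [if_pos (mul_pos hρ hy), if_pos hy, abs_of_pos hρ, abs_of_pos hy,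
      mul_div_cancel_left₀ _ hρ.ne', ← mul_assoc, ← mul_assoc, ← ENNReal.ofReal_mul hρ.le,
      ← ENNReal.ofReal_mul (Real.exp_pos _).le, mul_left_comm, ← Real.exp_add]
    congr 4
    ring
  · rw [if_neg hy, if_neg fun h => hy ((mul_pos_iff_of_pos_left hρ).1 h), mul_zero]

lemma ex_tail {τ : ℝ} (hτ : 0 ≤ τ) :
    ∫⁻ x, (if τ < |x| then 1 else 0) ∂ex = ENNReal.ofReal (Real.exp (-τ)) := by
  simpa using ex_memoryless hτ (f := fun _ => 1) measurable_const

lemma real_coord_ge (z : Site) {t : ℝ} (ht : 0 ≤ t) :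
    mu.real {e | t ≤ |e z|} ≤ Real.exp (-t) := by
  have hm : MeasurableSet {x : ℝ | t ≤ |x|} := measurableSet_le measurable_const (by fun_prop)
  have h1 : mu {e | t ≤ |e z|} = ex {x | t ≤ |x|} := (mp_eval z).measure_preimage hm.nullMeasurableSet
  refine ENNReal.toReal_le_of_le_ofReal (Real.exp_pos _).le ?_
  rw [h1, ← ex_tail ht, ← lintegral_indicator_one hm, ex_lintegral (measurable_one.indicator hm),
    ex_lintegral (Measurable.ite (measurableSet_lt measurable_const (by fun_prop))
      measurable_const measurable_const)]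
  refine lintegral_mono_ae ?_
  rw [ae_restrict_iff' measurableSet_Ioi]
  filter_upwards [compl_mem_ae_iff.2 (measure_singleton t)] with x hx hx0
  by_cases h : t ≤ |x|
  · have : t < |x| := lt_of_le_of_ne h fun e => hx (by rw [e, abs_of_pos hx0]; rfl)
    simp [Set.indicator, h, this]
  · simp [Set.indicator, h]

lemma measurable_tilt (S : Finset Site) (κ : Site → ℝ) : Measurable (tilt S κ) := by
  refine measurable_pi_lambda _ fun z => ?_
  unfold tilt
  split_ifs <;> fun_prop

lemma measurable_LR (S : Finset Site) (κ : Site → ℝ) : Measurable (LR S κ) := by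
  unfold LR
  fun_prop

lemma LR_nonneg (S : Finset Site) {κ : Site → ℝ} (hκ : ∀ z ∈ S, -1 < κ z) (e : Env) :
    0 ≤ LR S κ e :=
  Finset.prod_nonneg fun z hz => mul_nonneg (by linarith [hκ z hz]) (Real.exp_pos _).le

lemma lintegral_tilt (S : Finset Site) {κ : Site → ℝ} (hκ : ∀ z ∈ S, -1 < κ z)
    {f : Env → ℝ≥0∞} (hf : Measurable f) :
    ∫⁻ e, f (tilt S κ e) ∂mu = ∫⁻ e, ENNReal.ofReal (LR S κ e) * f e ∂mu := by
  induction S using Finset.induction_on generalizing f with
  | empty =>
    have : tilt ∅ κ = id := by funext e z; simp [tilt]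
    simp [this, LR]
  | insert i S hi ih =>
    have hρ : 0 < 1 + κ i := by linarith [hκ i (mem_insert_self _ _)]
    have hS : ∀ z ∈ S, -1 < κ z := fun z hz => hκ z (mem_insert_of_mem hz)
    have hu : Measurable fun e : Env => Function.update e i (e i / (1 + κ i)) := by fun_prop
    have e1 : ∀ e, tilt (insert i S) κ e =
        Function.update (tilt S κ e) i (tilt S κ e i / (1 + κ i)) := by
      intro e
      funext z
      by_cases hz : z = i
      · subst hz; simp [tilt, hi]
      · simp [tilt, hz]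
    have hL := (measurable_LR S κ).ennreal_ofReal
    have hL' := (measurable_LR (insert i S) κ).ennreal_ofReal
    have e2 : ∀ e x, LR S κ (Function.update e i x) = LR S κ e := fun e x =>
      Finset.prod_congr rfl fun z hz => by
        rw [Function.update_of_ne (ne_of_mem_of_not_mem hz hi)]
    simp only [e1]
    rw [ih hS (f := fun e => f (Function.update e i (e i / (1 + κ i)))) (hf.comp hu),
      lintegral_update i (f := fun e => ENNReal.ofReal (LR S κ e) *
        f (Function.update e i (e i / (1 + κ i)))) (hL.mul (hf.comp hu)),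
      lintegral_update i (f := fun e => ENNReal.ofReal (LR (insert i S) κ e) * f e) (hL'.mul hf)]
    refine lintegral_congr fun e => ?_
    simp only [Function.update_idem, Function.update_self, e2]
    rw [lintegral_const_mul' _ _ ENNReal.ofReal_ne_top,
      ex_scale hρ (f := fun x => f (Function.update e i x)) (by fun_prop),
      ← lintegral_const_mul' _ _ ENNReal.ofReal_ne_top]
    refine lintegral_congr fun x => ?_
    have e3 : LR (insert i S) κ (Function.update e i x) =
        LR S κ e * ((1 + κ i) * Real.exp (-((1 + κ i - 1) * |x|))) := by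
      rw [← e2 e x, mul_comm]
      unfold LR
      rw [Finset.prod_insert hi, Function.update_self, add_sub_cancel_left]
    rw [e3, ENNReal.ofReal_mul (LR_nonneg S hS e), mul_assoc]

lemma integral_tilt (S : Finset Site) {κ : Site → ℝ} (hκ : ∀ z, 0 ≤ κ z) {f : Env → ℝ}
    (hf : PG f) : ∫ e, f (tilt S κ e) ∂mu = ∫ e, LR S κ e * f e ∂mu := by
  have hκ' : ∀ z ∈ S, -1 < κ z := fun z _ => by linarith [hκ z]
  have hL := (measurable_LR S κ).ennreal_ofReal
  have e : mu.map (tilt S κ) = mu.withDensity fun e => ENNReal.ofReal (LR S κ e) := by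
    ext A hA
    rw [← lintegral_indicator_one hA, ← lintegral_indicator_one hA,
      lintegral_map (measurable_one.indicator hA) (measurable_tilt S κ),
      lintegral_tilt S hκ' (measurable_one.indicator hA),
      lintegral_withDensity_eq_lintegral_mul _ hL (measurable_one.indicator hA)]
    rfl
  rw [← integral_map (measurable_tilt S κ).aemeasurable hf.1.aestronglyMeasurable, e,
    integral_withDensity_eq_integral_toReal_smul hL
      (Filter.Eventually.of_forall fun _ => ENNReal.ofReal_lt_top)]
  refine integral_congr_ae (Filter.Eventually.of_forall fun e => ?_)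
  simp only [smul_eq_mul]
  rw [ENNReal.toReal_ofReal (LR_nonneg S hκ' e)]

lemma integral_LR_mul (S : Finset Site) {κ κ' : Site → ℝ} (hκ : ∀ z, 0 ≤ κ z)
    (hκ' : ∀ z, 0 ≤ κ' z) :
    ∫ e, LR S κ e * LR S κ' e ∂mu = ∏ z ∈ S, (1 + κ z * κ' z / (1 + κ z + κ' z)) := by
  have h1 : ∀ z ∈ S, -1 < κ z := fun z _ => by linarith [hκ z]
  have h2 : ∀ z ∈ S, -1 < κ' z := fun z _ => by linarith [hκ' z]
  have hc : ∀ z, 0 ≤ (1 + κ z) * (1 + κ' z) := fun z =>
    mul_nonneg (by linarith [hκ z]) (by linarith [hκ' z])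
  rw [integral_eq_lintegral_of_nonneg_ae
    (Filter.Eventually.of_forall fun e => mul_nonneg (LR_nonneg S h1 e) (LR_nonneg S h2 e))
    ((measurable_LR S κ).mul (measurable_LR S κ')).aestronglyMeasurable]
  have e1 : ∀ e : Env, ENNReal.ofReal (LR S κ e * LR S κ' e) = ∏ z ∈ S,
      ENNReal.ofReal ((1 + κ z) * (1 + κ' z)) *
        ENNReal.ofReal (Real.exp (-(κ z + κ' z) * |e z|)) := by
    intro e
    unfold LR
    rw [← Finset.prod_mul_distrib, ENNReal.ofReal_prod_of_nonneg fun z hz =>
      mul_nonneg (mul_nonneg (by linarith [hκ z]) (Real.exp_pos _).le)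
        (mul_nonneg (by linarith [hκ' z]) (Real.exp_pos _).le)]
    refine Finset.prod_congr rfl fun z _ => ?_
    rw [← ENNReal.ofReal_mul (hc z), mul_mul_mul_comm, ← Real.exp_add]
    congr 3
    ring
  simp only [e1]
  rw [lintegral_prod_coord S (φ := fun z x => ENNReal.ofReal ((1 + κ z) * (1 + κ' z)) *
    ENNReal.ofReal (Real.exp (-(κ z + κ' z) * |x|))) fun z => by fun_prop, ENNReal.toReal_prod]
  refine Finset.prod_congr rfl fun z _ => ?_
  have h3 : 0 < 1 + κ z + κ' z := by linarith [hκ z, hκ' z]
  rw [lintegral_const_mul' _ _ ENNReal.ofReal_ne_top, ex_mgf (by linarith),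
    ← ENNReal.ofReal_mul (hc z), ENNReal.toReal_ofReal
      (mul_nonneg (hc z) (div_nonneg zero_le_one (by linarith))),
    show 1 - -(κ z + κ' z) = 1 + κ z + κ' z by ring]
  field_simp
  ring

/-! ### real integrals against the exponential law -/

lemma ex_lintegral_pow (n : ℕ) :
    ∫⁻ x, ENNReal.ofReal (|x| ^ n) ∂ex = ENNReal.ofReal (n.factorial : ℝ) := by
  have hn : (0 : ℝ) < n + 1 := by positivity
  rw [ex_lintegral (by fun_prop), ← Real.Gamma_nat_eq_factorial, Real.Gamma_eq_integral hn,
    ofReal_integral_eq_lintegral_ofReal (Real.GammaIntegral_convergent hn)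
      ((ae_restrict_iff' measurableSet_Ioi).2 (Filter.Eventually.of_forall fun x hx =>
        mul_nonneg (Real.exp_pos _).le (Real.rpow_nonneg (le_of_lt hx) _)))]
  refine setLIntegral_congr_fun measurableSet_Ioi fun x hx => ?_
  rw [← ENNReal.ofReal_mul (Real.exp_pos _).le, abs_of_pos hx, add_sub_cancel_right,
    Real.rpow_natCast]

lemma ex_integrable_pow (n : ℕ) : Integrable (fun x : ℝ => |x| ^ n) ex := by
  refine ⟨(by fun_prop : Measurable fun x : ℝ => |x| ^ n).aestronglyMeasurable, ?_⟩
  rw [hasFiniteIntegral_iff_ofReal (Filter.Eventually.of_forall fun x => by positivity),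
    ex_lintegral_pow]
  exact ENNReal.ofReal_lt_top

lemma ex_integral_pow (n : ℕ) : ∫ x, |x| ^ n ∂ex = n.factorial := by
  rw [integral_eq_lintegral_of_nonneg_ae (Filter.Eventually.of_forall fun x => by positivity)
    (ex_integrable_pow n).1, ex_lintegral_pow, ENNReal.toReal_ofReal (by positivity)]

lemma ex_integrable_abs : Integrable (fun x : ℝ => |x|) ex := by
  simpa using ex_integrable_pow 1

lemma ex_integral_abs : ∫ x, |x| ∂ex = 1 := by simpa using ex_integral_pow 1

lemma ex_memoryless_real {τ : ℝ} (hτ : 0 ≤ τ) {g : ℝ → ℝ} (hg : Measurable g)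
    (h0 : ∀ x, 0 ≤ x → 0 ≤ g x) :
    ∫ x, (if τ < |x| then g (|x| - τ) else 0) ∂ex = Real.exp (-τ) * ∫ x, g |x| ∂ex := by
  rw [integral_eq_lintegral_of_nonneg_ae (Filter.Eventually.of_forall fun x => by
      simp only [Pi.zero_apply]
      split_ifs with h
      exacts [h0 _ (by linarith), le_rfl])
    (Measurable.ite (measurableSet_lt measurable_const (by fun_prop)) (by fun_prop)
      measurable_const).aestronglyMeasurable,
    integral_eq_lintegral_of_nonneg_ae (f := fun x => g |x|)
      (Filter.Eventually.of_forall fun x => h0 _ (abs_nonneg _))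
      (by fun_prop : Measurable fun x : ℝ => g |x|).aestronglyMeasurable]
  have := ex_memoryless hτ (f := fun x => ENNReal.ofReal (g x)) hg.ennreal_ofReal
  rw [← ENNReal.toReal_ofReal (Real.exp_pos (-τ)).le, ← ENNReal.toReal_mul, ← this]
  congr 1
  refine lintegral_congr fun x => ?_
  split_ifs <;> simp

lemma ex_hinge_pow {τ : ℝ} (hτ : 0 ≤ τ) (n : ℕ) :
    ∫ x, max (|x| - τ) 0 ^ (n + 1) ∂ex = Real.exp (-τ) * (n + 1).factorial := by
  have := ex_memoryless_real hτ (g := fun y => y ^ (n + 1)) (by fun_prop) fun x hx => by positivity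
  rw [ex_integral_pow] at this
  rw [← this]
  refine integral_congr_ae (Filter.Eventually.of_forall fun x => ?_)
  simp only
  split_ifs with h
  · rw [max_eq_left (by linarith)]
  · rw [max_eq_right (by linarith), zero_pow n.succ_ne_zero]

lemma ex_integrable_hinge_pow {τ : ℝ} (hτ : 0 ≤ τ) (n : ℕ) :
    Integrable (fun x : ℝ => max (|x| - τ) 0 ^ n) ex := by
  refine (ex_integrable_pow n).mono'
    (by fun_prop : Measurable fun x : ℝ => max (|x| - τ) 0 ^ n).aestronglyMeasurable
    (Filter.Eventually.of_forall fun x => ?_)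
  rw [Real.norm_eq_abs, abs_of_nonneg (by positivity)]
  exact pow_le_pow_left₀ (le_max_right _ _) (max_le (by linarith) (abs_nonneg _)) n

lemma ex_ind {τ : ℝ} (hτ : 0 ≤ τ) :
    ∫ x, (if τ < |x| then (1 : ℝ) else 0) ∂ex = Real.exp (-τ) := by
  simpa using ex_memoryless_real hτ (g := fun _ => 1) measurable_const fun _ _ => zero_le_one

lemma ex_abs_ind {τ : ℝ} (hτ : 0 ≤ τ) :
    ∫ x, |x| * (if τ < |x| then (1 : ℝ) else 0) ∂ex = Real.exp (-τ) * (1 + τ) := by
  have := ex_memoryless_real hτ (g := fun y => y + τ) (by fun_prop) fun x hx => by positivity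
  rw [integral_add ex_integrable_abs (integrable_const _), ex_integral_abs] at this
  simp only [integral_const, probReal_univ, smul_eq_mul, one_mul, sub_add_cancel] at this
  rw [← this]
  refine integral_congr_ae (Filter.Eventually.of_forall fun x => ?_)
  simp only
  split_ifs <;> simp

variable {s : ℝ} {f : Env → ℝ} {i : Site}

lemma measurable_update_zero (hf : Measurable f) (i : Site) :
    Measurable fun e => f (Function.update e i 0) := by fun_prop

lemma measurable_iV (hf : Measurable f) (i : Site) : Measurable (iV f i) :=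
  Measurable.ite (measurableSet_lt (measurable_update_zero hf i) hf) measurable_const
    measurable_const

/-- the data of a hinge at a fixed environment -/
lemma Hinge.data (h : Hinge s f i) (hs : 0 < s) (hf : Measurable f) (e : Env) :
    ∃ τ : ℝ, 0 ≤ τ ∧ (∀ x, f (Function.update e i x) - f (Function.update e i 0) =
      s * max (|x| - τ) 0) ∧ cE {i} (iV f i) e = Real.exp (-τ) ∧
      cE {i} (fun e => |e i| * iV f i e) e = Real.exp (-τ) * (1 + τ) := by
  obtain ⟨τ, hτ, h1⟩ := h e
  have h2 : ∀ x, iV f i (Function.update e i x) = if τ < |x| then 1 else 0 := by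
    intro x
    unfold iV
    rw [Function.update_idem, h1 x]
    refine if_congr ?_ rfl rfl
    rw [lt_add_iff_pos_right, mul_pos_iff_of_pos_left hs, lt_max_iff, sub_pos]
    simp
  refine ⟨τ, hτ, fun x => by rw [h1 x]; ring, ?_, ?_⟩
  · rw [cE_single i (measurable_iV hf i)]
    simp only [h2]
    exact ex_ind hτ
  · rw [cE_single i (f := fun e => |e i| * iV f i e)
      (Measurable.mul (by fun_prop) (measurable_iV hf i))]
    simp only [h2, Function.update_self]
    exact ex_abs_ind hτ

lemma hinge_sq (h : Hinge s f i) (hs : 0 < s) (hf : Measurable f) (e : Env) :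
    cE {i} (fun e => (f e - f (Function.update e i 0)) ^ 2) e = 2 * s ^ 2 * cE {i} (iV f i) e := by
  obtain ⟨τ, hτ, h1, h2, -⟩ := h.data hs hf e
  rw [h2, cE_single i (f := fun e => (f e - f (Function.update e i 0)) ^ 2)
    ((hf.sub (measurable_update_zero hf i)).pow_const 2)]
  simp only [Function.update_idem, h1, mul_pow]
  rw [integral_const_mul, ex_hinge_pow hτ 1]
  norm_num [Nat.factorial]
  ring

lemma hinge_le (h : Hinge s f i) (hs : 0 < s) (hf : Measurable f) (e : Env) :
    cE {i} (iV f i) e ≤ cE {i} (fun e => |e i| * iV f i e) e := by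
  obtain ⟨τ, hτ, -, h2, h3⟩ := h.data hs hf e
  rw [h2, h3]
  exact le_mul_of_one_le_right (Real.exp_pos _).le (by linarith)

lemma hinge_tilt (h : Hinge s f i) (hs : 0 < s) (hf : Measurable f) {κ : ℝ} (hκ : 0 ≤ κ)
    (e : Env) : s * (κ / (1 + κ)) * cE {i} (iV f i) e ≤
      cE {i} (fun e => f e - f (Function.update e i (e i / (1 + κ)))) e := by
  obtain ⟨τ, hτ, h1, h2, -⟩ := h.data hs hf e
  have hρ : 0 < 1 + κ := by linarith
  rw [h2, cE_single i (f := fun e => f e - f (Function.update e i (e i / (1 + κ))))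
    (hf.sub (by fun_prop))]
  simp only [Function.update_idem, Function.update_self]
  have e1 : ∀ x, f (Function.update e i x) - f (Function.update e i (x / (1 + κ))) =
      s * (max (|x| - τ) 0 - max (|x| / (1 + κ) - τ) 0) := by
    intro x
    have a := h1 x
    have b := h1 (x / (1 + κ))
    rw [abs_div, abs_of_pos hρ] at b
    linarith
  have hb : ∀ x : ℝ, max (|x| / (1 + κ) - τ) 0 ≤ max (|x| - τ) 0 / (1 + κ) := by
    intro x
    refine max_le ?_ (by positivity)
    refine le_trans ?_ (div_le_div_of_nonneg_right (le_max_left _ _) hρ.le)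
    rw [sub_div]
    linarith [div_le_self hτ (by linarith : 1 ≤ 1 + κ)]
  have i1 : Integrable (fun x : ℝ => max (|x| - τ) 0) ex := by
    simpa using ex_integrable_hinge_pow hτ 1
  have i2 : Integrable (fun x : ℝ => max (|x| / (1 + κ) - τ) 0) ex := by
    refine (i1.div_const (1 + κ)).mono'
      (by fun_prop : Measurable fun x : ℝ => max (|x| / (1 + κ) - τ) 0).aestronglyMeasurable
      (Filter.Eventually.of_forall fun x => ?_)
    rw [Real.norm_eq_abs, abs_of_nonneg (le_max_right _ _)]
    exact hb x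
  have j1 : ∫ x, max (|x| - τ) 0 ∂ex = Real.exp (-τ) := by simpa using ex_hinge_pow hτ 0
  have j2 := integral_mono i2 (i1.div_const (1 + κ)) hb
  rw [integral_div, j1] at j2
  simp only [e1]
  rw [integral_const_mul, integral_sub i1 i2, j1, mul_assoc]
  refine mul_le_mul_of_nonneg_left ?_ hs.le
  have : κ / (1 + κ) * Real.exp (-τ) = Real.exp (-τ) - Real.exp (-τ) / (1 + κ) := by
    field_simp
    ring
  linarith

lemma hinge_big (h : Hinge s f i) (hs : 0 < s) (hf : Measurable f) {A : ℝ} (hA : 1 ≤ A)
    (e : Env) :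
    cE {i} (fun e => if A < |e i| then (f e - f (Function.update e i 0)) ^ 2 else 0) e ≤
      s ^ 2 * (12 / A) * cE {i} (fun e => |e i| * iV f i e) e := by
  obtain ⟨τ, hτ, h1, -, h3⟩ := h.data hs hf e
  have hA0 : 0 < A := by linarith
  rw [h3, cE_single i
    (f := fun e => if A < |e i| then (f e - f (Function.update e i 0)) ^ 2 else 0) (Measurable.ite
    (measurableSet_lt measurable_const (by fun_prop)) ((hf.sub (measurable_update_zero hf i)).pow_const 2) measurable_const)]
  simp only [Function.update_idem, Function.update_self, h1]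
  have i1 := ((ex_integrable_hinge_pow hτ 3).add
    ((ex_integrable_hinge_pow hτ 2).const_mul τ)).const_mul (s ^ 2 / A)
  refine (integral_mono_of_nonneg (Filter.Eventually.of_forall fun x => ?_) i1
    (Filter.Eventually.of_forall fun x => ?_)).trans ?_
  · simp only [Pi.zero_apply]
    split_ifs <;> positivity
  · simp only [Pi.add_apply]
    have hm : |x| - τ ≤ max (|x| - τ) 0 := le_max_left _ _
    have hm0 : 0 ≤ max (|x| - τ) 0 := le_max_right _ _
    generalize max (|x| - τ) 0 = m at hm hm0
    split_ifs with hx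
    · rw [div_mul_eq_mul_div, le_div_iff₀ hA0]
      have : A ≤ m + τ := by linarith
      calc (s * m) ^ 2 * A ≤ (s * m) ^ 2 * (m + τ) := by gcongr
        _ = _ := by ring
    · positivity
  · rw [integral_const_mul]
    simp only [Pi.add_apply]
    rw [integral_add (ex_integrable_hinge_pow hτ 3) ((ex_integrable_hinge_pow hτ 2).const_mul τ),
      integral_const_mul, ex_hinge_pow hτ 2, ex_hinge_pow hτ 1]
    have e1 : s ^ 2 * (12 / A) * (Real.exp (-τ) * (1 + τ)) =
        s ^ 2 / A * (Real.exp (-τ) * (12 + 12 * τ)) := by ring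
    rw [e1]
    refine mul_le_mul_of_nonneg_left ?_ (by positivity)
    norm_num [Nat.factorial]
    nlinarith [Real.exp_pos (-τ), mul_nonneg hτ (Real.exp_pos (-τ)).le]

/-- below the level `A` the hinge increment is controlled by the mean of the indicator -/
lemma hinge_small (h : Hinge s f i) (hs : 0 < s) (hf : Measurable f) {A : ℝ} (e : Env)
    (hA : |e i| ≤ A) :
    0 ≤ f e - f (Function.update e i 0) ∧
      f e - f (Function.update e i 0) ≤ s * A * Real.exp A * cE {i} (iV f i) e := by
  obtain ⟨τ, hτ, h1, h2, -⟩ := h.data hs hf e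
  have h3 := h1 (e i)
  rw [Function.update_eq_self] at h3
  have hA0 : 0 ≤ A := (abs_nonneg _).trans hA
  rw [h3, h2]
  refine ⟨by positivity, ?_⟩
  rcases le_total (|e i| - τ) 0 with h4 | h4
  · rw [max_eq_right h4, mul_zero]
    positivity
  · rw [max_eq_left h4, mul_assoc, mul_assoc, ← Real.exp_add]
    refine mul_le_mul_of_nonneg_left ?_ hs.le
    exact le_trans (by linarith) (le_mul_of_one_le_right hA0 (Real.one_le_exp (by linarith)))

lemma cE_iV_le (h : Hinge s f i) (hs : 0 < s) (hf : PG f) {R : Set Site} (hi : i ∈ R)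
    (e : Env) : cE R (iV f i) e ≤ cE R (fun e => |e i| * iV f i e) e := by
  have e1 : R ∪ {i} = R := Set.union_eq_self_of_subset_right (Set.singleton_subset_iff.2 hi)
  have p1 := hf.iV i
  have p2 := (pg_coord i).abs.mul p1
  have a := cE_cE R {i} p1 e
  have b := cE_cE R {i} p2 e
  rw [e1] at a b
  rw [← a, ← b]
  exact cE_mono R (p1.cE _) (p2.cE _) (hinge_le h hs hf.1) e

lemma integral_var_single (h : Hinge s f i) (hs : 0 < s) (hf : PG f) :
    ∫ e, (f e - cE {i} f e) ^ 2 ∂mu ≤ 2 * s ^ 2 * ∫ e, iV f i e ∂mu := by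
  have dg : DependsOn (fun e => f (Function.update e i 0)) ({i} : Set Site)ᶜ := by
    intro e e' he
    have : Function.update e i 0 = Function.update e' i 0 := by
      funext z
      by_cases hz : z = i
      · subst hz; simp
      · rw [Function.update_of_ne hz, Function.update_of_ne hz, he z hz]
    simp only [this]
  refine (var_le_center hf (hf.update i 0) dg).trans_eq ?_
  rw [← integral_cE {i} ((hf.sub (hf.update i 0)).pow 2), ← integral_cE {i} (hf.iV i),
    ← integral_const_mul]
  exact integral_congr_ae (Filter.Eventually.of_forall fun e => hinge_sq h hs hf.1 e)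

end Pool.Agent.P.MP_9957ef_pr
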