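import Pool.Agent.P.MP_9957ef_pr.Path
import Pool.Agent.P.MP_9957ef_pr.Exp1

/-! The Burke property as a measure preserving map, and the moment generating function. -/

set_option autoImplicit false

noncomputable section

open MeasureTheory ProbabilityTheory Finset
open scoped ENNReal

namespace Pool.Agent.P.MP_9957ef_pr

namespace Burke

instance nullSingleton_ex : NullSingletonClass ex := by unfold ex expMeasure gammaMeasure; infer_instance

/-- one half of the two dimensional computation -/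
lemma half {a b : ℝ} (ha : 0 < a) (hb : 0 < b) (hab : a + b = 1) {g : ℝ → ℝ → ℝ≥0∞}
    (hg : Measurable (Function.uncurry g)) :
    ∫⁻ v, ∫⁻ u, (if |v| / b < |u| / a then g (|v| / b) (|u| / a - |v| / b) else 0) ∂ex ∂ex =
      ∫⁻ η, ENNReal.ofReal b * ∫⁻ s, g |η| (|s| / a) ∂ex ∂ex := by
  have h1 : ∀ v : ℝ, ∫⁻ u, (if |v| / b < |u| / a then g (|v| / b) (|u| / a - |v| / b) else 0) ∂ex =
      ENNReal.ofReal (Real.exp (-(a * |v / b|))) * ∫⁻ s, g |v / b| (|s| / a) ∂ex := by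
    intro v
    have e1 : |v / b| = |v| / b := by rw [abs_div, abs_of_pos hb]
    rw [e1, ← ex_memoryless (τ := a * (|v| / b)) (by positivity)
      (f := fun s => g (|v| / b) (s / a)) (hg.of_uncurry_left.comp (by fun_prop))]
    refine lintegral_congr fun u => ?_
    have e2 : (|v| / b < |u| / a) ↔ (a * (|v| / b) < |u|) := by
      rw [lt_div_iff₀ ha, mul_comm]
    have e3 : (|u| - a * (|v| / b)) / a = |u| / a - |v| / b := by field_simp
    simp only [e2, e3]
  have hm : Measurable fun η : ℝ => ∫⁻ s, g |η| (|s| / a) ∂ex :=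
    Measurable.lintegral_prod_right' (f := fun p : ℝ × ℝ => g |p.1| (|p.2| / a))
      (hg.comp (f := fun p : ℝ × ℝ => (|p.1|, |p.2| / a)) (by fun_prop))
  simp only [h1]
  rw [ex_scale hb (f := fun η => ENNReal.ofReal (Real.exp (-(a * |η|))) *
    ∫⁻ s, g |η| (|s| / a) ∂ex) (by fun_prop)]
  refine lintegral_congr fun η => ?_
  rw [← mul_assoc, ← ENNReal.ofReal_mul (by positivity), mul_assoc, ← Real.exp_add]
  have : -((b - 1) * |η|) + -(a * |η|) = 0 := by
    have : b - 1 = -a := by linarith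
    rw [this]; ring
  rw [this, Real.exp_zero, mul_one]

/-- the law of the difference -/
def N (a b : ℝ) (h : ℝ → ℝ≥0∞) : ℝ≥0∞ :=
  ENNReal.ofReal b * ∫⁻ s, h (|s| / a) ∂ex + ENNReal.ofReal a * ∫⁻ s, h (-(|s| / b)) ∂ex

lemma two {a b : ℝ} (ha : 0 < a) (hb : 0 < b) (hab : a + b = 1) {g : ℝ → ℝ → ℝ≥0∞}
    (hg : Measurable (Function.uncurry g)) :
    ∫⁻ u, ∫⁻ v, g (min (|u| / a) (|v| / b)) (|u| / a - |v| / b) ∂ex ∂ex =
      ∫⁻ η, N a b (g |η|) ∂ex := by
  have hg' : Measurable (Function.uncurry fun s t => g s (-t)) :=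
    hg.comp (f := fun p : ℝ × ℝ => (p.1, -p.2)) (by fun_prop)
  have m1 : Measurable fun p : ℝ × ℝ =>
      (if |p.2| / b < |p.1| / a then g (|p.2| / b) (|p.1| / a - |p.2| / b) else 0) :=
    Measurable.ite (measurableSet_lt (by fun_prop) (by fun_prop))
      (hg.comp (f := fun p : ℝ × ℝ => (|p.2| / b, |p.1| / a - |p.2| / b)) (by fun_prop))
      measurable_const
  have h1 : ∀ u : ℝ, ∫⁻ v, g (min (|u| / a) (|v| / b)) (|u| / a - |v| / b) ∂ex =
      ∫⁻ v, (if |v| / b < |u| / a then g (|v| / b) (|u| / a - |v| / b) else 0) ∂ex +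
      ∫⁻ v, (if |u| / a < |v| / b then g (|u| / a) (-(|v| / b - |u| / a)) else 0) ∂ex := by
    intro u
    have m2 : Measurable fun v : ℝ =>
        (if |v| / b < |u| / a then g (|v| / b) (|u| / a - |v| / b) else 0) :=
      m1.comp (f := fun v : ℝ => (u, v)) (by fun_prop)
    rw [← lintegral_add_left m2]
    refine lintegral_congr_ae ?_
    have hz : ex {|u| / a * b, -(|u| / a * b)} = 0 := (Set.toFinite _).measure_zero _
    filter_upwards [compl_mem_ae_iff.2 hz] with v hv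
    have hne : |v| / b ≠ |u| / a := by
      intro h
      apply hv
      rw [div_eq_iff hb.ne'] at h
      rcases eq_or_eq_neg_of_abs_eq h with h | h
      · exact Or.inl h
      · exact Or.inr h
    rcases lt_or_gt_of_ne hne with h | h
    · rw [if_pos h, if_neg h.not_gt, add_zero, min_eq_right h.le]
    · rw [if_neg h.not_gt, if_pos h, zero_add, min_eq_left h.le, neg_sub]
  simp only [h1]
  rw [lintegral_add_left (Measurable.lintegral_prod_right' m1),
    lintegral_lintegral_swap m1.aemeasurable, half ha hb hab hg,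
    half hb ha (by linarith) hg', ← lintegral_add_left]
  · rfl
  · exact Measurable.const_mul (Measurable.lintegral_prod_right'
      (f := fun p : ℝ × ℝ => g |p.1| (|p.2| / a))
      (hg.comp (f := fun p : ℝ × ℝ => (|p.1|, |p.2| / a)) (by fun_prop))) _

lemma measurable_N (a b : ℝ) {α : Type} [MeasurableSpace α] {g : α → ℝ → ℝ≥0∞}
    (hg : Measurable (Function.uncurry g)) : Measurable fun p => N a b (g p) := by
  unfold N
  refine Measurable.add (Measurable.const_mul ?_ _) (Measurable.const_mul ?_ _)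
  · exact Measurable.lintegral_prod_right' (f := fun p : α × ℝ => g p.1 (|p.2| / a))
      (hg.comp (f := fun p : α × ℝ => (p.1, |p.2| / a)) (by fun_prop))
  · exact Measurable.lintegral_prod_right' (f := fun p : α × ℝ => g p.1 (-(|p.2| / b)))
      (hg.comp (f := fun p : α × ℝ => (p.1, -(|p.2| / b))) (by fun_prop))

lemma three_aux {a b : ℝ} (ha : 0 < a) (hb : 0 < b) (hab : a + b = 1) {F : ℝ × ℝ × ℝ → ℝ≥0∞}
    (hF : Measurable F) :
    ∫⁻ u, ∫⁻ v, ∫⁻ w, F (|w|, min (|u| / a) (|v| / b), |u| / a - |v| / b) ∂ex ∂ex ∂ex =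
      ∫⁻ w, ∫⁻ η, N a b (fun D => F (|w|, |η|, D)) ∂ex ∂ex := by
  have m : Measurable fun p : (ℝ × ℝ) × ℝ =>
      F (|p.2|, min (|p.1.1| / a) (|p.1.2| / b), |p.1.1| / a - |p.1.2| / b) :=
    hF.comp (by fun_prop)
  have e1 : ∀ u : ℝ,
      ∫⁻ v, ∫⁻ w, F (|w|, min (|u| / a) (|v| / b), |u| / a - |v| / b) ∂ex ∂ex =
      ∫⁻ w, ∫⁻ v, F (|w|, min (|u| / a) (|v| / b), |u| / a - |v| / b) ∂ex ∂ex := fun u =>
    lintegral_lintegral_swap
      (m.comp (f := fun p : ℝ × ℝ => ((u, p.1), p.2)) (by fun_prop)).aemeasurable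
  simp only [e1]
  rw [lintegral_lintegral_swap]
  · refine lintegral_congr fun w => ?_
    exact two ha hb hab (g := fun η D => F (|w|, η, D))
      (hF.comp (f := fun p : ℝ × ℝ => (|w|, p.1, p.2)) (by fun_prop))
  · exact (Measurable.lintegral_prod_right' (f := fun p : (ℝ × ℝ) × ℝ =>
      F (|p.1.2|, min (|p.1.1| / a) (|p.2| / b), |p.1.1| / a - |p.2| / b))
      (hF.comp (by fun_prop))).aemeasurable

lemma three {a b : ℝ} (ha : 0 < a) (hb : 0 < b) (hab : a + b = 1) {f : ℝ × ℝ × ℝ → ℝ≥0∞}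
    (hf : Measurable f) :
    ∫⁻ u, ∫⁻ v, ∫⁻ w, f (a * (|w| + max (|u| / a - |v| / b) 0),
        b * (|w| + max (-(|u| / a - |v| / b)) 0), min (|u| / a) (|v| / b)) ∂ex ∂ex ∂ex =
      ∫⁻ u, ∫⁻ v, ∫⁻ w, f (u, v, w) ∂ex ∂ex ∂ex := by
  set F : ℝ × ℝ × ℝ → ℝ≥0∞ := fun p =>
    f (a * (p.1 + max p.2.2 0), b * (p.1 + max (-p.2.2) 0), p.2.1) with hFd
  have hF : Measurable F := hf.comp (by fun_prop)
  have h1 := three_aux ha hb hab hF
  have h2 := three_aux ha hb hab (F := fun p => F (p.2.1, p.1, p.2.2)) (hF.comp (by fun_prop))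
  have h3 : ∫⁻ w, ∫⁻ η, N a b (fun D => F (|w|, |η|, D)) ∂ex ∂ex =
      ∫⁻ w, ∫⁻ η, N a b (fun D => F (|η|, |w|, D)) ∂ex ∂ex :=
    lintegral_lintegral_swap (measurable_N a b (g := fun (p : ℝ × ℝ) D => F (|p.1|, |p.2|, D))
      (hF.comp (f := fun p : (ℝ × ℝ) × ℝ => (|p.1.1|, |p.1.2|, p.2)) (by fun_prop))).aemeasurable
  refine h1.trans (h3.trans (h2.symm.trans ?_))
  refine lintegral_congr_ae ?_
  filter_upwards [ex_ae_nonneg] with u hu
  refine lintegral_congr_ae ?_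
  filter_upwards [ex_ae_nonneg] with v hv
  refine lintegral_congr_ae ?_
  filter_upwards [ex_ae_nonneg] with w hw
  simp only [hFd, abs_of_nonneg hu, abs_of_nonneg hv, abs_of_nonneg hw]
  have e1 : a * (min (u / a) (v / b) + max (u / a - v / b) 0) = u := by
    have : min (u / a) (v / b) + max (u / a - v / b) 0 = u / a := by
      rcases le_total (u / a) (v / b) with h | h
      · rw [min_eq_left h, max_eq_right (by linarith), add_zero]
      · rw [min_eq_right h, max_eq_left (by linarith)]; ring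
    rw [this]; field_simp
  have e2 : b * (min (u / a) (v / b) + max (-(u / a - v / b)) 0) = v := by
    have : min (u / a) (v / b) + max (-(u / a - v / b)) 0 = v / b := by
      rcases le_total (u / a) (v / b) with h | h
      · rw [min_eq_left h, max_eq_left (by linarith)]; ring
      · rw [min_eq_right h, max_eq_right (by linarith), add_zero]
    rw [this]; field_simp
  rw [e1, e2]

/-- change three coordinates -/
def up3 (p v z : Site) (e : Env) (t : ℝ × ℝ × ℝ) : Env :=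
  Function.update (Function.update (Function.update e p t.1) v t.2.1) z t.2.2

lemma measurable_up {α : Type} [MeasurableSpace α] (i : Site) {e : α → Env} {t : α → ℝ}
    (he : Measurable e) (ht : Measurable t) :
    Measurable fun x => Function.update (e x) i (t x) :=
  measurable_update'.comp (f := fun x => (e x, t x)) (he.prodMk ht)

lemma measurable_up3 (p v z : Site) {α : Type} [MeasurableSpace α] {e : α → Env}
    {t : α → ℝ × ℝ × ℝ} (he : Measurable e) (ht : Measurable t) :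
    Measurable fun x => up3 p v z (e x) (t x) :=
  measurable_up z (measurable_up v (measurable_up p he ht.fst) ht.snd.fst) ht.snd.snd

lemma lintegral_up3 (p v z : Site) {h : Env → ℝ≥0∞} (hh : Measurable h) :
    ∫⁻ e, h e ∂mu = ∫⁻ e, ∫⁻ u, ∫⁻ s, ∫⁻ w, h (up3 p v z e (u, s, w)) ∂ex ∂ex ∂ex ∂mu := by
  have m1 : Measurable fun e : Env => ∫⁻ w, h (Function.update e z w) ∂ex :=
    Measurable.lintegral_prod_right' (f := fun r : Env × ℝ => h (Function.update r.1 z r.2))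
      (hh.comp measurable_update')
  have m2 : Measurable fun e : Env =>
      ∫⁻ s, ∫⁻ w, h (Function.update (Function.update e v s) z w) ∂ex ∂ex :=
    Measurable.lintegral_prod_right' (f := fun r : Env × ℝ =>
      ∫⁻ w, h (Function.update (Function.update r.1 v r.2) z w) ∂ex) (m1.comp measurable_update')
  rw [lintegral_update z hh, lintegral_update v m1, lintegral_update p m2]
  rfl

/-- the local Burke move -/
def loc (a b : ℝ) (p v z : Site) (e : Env) : Env :=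
  up3 p v z e (a * (|e z| + max (|e p| / a - |e v| / b) 0),
    b * (|e z| + max (-(|e p| / a - |e v| / b)) 0), min (|e p| / a) (|e v| / b))

lemma mp_loc {a b : ℝ} (ha : 0 < a) (hb : 0 < b) (hab : a + b = 1) {p v z : Site} (hpv : p ≠ v)
    (hpz : p ≠ z) (hvz : v ≠ z) : MeasurePreserving (loc a b p v z) mu mu := by
  have hm : Measurable (loc a b p v z) := measurable_up3 p v z measurable_id (by fun_prop)
  refine ⟨hm, Measure.ext_of_lintegral _ fun f hf => ?_⟩
  rw [lintegral_map hf hm, lintegral_up3 p v z (h := fun e => f (loc a b p v z e)) (hf.comp hm),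
    lintegral_up3 p v z hf]
  refine lintegral_congr fun e => ?_
  rw [← three ha hb hab (f := fun t => f (up3 p v z e t))
    (hf.comp (measurable_up3 p v z measurable_const measurable_id))]
  refine lintegral_congr fun u => lintegral_congr fun s => lintegral_congr fun w => ?_
  congr 1
  have e1 : up3 p v z e (u, s, w) p = u := by simp [up3, hpv, hpz]
  have e2 : up3 p v z e (u, s, w) v = s := by simp [up3, hvz]
  have e3 : up3 p v z e (u, s, w) z = w := by simp [up3]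
  unfold loc
  rw [e1, e2, e3]
  funext y
  simp only [up3, Function.update_apply]
  split_ifs <;> rfl

lemma loc_of_ne (a b : ℝ) {p v z y : Site} (e : Env) (h1 : y ≠ p) (h2 : y ≠ v) (h3 : y ≠ z) :
    loc a b p v z e y = e y := by
  simp [loc, up3, h1, h2, h3]

lemma loc_p {a b : ℝ} (ha : 0 < a) {p v z : Site} (e : Env) (hpv : p ≠ v) (hpz : p ≠ z) :
    a⁻¹ * |loc a b p v z e p| = |e z| + max (a⁻¹ * |e p| - b⁻¹ * |e v|) 0 := by
  have : loc a b p v z e p = a * (|e z| + max (|e p| / a - |e v| / b) 0) := by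
    simp [loc, up3, hpv, hpz]
  rw [this, abs_of_nonneg (by positivity), ← mul_assoc, inv_mul_cancel₀ ha.ne', one_mul,
    div_eq_inv_mul, div_eq_inv_mul]

lemma loc_v {a b : ℝ} (hb : 0 < b) {p v z : Site} (e : Env) (hvz : v ≠ z) :
    b⁻¹ * |loc a b p v z e v| = |e z| + max (b⁻¹ * |e v| - a⁻¹ * |e p|) 0 := by
  have : loc a b p v z e v = b * (|e z| + max (-(|e p| / a - |e v| / b)) 0) := by
    simp [loc, up3, hvz]
  rw [this, abs_of_nonneg (by positivity), ← mul_assoc, inv_mul_cancel₀ hb.ne', one_mul,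
    div_eq_inv_mul, div_eq_inv_mul, neg_sub]

lemma G_row {X : ℤ} (hX : 0 ≤ X) (r s : ℝ) (e : Env) {i : ℤ} (hi : X < i) :
    G X r s (i, 0) e = G X r s (i - 1, 0) e + r * |e (i, 0)| := by
  have := L_rec_row (k := 0) (a := (X, 0)) (wt (cS X r s) e) (i := i) (by simpa using hX) hi
  unfold G
  rw [this]
  simp [wt, cS, hi.ne']

lemma G_left {X : ℤ} (hX : 0 ≤ X) (r s : ℝ) (e : Env) {j : ℤ} (hj : 0 < j) :
    G X r s (max X j, j) e = G X r s (max X j, j - 1) e + s * |e (max X j, j)| := by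
  have := L_rec_left (k := 0) (a := (X, 0)) (wt (cS X r s) e) (j := j) (by simpa using hX) hj
  simp only [add_zero] at this
  unfold G
  rw [this]
  simp [wt, cS, hj.ne']

lemma G_bulk {X : ℤ} (hX : 0 ≤ X) (r s : ℝ) (e : Env) {i j : ℤ} (hj : 0 < j) (hi : max X j < i) :
    G X r s (i, j) e = max (G X r s (i - 1, j) e) (G X r s (i, j - 1) e) + |e (i, j)| := by
  have := L_rec_bulk (k := 0) (a := (X, 0)) (wt (cS X r s) e) (i := i) (j := j)
    (by simpa using hX) hj (by simpa using hi)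
  unfold G
  rw [this]
  simp [wt, cS, hj.ne', hi.ne']

lemma row {a b : ℝ} (ha : 0 < a) (hb : 0 < b) (hab : a + b = 1) {X r c : ℤ} (hX : 0 ≤ X)
    (hr : 0 ≤ r) {Φ : Env → Env} (h0 : MeasurePreserving Φ mu mu)
    (h1 : ∀ e z, ¬ (0 ≤ z.2 ∧ z.2 ≤ r ∧ X ≤ z.1 ∧ z.1 ≤ c ∧ z.2 ≤ z.1) → Φ e z = e z)
    (h2 : ∀ e i, max X r < i → i ≤ c → a⁻¹ * |Φ e (i, 0)| =
        G X a⁻¹ b⁻¹ (i, r) e - G X a⁻¹ b⁻¹ (i - 1, r) e)
    (h3 : ∀ e j, 1 ≤ j → j ≤ r → b⁻¹ * |Φ e (max X j, j)| =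
        G X a⁻¹ b⁻¹ (c, j) e - G X a⁻¹ b⁻¹ (c, j - 1) e) (i : ℤ) (hi : max X (r + 1) ≤ i) :
    i ≤ c → ∃ Ψ : Env → Env, MeasurePreserving Ψ mu mu ∧
      (∀ e z, ¬ (0 ≤ z.2 ∧ z.2 ≤ r ∧ X ≤ z.1 ∧ z.1 ≤ c ∧ z.2 ≤ z.1) →
        ¬ (z.2 = r + 1 ∧ max X (r + 1) ≤ z.1 ∧ z.1 ≤ i) → Ψ e z = e z) ∧
      (∀ e i', max X (r + 1) < i' → i' ≤ i → a⁻¹ * |Ψ e (i', 0)| =
        G X a⁻¹ b⁻¹ (i', r + 1) e - G X a⁻¹ b⁻¹ (i' - 1, r + 1) e) ∧
      (∀ e i', i < i' → i' ≤ c → a⁻¹ * |Ψ e (i', 0)| =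
        G X a⁻¹ b⁻¹ (i', r) e - G X a⁻¹ b⁻¹ (i' - 1, r) e) ∧
      (∀ e j, 1 ≤ j → j ≤ r → b⁻¹ * |Ψ e (max X j, j)| =
        G X a⁻¹ b⁻¹ (c, j) e - G X a⁻¹ b⁻¹ (c, j - 1) e) ∧
      (∀ e, b⁻¹ * |Ψ e (max X (r + 1), r + 1)| =
        G X a⁻¹ b⁻¹ (i, r + 1) e - G X a⁻¹ b⁻¹ (i, r) e) := by
  induction i, hi using Int.leInduction with
  | base =>
    intro _
    refine ⟨Φ, h0, fun e z hz _ => h1 e z hz, fun e i' k1 k2 => absurd k1 (by omega),
      fun e i' k1 k2 => h2 e i' (by omega) k2, h3, fun e => ?_⟩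
    rw [h1 e _ (by simp), G_left hX _ _ e (by omega : 0 < r + 1)]
    simp
  | succ i hi ih =>
    intro hc
    obtain ⟨Ψ, k0, k1, k2, k3, k4, k5⟩ := ih (by omega)
    have hpv : ((i + 1, 0) : Site) ≠ (max X (r + 1), r + 1) := by
      simp only [ne_eq, Prod.mk.injEq]; omega
    have hpz : ((i + 1, 0) : Site) ≠ (i + 1, r + 1) := by
      simp only [ne_eq, Prod.mk.injEq]; omega
    have hvz : ((max X (r + 1), r + 1) : Site) ≠ (i + 1, r + 1) := by
      simp only [ne_eq, Prod.mk.injEq]; omega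
    have hb1 : ∀ e, G X a⁻¹ b⁻¹ (i + 1, r + 1) e =
        max (G X a⁻¹ b⁻¹ (i, r + 1) e) (G X a⁻¹ b⁻¹ (i + 1, r) e) + |e (i + 1, r + 1)| := by
      intro e
      have := G_bulk hX a⁻¹ b⁻¹ e (i := i + 1) (j := r + 1) (by omega) (by omega)
      simpa using this
    have hz : ∀ e, Ψ e (i + 1, r + 1) = e (i + 1, r + 1) := fun e =>
      k1 e _ (by simp) (by simp)
    have hI : ∀ e, a⁻¹ * |Ψ e (i + 1, 0)| =
        G X a⁻¹ b⁻¹ (i + 1, r) e - G X a⁻¹ b⁻¹ (i, r) e := fun e => by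
      simpa using k3 e (i + 1) (by omega) hc
    refine ⟨fun e => loc a b (i + 1, 0) (max X (r + 1), r + 1) (i + 1, r + 1) (Ψ e),
      (mp_loc ha hb hab hpv hpz hvz).comp k0, fun e z j1 j2 => ?_, fun e i' j1 j2 => ?_,
      fun e i' j1 j2 => ?_, fun e j j1 j2 => ?_, fun e => ?_⟩
    · beta_reduce
      rw [loc_of_ne, k1 e z j1 (by omega)]
      · rintro rfl; exact j1 (by simp only; omega)
      · rintro rfl; exact j2 (by simp only; omega)
      · rintro rfl; exact j2 (by simp only; omega)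
    · beta_reduce
      rcases eq_or_lt_of_le j2 with rfl | j3
      · rw [loc_p ha _ hpv hpz, hI, k5, hz, hb1, add_sub_cancel_right]
        rcases le_total (G X a⁻¹ b⁻¹ (i, r + 1) e) (G X a⁻¹ b⁻¹ (i + 1, r) e) with h | h
        · rw [max_eq_right h, max_eq_left (by linarith)]; ring
        · rw [max_eq_left h, max_eq_right (by linarith)]; ring
      · rw [loc_of_ne, k2 e i' j1 (by omega)] <;> simp only [ne_eq, Prod.mk.injEq] <;> omega
    · beta_reduce
      rw [loc_of_ne, k3 e i' (by omega) j2] <;> simp only [ne_eq, Prod.mk.injEq] <;> omega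
    · beta_reduce
      rw [loc_of_ne, k4 e j j1 j2] <;> simp only [ne_eq, Prod.mk.injEq] <;> omega
    · beta_reduce
      rw [loc_v hb _ hvz, hI, k5, hz, hb1]
      rcases le_total (G X a⁻¹ b⁻¹ (i, r + 1) e) (G X a⁻¹ b⁻¹ (i + 1, r) e) with h | h
      · rw [max_eq_right h, max_eq_right (by linarith)]; ring
      · rw [max_eq_left h, max_eq_left (by linarith)]; ring

lemma main {a b : ℝ} (ha : 0 < a) (hb : 0 < b) (hab : a + b = 1) {X c : ℤ} (hX : 0 ≤ X)
    (r : ℤ) (hr : 0 ≤ r) : max X r ≤ c → ∃ Φ : Env → Env, MeasurePreserving Φ mu mu ∧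
      (∀ e z, ¬ (0 ≤ z.2 ∧ z.2 ≤ r ∧ X ≤ z.1 ∧ z.1 ≤ c ∧ z.2 ≤ z.1) → Φ e z = e z) ∧
      (∀ e i, max X r < i → i ≤ c → a⁻¹ * |Φ e (i, 0)| =
        G X a⁻¹ b⁻¹ (i, r) e - G X a⁻¹ b⁻¹ (i - 1, r) e) ∧
      (∀ e j, 1 ≤ j → j ≤ r → b⁻¹ * |Φ e (max X j, j)| =
        G X a⁻¹ b⁻¹ (c, j) e - G X a⁻¹ b⁻¹ (c, j - 1) e) := by
  induction r, hr using Int.leInduction with
  | base =>
    intro _
    refine ⟨id, MeasurePreserving.id _, fun _ _ _ => rfl, fun e i k1 k2 => ?_,
      fun e j k1 k2 => absurd k1 (by omega)⟩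
    rw [G_row hX _ _ e (by omega : X < i)]
    simp
  | succ r hr ih =>
    intro hc
    obtain ⟨Φ, h0, h1, h2, h3⟩ := ih (by omega)
    obtain ⟨Ψ, k0, k1, k2, -, k4, k5⟩ := row ha hb hab hX hr h0 h1 h2 h3 c hc le_rfl
    refine ⟨Ψ, k0, fun e z hz => k1 e z (by omega) (by omega), k2, fun e j j1 j2 => ?_⟩
    rcases eq_or_lt_of_le j2 with rfl | j3
    · rw [k5, add_sub_cancel_right]
    · exact k4 e j j1 (by omega)

lemma telescope (g : ℤ → ℝ) (s : ℤ) (n : ℕ) :
    ∑ u ∈ range n, (g (s + (u + 1)) - g (s + (u + 1) - 1)) = g (s + n) - g s := by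
  induction n with
  | zero => simp
  | succ n ih =>
    rw [sum_range_succ, ih, show s + ((n : ℤ) + 1) - 1 = s + n by ring]
    push_cast
    ring

end Burke

theorem burke {x : ℝ} (hx : |x| < 1 / 2) {X r c : ℤ} (hX : 0 ≤ X) (hr : 0 ≤ r)
    (hc : max X r ≤ c) : ∃ Φ : Env → Env, MeasurePreserving Φ mu mu ∧
      (∀ e z, ¬ (0 ≤ z.2 ∧ z.2 ≤ r ∧ X ≤ z.1 ∧ z.1 ≤ c ∧ z.2 ≤ z.1) → Φ e z = e z) ∧
      (∀ e i, max X r < i → i ≤ c → q (-x) * |Φ e (i, 0)| =
        G X (q (-x)) (q x) (i, r) e - G X (q (-x)) (q x) (i - 1, r) e) ∧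
      (∀ e j, 1 ≤ j → j ≤ r → q x * |Φ e (max X j, j)| =
        G X (q (-x)) (q x) (c, j) e - G X (q (-x)) (q x) (c, j - 1) e) := by
  obtain ⟨h1, h2⟩ := abs_lt.1 hx
  exact Burke.main (a := 1 / 2 - -x) (b := 1 / 2 - x) (by linarith) (by linarith) (by ring) hX r hr
    hc

theorem mgf {x y : ℝ} (hx : |x| < 1 / 2) (hy : |y| < 1 / 2) {X i j : ℤ} (hX : 0 ≤ X)
    (hj : 0 ≤ j) (hi : max X j ≤ i) :
    ∫⁻ e, ENNReal.ofReal (Real.exp ((y - x) * G X (q (-y)) (q x) (i, j) e)) ∂mu =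
      ENNReal.ofReal (Real.exp (Lam ((i : ℝ) - X) j x y)) := by
  obtain ⟨hx1, hx2⟩ := abs_lt.1 hx
  obtain ⟨hy1, hy2⟩ := abs_lt.1 hy
  obtain ⟨n, rfl⟩ : ∃ n : ℕ, i = X + n := ⟨(i - X).toNat, by omega⟩
  obtain ⟨m, rfl⟩ : ∃ m : ℕ, j = m := ⟨j.toNat, by omega⟩
  have px : 0 < 1 / 2 - -x := by linarith
  have py : 0 < 1 / 2 - -y := by linarith
  have mx : 0 < 1 / 2 - x := by linarith
  have my : 0 < 1 / 2 - y := by linarith
  set κ : ℝ := (y - x) * q (-x) with hκ
  have hκ1 : 1 + κ = (1 + 2 * y) / (1 + 2 * x) := by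
    have : (1 + 2 * x) ≠ 0 := by linarith
    rw [hκ, q, show 1 / 2 - -x = (1 + 2 * x) / 2 by ring, eq_div_iff this, inv_div, add_mul,
      mul_assoc, div_mul_cancel₀ _ this]
    ring
  have hκ0 : 0 < 1 + κ := by rw [hκ1]; apply div_pos <;> linarith
  set S : Finset Site := (range n).image (fun u : ℕ => ((X + (u + 1), 0) : Site)) with hS
  set T : Finset Site := (range m).image
    (fun u : ℕ => ((max X (0 + (u + 1)), 0 + (u + 1)) : Site)) with hT
  have iS : Set.InjOn (fun u : ℕ => ((X + (u + 1), 0) : Site)) (range n : Set ℕ) := by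
    intro u _ v _ h
    simp only [Prod.mk.injEq] at h
    omega
  have iT : Set.InjOn (fun u : ℕ => ((max X (0 + (u + 1)), 0 + (u + 1)) : Site))
      (range m : Set ℕ) := by
    intro u _ v _ h
    simp only [Prod.mk.injEq] at h
    omega
  have e1 : ∀ e, G X (q (-y)) (q x) (X + n, m) e =
      G X (q (-x)) (q x) (X + n, m) (tilt S (fun _ => κ) e) := by
    intro e
    refine L_congr fun z z1 z2 => ?_
    obtain ⟨z1, -, -, -⟩ := z1
    obtain ⟨z2, -, -, -⟩ := z2
    simp only at z1 z2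
    by_cases h0 : z.2 = 0
    · by_cases h1 : z.1 = X
      · simp [wt, cS, h0, h1]
      · have : z ∈ S := by
          refine mem_image.2 ⟨(z.1 - X - 1).toNat, mem_range.2 (by omega), Prod.ext ?_ h0.symm⟩
          simp only
          omega
        simp only [wt, cS, tilt, h0, h1, this, if_true, if_false]
        rw [abs_div, abs_of_pos hκ0, hκ1, q, q, show 1 / 2 - -x = (1 + 2 * x) / 2 by ring,
          show 1 / 2 - -y = (1 + 2 * y) / 2 by ring]
        have : (1 + 2 * x) ≠ 0 := by linarith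
        have : (1 + 2 * y) ≠ 0 := by linarith
        field_simp
    · have : z ∉ S := by
        intro h
        obtain ⟨u, -, rfl⟩ := mem_image.1 h
        exact h0 rfl
      simp only [wt, cS, tilt, h0, this, if_false]
  obtain ⟨Φ, k0, -, -, k3⟩ := burke hx hX hj hi
  have mG : Measurable fun e => G X (q (-x)) (q x) (X + n, m) e := (pg_L _).1
  have e2 : ∀ e, ENNReal.ofReal (LR S (fun _ => κ) e) *
      ENNReal.ofReal (Real.exp ((y - x) * G X (q (-x)) (q x) (X + n, m) e)) =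
      ENNReal.ofReal ((1 + κ) ^ n) *
        ∏ z ∈ T, ENNReal.ofReal (Real.exp ((y - x) * q x * |Φ e z|)) := by
    intro e
    have r1 : G X (q (-x)) (q x) (X + n, 0) e =
        ∑ u ∈ range n, q (-x) * |e (X + (u + 1), 0)| := by
      have t := Burke.telescope (fun i => G X (q (-x)) (q x) (i, 0) e) X n
      have t0 : G X (q (-x)) (q x) (X, 0) e = 0 := by
        unfold G
        rw [L_self _ (by simpa using hX)]
        simp [wt, cS]
      rw [t0, sub_zero] at t
      rw [← t]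
      refine sum_congr rfl fun u _ => ?_
      rw [Burke.G_row hX _ _ e (by omega : X < X + (u + 1))]
      ring
    have r2 : G X (q (-x)) (q x) (X + n, m) e - G X (q (-x)) (q x) (X + n, 0) e =
        ∑ u ∈ range m, q x * |Φ e (max X (0 + (u + 1)), 0 + (u + 1))| := by
      have t := Burke.telescope (fun j => G X (q (-x)) (q x) (X + n, j) e) 0 m
      rw [zero_add] at t
      rw [← t]
      refine sum_congr rfl fun u hu => (k3 e _ (by omega) ?_).symm
      have := mem_range.1 hu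
      omega
    have hLR : LR S (fun _ => κ) e = (1 + κ) ^ n *
        Real.exp (-((y - x) * G X (q (-x)) (q x) (X + n, 0) e)) := by
      rw [LR, hS, prod_image iS, prod_mul_distrib, prod_const, card_range, ← Real.exp_sum, r1,
        mul_sum, ← sum_neg_distrib]
      congr 2
      refine sum_congr rfl fun u _ => ?_
      rw [hκ]
      ring
    rw [← ENNReal.ofReal_prod_of_nonneg fun _ _ => (Real.exp_pos _).le,
      hLR, ← ENNReal.ofReal_mul (by positivity), ← ENNReal.ofReal_mul (by positivity),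
      mul_assoc, ← Real.exp_add, ← Real.exp_sum, hT, sum_image iT]
    congr 3
    simp only [mul_assoc]
    rw [← mul_sum, ← r2]
    ring
  have hφ : Measurable fun t : ℝ => ENNReal.ofReal (Real.exp ((y - x) * q x * |t|)) := by
    fun_prop
  have hP : Measurable fun e : Env =>
      ∏ z ∈ T, ENNReal.ofReal (Real.exp ((y - x) * q x * |e z|)) :=
    Finset.measurable_prod _ fun z _ => hφ.comp (measurable_pi_apply z)
  simp only [e1]
  rw [lintegral_tilt S (κ := fun _ => κ) (fun _ _ => by linarith)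
    (f := fun e => ENNReal.ofReal (Real.exp ((y - x) * G X (q (-x)) (q x) (X + n, m) e)))
    (by fun_prop)]
  simp only [e2]
  rw [lintegral_const_mul' _ _ ENNReal.ofReal_ne_top, k0.lintegral_comp hP,
    lintegral_prod_coord T (φ := fun _ t => ENNReal.ofReal (Real.exp ((y - x) * q x * |t|)))
      fun _ => hφ]
  have hl : 1 - (y - x) * q x = (1 - 2 * y) / (1 - 2 * x) := by
    have : (1 - 2 * x) ≠ 0 := by linarith
    rw [q, show 1 / 2 - x = (1 - 2 * x) / 2 by ring, eq_div_iff this, inv_div, sub_mul,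
      mul_assoc, div_mul_cancel₀ _ this]
    ring
  have hl0 : 0 < (1 - 2 * y) / (1 - 2 * x) := by apply div_pos <;> linarith
  have hl1 : 0 < (1 - 2 * x) / (1 - 2 * y) := by apply div_pos <;> linarith
  rw [ex_mgf (by linarith), prod_const, hT, card_image_of_injOn iT, card_range, hl,
    ← ENNReal.ofReal_pow (by positivity), ← ENNReal.ofReal_mul (by positivity), Lam,
    Real.exp_add, one_div_div, ← hκ1]
  congr 2
  · rw [show (((X + n : ℤ) : ℝ) - X) = n by push_cast; ring, ← Real.log_pow,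
      Real.exp_log (by positivity)]
  · rw [Int.cast_natCast, ← Real.log_pow, Real.exp_log (by positivity)]

lemma Burke.markov {f : Env → ℝ} (hf : Measurable f) {A h : ℝ}
    (hA : ∫⁻ e, ENNReal.ofReal (Real.exp (f e)) ∂mu = ENNReal.ofReal (Real.exp A)) :
    mu.real {e | h ≤ f e} ≤ Real.exp (A - h) := by
  have h1 := mul_meas_ge_le_lintegral (μ := mu) (f := fun e => ENNReal.ofReal (Real.exp (f e)))
    (by fun_prop) (ENNReal.ofReal (Real.exp h))
  rw [hA] at h1
  have h2 : mu {e | h ≤ f e} ≤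
      mu {e | ENNReal.ofReal (Real.exp h) ≤ ENNReal.ofReal (Real.exp (f e))} :=
    measure_mono fun e he => ENNReal.ofReal_le_ofReal (Real.exp_le_exp.2 he)
  have h3 : ENNReal.ofReal (Real.exp h) * mu {e | h ≤ f e} ≤ ENNReal.ofReal (Real.exp A) :=
    le_trans (by gcongr) h1
  have h4 := ENNReal.toReal_mono ENNReal.ofReal_ne_top h3
  rw [ENNReal.toReal_mul, ENNReal.toReal_ofReal (Real.exp_pos _).le,
    ENNReal.toReal_ofReal (Real.exp_pos _).le] at h4
  rw [Real.exp_sub, le_div_iff₀ (Real.exp_pos _), mul_comm]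
  exact h4

theorem G_upper {x y : ℝ} (hx : |x| < 1 / 2) (hy : |y| < 1 / 2) (hxy : x ≤ y) {X i j : ℤ}
    (hX : 0 ≤ X) (hj : 0 ≤ j) (hi : max X j ≤ i) (h : ℝ) :
    mu.real {e | h ≤ G X (q (-y)) (q x) (i, j) e} ≤
      Real.exp (Lam ((i : ℝ) - X) j x y - (y - x) * h) := by
  have mG : Measurable fun e => G X (q (-y)) (q x) (i, j) e := (pg_L _).1
  refine le_trans (measureReal_mono fun e he => ?_)
    (Burke.markov (mG.const_mul (y - x)) (mgf hx hy hX hj hi))
  exact mul_le_mul_of_nonneg_left (a := y - x) (show h ≤ _ from he) (by linarith)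

theorem G_lower {x y : ℝ} (hx : |x| < 1 / 2) (hy : |y| < 1 / 2) (hxy : y ≤ x) {X i j : ℤ}
    (hX : 0 ≤ X) (hj : 0 ≤ j) (hi : max X j ≤ i) (h : ℝ) :
    mu.real {e | G X (q (-y)) (q x) (i, j) e ≤ h} ≤
      Real.exp (Lam ((i : ℝ) - X) j x y + (x - y) * h) := by
  have mG : Measurable fun e => G X (q (-y)) (q x) (i, j) e := (pg_L _).1
  rw [show Lam ((i : ℝ) - X) j x y + (x - y) * h = Lam ((i : ℝ) - X) j x y - (y - x) * h by ring]
  refine le_trans (measureReal_mono fun e he => ?_)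
    (Burke.markov (mG.const_mul (y - x)) (mgf hx hy hX hj hi))
  have he' : G X (q (-y)) (q x) (i, j) e ≤ h := he
  show (y - x) * h ≤ (y - x) * G X (q (-y)) (q x) (i, j) e
  nlinarith

lemma Burke.log_approx {u : ℝ} (hu : |u| ≤ 1 / 8) :
    |Real.log (1 - 2 * u) + (2 * u + 2 * u ^ 2 + 8 / 3 * u ^ 3)| ≤ 22 * u ^ 4 := by
  have h2 : |2 * u| ≤ 1 / 4 := by rw [abs_mul, abs_two]; linarith
  have h := Real.abs_log_sub_add_sum_range_le (x := 2 * u) (by linarith) 3
  have e : ∑ i ∈ range 3, (2 * u) ^ (i + 1) / ((i : ℝ) + 1) + Real.log (1 - 2 * u) =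
      Real.log (1 - 2 * u) + (2 * u + 2 * u ^ 2 + 8 / 3 * u ^ 3) := by
    simp only [sum_range_succ, sum_range_zero]
    push_cast
    ring
  rw [e] at h
  refine h.trans ?_
  rw [div_le_iff₀ (by linarith)]
  have e2 : |2 * u| ^ (3 + 1) = 16 * u ^ 4 := by
    rw [show 3 + 1 = 2 * 2 by rfl, pow_mul, sq_abs]; ring
  rw [e2]
  have : 0 ≤ u ^ 4 := by positivity
  nlinarith

theorem Lam_approx {p j x y : ℝ} (hp : 0 ≤ p) (hj : 0 ≤ j) (hx : |x| ≤ 1 / 8) (hy : |y| ≤ 1 / 8) :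
    |Lam p j x y - (y - x) * (2 * (p + j) - 2 * (p - j) * (x + y) +
      8 / 3 * (p + j) * (x ^ 2 + x * y + y ^ 2))| ≤ 22 * (p + j) * (x ^ 4 + y ^ 4) := by
  have a1 := abs_le.1 (Burke.log_approx hx)
  have a2 := abs_le.1 (Burke.log_approx hy)
  have a3 := abs_le.1 (Burke.log_approx (u := -x) (by rwa [abs_neg]))
  have a4 := abs_le.1 (Burke.log_approx (u := -y) (by rwa [abs_neg]))
  obtain ⟨hx1, hx2⟩ := abs_le.1 hx
  obtain ⟨hy1, hy2⟩ := abs_le.1 hy
  rw [show 1 - 2 * -x = 1 + 2 * x by ring, show (-x) ^ 4 = x ^ 4 by ring] at a3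
  rw [show 1 - 2 * -y = 1 + 2 * y by ring, show (-y) ^ 4 = y ^ 4 by ring] at a4
  rw [Lam, Real.log_div (by linarith) (by linarith), Real.log_div (by linarith) (by linarith)]
  generalize Real.log (1 - 2 * x) = A at a1 ⊢
  generalize Real.log (1 - 2 * y) = B at a2 ⊢
  generalize Real.log (1 + 2 * x) = C at a3 ⊢
  generalize Real.log (1 + 2 * y) = D at a4 ⊢
  have e : p * (D - C) + j * (A - B) - (y - x) * (2 * (p + j) - 2 * (p - j) * (x + y) +
      8 / 3 * (p + j) * (x ^ 2 + x * y + y ^ 2)) =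
      p * ((D + (2 * -y + 2 * (-y) ^ 2 + 8 / 3 * (-y) ^ 3)) -
        (C + (2 * -x + 2 * (-x) ^ 2 + 8 / 3 * (-x) ^ 3))) +
      j * ((A + (2 * x + 2 * x ^ 2 + 8 / 3 * x ^ 3)) -
        (B + (2 * y + 2 * y ^ 2 + 8 / 3 * y ^ 3))) := by ring
  rw [e, abs_le]
  constructor <;> nlinarith [mul_le_mul_of_nonneg_left a1.1 hj, mul_le_mul_of_nonneg_left a1.2 hj,
    mul_le_mul_of_nonneg_left a2.1 hj, mul_le_mul_of_nonneg_left a2.2 hj,
    mul_le_mul_of_nonneg_left a3.1 hp, mul_le_mul_of_nonneg_left a3.2 hp,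
    mul_le_mul_of_nonneg_left a4.1 hp, mul_le_mul_of_nonneg_left a4.2 hp]

end Pool.Agent.P.MP_9957ef_pr
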