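import Mathlib

/-! Half-space exponential last passage percolation: basic definitions. -/

set_option autoImplicit false

noncomputable section

open MeasureTheory ProbabilityTheory Finset

namespace Pool.Agent.P.MP_9957ef_pr

abbrev Site := ℤ × ℤ
abbrev Env := Site → ℝ

/-- the exponential law of rate one -/
def ex : Measure ℝ := expMeasure 1

instance : IsProbabilityMeasure ex := isProbabilityMeasure_expMeasure one_pos

/-- the i.i.d. exponential environment -/
def mu : Measure Env := Measure.infinitePi (fun _ : Site => ex)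

instance : IsProbabilityMeasure mu := by unfold mu; infer_instance

/-- up-right path with `m` steps from `a` to `b` inside the region `z.2 + k ≤ z.1` -/
def IsPath (k : ℤ) (a b : Site) (m : ℕ) (π : ℕ → Site) : Prop :=
  π 0 = a ∧ π m = b ∧ (∀ n < m, π (n + 1) = π n + (1, 0) ∨ π (n + 1) = π n + (0, 1)) ∧
    ∀ n ≤ m, (π n).2 + k ≤ (π n).1

/-- weight of a path, both endpoints counted -/
def pval (W : Site → ℝ) (m : ℕ) (π : ℕ → Site) : ℝ := ∑ n ∈ range (m + 1), W (π n)

/-- last passage time from `a` to `b` inside the region `z.2 + k ≤ z.1` -/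
def L (k : ℤ) (W : Site → ℝ) (a b : Site) : ℝ :=
  sSup {w : ℝ | ∃ (m : ℕ) (π : ℕ → Site), IsPath k a b m π ∧ w = pval W m π}

/-- `a ≤ b` coordinatewise and both lie in the region -/
def Adm (k : ℤ) (a b : Site) : Prop :=
  a.1 ≤ b.1 ∧ a.2 ≤ b.2 ∧ a.2 + k ≤ a.1 ∧ b.2 + k ≤ b.1

/-- weights built from an environment with coefficients `c` -/
def wt (c : Site → ℝ) (e : Env) : Site → ℝ := fun z => c z * |e z|

/-- `q x` is the mean of an exponential variable of rate `1/2 - x` -/
def q (x : ℝ) : ℝ := (1 / 2 - x)⁻¹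

/-- wall factor `s`, bulk factor one -/
def cT (s : ℝ) : Site → ℝ := fun z => if z.1 = z.2 then s else 1

/-- wall to wall passage time -/
def T (s : ℝ) (a b : ℤ) (e : Env) : ℝ := L 0 (wt (cT s) e) (a, a) (b, b)

/-- corner `(X,0)` of weight zero, factor `r` on row `0`, factor `s` on the left boundary -/
def cS (X : ℤ) (r s : ℝ) : Site → ℝ := fun z =>
  if z.2 = 0 then (if z.1 = X then 0 else r) else if z.1 = max X z.2 then s else 1

/-- passage time from the corner `(X,0)` -/
def G (X : ℤ) (r s : ℝ) (u : Site) (e : Env) : ℝ := L 0 (wt (cS X r s) e) (X, 0) u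

/-- triangle of size `c`: factor `r` on row `0` and on column `c`, factor `d j` at `(j,j)` -/
def cD (c : ℤ) (r : ℝ) (d : ℤ → ℝ) : Site → ℝ := fun z =>
  if z = (1, 0) ∨ z = (c, c - 1) ∨ z = (c, 0) then 0
  else if z.2 = 0 ∨ z.1 = c then r else if z.1 = z.2 then d z.1 else 1

/-- the stationary to stationary passage time in the triangle of size `c` -/
def F (c : ℤ) (r : ℝ) (d : ℤ → ℝ) (e : Env) : ℝ := L 0 (wt (cD c r d) e) (1, 0) (c, c - 1)

/-- best path of the triangle of size `m+1` that touches the wall -/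
def U (m : ℤ) (r s : ℝ) (e : Env) : ℝ :=
  sSup {v : ℝ | ∃ j : ℤ, 1 ≤ j ∧ j ≤ m ∧
    v = L 0 (wt (cD (m + 1) r (fun _ => s)) e) (1, 0) (j, j - 1) +
      L 0 (wt (cD (m + 1) r (fun _ => s)) e) (j, j) (m + 1, m)}

/-- coefficients for the part of the triangle of size `m+1` at distance more than `z` from the wall -/
def cO (m : ℤ) (r : ℝ) (z : ℤ) : Site → ℝ := fun p =>
  if p = (z + 1, 0) ∨ p = (m + 1, m - z) ∨ p = (m + 1, 0) then 0
  else if p.2 = 0 ∨ p.1 = m + 1 then r else 1

/-- best path of the triangle of size `m+1` staying at distance more than `z` from the wall -/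
def O (m : ℤ) (r : ℝ) (z : ℤ) (e : Env) : ℝ :=
  L (z + 1) (wt (cO m r z) e) (z + 1, 0) (m + 1, m - z)

def Xi (m : ℤ) (r s : ℝ) (e : Env) : ℝ := max (U m r s e - O m r 0 e) 0

def cY (r : ℝ) (z : ℤ) (w : ℕ) : Site → ℝ := fun p =>
  if p.2 = 0 then (if z + 2 ≤ p.1 ∧ p.1 ≤ z + 1 + 2 * w then r else 0) else 1

/-- a local lower bound for `O m r z - 4 (m - z)` -/
def Y (m : ℤ) (r : ℝ) (z : ℤ) (w : ℕ) (e : Env) : ℝ :=
  L (z + 1) (wt (cY r z w) e) (z + 1, 0) (m, m - z - 1 - w) +
    ∑ u ∈ range (w + 1), r * |e (m + 1, m - z - 1 - u)| - 4 * ((m : ℝ) - z)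

/-- indicator that the site `i` matters for `f`: setting its weight to zero lowers `f` -/
def iV (f : Env → ℝ) (i : Site) (e : Env) : ℝ :=
  if f (Function.update e i 0) < f e then 1 else 0

/-- `f` is a hinge function of slope `s` in the coordinate `i` -/
def Hinge (s : ℝ) (f : Env → ℝ) (i : Site) : Prop :=
  ∀ e : Env, ∃ τ : ℝ, 0 ≤ τ ∧ ∀ x : ℝ,
    f (Function.update e i x) = f (Function.update e i 0) + s * max (|x| - τ) 0

/-- exchange the wall variables with the unused variables just above the wall -/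
def rs (e : Env) : Env := fun z =>
  if z.1 = z.2 then e (z.1, z.1 + 1) else if z.2 = z.1 + 1 then e (z.1, z.1) else e z

/-- wall sites between `a` and `b` -/
def wall (a b : ℤ) : Finset Site := (Icc a b).image (fun j => (j, j))

/-- exponential upper tail at scale `K` -/
def Tail (X : Env → ℝ) (K B : ℝ) : Prop :=
  ∀ t : ℝ, 0 ≤ t → mu.real {e | t * K ≤ X e} ≤ B * Real.exp (-t)

open Classical in
/-- resample the coordinates in `S` -/
def pw (S : Set Site) (e' e : Env) : Env := fun z => if z ∈ S then e' z else e z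

/-- conditional expectation given the coordinates outside `S` -/
def cE (S : Set Site) (f : Env → ℝ) (e : Env) : ℝ := ∫ e', f (pw S e' e) ∂mu

/-- measurable with polynomial growth in finitely many coordinates -/
def PG (f : Env → ℝ) : Prop :=
  Measurable f ∧ ∃ (S : Finset Site) (C : ℝ) (n : ℕ), 0 ≤ C ∧
    ∀ e, |f e| ≤ C * (1 + ∑ z ∈ S, |e z|) ^ n

/-- monotone in the absolute values of the coordinates -/
def Inc (f : Env → ℝ) : Prop := ∀ e e' : Env, (∀ z, |e z| ≤ |e' z|) → f e ≤ f e'

/-- reflection of the lattice that reverses paths -/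
def mir (c : ℤ) (z : Site) : Site := (c - z.2, c - z.1)

/-- likelihood ratio for changing the rates from `1` to `1 + κ z` on `S` -/
def LR (S : Finset Site) (κ : Site → ℝ) (e : Env) : ℝ :=
  ∏ z ∈ S, (1 + κ z) * Real.exp (-(κ z * |e z|))

/-- divide the coordinates in `S` by `1 + κ z` -/
def tilt (S : Finset Site) (κ : Site → ℝ) (e : Env) : Env :=
  fun z => if z ∈ S then e z / (1 + κ z) else e z

/-- logarithm of the moment generating function of `G` -/
def Lam (p j x y : ℝ) : ℝ :=
  p * Real.log ((1 + 2 * y) / (1 + 2 * x)) + j * Real.log ((1 - 2 * x) / (1 - 2 * y))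

end Pool.Agent.P.MP_9957ef_pr
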