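import Pool.Agent.P.MP_9957ef_pr.Path

/-! Restart, attractiveness and their consequences. -/

set_option autoImplicit false

noncomputable section

open MeasureTheory ProbabilityTheory Finset

namespace Pool.Agent.P.MP_9957ef_pr

variable {k : ℤ} {a b u : Site} {W W' : Site → ℝ}

theorem det_ind (p r : ℤ) (P : ℤ → ℤ → Prop)
    (h : ∀ i j, p ≤ i → r ≤ j →
      (∀ i' j', p ≤ i' → r ≤ j' → i' + j' < i + j → P i' j') → P i j) :
    ∀ i j, p ≤ i → r ≤ j → P i j := by
  have key : ∀ n : ℕ, ∀ i j, p ≤ i → r ≤ j → i + j - p - r < n → P i j := by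
    intro n
    induction n with
    | zero => intro i j h1 h2 h3; exfalso; push_cast at h3; omega
    | succ n ih =>
      intro i j h1 h2 h3
      refine h i j h1 h2 fun i' j' h4 h5 h6 => ih i' j' h4 h5 ?_
      push_cast at h3; omega
  intro i j h1 h2
  exact key ((i + j - p - r).toNat + 1) i j h1 h2 (by push_cast; omega)

theorem det_tele (f g : ℤ → ℝ) {p r : ℤ} (hpr : p ≤ r)
    (h : ∀ i, p ≤ i → i + 1 ≤ r → f (i + 1) - f i ≤ g (i + 1) - g i) :
    f r - f p ≤ g r - g p := by
  have key : ∀ i, p ≤ i → i ≤ r → f i - f p ≤ g i - g p := by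
    intro i hi
    induction i, hi using Int.leInduction with
    | base => intro _; simp
    | succ n hn ih =>
      intro h2
      have := ih (by omega)
      have := h n hn h2
      linarith
  exact key r hpr le_rfl

theorem det_mir0 (W : Site → ℝ) (i j i' j' : ℤ) :
    L k W (i, j) (i', j') = L k (fun z => W (mir 0 z)) (-j', -i') (-j, -i) := by
  rw [L_mirror W 0]; simp [mir]

theorem det_mir0' (W : Site → ℝ) (i j i' j' : ℤ) :
    L k (fun z => W (mir 0 z)) (i, j) (i', j') = L k W (-j', -i') (-j, -i) := by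
  rw [det_mir0 W]; simp

theorem det_step1 (W : Site → ℝ) {i j : ℤ} (h : Adm k a (i - 1, j)) :
    W (i, j) ≤ L k W a (i, j) - L k W a (i - 1, j) := by
  have h2 : Adm k (i - 1 + 1, j) (i, j) := by
    obtain ⟨h1, h2, h3, h4⟩ := h
    simp only [Adm] at *
    omega
  have h3 := L_concat1 W h h2
  simp only [sub_add_cancel] at h3
  rw [L_self W (by obtain ⟨h1, h2, h3, h4⟩ := h; simp only at *; omega)] at h3
  linarith

/-- restart the growth from row `r`, with the increments along row `r` as weights -/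
theorem restart {r l : ℤ} (ha : a.2 + k ≤ a.1) (hr : a.2 ≤ r) (hl1 : max a.1 (r + k) ≤ l)
    (hl2 : l ≤ max a.1 (r + 1 + k)) (hu : Adm k (l, r) u) (h0 : W' (l, r) = 0)
    (hrow : ∀ i, l < i → i ≤ u.1 → W' (i, r) = L k W a (i, r) - L k W a (i - 1, r))
    (hup : ∀ z, Adm k (l, r) z → Adm k z u → r < z.2 → W' z = W z) :
    L k W a u = L k W a (l, r) + L k W' (l, r) u := by
  have key : ∀ i j, l ≤ i → r ≤ j → j + k ≤ i → Adm k (i, j) u →
      L k W a (i, j) = L k W a (l, r) + L k W' (l, r) (i, j) := by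
    refine det_ind l r _ ?_
    intro i j hi hj ih hij hu'
    have hlr : (l, r).2 + k ≤ (l, r).1 := hu.2.2.1
    have hlr' : r + k ≤ l := hlr
    obtain ⟨u1, u2, u3, u4⟩ := hu'
    simp only at u1 u2 u3 u4
    rcases eq_or_lt_of_le hj with hj | hj
    · subst hj
      rcases eq_or_lt_of_le hi with hi | hi
      · subst hi
        rw [L_self W' hlr, h0, add_zero]
      · have e1 := L_rec_row W' (a := (l, r)) hlr hi
        simp only at e1
        have e2 := ih (i - 1) r (by omega) le_rfl (by omega) (by omega)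
          ⟨by simp only; omega, u2, by simp only; omega, u4⟩
        rw [e1, hrow i hi u1]
        linarith
    · have hm : max a.1 (j + k) = max l (j + k) := by omega
      have hz : W' (i, j) = W (i, j) :=
        hup _ ⟨hi, hj.le, hlr, hij⟩ ⟨u1, u2, u3, u4⟩ hj
      have e2 := ih i (j - 1) hi (by omega) (by omega) (by omega)
        ⟨u1, by simp only; omega, by simp only; omega, u4⟩
      rcases eq_or_lt_of_le (show max l (j + k) ≤ i by omega) with hi' | hi'
      · have e1 := L_rec_left W' (a := (l, r)) hlr hj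
        have e3 := L_rec_left W (j := j) ha (by omega)
        simp only at e1
        rw [hi'] at e1
        rw [hm, hi'] at e3
        rw [e1, e3, e2, hz]
        ring
      · have e1 := L_rec_bulk W' (a := (l, r)) hlr hj hi'
        have e3 := L_rec_bulk W (i := i) (j := j) ha (by omega) (by omega)
        have e4 := ih (i - 1) j (by omega) hj.le (by omega) (by omega)
          ⟨by simp only; omega, u2, by simp only; omega, u4⟩
        rw [e1, e3, e2, e4, hz, max_add_add_left]
        ring
  exact key u.1 u.2 hu.1 hu.2.1 hu.2.2.2 ⟨le_rfl, le_rfl, hu.2.2.2, hu.2.2.2⟩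

/-- mirror image of `restart`: the reversed growth restarted from column `t` -/
theorem restart' {t l : ℤ} (hb : b.2 + k ≤ b.1) (ht : t ≤ b.1) (hl1 : l ≤ min b.2 (t - k))
    (hl2 : min b.2 (t - 1 - k) ≤ l) (hu : Adm k u (t, l)) (h0 : W' (t, l) = 0)
    (hcol : ∀ j, j < l → u.2 ≤ j → W' (t, j) = L k W (t, j) b - L k W (t, j + 1) b)
    (hleft : ∀ z, Adm k u z → Adm k z (t, l) → z.1 < t → W' z = W z) :
    L k W u b = L k W' u (t, l) + L k W (t, l) b := by
  obtain ⟨b1, b2⟩ := b
  obtain ⟨u1, u2⟩ := u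
  obtain ⟨v1, v2, v3, v4⟩ := hu
  simp only at *
  have key := restart (k := k) (a := (-b2, -b1)) (u := (-u2, -u1)) (W := fun z => W (mir 0 z))
    (W' := fun z => W' (mir 0 z)) (r := -t) (l := -l) (by simp only; omega) (by simp only; omega)
    (by simp only; omega) (by simp only; omega)
    ⟨by simp only; omega, by simp only; omega, by simp only; omega, by simp only; omega⟩
    (by simpa [mir] using h0) ?_ ?_
  · rw [det_mir0 W, det_mir0 W', det_mir0 W t l, key, add_comm]
  · intro i h1 h2
    simp only at h2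
    have := hcol (-i) (by omega) (by omega)
    rw [det_mir0' W, det_mir0' W]
    rw [show -(i - 1) = -i + 1 by ring]
    simpa [mir] using this
  · rintro ⟨z1, z2⟩ ⟨c1, c2, c3, c4⟩ ⟨d1, d2, d3, d4⟩ h3
    simp only at *
    refine hleft _ ⟨?_, ?_, ?_, ?_⟩ ⟨?_, ?_, ?_, ?_⟩ ?_ <;> simp only [mir] <;> omega

/-- attractiveness: smaller weights on the first row and larger weights on the left boundary
give smaller horizontal and larger vertical increments -/
theorem attract (ha : a.2 + k ≤ a.1)
    (hrow : ∀ z, Adm k a z → Adm k z b → z.2 = a.2 → a.1 < z.1 → W' z ≤ W z)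
    (hleft : ∀ z, Adm k a z → Adm k z b → a.2 < z.2 → z.1 = max a.1 (z.2 + k) → W z ≤ W' z)
    (hbulk : ∀ z, Adm k a z → Adm k z b → a.2 < z.2 → max a.1 (z.2 + k) < z.1 → W' z = W z) :
    (∀ i j, Adm k a (i, j) → Adm k (i + 1, j) b →
      L k W' a (i + 1, j) - L k W' a (i, j) ≤ L k W a (i + 1, j) - L k W a (i, j)) ∧
    (∀ i j, Adm k a (i, j) → Adm k (i, j + 1) b →
      L k W a (i, j + 1) - L k W a (i, j) ≤ L k W' a (i, j + 1) - L k W' a (i, j)) := by
  have key : ∀ i j, a.1 ≤ i → a.2 ≤ j → Adm k (i, j) b →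
      (Adm k a (i - 1, j) →
        L k W' a (i, j) - L k W' a (i - 1, j) ≤ L k W a (i, j) - L k W a (i - 1, j)) ∧
      (Adm k a (i, j - 1) →
        L k W a (i, j) - L k W a (i, j - 1) ≤ L k W' a (i, j) - L k W' a (i, j - 1)) := by
    refine det_ind a.1 a.2 _ ?_
    intro i j hi hj ih hb
    have hab : Adm k a (i, j) := ⟨hi, hj, ha, hb.2.2.1⟩
    have hb' := hb
    obtain ⟨u1, u2, u3, u4⟩ := hb'
    simp only at u1 u2 u3 u4
    rcases eq_or_lt_of_le hj with hj | hj
    · subst hj
      refine ⟨fun h => ?_, fun h => ?_⟩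
      · have hi' : a.1 < i := by have := h.1; simp only at this; omega
        have := hrow _ hab hb rfl hi'
        rw [L_rec_row W ha hi', L_rec_row W' ha hi']
        linarith
      · exfalso; have := h.2.1; simp only at this; omega
    · rcases eq_or_lt_of_le (show max a.1 (j + k) ≤ i by omega) with hi' | hi'
      · refine ⟨fun h => ?_, fun _ => ?_⟩
        · exfalso
          have h1 := h.1
          have h2 := h.2.2.2
          simp only at h1 h2
          omega
        · have e1 := L_rec_left W ha hj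
          have e2 := L_rec_left W' ha hj
          rw [hi'] at e1 e2
          have := hleft _ hab hb hj hi'.symm
          rw [e1, e2]
          linarith
      · have e1 := L_rec_bulk W ha hj hi'
        have e2 := L_rec_bulk W' ha hj hi'
        have e3 := hbulk _ hab hb hj hi'
        have h0 : Adm k a (i - 1, j - 1) :=
          ⟨by simp only; omega, by simp only; omega, ha, by simp only; omega⟩
        have i1 := (ih i (j - 1) hi (by omega) (by omega)
          ⟨u1, by simp only; omega, by simp only; omega, u4⟩).1 h0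
        have i2 := (ih (i - 1) j (by omega) hj.le (by omega)
          ⟨by simp only; omega, u2, by simp only; omega, u4⟩).2 h0
        rw [e1, e2, e3]
        refine ⟨fun _ => ?_, fun _ => ?_⟩
        · rcases le_total (L k W' a (i - 1, j)) (L k W' a (i, j - 1)) with h | h
          · rw [max_eq_right h]
            have := le_max_right (L k W a (i - 1, j)) (L k W a (i, j - 1))
            linarith
          · rw [max_eq_left h]
            have := le_max_left (L k W a (i - 1, j)) (L k W a (i, j - 1))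
            linarith
        · rcases le_total (L k W a (i - 1, j)) (L k W a (i, j - 1)) with h | h
          · rw [max_eq_right h]
            have := le_max_right (L k W' a (i - 1, j)) (L k W' a (i, j - 1))
            linarith
          · rw [max_eq_left h]
            have := le_max_left (L k W' a (i - 1, j)) (L k W' a (i, j - 1))
            linarith
  refine ⟨fun i j h1 h2 => ?_, fun i j h1 h2 => ?_⟩
  · have := (key (i + 1) j (by have := h1.1; simp only at this; omega) h1.2.1 h2).1
      (by simpa using h1)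
    simpa using this
  · have := (key i (j + 1) h1.1 (by have := h1.2.1; simp only at this; omega) h2).2
      (by simpa using h1)
    simpa using this

/-- mirror image of `attract` -/
theorem attract' (hb : b.2 + k ≤ b.1)
    (hcol : ∀ z, Adm k a z → Adm k z b → z.1 = b.1 → z.2 < b.2 → W' z ≤ W z)
    (htop : ∀ z, Adm k a z → Adm k z b → z.1 < b.1 → z.2 = min b.2 (z.1 - k) → W z ≤ W' z)
    (hbulk : ∀ z, Adm k a z → Adm k z b → z.1 < b.1 → z.2 < min b.2 (z.1 - k) → W' z = W z) :
    (∀ i j, Adm k a (i, j - 1) → Adm k (i, j) b →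
      L k W' (i, j - 1) b - L k W' (i, j) b ≤ L k W (i, j - 1) b - L k W (i, j) b) ∧
    (∀ i j, Adm k a (i - 1, j) → Adm k (i, j) b →
      L k W (i - 1, j) b - L k W (i, j) b ≤ L k W' (i - 1, j) b - L k W' (i, j) b) := by
  obtain ⟨b1, b2⟩ := b
  obtain ⟨a1, a2⟩ := a
  simp only at *
  have key := attract (k := k) (a := (-b2, -b1)) (b := (-a2, -a1)) (W := fun z => W (mir 0 z))
    (W' := fun z => W' (mir 0 z)) (by simp only; omega) ?_ ?_ ?_
  · refine ⟨fun i j h1 h2 => ?_, fun i j h1 h2 => ?_⟩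
    · obtain ⟨c1, c2, c3, c4⟩ := h1
      obtain ⟨d1, d2, d3, d4⟩ := h2
      simp only at *
      have := key.1 (-j) (-i)
        ⟨by simp only; omega, by simp only; omega, by simp only; omega, by simp only; omega⟩
        ⟨by simp only; omega, by simp only; omega, by simp only; omega, by simp only; omega⟩
      simp only [det_mir0', neg_neg, neg_add_rev] at this
      rw [show (-1 + j : ℤ) = j - 1 by ring] at this
      exact this
    · obtain ⟨c1, c2, c3, c4⟩ := h1
      obtain ⟨d1, d2, d3, d4⟩ := h2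
      simp only at *
      have := key.2 (-j) (-i)
        ⟨by simp only; omega, by simp only; omega, by simp only; omega, by simp only; omega⟩
        ⟨by simp only; omega, by simp only; omega, by simp only; omega, by simp only; omega⟩
      simp only [det_mir0', neg_neg, neg_add_rev] at this
      rw [show (-1 + i : ℤ) = i - 1 by ring] at this
      exact this
  · rintro ⟨z1, z2⟩ ⟨c1, c2, c3, c4⟩ ⟨d1, d2, d3, d4⟩ h3 h4
    simp only at *
    refine hcol _ ⟨?_, ?_, ?_, ?_⟩ ⟨?_, ?_, ?_, ?_⟩ ?_ ?_ <;> simp only [mir] <;> omega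
  · rintro ⟨z1, z2⟩ ⟨c1, c2, c3, c4⟩ ⟨d1, d2, d3, d4⟩ h3 h4
    simp only at *
    refine htop _ ⟨?_, ?_, ?_, ?_⟩ ⟨?_, ?_, ?_, ?_⟩ ?_ ?_ <;> simp only [mir] <;> omega
  · rintro ⟨z1, z2⟩ ⟨c1, c2, c3, c4⟩ ⟨d1, d2, d3, d4⟩ h3 h4
    simp only at *
    refine hbulk _ ⟨?_, ?_, ?_, ?_⟩ ⟨?_, ?_, ?_, ?_⟩ ?_ ?_ <;> simp only [mir] <;> omega

/-- comparison of a start `a` with a later start on the wall, with a wall at least as strong -/
theorem attract_inner {x : ℤ} (hx : Adm 0 a (x, x))
    (hwall : ∀ j, x < j → j ≤ b.2 → W (j, j) ≤ W' (j, j))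
    (hbulk : ∀ z, Adm 0 (x, x) z → Adm 0 z b → z.2 < z.1 → W' z = W z) :
    (∀ i j, Adm 0 (x, x) (i, j) → Adm 0 (i + 1, j) b →
      L 0 W' (x, x) (i + 1, j) - L 0 W' (x, x) (i, j) ≤ L 0 W a (i + 1, j) - L 0 W a (i, j)) ∧
    (∀ i j, Adm 0 (x, x) (i, j) → Adm 0 (i, j + 1) b →
      L 0 W a (i, j + 1) - L 0 W a (i, j) ≤ L 0 W' (x, x) (i, j + 1) - L 0 W' (x, x) (i, j)) := by
  obtain ⟨x1, x2, x3, x4⟩ := hx
  simp only at x1 x2 x3 x4
  let V : Site → ℝ := fun z =>
    if z.2 = x then (if z.1 = x then 0 else L 0 W a (z.1, x) - L 0 W a (z.1 - 1, x)) else W z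
  have hV : ∀ u, Adm 0 (x, x) u → L 0 W a u = L 0 W a (x, x) + L 0 V (x, x) u := by
    intro u hu
    refine restart (W' := V) x3 x2 (by omega) (by omega) hu (by simp [V]) ?_ ?_
    · intro i h1 _
      simp [V, h1.ne']
    · intro z _ _ h3
      simp [V, h3.ne']
  have key := attract (k := 0) (a := (x, x)) (b := b) (W := V) (W' := W') (by simp) ?_ ?_ ?_
  · refine ⟨fun i j h1 h2 => ?_, fun i j h1 h2 => ?_⟩
    · have h3 : Adm 0 (x, x) (i + 1, j) :=
        ⟨by have := h1.1; simp only at *; omega, h1.2.1, h1.2.2.1, h2.2.2.1⟩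
      have := key.1 i j h1 h2
      rw [hV _ h1, hV _ h3]
      linarith
    · have h3 : Adm 0 (x, x) (i, j + 1) :=
        ⟨h1.1, by have := h1.2.1; simp only at *; omega, h1.2.2.1, h2.2.2.1⟩
      have := key.2 i j h1 h2
      rw [hV _ h1, hV _ h3]
      linarith
  · rintro ⟨z1, z2⟩ h1 h2 h3 h4
    simp only at h3 h4
    subst h3
    rw [hbulk _ h1 h2 h4]
    simp only [V, if_true, h4.ne', if_false]
    exact det_step1 W ⟨by simp only; omega, x2, x3, by simp only; omega⟩
  · rintro ⟨z1, z2⟩ h1 h2 h3 h4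
    simp only at h3 h4
    have h5 : z1 = z2 := by omega
    subst h5
    simp only [V, h3.ne', if_false]
    exact hwall _ h3 h2.2.1
  · rintro ⟨z1, z2⟩ h1 h2 h3 h4
    simp only at h3 h4
    simp only [V, h3.ne', if_false]
    exact hbulk _ h1 h2 (by simp only; omega)

/-- mirror image of `attract_inner` -/
theorem attract_inner' {y : ℤ} (hy : Adm 0 (y, y) b)
    (hwall : ∀ j, j < y → a.1 ≤ j → W (j, j) ≤ W' (j, j))
    (hbulk : ∀ z, Adm 0 a z → Adm 0 z (y, y) → z.2 < z.1 → W' z = W z) :
    (∀ i j, Adm 0 a (i, j - 1) → Adm 0 (i, j) (y, y) →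
      L 0 W' (i, j - 1) (y, y) - L 0 W' (i, j) (y, y) ≤ L 0 W (i, j - 1) b - L 0 W (i, j) b) ∧
    (∀ i j, Adm 0 a (i - 1, j) → Adm 0 (i, j) (y, y) →
      L 0 W (i - 1, j) b - L 0 W (i, j) b ≤ L 0 W' (i - 1, j) (y, y) - L 0 W' (i, j) (y, y)) := by
  obtain ⟨b1, b2⟩ := b
  obtain ⟨a1, a2⟩ := a
  obtain ⟨y1, y2, y3, y4⟩ := hy
  simp only at *
  have key := attract_inner (a := (-b2, -b1)) (b := (-a2, -a1)) (W := fun z => W (mir 0 z))
    (W' := fun z => W' (mir 0 z)) (x := -y)
    ⟨by simp only; omega, by simp only; omega, by simp only; omega, by simp only; omega⟩ ?_ ?_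
  · refine ⟨fun i j h1 h2 => ?_, fun i j h1 h2 => ?_⟩
    · obtain ⟨c1, c2, c3, c4⟩ := h1
      obtain ⟨d1, d2, d3, d4⟩ := h2
      simp only at *
      have := key.1 (-j) (-i)
        ⟨by simp only; omega, by simp only; omega, by simp only; omega, by simp only; omega⟩
        ⟨by simp only; omega, by simp only; omega, by simp only; omega, by simp only; omega⟩
      simp only [det_mir0', neg_neg, neg_add_rev] at this
      rw [show (-1 + j : ℤ) = j - 1 by ring] at this
      exact this
    · obtain ⟨c1, c2, c3, c4⟩ := h1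
      obtain ⟨d1, d2, d3, d4⟩ := h2
      simp only at *
      have := key.2 (-j) (-i)
        ⟨by simp only; omega, by simp only; omega, by simp only; omega, by simp only; omega⟩
        ⟨by simp only; omega, by simp only; omega, by simp only; omega, by simp only; omega⟩
      simp only [det_mir0', neg_neg, neg_add_rev] at this
      rw [show (-1 + i : ℤ) = i - 1 by ring] at this
      exact this
  · intro j h1 h2
    simp only at h2
    simpa [mir] using hwall (-j) (by omega) (by omega)
  · rintro ⟨z1, z2⟩ ⟨c1, c2, c3, c4⟩ ⟨d1, d2, d3, d4⟩ h3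
    simp only at *
    refine hbulk _ ⟨?_, ?_, ?_, ?_⟩ ⟨?_, ?_, ?_, ?_⟩ ?_ <;> simp only [mir] <;> omega

/-- increments along the wall are larger for an earlier start -/
theorem wall_incr {x y y' : ℤ} (W : Site → ℝ) (hx : Adm 0 a (x, x)) (h1 : x ≤ y) (h2 : y ≤ y') :
    L 0 W (x, x) (y', y') - L 0 W (x, x) (y, y) ≤ L 0 W a (y', y') - L 0 W a (y, y) := by
  refine det_tele (fun j => L 0 W (x, x) (j, j)) (fun j => L 0 W a (j, j)) h2 ?_
  intro j hj _
  have x1 := hx.1
  have x2 := hx.2.1
  simp only at x1 x2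
  have e0 := (attract_inner (b := (j + 1, j)) (W := W) (W' := W) hx (fun _ _ _ => le_rfl)
    (fun _ _ _ _ => rfl)).1 j j
    ⟨by simp only; omega, by simp only; omega, by simp, by simp⟩
    ⟨le_rfl, le_rfl, by simp, by simp⟩
  have e1 := L_rec_left (k := 0) W (a := a) (j := j + 1) hx.2.2.1 (by omega)
  have e2 := L_rec_left (k := 0) W (a := (x, x)) (j := j + 1) (by simp) (by simp only; omega)
  simp only at e2
  rw [show max a.1 (j + 1 + 0) = j + 1 by omega, add_sub_cancel_right] at e1
  rw [show max x (j + 1 + 0) = j + 1 by omega, add_sub_cancel_right] at e2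
  rw [e1, e2]
  linarith

theorem wall_incr' {x x' y : ℤ} (W : Site → ℝ) (hy : Adm 0 (y, y) b) (h1 : x ≤ y) (h2 : x' ≤ x) :
    L 0 W (x', x') (y, y) - L 0 W (x, x) (y, y) ≤ L 0 W (x', x') b - L 0 W (x, x) b := by
  obtain ⟨b1, b2⟩ := b
  obtain ⟨y1, y2, y3, y4⟩ := hy
  simp only at *
  have key := wall_incr (a := (-b2, -b1)) (x := -y) (y := -x) (y' := -x') (fun z => W (mir 0 z))
    ⟨by simp only; omega, by simp only; omega, by simp only; omega, by simp only; omega⟩
    (by omega) (by omega)
  simpa only [det_mir0', neg_neg] using key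

theorem det_wall_start (W : Site → ℝ) {i y : ℤ} (h : i < y) :
    L 0 W (i, i) (y, y) = W (i, i) + L 0 W (i + 1, i) (y, y) := by
  obtain ⟨j, h1, h2, h3⟩ := L_cut_col (k := 0) (a := (i, i)) (b := (y, y)) W
    ⟨h.le, h.le, by simp, by simp⟩ (r := i) le_rfl h
  have : j = i := by
    have a1 := h1.2.1
    have a2 := h1.2.2.2
    simp only at a1 a2
    omega
  subst this
  rw [h3, L_self W (by simp)]

theorem det_upd1 (W : Site → ℝ) {i : ℤ} (h : b.2 < i) :
    L 0 (Function.update W (i, i) 0) a b = L 0 W a b := by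
  refine L_congr fun z _ h2 => Function.update_of_ne ?_ _ _
  rintro rfl
  have := h2.2.1
  simp only at this
  omega

theorem det_upd2 (W : Site → ℝ) {i : ℤ} (h : i < a.1) :
    L 0 (Function.update W (i, i) 0) a b = L 0 W a b := by
  refine L_congr fun z h1 _ => Function.update_of_ne ?_ _ _
  rintro rfl
  have := h1.1
  simp only at this
  omega

theorem det_gap {x y x' y' i : ℤ} (hwall : ∀ j, W (j, j) ≤ W' (j, j))
    (hbulk : ∀ z : Site, z.2 < z.1 → W' z = W z) (h1 : x ≤ x')
    (h2 : x' < i) (h3 : i < y') (h4 : y' ≤ y)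
    (h : L 0 (Function.update W (i, i) 0) (x, x) (y, y) < L 0 W (x, x) (y, y)) :
    L 0 (Function.update W' (i, i) 0) (x', x') (y', y') < L 0 W' (x', x') (y', y') := by
  have hC : ∀ t, i < t → t ≤ y → L 0 W (x, x) (t, i - 1) + L 0 W (t, i) (y, y) ≤
      L 0 (Function.update W (i, i) 0) (x, x) (y, y) := by
    intro t t1 t2
    have := L_concat2 (k := 0) (a := (x, x)) (b := (t, i - 1)) (c := (y, y))
      (Function.update W (i, i) 0)
      ⟨by simp only; omega, by simp only; omega, by simp, by simp only; omega⟩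
      ⟨by simp only; omega, by simp only; omega, by simp only; omega, by simp⟩
    simp only [sub_add_cancel] at this
    rwa [det_upd1 W (by simp), det_upd2 W (by simpa using t1)] at this
  have hT : L 0 W (x, x) (y, y) =
      L 0 W (x, x) (i, i - 1) + W (i, i) + L 0 W (i + 1, i) (y, y) := by
    obtain ⟨t, t1, t2, t3⟩ := L_cut_row (k := 0) (a := (x, x)) (b := (y, y)) W
      ⟨by simp only; omega, by simp only; omega, by simp, by simp⟩ (r := i - 1)
      (by simp only; omega) (by simp only; omega)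
    simp only [sub_add_cancel] at t2 t3
    have t4 := t2.2.2.1
    have t5 := t2.1
    simp only at t4 t5
    rcases eq_or_lt_of_le (show i ≤ t by omega) with ht | ht
    · subst ht
      rw [t3, det_wall_start W (by omega)]
      ring
    · have := hC t ht t5
      linarith
  have hpos : 0 < W (i, i) := by
    have := L_concat2 (k := 0) (a := (x, x)) (b := (i, i - 1)) (c := (y, y))
      (Function.update W (i, i) 0)
      ⟨by simp only; omega, by simp only; omega, by simp, by simp only; omega⟩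
      ⟨by simp only; omega, by simp only; omega, by simp only; omega, by simp⟩
    simp only [sub_add_cancel] at this
    rw [det_upd1 W (by simp), det_wall_start _ (by omega), det_upd2 W (by simp),
      Function.update_self] at this
    linarith
  have hT' : L 0 W' (x', x') (i, i - 1) + W' (i, i) + L 0 W' (i + 1, i) (y', y') ≤
      L 0 W' (x', x') (y', y') := by
    have := L_concat2 (k := 0) (a := (x', x')) (b := (i, i - 1)) (c := (y', y')) W'
      ⟨by simp only; omega, by simp only; omega, by simp, by simp only; omega⟩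
      ⟨by simp only; omega, by simp only; omega, by simp only; omega, by simp⟩
    simp only [sub_add_cancel] at this
    rw [det_wall_start _ h3] at this
    linarith
  have hw := hwall i
  obtain ⟨t, t1, t2, t3⟩ := L_cut_row (k := 0) (a := (x', x')) (b := (y', y'))
    (Function.update W' (i, i) 0)
    ⟨by simp only; omega, by simp only; omega, by simp, by simp⟩ (r := i - 1)
    (by simp only; omega) (by simp only; omega)
  simp only [sub_add_cancel] at t2 t3
  have t4 := t2.2.2.1
  have t5 := t2.1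
  simp only at t4 t5
  rw [det_upd1 W' (b := (t, i - 1)) (by simp)] at t3
  rcases eq_or_lt_of_le (show i ≤ t by omega) with ht | ht
  · subst ht
    rw [det_wall_start _ h3, det_upd2 W' (a := (i + 1, i)) (by simp), Function.update_self] at t3
    linarith
  · rw [det_upd2 W' (a := (t, i)) (by simpa using ht)] at t3
    have c1 := hC t ht (by omega)
    have c2 : L 0 W' (x', x') (t, i - 1) - L 0 W' (x', x') (i, i - 1) ≤
        L 0 W (x, x) (t, i - 1) - L 0 W (x, x) (i, i - 1) := by
      refine det_tele (fun v => L 0 W' (x', x') (v, i - 1)) (fun v => L 0 W (x, x) (v, i - 1))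
        ht.le ?_
      intro v v1 v2
      exact (attract_inner (a := (x, x)) (b := (t, i - 1)) (W := W) (W' := W') (x := x')
        ⟨h1, h1, by simp, by simp⟩ (fun j _ _ => hwall j) (fun z _ _ hz => hbulk z hz)).1 v (i - 1)
        ⟨by simp only; omega, by simp only; omega, by simp, by simp only; omega⟩
        ⟨by simp only; omega, by simp only; omega, by simp only; omega, by simp only; omega⟩
    have c3 : L 0 W' (t, i) (y', y') - L 0 W' (i + 1, i) (y', y') ≤
        L 0 W (t, i) (y, y) - L 0 W (i + 1, i) (y, y) := by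
      refine det_tele (fun v => L 0 W' (v, i) (y', y')) (fun v => L 0 W (v, i) (y, y))
        (by omega) ?_
      intro v v1 v2
      have := (attract_inner' (a := (i + 1, i)) (b := (y, y)) (W := W) (W' := W') (y := y')
        ⟨h4, h4, by simp, by simp⟩ (fun j _ _ => hwall j) (fun z _ _ hz => hbulk z hz)).2
        (v + 1) i
        ⟨by simp only; omega, by simp only; omega, by simp, by simp only; omega⟩
        ⟨by simp only; omega, by simp only; omega, by simp only; omega, by simp⟩
      simp only [add_sub_cancel_right] at this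
      linarith
    linarith

theorem det_reduce {δ : ℝ} (hδ : 0 ≤ δ) (hW : ∀ z : Site, z.2 < z.1 → W z = W' z)
    (h : ∀ x y : ℤ, a.2 ≤ x → x ≤ y → y ≤ b.2 →
      L 0 W (x, x) (y, y) ≤ L 0 W' (x, x) (y, y) + δ) :
    L 0 W a b ≤ L 0 W' a b + δ := by
  classical
  by_cases hab : Adm 0 a b
  swap
  · rw [L_of_not_adm W hab, L_of_not_adm W' hab]; linarith
  obtain ⟨m, π, hp, hopt⟩ := exists_opt W hab
  have hoff : ∀ n ≤ m, (π n).1 ≠ (π n).2 → W (π n) = W' (π n) := by
    intro n hn hne
    have := hp.2.2.2 n hn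
    exact hW _ (by omega)
  by_cases hex : ∃ n, n ≤ m ∧ (π n).1 = (π n).2
  swap
  · have : pval W m π ≤ pval W' m π :=
      pval_mono fun n hn => (hoff n hn fun he => hex ⟨n, hn, he⟩).le
    have := le_L W' hp
    linarith
  obtain ⟨n1, ⟨h1m, h1e⟩, h1min⟩ : ∃ n1, (n1 ≤ m ∧ (π n1).1 = (π n1).2) ∧
      ∀ n < n1, ¬ (n ≤ m ∧ (π n).1 = (π n).2) :=
    ⟨Nat.find hex, Nat.find_spec hex, fun n hn => Nat.find_min hex hn⟩
  obtain ⟨n2, h12, h2m, h2e, h2max⟩ : ∃ n2, n1 ≤ n2 ∧ n2 ≤ m ∧ (π n2).1 = (π n2).2 ∧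
      ∀ n, n2 < n → n ≤ m → (π n).1 ≠ (π n).2 :=
    ⟨Nat.findGreatest (fun n => (π n).1 = (π n).2) m, Nat.le_findGreatest h1m h1e,
      Nat.findGreatest_le m, Nat.findGreatest_spec (P := fun n => (π n).1 = (π n).2) h1m h1e,
      fun n a1 a2 => Nat.findGreatest_is_greatest (P := fun n => (π n).1 = (π n).2) a1 a2⟩
  have s1 := pval_split W π h2m
  have s2 := pval_split W π h12
  have p1 := hp.take h1m
  have p2 := (hp.take h2m).drop h12
  have p3 := hp.drop h2m
  have e1 : pval W n1 π - W (π n1) = pval W' n1 π - W' (π n1) := by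
    simp only [pval, Finset.sum_range_succ, add_sub_cancel_right]
    refine Finset.sum_congr rfl fun n hn => ?_
    have hn' := Finset.mem_range.1 hn
    exact hoff n (by omega) fun he => h1min n hn' ⟨by omega, he⟩
  have e3 : pval W (m - n2) (fun i => π (n2 + i)) - W (π n2) =
      pval W' (m - n2) (fun i => π (n2 + i)) - W' (π n2) := by
    simp only [pval, Finset.sum_range_succ', add_zero, add_sub_cancel_right]
    refine Finset.sum_congr rfl fun n hn => ?_
    have hn' := Finset.mem_range.1 hn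
    exact hoff _ (by omega) (h2max _ (by omega) (by omega))
  have l1 := le_L W' p1
  have l2 := le_L W p2
  have l3 := le_L W' p3
  have a1 := (hp.adm h1m).1
  have a2 := (p2.adm (Nat.zero_le _)).2
  have a3 := (hp.adm h2m).2
  simp only [add_zero] at a2
  have c1 := L_concat W' a1 a2
  have c2 := L_concat W' (hp.adm h2m).1 a3
  have q1 : π n1 = ((π n1).2, (π n1).2) := Prod.ext h1e rfl
  have q2 : π n2 = ((π n2).2, (π n2).2) := Prod.ext h2e rfl
  have := h (π n1).2 (π n2).2 a1.2.1 a2.2.1 a3.2.1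
  rw [← q1, ← q2] at this
  linarith

theorem det_cT_nonneg {s : ℝ} (hs : 0 ≤ s) (z : Site) : 0 ≤ cT s z := by
  unfold cT; split_ifs
  · exact hs
  · exact zero_le_one

theorem det_cT_mono {s s' : ℝ} (hs : s ≤ s') (e : Env) (z : Site) :
    wt (cT s) e z ≤ wt (cT s') e z := by
  unfold wt cT; split_ifs
  · exact mul_le_mul_of_nonneg_right hs (abs_nonneg _)
  · exact le_rfl

theorem det_mem_wall {x y : ℤ} {i : Site} (hi : i ∈ wall x y) :
    ∃ j, x ≤ j ∧ j ≤ y ∧ i = (j, j) := by
  obtain ⟨j, hj, rfl⟩ := Finset.mem_image.1 hi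
  exact ⟨j, (Finset.mem_Icc.1 hj).1, (Finset.mem_Icc.1 hj).2, rfl⟩

/-- a wall site that matters for an interval matters for a smaller interval with a stronger wall -/
theorem gap_mono {x y x' y' i : ℤ} {s s' : ℝ} (hs : 0 ≤ s) (hss : s ≤ s') (h1 : x ≤ x')
    (h2 : x' < i) (h3 : i < y') (h4 : y' ≤ y) (e : Env)
    (h : T s x y (Function.update e (i, i) 0) < T s x y e) :
    T s' x' y' (Function.update e (i, i) 0) < T s' x' y' e := by
  unfold T at *
  rw [wt_update] at *
  refine det_gap (fun j => det_cT_mono hss e _) (fun z hz => ?_) h1 h2 h3 h4 h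
  simp [wt, cT, hz.ne']

/-- changing only the wall weights: reduction to wall to wall passage times -/
theorem reduce_wall {δ : ℝ} (hδ : 0 ≤ δ) (hW : ∀ z : Site, z.2 < z.1 → W z = W' z)
    (h : ∀ x y : ℤ, a.2 ≤ x → x ≤ y → y ≤ b.2 →
      |L 0 W (x, x) (y, y) - L 0 W' (x, x) (y, y)| ≤ δ) :
    |L 0 W a b - L 0 W' a b| ≤ δ := by
  have h1 := det_reduce (a := a) (b := b) hδ hW fun x y a1 a2 a3 => by
    have := (abs_le.1 (h x y a1 a2 a3)).2
    linarith
  have h2 := det_reduce (a := a) (b := b) hδ (fun z hz => (hW z hz).symm) fun x y a1 a2 a3 => by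
    have := (abs_le.1 (h x y a1 a2 a3)).1
    linarith
  exact abs_le.2 ⟨by linarith, by linarith⟩

theorem T_shift (s : ℝ) (x y t : ℤ) (e : Env) :
    T s (x + t) (y + t) e = T s x y (fun z => e (z + (t, t))) := by
  have := L_shift (k := 0) (a := (x, x)) (b := (y, y)) (wt (cT s) e) (t, t)
  simp only [Prod.mk_add_mk, zero_sub, neg_add_cancel] at this
  unfold T
  rw [this]
  congr 1
  funext z
  simp [wt, cT]

theorem T_mirror (s : ℝ) (x y t : ℤ) (e : Env) :
    T s x y e = T s (t - y) (t - x) (fun z => e (mir t z)) := by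
  unfold T
  rw [L_mirror _ t]
  have : (fun z => wt (cT s) e (mir t z)) = wt (cT s) (fun z => e (mir t z)) := by
    funext z
    simp [wt, cT, mir, eq_comm]
  rw [this]
  rfl

theorem T_super {s : ℝ} (hs : 0 ≤ s) {x y w : ℤ} (h1 : x ≤ y) (h2 : y + 1 ≤ w) (e : Env) :
    T s x y e + T s (y + 1) w e ≤ T s x w e := by
  unfold T
  have c1 := L_concat2 (k := 0) (a := (x, x)) (b := (y + 1, y)) (c := (w, w)) (wt (cT s) e)
    ⟨by simp only; omega, h1, by simp, by simp⟩ ⟨h2, h2, by simp, by simp⟩
  have c2 := det_step1 (k := 0) (a := (x, x)) (wt (cT s) e) (i := y + 1) (j := y)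
    ⟨by simp only; omega, h1, by simp, by simp⟩
  have c3 := wt_nonneg (det_cT_nonneg hs) e (y + 1, y)
  simp only [add_sub_cancel_right] at c1 c2
  linarith

theorem T_nonneg {s : ℝ} (hs : 0 ≤ s) (x y : ℤ) (e : Env) : 0 ≤ T s x y e := by
  exact L_nonneg (wt_nonneg (det_cT_nonneg hs) e)

theorem T_mono {s s' : ℝ} (hs : s ≤ s') (x y : ℤ) (e : Env) : T s x y e ≤ T s' x y e := by
  exact L_mono fun z _ _ => det_cT_mono hs e z

theorem T_convex (s s' : ℝ) (x y : ℤ) (e : Env) :
    2 * T ((s + s') / 2) x y e ≤ T s x y e + T s' x y e := by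
  have : wt (cT ((s + s') / 2)) e = fun z => (wt (cT s) e z + wt (cT s') e z) / 2 := by
    funext z
    unfold wt cT
    split_ifs <;> ring
  unfold T
  rw [this]
  exact L_convex _ _

theorem T_subgrad {s s' : ℝ} (hs : 0 ≤ s) (hss : s ≤ s') (x y : ℤ) (e : Env) :
    T s x y e + (s' - s) * ∑ i ∈ wall x y, |e i| * iV (T s x y) i e ≤ T s' x y e := by
  classical
  have key := L_subgrad (k := 0) (a := (x, x)) (b := (y, y)) (wt_nonneg (det_cT_nonneg hs) e)
    (det_cT_mono hss e)
    ((wall x y).filter fun i => T s x y (Function.update e i 0) < T s x y e) (by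
      intro z hz
      have := (Finset.mem_filter.1 hz).2
      unfold T at this
      rwa [wt_update] at this)
  have e1 : ∑ z ∈ (wall x y).filter fun i => T s x y (Function.update e i 0) < T s x y e,
      (wt (cT s') e z - wt (cT s) e z) = (s' - s) * ∑ i ∈ wall x y, |e i| * iV (T s x y) i e := by
    rw [Finset.sum_filter, Finset.mul_sum]
    refine Finset.sum_congr rfl fun i hi => ?_
    obtain ⟨j, _, _, rfl⟩ := det_mem_wall hi
    unfold iV
    split_ifs
    · simp only [wt, cT, if_true]; ring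
    · simp
  rw [e1] at key
  exact key

theorem hinge_T {s : ℝ} (hs : 0 < s) {x y : ℤ} {i : Site} (hi : i ∈ wall x y) :
    Hinge s (T s x y) i := by
  obtain ⟨j, h1, h2, rfl⟩ := det_mem_wall hi
  have e : cT s (j, j) = s := by simp [cT]
  have := hinge_L (k := 0) (a := (x, x)) (b := (y, y)) (i := (j, j)) (det_cT_nonneg hs.le)
    (by rw [e]; exact hs) ⟨h1, h1, by simp, by simp⟩ ⟨h2, h2, by simp, by simp⟩
  rw [e] at this
  exact this

theorem hinge_F {c : ℤ} {r s : ℝ} (hr : 0 ≤ r) (hs : 0 < s) {i : Site} (hi : i ∈ wall 1 (c - 1)) :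
    Hinge s (F c r (fun _ => s)) i := by
  obtain ⟨j, h1, h2, rfl⟩ := det_mem_wall hi
  have e : cD c r (fun _ => s) (j, j) = s := by
    unfold cD
    rw [if_neg, if_neg, if_pos rfl]
    · simp only; omega
    · simp only [Prod.mk.injEq]; omega
  have := hinge_L (k := 0) (a := (1, 0)) (b := (c, c - 1)) (i := (j, j))
    (co := cD c r (fun _ => s)) (by
      intro z
      unfold cD
      split_ifs
      · exact le_rfl
      · exact hr
      · exact hs.le
      · exact zero_le_one)
    (by rw [e]; exact hs) ⟨h1, by simp only; omega, by simp, by simp⟩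
    ⟨by simp only; omega, h2, by simp, by simp⟩
  rw [e] at this
  exact this

theorem mir_injective (t : ℤ) : Function.Injective (mir t) := by
  rintro ⟨a1, a2⟩ ⟨b1, b2⟩ h
  simp only [mir, Prod.mk.injEq] at h ⊢
  omega

theorem q_pos {x : ℝ} (h : x < 1 / 2) : 0 < q x := by
  exact inv_pos.2 (by linarith)

theorem q_mono {x y : ℝ} (h : x ≤ y) (hy : y < 1 / 2) : q x ≤ q y := by
  exact inv_anti₀ (by linarith) (by linarith)

theorem q_bounds {x : ℝ} (h : |x| ≤ 1 / 8) :
    2 + 4 * x ≤ q x ∧ q x ≤ 2 + 4 * x + 11 * x ^ 2 := by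
  obtain ⟨h1, h2⟩ := abs_le.1 h
  have hp : 0 < 1 / 2 - x := by linarith
  unfold q
  rw [inv_eq_one_div]
  constructor
  · rw [le_div_iff₀ hp]; nlinarith [sq_nonneg x]
  · rw [div_le_iff₀ hp]
    nlinarith [mul_nonneg (sq_nonneg x) (show (0 : ℝ) ≤ 3 / 2 - 11 * x by linarith)]

theorem q_sub {x y : ℝ} (h : x ≤ y) (hx : |x| ≤ 1 / 8) (hy : |y| ≤ 1 / 8) :
    2 * (y - x) ≤ q y - q x ∧ q y - q x ≤ 8 * (y - x) := by
  obtain ⟨h1, h2⟩ := abs_le.1 hx
  obtain ⟨h3, h4⟩ := abs_le.1 hy
  have hp : 0 < 1 / 2 - x := by linarith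
  have hq : 0 < 1 / 2 - y := by linarith
  have e : q y - q x = (y - x) / ((1 / 2 - x) * (1 / 2 - y)) := by
    unfold q
    rw [inv_sub_inv hq.ne' hp.ne', mul_comm (1 / 2 - y)]
    congr 1
    ring
  have b1 : (1 / 2 - x) * (1 / 2 - y) ≤ 1 / 2 := by nlinarith
  have b2 : 1 / 8 ≤ (1 / 2 - x) * (1 / 2 - y) := by nlinarith
  have hd : 0 ≤ y - x := by linarith
  rw [e]
  constructor
  · rw [le_div_iff₀ (mul_pos hp hq)]; nlinarith
  · rw [div_le_iff₀ (mul_pos hp hq)]; nlinarith

end Pool.Agent.P.MP_9957ef_pr
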