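import Pool.Agent.P.MP_9957ef_pr.Defs

/-! Statements of the intermediate probabilistic results. -/

set_option autoImplicit false

noncomputable section

open MeasureTheory ProbabilityTheory Finset

namespace Pool.Agent.P.MP_9957ef_pr

/-- gain from a boosted first row -/
def S_GM : Prop :=
  ∀ x y : ℝ, |x| < 1 / 2 → |y| < 1 / 2 → 0 ≤ x + y → ∀ m : ℤ, 1 ≤ m → ∀ h : ℝ,
    mu.real {e | h ≤ G 1 (q (-y)) (q x) (m, m) e - T (q x) 1 m e} ≤ Real.exp (-((x + y) * h))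

/-- two sided tails of wall to wall passage times in the critical window -/
def S_TT : Prop :=
  ∀ C0 : ℝ, 0 < C0 → ∃ A B ν0 : ℝ, 0 < A ∧ 1 ≤ B ∧ 1 ≤ ν0 ∧ ∀ ν : ℝ, ν0 ≤ ν → ∀ x : ℝ,
    |x| ≤ C0 / ν → ∀ a b : ℤ, a ≤ b → ((b : ℝ) - a + 1) ≤ C0 * ν ^ 3 →
      Tail (fun e => T (q x) a b e - 4 * ((b : ℝ) - a + 1)) (A * ν) B ∧
      Tail (fun e => 4 * ((b : ℝ) - a + 1) - T (q x) a b e) (A * ν) B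

/-- total wall weight collected by the optimal path -/
def S_VD : Prop :=
  ∀ C0 : ℝ, 0 < C0 → ∃ A B ν0 : ℝ, 0 < A ∧ 1 ≤ B ∧ 1 ≤ ν0 ∧ ∀ ν : ℝ, ν0 ≤ ν → ∀ x : ℝ,
    |x| ≤ C0 / ν → ∀ a b : ℤ, a ≤ b → ((b : ℝ) - a + 1) ≤ C0 * ν ^ 3 →
      Tail (fun e => ∑ i ∈ wall a b, |e i| * iV (T (q x) a b) i e) (A * ν ^ 2) B

/-- upper tail of the best touching path -/
def S_UT : Prop :=
  ∃ A B ν0 : ℝ, 0 < A ∧ 1 ≤ B ∧ 1 ≤ ν0 ∧ ∀ ν : ℝ, ν0 ≤ ν → ∀ θ : ℝ, 0 ≤ θ → θ ≤ 1 / ν →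
    ∀ m : ℤ, 1 ≤ m → (m : ℝ) ≤ ν ^ 3 →
      Tail (fun e => U m (q (-θ)) (q (θ + 1 / ν)) e - 4 * (m : ℝ)) (A * ν) B

/-- increments in one endpoint, uniformly in the other endpoint -/
def S_INC : Prop :=
  ∀ C0 : ℝ, 0 < C0 → ∃ A B ν0 : ℝ, 0 < A ∧ 1 ≤ B ∧ 1 ≤ ν0 ∧ ∀ ν : ℝ, ν0 ≤ ν → ∀ x : ℝ,
    |x| ≤ C0 / ν → ∀ t : ℝ, 0 ≤ t →
      (∀ a0 b b' : ℤ, a0 ≤ b → b ≤ b' → ((b' : ℝ) - b) ≤ C0 * ν ^ 3 →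
        mu.real {e | ∃ a : ℤ, a0 ≤ a ∧ a ≤ b ∧
          t * (A * ν) ≤ T (q x) a b' e - T (q x) a b e - 4 * ((b' : ℝ) - b)} ≤
          B * Real.exp (-t)) ∧
      (∀ a' a b0 : ℤ, a' ≤ a → a ≤ b0 → ((a : ℝ) - a') ≤ C0 * ν ^ 3 →
        mu.real {e | ∃ b : ℤ, a ≤ b ∧ b ≤ b0 ∧
          t * (A * ν) ≤ T (q x) a' b e - T (q x) a b e - 4 * ((a : ℝ) - a')} ≤
          B * Real.exp (-t))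

/-- lower tail of the local wall avoiding passage time -/
def S_YT : Prop :=
  ∃ A B c ν0 : ℝ, 0 < A ∧ 1 ≤ B ∧ 0 < c ∧ c ≤ 1 / 8 ∧ ∀ ν : ℕ, ν0 ≤ ν → ∀ θ : ℝ, 0 ≤ θ →
    θ ≤ 1 / ν → ∀ m z : ℤ, 0 ≤ z → (ν : ℝ) ^ 3 / 2 ≤ (m : ℝ) - z - 1 → (m : ℝ) ≤ (ν : ℝ) ^ 3 →
      ∀ t : ℕ, 1 ≤ t → (t : ℝ) ≤ c * ν →
        mu.real {e | Y m (q (-θ)) z (t * ν ^ 2) e ≤ -(A * t * ν)} ≤ B * Real.exp (-(t : ℝ))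

/-- a block is active with probability of order `θ ν`, and the cost of avoiding it is of order `ν` -/
def S_XI : Prop :=
  ∃ C : ℝ, 0 < C ∧ ∀ γ : ℝ, 0 < γ → ∃ ν0 : ℕ, ∀ ν : ℕ, ν0 ≤ ν → ∀ θ : ℝ, γ ≤ θ * ν →
    θ * ν ≤ 1 →
      mu.real {e | O ((ν : ℤ) ^ 3) (q (-θ)) 0 e ≤ U ((ν : ℤ) ^ 3) (q (-θ)) (q (θ + 1 / ν)) e} ≤
        C * θ * ν ∧
      ∫ e, Xi ((ν : ℤ) ^ 3) (q (-θ)) (q (θ + 1 / ν)) e ^ 2 ∂mu ≤ C * θ * (ν : ℝ) ^ 3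

/-- seen from a block `[x,y]` of the wall, the big triangle looks like a small triangle -/
def S_SLAB : Prop :=
  ∀ θ : ℝ, |θ| < 1 / 2 → ∀ c x y : ℤ, 1 ≤ x → x ≤ y → y ≤ c - 1 →
    ∃ Ψ : Env → Env, MeasurePreserving Ψ mu mu ∧
      (∀ e i, 2 ≤ i → i ≤ y - x + 1 → q (-θ) * |Ψ e (i, 0)| =
        L 0 (wt (cD c (q (-θ)) (fun _ => q θ)) e) (1, 0) (x - 1 + i, x - 1) -
        L 0 (wt (cD c (q (-θ)) (fun _ => q θ)) e) (1, 0) (x - 2 + i, x - 1)) ∧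
      (∀ e j, 1 ≤ j → j ≤ y - x → q (-θ) * |Ψ e (y - x + 2, j)| =
        L 0 (wt (cD c (q (-θ)) (fun _ => q θ)) e) (y + 1, x - 1 + j) (c, c - 1) -
        L 0 (wt (cD c (q (-θ)) (fun _ => q θ)) e) (y + 1, x + j) (c, c - 1)) ∧
      (∀ e i j, 1 ≤ j → j ≤ i → i ≤ y - x + 1 → Ψ e (i, j) = e (x - 1 + i, x - 1 + j))

/-- a strongly attractive wall is touched in every long window -/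
def S_TOUCH : Prop :=
  ∀ ε : ℝ, 0 < ε → ∃ C θ0 : ℝ, 0 < C ∧ 0 < θ0 ∧ ∀ θ : ℝ, 0 < θ → θ ≤ θ0 → ∀ c x y : ℤ,
    1 ≤ x → x ≤ y → y ≤ c - 1 → C ≤ θ ^ 3 * ((y : ℝ) - x + 1) →
      mu.real {e | F c (q (-θ)) (fun _ => q θ) e ≤
        F c (q (-θ)) (fun j => if x ≤ j ∧ j ≤ y then q (-θ / 2) else q θ) e} ≤ ε

/-- the abstract multiscale overlap bound -/
def S_MULTI : Prop :=
  ∀ ε : ℝ, 0 < ε → ∃ (S : ℕ) (ν0 : ℝ), 0 < S ∧ ∀ (s ν D : ℝ) (f : Env → ℝ) (R : Finset Site)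
    (blk : ℕ → Site → ℕ) (nb : ℕ → ℕ) (Ξ : ℕ → ℕ → Env → ℝ) (Act : ℕ → ℕ → Set Env),
    1 ≤ s → s ≤ 4 → ν0 ≤ ν → PG f → (∀ i ∈ R, Hinge s f i) →
    (∀ k < S, ∀ i ∈ R, blk k i < nb k) →
    (∀ k < S, ∀ b < nb k, PG (Ξ k b) ∧ (∀ e, 0 ≤ Ξ k b e) ∧ MeasurableSet (Act k b)) →
    (∀ k < S, ∀ b < nb k, ∀ e e' : Env, (∀ z, |e' z| ≤ |e z|) →
      (∀ z, ¬ (z ∈ R ∧ blk k z = b) → e' z = e z) → f e - f e' ≤ Ξ k b e) →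
    (∀ k < S, ∀ b < nb k, ∀ e, ∑ i ∈ R.filter (fun i => blk k i = b), |e i| * iV f i e ≤
      2 ^ k * ν * Ξ k b e) →
    (∀ k < S, ∀ i ∈ R, ∀ e, f (Function.update e i 0) < f e → e ∈ Act k (blk k i)) →
    (∀ k < S, ∑ b ∈ range (nb k), ∫ e, Ξ k b e ^ 2 ∂mu ≤ D) →
    (∀ k < S, (2 ^ k * ν) ^ 2 * ∑ b ∈ range (nb k), mu.real (Act k b) ≤ D) →
    ∫ e, ∑ i ∈ R, cE (R : Set Site) (iV f i) e ^ 2 ∂mu ≤ ε * D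

/-- the overlap bound in the stationary model -/
def S_STAT : Prop :=
  ∀ ε : ℝ, 0 < ε → ∃ θ0 : ℝ, 0 < θ0 ∧ ∀ θ : ℝ, 0 < θ → θ ≤ θ0 → ∀ l : ℤ, 0 ≤ l →
    ∃ c : ℤ, l + 1 ≤ c ∧ (c : ℝ) ≤ l + 1 + (θ ^ 3)⁻¹ ∧ ∀ R ⊆ wall 1 (c - 1),
      ∫ e, ∑ i ∈ R, cE (R : Set Site) (iV (F c (q (-θ)) (fun _ => q θ)) i) e ^ 2 ∂mu ≤ ε * θ * c

/-- small overlap gives small conditional variance -/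
def S_VAR : Prop :=
  ∀ η : ℝ, 0 < η → ∃ C : ℝ, 0 < C ∧ ∀ (s D H : ℝ) (f : Env → ℝ) (R0 : Finset Site),
    0 < s → s ≤ 4 → PG f → (∀ i ∈ R0, Hinge s f i) →
    ∫ e, ∑ i ∈ R0, |e i| * iV f i e ∂mu ≤ D →
    (∀ R ⊆ R0, ∫ e, ∑ i ∈ R, cE (R : Set Site) (iV f i) e ^ 2 ∂mu ≤ H) →
    ∫ e, (f e - cE (R0 : Set Site) f e) ^ 2 ∂mu ≤ η * D + C * H

/-- resampling the wall changes a single passage time by `o(ν)` in mean square -/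
def S_POINT : Prop :=
  ∀ C0 η : ℝ, 0 < C0 → 0 < η → ∃ ν0 : ℝ, ∀ ν : ℝ, ν0 ≤ ν → ∀ x : ℝ, |x| ≤ C0 / ν →
    ∀ a b : ℤ, a ≤ b → ((b : ℝ) - a + 1) ≤ C0 * ν ^ 3 →
      ∫ e, (T (q x) a b e - T (q x) a b (rs e)) ^ 2 ∂mu ≤ η * ν ^ 2

/-- the uniform version -/
def S_MT : Prop :=
  ∀ C0 ε η : ℝ, 0 < C0 → 0 < ε → 0 < η → ∃ ν0 : ℝ, ∀ ν : ℝ, ν0 ≤ ν → ∀ x : ℝ, |x| ≤ C0 / ν →
    ∀ a0 N : ℤ, (N : ℝ) ≤ C0 * ν ^ 3 →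
      mu.real {e | ∃ a b : ℤ, a0 ≤ a ∧ a ≤ b ∧ b ≤ a0 + N ∧
        ε * ν < |T (q x) a b e - T (q x) a b (rs e)|} ≤ η

end Pool.Agent.P.MP_9957ef_pr
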