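import Pool.Agent.P.MP_9957ef_pr.Defs

/-! Product measure tools: resampling, independence, Harris, Efron-Stein, tails. -/

set_option autoImplicit false

noncomputable section

open MeasureTheory ProbabilityTheory Finset
open scoped ENNReal

namespace Pool.Agent.P.MP_9957ef_pr

variable {f g : Env → ℝ}

lemma prob_pw_mem {S : Set Site} {z : Site} (hz : z ∈ S) (e' e : Env) : pw S e' e z = e' z := by
  simp [pw, hz]

lemma prob_pw_not {S : Set Site} {z : Site} (hz : z ∉ S) (e' e : Env) : pw S e' e z = e z := by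
  simp [pw, hz]

lemma measurable_pw (S : Set Site) : Measurable (fun p : Env × Env => pw S p.2 p.1) := by
  refine measurable_pi_lambda _ fun z => ?_
  by_cases hz : z ∈ S
  · simp only [prob_pw_mem hz]
    exact (measurable_pi_apply z).comp measurable_snd
  · simp only [prob_pw_not hz]
    exact (measurable_pi_apply z).comp measurable_fst

lemma mp_pw (S : Set Site) :
    MeasurePreserving (fun p : Env × Env => pw S p.2 p.1) (mu.prod mu) mu := by
  classical
  refine ⟨measurable_pw S, ?_⟩
  unfold mu
  refine Measure.eq_infinitePi _ fun s t ht => ?_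
  rw [Measure.map_apply (measurable_pw S) (MeasurableSet.pi s.countable_toSet fun i _ => ht i)]
  have h : (fun p : Env × Env => pw S p.2 p.1) ⁻¹' (Set.pi (s : Set Site) t) =
      (Set.pi ((s.filter (fun z => z ∉ S) : Finset Site) : Set Site) t) ×ˢ
        (Set.pi ((s.filter (fun z => z ∈ S) : Finset Site) : Set Site) t) := by
    ext p
    simp only [Set.mem_preimage, Set.mem_pi, Finset.mem_coe, Set.mem_prod, Finset.mem_filter]
    constructor
    · intro h
      refine ⟨fun z hz => ?_, fun z hz => ?_⟩
      · have := h z hz.1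
        rwa [prob_pw_not hz.2] at this
      · have := h z hz.1
        rwa [prob_pw_mem hz.2] at this
    · rintro ⟨h1, h2⟩ z hz
      by_cases hS : z ∈ S
      · rw [prob_pw_mem hS]; exact h2 z ⟨hz, hS⟩
      · rw [prob_pw_not hS]; exact h1 z ⟨hz, hS⟩
  rw [h, Measure.prod_prod, Measure.infinitePi_pi _ (fun i _ => ht i),
    Measure.infinitePi_pi _ (fun i _ => ht i), mul_comm,
    Finset.prod_filter_mul_prod_filter_not]

lemma mp_reindex {σ : Site → Site} (hσ : Function.Injective σ) :
    MeasurePreserving (fun (e : Env) z => e (σ z)) mu mu := by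
  refine ⟨measurable_pi_lambda _ fun z => measurable_pi_apply _, ?_⟩
  unfold mu
  exact Measure.map_infinitePi_infinitePi_of_inj (P := fun _ : Site => ex) hσ

lemma mp_rs : MeasurePreserving rs mu mu := by
  let σ : Site → Site := fun z =>
    if z.1 = z.2 then (z.1, z.1 + 1) else if z.2 = z.1 + 1 then (z.1, z.1) else z
  have hσ : Function.Injective σ := by
    apply Function.Involutive.injective
    rintro ⟨a, b⟩
    by_cases h1 : a = b
    · subst h1; simp [σ]
    · by_cases h2 : b = a + 1
      · subst h2; simp [σ]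
      · simp [σ, h1, h2]
  have h : rs = fun (e : Env) z => e (σ z) := by
    funext e z
    simp only [rs, σ]
    split_ifs <;> rfl
  rw [h]
  exact mp_reindex hσ

lemma mp_eval (z : Site) : MeasurePreserving (fun e : Env => e z) mu ex :=
  measurePreserving_eval_infinitePi (fun _ : Site => ex) z

lemma prob_ex_nonneg : ∀ᵐ x ∂ex, 0 ≤ x := by
  have h : ex (Set.Iio 0) = 0 := by
    unfold ex expMeasure gammaMeasure
    rw [withDensity_apply _ measurableSet_Iio]
    exact lintegral_gammaPDF_of_nonpos le_rfl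
  rw [ae_iff]
  have : {a : ℝ | ¬ 0 ≤ a} = Set.Iio 0 := by ext a; simp
  rw [this, h]

lemma ae_nonneg : ∀ᵐ e ∂mu, ∀ z, 0 ≤ e z := by
  rw [ae_all_iff]
  intro z
  exact (mp_eval z).quasiMeasurePreserving.ae prob_ex_nonneg

/-- no measurability of the set is needed -/
lemma real_preimage_le {Φ : Env → Env} (hΦ : MeasurePreserving Φ mu mu) (s : Set Env) :
    mu.real (Φ ⁻¹' s) ≤ mu.real s := by
  have h := Measure.le_map_apply (μ := mu) hΦ.measurable.aemeasurable s
  rw [hΦ.map_eq] at h
  exact ENNReal.toReal_mono (measure_ne_top _ _) h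

lemma lintegral_pw (S : Set Site) {f : Env → ℝ≥0∞} (hf : Measurable f) :
    ∫⁻ e, f e ∂mu = ∫⁻ e, ∫⁻ e', f (pw S e' e) ∂mu ∂mu := by
  rw [← (mp_pw S).lintegral_comp hf]
  exact lintegral_prod (fun p : Env × Env => f (pw S p.2 p.1))
    (hf.comp (measurable_pw S)).aemeasurable

lemma prob_pw_single (i : Site) (e' e : Env) : pw {i} e' e = Function.update e i (e' i) := by
  funext z
  by_cases hz : z = i
  · subst hz; simp [pw]
  · simp [pw, hz]

lemma lintegral_update (i : Site) {f : Env → ℝ≥0∞} (hf : Measurable f) :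
    ∫⁻ e, f e ∂mu = ∫⁻ e, ∫⁻ x, f (Function.update e i x) ∂ex ∂mu := by
  rw [lintegral_pw {i} hf]
  refine lintegral_congr fun e => ?_
  simp only [prob_pw_single]
  exact (mp_eval i).lintegral_comp (f := fun x => f (Function.update e i x))
    (hf.comp (measurable_update e))

lemma prob_dep_left {β : Type*} {S : Set Site} {f : Env → β} (df : DependsOn f S) (e' e : Env) :
    f (pw S e' e) = f e' := df fun _ hz => prob_pw_mem hz e' e

lemma prob_dep_right {β : Type*} {S : Set Site} {f : Env → β} (df : DependsOn f Sᶜ)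
    (e' e : Env) : f (pw S e' e) = f e := df fun _ hz => prob_pw_not hz e' e

lemma lintegral_mul_indep {S : Set Site} {f g : Env → ℝ≥0∞} (hf : Measurable f)
    (hg : Measurable g) (df : DependsOn f S) (dg : DependsOn g Sᶜ) :
    ∫⁻ e, f e * g e ∂mu = (∫⁻ e, f e ∂mu) * ∫⁻ e, g e ∂mu := by
  rw [lintegral_pw S (f := fun e => f e * g e) (hf.mul hg)]
  simp only [prob_dep_left df, prob_dep_right dg]
  simp only [lintegral_mul_const _ hf]
  rw [lintegral_const_mul _ hg]

lemma real_inter_indep {S : Set Site} {A B : Set Env} (hA : MeasurableSet A)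
    (hB : MeasurableSet B) (dA : DependsOn (fun e => e ∈ A) S)
    (dB : DependsOn (fun e => e ∈ B) Sᶜ) : mu.real (A ∩ B) = mu.real A * mu.real B := by
  classical
  have h := lintegral_mul_indep (S := S) (f := A.indicator 1) (g := B.indicator 1)
    (measurable_one.indicator hA) (measurable_one.indicator hB)
    (fun x y hxy => by
      have := dA hxy
      simp only [Set.indicator, eq_iff_iff] at this ⊢
      simp [this])
    (fun x y hxy => by
      have := dB hxy
      simp only [Set.indicator, eq_iff_iff] at this ⊢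
      simp [this])
  have h2 : ∀ e, A.indicator (1 : Env → ℝ≥0∞) e * B.indicator 1 e = (A ∩ B).indicator 1 e := by
    intro e
    by_cases ha : e ∈ A <;> by_cases hb : e ∈ B <;> simp [Set.indicator, ha, hb]
  simp only [h2] at h
  rw [lintegral_indicator_one (hA.inter hB), lintegral_indicator_one hA,
    lintegral_indicator_one hB] at h
  simp only [Measure.real, h, ENNReal.toReal_mul]

lemma lintegral_prod_coord (S : Finset Site) {φ : Site → ℝ → ℝ≥0∞}
    (hφ : ∀ z, Measurable (φ z)) :
    ∫⁻ e, ∏ z ∈ S, φ z (e z) ∂mu = ∏ z ∈ S, ∫⁻ x, φ z x ∂ex := by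
  classical
  induction S using Finset.induction_on with
  | empty => simp
  | insert i S hi ih =>
    simp only [Finset.prod_insert hi]
    rw [lintegral_mul_indep (S := {i}) (f := fun e => φ i (e i))
      (g := fun e => ∏ z ∈ S, φ z (e z)) ((hφ i).comp (measurable_pi_apply i))
      (Finset.measurable_prod _ fun z _ => (hφ z).comp (measurable_pi_apply z))
      (fun x y hxy => by simp only [hxy i rfl])
      (fun x y hxy => Finset.prod_congr rfl fun z hz => by
        rw [hxy z (fun h => hi (by rw [Set.mem_singleton_iff] at h; exact h ▸ hz))]), ih,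
      (mp_eval i).lintegral_comp (hφ i)]

/-! ### polynomial growth -/

lemma PG.measurable (hf : PG f) : Measurable f := hf.1

lemma prob_ex_moment (n : ℕ) : Integrable (fun x : ℝ => |x| ^ n) ex := by
  unfold ex expMeasure gammaMeasure
  rw [integrable_withDensity_iff_integrable_smul' (by unfold gammaPDF; fun_prop)
    (Filter.Eventually.of_forall fun x => by simp [gammaPDF])]
  have h := Real.GammaIntegral_convergent (s := (n : ℝ) + 1) (by positivity)
  rw [← integrableOn_Ici_iff_integrableOn_Ioi,
    ← integrable_indicator_iff measurableSet_Ici] at h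
  refine h.congr (Filter.Eventually.of_forall fun x => ?_)
  by_cases hx : 0 ≤ x
  · simp only [Set.indicator, Set.mem_Ici, hx, if_true, gammaPDF_of_nonneg hx, smul_eq_mul]
    rw [ENNReal.toReal_ofReal (by positivity), abs_of_nonneg hx]
    simp
  · simp only [Set.indicator, Set.mem_Ici, hx, if_false, gammaPDF_of_neg (not_le.mp hx)]
    simp

lemma prob_memLp_coord (z : Site) (n : ℕ) : MemLp (fun e : Env => |e z|) n mu := by
  rcases Nat.eq_zero_or_pos n with rfl | hn
  · simp only [Nat.cast_zero, memLp_zero_iff_aestronglyMeasurable]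
    exact (measurable_pi_apply z).abs.aestronglyMeasurable
  · have h1 : Integrable (fun e : Env => |e z| ^ n) mu :=
      ((mp_eval z).integrable_comp (prob_ex_moment n).aestronglyMeasurable).2 (prob_ex_moment n)
    rw [← integrable_norm_rpow_iff (measurable_pi_apply z).abs.aestronglyMeasurable
      (by simp; omega) (by simp)]
    simpa using h1

lemma prob_integrable_bound (S : Finset Site) (n : ℕ) :
    Integrable (fun e : Env => (1 + ∑ z ∈ S, |e z|) ^ n) mu := by
  have h0 : MemLp (fun e : Env => ∑ z ∈ S, |e z|) n mu :=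
    memLp_finsetSum (f := fun z (e : Env) => |e z|) S fun z _ => prob_memLp_coord z n
  have h : MemLp (fun e : Env => 1 + ∑ z ∈ S, |e z|) n mu :=
    MemLp.add (f := fun _ : Env => (1 : ℝ)) (g := fun e : Env => ∑ z ∈ S, |e z|)
      (memLp_const 1) h0
  refine h.integrable_norm_pow'.congr (Filter.Eventually.of_forall fun e => ?_)
  have : 0 ≤ 1 + ∑ z ∈ S, |e z| := by positivity
  simp only [Real.norm_eq_abs, abs_of_nonneg this]

lemma PG.integrable (hf : PG f) : Integrable f mu := by
  obtain ⟨hm, S, C, n, hC, h⟩ := hf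
  exact ((prob_integrable_bound S n).const_mul C).mono' hm.aestronglyMeasurable
    (Filter.Eventually.of_forall h)

lemma pg_const (t : ℝ) : PG (fun _ => t) :=
  ⟨measurable_const, ∅, |t|, 0, abs_nonneg _, fun e => by simp⟩

lemma pg_coord (z : Site) : PG (fun e => e z) :=
  ⟨measurable_pi_apply z, {z}, 1, 1, zero_le_one, fun e => by simp⟩

lemma prob_one_le (S : Finset Site) (e : Env) : 1 ≤ 1 + ∑ z ∈ S, |e z| :=
  le_add_of_nonneg_right (Finset.sum_nonneg fun _ _ => abs_nonneg _)

lemma prob_bound_mono {S T : Finset Site} (h : S ⊆ T) {m n : ℕ} (hmn : m ≤ n) (e : Env) :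
    (1 + ∑ z ∈ S, |e z|) ^ m ≤ (1 + ∑ z ∈ T, |e z|) ^ n := by
  have h1 : 1 + ∑ z ∈ S, |e z| ≤ 1 + ∑ z ∈ T, |e z| := by
    have := Finset.sum_le_sum_of_subset_of_nonneg (f := fun z => |e z|) h
      (fun _ _ _ => abs_nonneg _)
    linarith
  exact (pow_le_pow_left₀ (zero_le_one.trans (prob_one_le S e)) h1 m).trans
    (pow_le_pow_right₀ (prob_one_le T e) hmn)

lemma PG.of_le (hg : PG g) (hf : Measurable f) (h : ∀ e, |f e| ≤ g e) : PG f := by
  obtain ⟨_, S, C, n, hC, hb⟩ := hg
  exact ⟨hf, S, C, n, hC, fun e => (h e).trans ((le_abs_self _).trans (hb e))⟩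

lemma PG.add (hf : PG f) (hg : PG g) : PG (fun e => f e + g e) := by
  classical
  obtain ⟨hm, S, C, n, hC, h⟩ := hf
  obtain ⟨hm', S', C', n', hC', h'⟩ := hg
  refine ⟨hm.add hm', S ∪ S', C + C', n + n', add_nonneg hC hC', fun e => ?_⟩
  have a1 := mul_le_mul_of_nonneg_left
    (prob_bound_mono (Finset.subset_union_left (s₁ := S) (s₂ := S')) (Nat.le_add_right n n') e) hC
  have a2 := mul_le_mul_of_nonneg_left
    (prob_bound_mono (Finset.subset_union_right (s₁ := S) (s₂ := S')) (Nat.le_add_left n' n) e) hC'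
  have a3 := abs_add_le (f e) (g e)
  have a4 := h e
  have a5 := h' e
  rw [add_mul]
  linarith

lemma PG.mul (hf : PG f) (hg : PG g) : PG (fun e => f e * g e) := by
  classical
  obtain ⟨hm, S, C, n, hC, h⟩ := hf
  obtain ⟨hm', S', C', n', hC', h'⟩ := hg
  refine ⟨hm.mul hm', S ∪ S', C * C', n + n', mul_nonneg hC hC', fun e => ?_⟩
  have a1 := (h e).trans (mul_le_mul_of_nonneg_left
    (prob_bound_mono (Finset.subset_union_left (s₁ := S) (s₂ := S')) (le_refl n) e) hC)
  have a2 := (h' e).trans (mul_le_mul_of_nonneg_left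
    (prob_bound_mono (Finset.subset_union_right (s₁ := S) (s₂ := S')) (le_refl n') e) hC')
  rw [abs_mul, pow_add, mul_mul_mul_comm]
  exact mul_le_mul a1 a2 (abs_nonneg _) ((abs_nonneg _).trans a1)

lemma PG.const_mul (hf : PG f) (t : ℝ) : PG (fun e => t * f e) := (pg_const t).mul hf

lemma PG.sub (hf : PG f) (hg : PG g) : PG (fun e => f e - g e) := by
  have := hf.add (hg.const_mul (-1))
  simpa [sub_eq_add_neg] using this

lemma PG.pow (hf : PG f) (n : ℕ) : PG (fun e => f e ^ n) := by
  induction n with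
  | zero => simpa using pg_const 1
  | succ n ih => simpa [pow_succ] using ih.mul hf

lemma PG.abs (hf : PG f) : PG (fun e => |f e|) := by
  obtain ⟨hm, S, C, n, hC, h⟩ := hf
  exact ⟨hm.abs, S, C, n, hC, fun e => by rw [abs_abs]; exact h e⟩

lemma PG.max (hf : PG f) (hg : PG g) : PG (fun e => max (f e) (g e)) :=
  (hf.abs.add hg.abs).of_le (hf.1.max hg.1) fun e => by
    have h1 := abs_nonneg (f e)
    have h2 := abs_nonneg (g e)
    rcases le_total (f e) (g e) with h | h
    · rw [max_eq_right h]; linarith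
    · rw [max_eq_left h]; linarith

lemma PG.min (hf : PG f) (hg : PG g) : PG (fun e => min (f e) (g e)) :=
  (hf.abs.add hg.abs).of_le (hf.1.min hg.1) fun e => by
    have h1 := abs_nonneg (f e)
    have h2 := abs_nonneg (g e)
    rcases le_total (f e) (g e) with h | h
    · rw [min_eq_left h]; linarith
    · rw [min_eq_right h]; linarith

lemma pg_sum {ι : Type*} (s : Finset ι) {f : ι → Env → ℝ} (hf : ∀ i ∈ s, PG (f i)) :
    PG (fun e => ∑ i ∈ s, f i e) := by
  classical
  induction s using Finset.induction_on with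
  | empty => simpa using pg_const 0
  | insert i s hi ih =>
    simp only [Finset.sum_insert hi]
    exact (hf i (Finset.mem_insert_self _ _)).add
      (ih fun j hj => hf j (Finset.mem_insert_of_mem hj))

lemma pg_indicator {A : Set Env} (hA : MeasurableSet A) : PG (A.indicator 1) :=
  (pg_const 1).of_le (measurable_one.indicator hA) fun e => by
    by_cases h : e ∈ A <;> simp [Set.indicator, h]

/-- composition with a map whose coordinates have polynomial growth -/
lemma PG.comp (hf : PG f) {Φ : Env → Env} (hΦ : ∀ z, PG (fun e => Φ e z)) :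
    PG (fun e => f (Φ e)) := by
  obtain ⟨hm, S, C, n, hC, h⟩ := hf
  exact ((((pg_const 1).add (pg_sum S fun z _ => (hΦ z).abs)).pow n).const_mul C).of_le
    (hm.comp (measurable_pi_lambda _ fun z => (hΦ z).1)) fun e => h (Φ e)

lemma PG.update (hf : PG f) (i : Site) (x : ℝ) : PG (fun e => f (Function.update e i x)) :=
  hf.comp fun z => by
    by_cases hz : z = i
    · subst hz; simpa using pg_const x
    · simpa [Function.update_of_ne hz] using pg_coord z

lemma PG.iV (hf : PG f) (i : Site) : PG (iV f i) :=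
  (pg_const 1).of_le
    (Measurable.ite (measurableSet_lt (hf.update i 0).1 hf.1) measurable_const measurable_const)
    fun e => by
      unfold MP_9957ef_pr.iV
      split_ifs <;> simp

lemma PG.reindex (hf : PG f) (σ : Site → Site) : PG (fun e => f (fun z => e (σ z))) :=
  hf.comp fun z => pg_coord (σ z)

lemma PG.fiber (hf : PG f) (S : Set Site) (e : Env) : PG (fun e' => f (pw S e' e)) :=
  hf.comp fun z => by
    by_cases hz : z ∈ S
    · simpa [prob_pw_mem hz] using pg_coord z
    · simpa [prob_pw_not hz] using pg_const (e z)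

lemma PG.integrable_update (hf : PG f) (e : Env) (i : Site) :
    Integrable (fun x => f (Function.update e i x)) ex := by
  have h := (hf.fiber {i} e).integrable
  simp only [prob_pw_single] at h
  exact ((mp_eval i).integrable_comp (g := fun x => f (Function.update e i x))
    (hf.1.comp (measurable_update e)).aestronglyMeasurable).1 h

lemma prob_pw_bound (S : Set Site) (T : Finset Site) (e' e : Env) :
    1 + ∑ z ∈ T, |pw S e' e z| ≤ (1 + ∑ z ∈ T, |e z|) * (1 + ∑ z ∈ T, |e' z|) := by
  have h1 : ∑ z ∈ T, |pw S e' e z| ≤ ∑ z ∈ T, |e z| + ∑ z ∈ T, |e' z| := by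
    rw [← Finset.sum_add_distrib]
    refine Finset.sum_le_sum fun z _ => ?_
    have := abs_nonneg (e z)
    have := abs_nonneg (e' z)
    by_cases hz : z ∈ S
    · rw [prob_pw_mem hz]; linarith
    · rw [prob_pw_not hz]; linarith
  have h2 : 0 ≤ ∑ z ∈ T, |e z| := Finset.sum_nonneg fun _ _ => abs_nonneg _
  have h3 : 0 ≤ ∑ z ∈ T, |e' z| := Finset.sum_nonneg fun _ _ => abs_nonneg _
  nlinarith [mul_nonneg h2 h3]

lemma PG.cE (hf : PG f) (S : Set Site) : PG (cE S f) := by
  have hf' := hf
  obtain ⟨hm, T, C, n, hC, h⟩ := hf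
  refine ⟨?_, T, C * ∫ e', (1 + ∑ z ∈ T, |e' z|) ^ n ∂mu, n,
    mul_nonneg hC (integral_nonneg fun e' => by positivity), fun e => ?_⟩
  · exact (StronglyMeasurable.integral_prod_right' (ν := mu)
      (f := fun p : Env × Env => f (pw S p.2 p.1))
      (hm.comp (measurable_pw S)).stronglyMeasurable).measurable
  · have h1 : |MP_9957ef_pr.cE S f e| ≤
        ∫ e', (C * (1 + ∑ z ∈ T, |e z|) ^ n) * (1 + ∑ z ∈ T, |e' z|) ^ n ∂mu := by
      unfold MP_9957ef_pr.cE
      refine (abs_integral_le_integral_abs).trans (integral_mono (hf'.fiber S e).integrable.abs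
        ((prob_integrable_bound T n).const_mul _) fun e' => ?_)
      refine (h _).trans ?_
      rw [mul_assoc, ← mul_pow]
      exact mul_le_mul_of_nonneg_left (pow_le_pow_left₀
        (zero_le_one.trans (prob_one_le T _)) (prob_pw_bound S T e' e) n) hC
    rw [integral_const_mul] at h1
    calc _ ≤ _ := h1
      _ = _ := by ring

lemma pg_LR (S : Finset Site) {κ : Site → ℝ} (hκ : ∀ z, 0 ≤ κ z) : PG (LR S κ) := by
  refine (pg_const (∏ z ∈ S, (1 + κ z))).of_le ?_ fun e => ?_
  · unfold LR
    exact Finset.measurable_prod _ fun z _ => by fun_prop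
  · unfold LR
    rw [abs_of_nonneg (Finset.prod_nonneg fun z _ => by have := hκ z; positivity)]
    refine Finset.prod_le_prod (fun z _ => by have := hκ z; positivity) fun z _ => ?_
    have h1 : Real.exp (-(κ z * |e z|)) ≤ 1 :=
      Real.exp_le_one_iff.2 (by have := mul_nonneg (hκ z) (abs_nonneg (e z)); linarith)
    have := hκ z
    nlinarith

lemma PG.tilt (hf : PG f) (S : Finset Site) {κ : Site → ℝ} (hκ : ∀ z, 0 ≤ κ z) :
    PG (fun e => f (tilt S κ e)) :=
  hf.comp fun z => by
    have := hκ z
    unfold MP_9957ef_pr.tilt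
    by_cases hz : z ∈ S
    · simpa [hz, div_eq_inv_mul] using (pg_coord z).const_mul (1 + κ z)⁻¹
    · simpa [hz] using pg_coord z

/-! ### the resampling operator -/

lemma integral_cE (S : Set Site) (hf : PG f) : ∫ e, cE S f e ∂mu = ∫ e, f e ∂mu := by
  have hi : Integrable (fun p : Env × Env => f (pw S p.2 p.1)) (mu.prod mu) :=
    ((mp_pw S).integrable_comp hf.1.aestronglyMeasurable).2 hf.integrable
  have h1 := integral_prod _ hi
  have h2 : ∫ p : Env × Env, f (pw S p.2 p.1) ∂(mu.prod mu) = ∫ e, f e ∂mu := by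
    have := integral_map (μ := mu.prod mu) (measurable_pw S).aemeasurable
      (f := f) hf.1.aestronglyMeasurable
    rw [(mp_pw S).map_eq] at this
    exact this.symm
  rw [← h2, h1]
  rfl

lemma prob_pw_pw (S : Set Site) (u e' e : Env) : pw S u (pw S e' e) = pw S u e := by
  funext z
  by_cases hz : z ∈ S
  · simp only [prob_pw_mem hz]
  · simp only [prob_pw_not hz]

lemma cE_pw (S : Set Site) (f : Env → ℝ) (e' e : Env) : cE S f (pw S e' e) = cE S f e := by
  simp only [cE, prob_pw_pw]

lemma cE_of_dependsOn {S : Set Site} (df : DependsOn f Sᶜ) (e : Env) : cE S f e = f e := by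
  simp [cE, prob_dep_right df]

lemma cE_of_dependsOn' {S : Set Site} (df : DependsOn f S) (e : Env) :
    cE S f e = ∫ e', f e' ∂mu := by
  simp only [cE, prob_dep_left df]

lemma dependsOn_cE {D : Set Site} (df : DependsOn f D) (S : Set Site) :
    DependsOn (cE S f) (D \ S) := by
  intro x y hxy
  unfold cE
  congr 1
  funext u
  refine df fun z hz => ?_
  by_cases hS : z ∈ S
  · simp only [prob_pw_mem hS]
  · simp only [prob_pw_not hS]
    exact hxy z ⟨hz, hS⟩

lemma prob_dependsOn_cE (S : Set Site) (f : Env → ℝ) : DependsOn (cE S f) Sᶜ := by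
  have := dependsOn_cE (dependsOn_univ f) S
  rwa [← Set.compl_eq_univ_sdiff] at this

lemma cE_mul_left {S : Set Site} (df : DependsOn f Sᶜ) (g : Env → ℝ) (e : Env) :
    cE S (fun e => f e * g e) e = f e * cE S g e := by
  simp only [cE, prob_dep_right df]
  exact integral_const_mul _ _

lemma cE_cE (S S' : Set Site) (hf : PG f) (e : Env) :
    cE S (cE S' f) e = cE (S ∪ S') f e := by
  have h1 : ∀ e1 e2, pw S' e2 (pw S e1 e) = pw (S ∪ S') (pw S' e2 e1) e := by
    intro e1 e2
    funext z
    by_cases h' : z ∈ S'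
    · rw [prob_pw_mem h', prob_pw_mem (Set.mem_union_right S h'), prob_pw_mem h']
    · by_cases h : z ∈ S
      · rw [prob_pw_not h', prob_pw_mem h, prob_pw_mem (Set.mem_union_left S' h), prob_pw_not h']
      · rw [prob_pw_not h', prob_pw_not h, prob_pw_not (S := S ∪ S') (fun hh => hh.elim h h')]
  have h2 := integral_cE S' (hf.fiber (S ∪ S') e)
  simp only [cE, h1] at h2 ⊢
  exact h2

lemma cE_single (i : Site) (hf : Measurable f) (e : Env) :
    cE {i} f e = ∫ x, f (Function.update e i x) ∂ex := by
  simp only [cE, prob_pw_single]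
  have := integral_map (μ := mu) (mp_eval i).measurable.aemeasurable
    (f := fun x => f (Function.update e i x))
    (hf.comp (measurable_update e)).aestronglyMeasurable
  rw [(mp_eval i).map_eq] at this
  exact this.symm

lemma cE_mono (S : Set Site) (hf : PG f) (hg : PG g) (h : ∀ e, f e ≤ g e) (e : Env) :
    cE S f e ≤ cE S g e :=
  integral_mono (hf.fiber S e).integrable (hg.fiber S e).integrable fun _ => h _

lemma cE_nonneg (S : Set Site) (h : ∀ e, 0 ≤ f e) (e : Env) : 0 ≤ cE S f e :=
  integral_nonneg fun _ => h _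

lemma cE_const (S : Set Site) (t : ℝ) (e : Env) : cE S (fun _ => t) e = t := by
  simp [cE]

lemma cE_add (S : Set Site) (hf : PG f) (hg : PG g) (e : Env) :
    cE S (fun e => f e + g e) e = cE S f e + cE S g e :=
  integral_add (hf.fiber S e).integrable (hg.fiber S e).integrable

lemma cE_sub (S : Set Site) (hf : PG f) (hg : PG g) (e : Env) :
    cE S (fun e => f e - g e) e = cE S f e - cE S g e :=
  integral_sub (hf.fiber S e).integrable (hg.fiber S e).integrable

lemma cE_const_mul (S : Set Site) (t : ℝ) (f : Env → ℝ) (e : Env) :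
    cE S (fun e => t * f e) e = t * cE S f e :=
  integral_const_mul _ _

lemma cE_sum (S : Set Site) {ι : Type*} (s : Finset ι) {f : ι → Env → ℝ}
    (hf : ∀ i ∈ s, PG (f i)) (e : Env) :
    cE S (fun e => ∑ i ∈ s, f i e) e = ∑ i ∈ s, cE S (f i) e :=
  integral_finsetSum (f := fun i e' => f i (pw S e' e)) s
    fun i hi => ((hf i hi).fiber S e).integrable

lemma prob_sq_sub (hf : PG f) (hg : PG g) (t : ℝ) :
    ∫ e, (f e - t * g e) ^ 2 ∂mu =
      ∫ e, f e ^ 2 ∂mu - 2 * t * ∫ e, f e * g e ∂mu + t ^ 2 * ∫ e, g e ^ 2 ∂mu := by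
  have h1 : ∀ e, (f e - t * g e) ^ 2 =
      (f e ^ 2 - (2 * t) * (f e * g e)) + t ^ 2 * g e ^ 2 := fun e => by ring
  simp only [h1]
  rw [integral_add ((hf.pow 2).sub ((hf.mul hg).const_mul _)).integrable
      ((hg.pow 2).const_mul _).integrable,
    integral_sub (hf.pow 2).integrable ((hf.mul hg).const_mul _).integrable,
    integral_const_mul, integral_const_mul]

lemma prob_sq_integral_le (hf : PG f) : (∫ e, f e ∂mu) ^ 2 ≤ ∫ e, f e ^ 2 ∂mu := by
  have h := prob_sq_sub hf (pg_const 1) (∫ e, f e ∂mu)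
  have h0 : 0 ≤ ∫ e, (f e - (∫ e, f e ∂mu) * 1) ^ 2 ∂mu := integral_nonneg fun _ => sq_nonneg _
  rw [h] at h0
  simp only [mul_one, one_pow, integral_const, probReal_univ, smul_eq_mul] at h0
  nlinarith

lemma sq_cE_le (S : Set Site) (hf : PG f) (e : Env) :
    cE S f e ^ 2 ≤ cE S (fun e => f e ^ 2) e :=
  prob_sq_integral_le (hf.fiber S e)

lemma integral_mul_indep {S : Set Site} (hf : PG f) (hg : PG g) (df : DependsOn f S)
    (dg : DependsOn g Sᶜ) : ∫ e, f e * g e ∂mu = (∫ e, f e ∂mu) * ∫ e, g e ∂mu := by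
  rw [← integral_cE S (hf.mul hg)]
  have h : ∀ e, cE S (fun e => f e * g e) e = (∫ e, f e ∂mu) * g e := by
    intro e
    have := cE_mul_left dg f e
    rw [cE_of_dependsOn' df] at this
    simp only [mul_comm (f _)]
    rw [this, mul_comm]
  simp only [h]
  exact integral_const_mul _ _

lemma integral_mul_le_sqrt (hf : PG f) (hg : PG g) :
    ∫ e, f e * g e ∂mu ≤ Real.sqrt (∫ e, f e ^ 2 ∂mu) * Real.sqrt (∫ e, g e ^ 2 ∂mu) := by
  have hA : 0 ≤ ∫ e, f e ^ 2 ∂mu := integral_nonneg fun _ => sq_nonneg _
  have h : discrim (∫ e, g e ^ 2 ∂mu) (-(2 * ∫ e, f e * g e ∂mu)) (∫ e, f e ^ 2 ∂mu) ≤ 0 := by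
    refine discrim_le_zero fun t => ?_
    have h0 : 0 ≤ ∫ e, (f e - t * g e) ^ 2 ∂mu := integral_nonneg fun _ => sq_nonneg _
    rw [prob_sq_sub hf hg] at h0
    nlinarith
  rw [← Real.sqrt_mul hA]
  refine (le_abs_self _).trans (Real.abs_le_sqrt ?_)
  unfold discrim at h
  nlinarith

lemma prob_orth {S : Set Site} (hf : PG f) (hg : PG g) (dg : DependsOn g Sᶜ) :
    ∫ e, (f e - cE S f e) * g e ∂mu = 0 := by
  rw [← integral_cE S ((hf.sub (hf.cE S)).mul hg)]
  have h : ∀ e, cE S (fun e => (f e - cE S f e) * g e) e = 0 := by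
    intro e
    have := cE_mul_left dg (fun e => f e - cE S f e) e
    rw [cE_sub S hf (hf.cE S), cE_of_dependsOn (prob_dependsOn_cE S f), sub_self, mul_zero] at this
    simp only [mul_comm _ (g _)]
    exact this
  simp [h]

lemma prob_pyth {S : Set Site} (hf : PG f) (hg : PG g) (dg : DependsOn g Sᶜ) :
    ∫ e, (f e - g e) ^ 2 ∂mu =
      ∫ e, (f e - cE S f e) ^ 2 ∂mu + ∫ e, (cE S f e - g e) ^ 2 ∂mu := by
  have dh : DependsOn (fun e => cE S f e - g e) Sᶜ := fun x y hxy => by
    simp only [prob_dependsOn_cE S f hxy, dg hxy]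
  have h := prob_sq_sub (hf.sub (hf.cE S)) ((hf.cE S).sub hg) (-1)
  rw [prob_orth hf ((hf.cE S).sub hg) dh] at h
  have h1 : ∀ e, f e - cE S f e - -1 * (cE S f e - g e) = f e - g e := fun e => by ring
  simp only [h1] at h
  rw [h]
  ring

/-- Pythagoras -/
lemma var_split {S S' : Set Site} (h : S ⊆ S') (hf : PG f) :
    ∫ e, (f e - cE S' f e) ^ 2 ∂mu =
      ∫ e, (f e - cE S f e) ^ 2 ∂mu + ∫ e, (cE S f e - cE S' f e) ^ 2 ∂mu :=
  prob_pyth hf (hf.cE S') ((prob_dependsOn_cE S' f).mono (Set.compl_subset_compl.2 h))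

/-- the conditional mean minimises the quadratic distance -/
lemma var_le_center {S : Set Site} (hf : PG f) (hg : PG g) (dg : DependsOn g Sᶜ) :
    ∫ e, (f e - cE S f e) ^ 2 ∂mu ≤ ∫ e, (f e - g e) ^ 2 ∂mu := by
  rw [prob_pyth hf hg dg]
  exact le_add_of_nonneg_right (integral_nonneg fun _ => sq_nonneg _)

lemma efron_stein (R : Finset Site) (hf : PG f) :
    ∫ e, (f e - cE (R : Set Site) f e) ^ 2 ∂mu ≤
      ∑ i ∈ R, ∫ e, (f e - cE {i} f e) ^ 2 ∂mu := by
  classical
  induction R using Finset.induction_on with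
  | empty =>
    have : ∀ e, cE (∅ : Set Site) f e = f e := fun e =>
      cE_of_dependsOn (by simpa using dependsOn_univ f) e
    simp [this]
  | insert i R hi ih =>
    rw [Finset.sum_insert hi, var_split (S := (R : Set Site))
      (Finset.coe_subset.2 (Finset.subset_insert i R)) hf]
    have hd := hf.sub (hf.cE {i})
    have h1 : ∀ e, cE (R : Set Site) f e - cE ((insert i R : Finset Site) : Set Site) f e =
        cE (R : Set Site) (fun e => f e - cE {i} f e) e := by
      intro e
      rw [cE_sub _ hf (hf.cE {i}), cE_cE _ _ hf, Finset.coe_insert, Set.union_singleton]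
    have h2 : ∫ e, (cE (R : Set Site) f e - cE ((insert i R : Finset Site) : Set Site) f e) ^ 2 ∂mu
        ≤ ∫ e, (f e - cE {i} f e) ^ 2 ∂mu := by
      simp only [h1]
      rw [← integral_cE (R : Set Site) (hd.pow 2)]
      exact integral_mono ((hd.cE _).pow 2).integrable ((hd.pow 2).cE _).integrable
        fun e => sq_cE_le _ hd e
    linarith

/-- Chebyshev order inequality -/
lemma prob_cheb (hf : PG f) (hg : PG g) (h : ∀ u v, (f u - f v) * (g u - g v) ≤ 0) :
    ∫ e, f e * g e ∂mu ≤ (∫ e, f e ∂mu) * ∫ e, g e ∂mu := by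
  have h1 : ∀ u, f u * g u + ∫ e, f e * g e ∂mu ≤
      (∫ e, g e ∂mu) * f u + (∫ e, f e ∂mu) * g u := by
    intro u
    have a : ∫ v, (f u * g u + f v * g v) ∂mu ≤ ∫ v, (f u * g v + g u * f v) ∂mu :=
      integral_mono ((pg_const _).add (hf.mul hg)).integrable
        ((hg.const_mul _).add (hf.const_mul _)).integrable fun v => by
          have := h u v
          simp only
          nlinarith
    rw [integral_add (pg_const _).integrable (hf.mul hg).integrable,
      integral_add (hg.const_mul _).integrable (hf.const_mul _).integrable] at a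
    simp only [integral_const_mul, integral_const, probReal_univ, smul_eq_mul, one_mul] at a
    linarith
  have a := integral_mono ((hf.mul hg).add (pg_const _)).integrable
    ((hf.const_mul _).add (hg.const_mul _)).integrable h1
  rw [integral_add (hf.mul hg).integrable (pg_const _).integrable,
    integral_add (hf.const_mul _).integrable (hg.const_mul _).integrable,
    integral_const_mul, integral_const_mul] at a
  simp only [integral_const, probReal_univ, smul_eq_mul, one_mul] at a
  linarith

lemma prob_pw_abs_le (S : Set Site) (u : Env) {e e' : Env} (h : ∀ z, |e z| ≤ |e' z|) (z : Site) :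
    |pw S u e z| ≤ |pw S u e' z| := by
  by_cases hz : z ∈ S
  · simp only [prob_pw_mem hz, le_refl]
  · simp only [prob_pw_not hz, h z]

lemma harris (S : Finset Site) (hf : PG f) (hg : PG g) (df : DependsOn f (S : Set Site))
    (dg : DependsOn g (S : Set Site)) (hi : Inc f) (hd : Inc (fun e => - g e)) :
    ∫ e, f e * g e ∂mu ≤ (∫ e, f e ∂mu) * ∫ e, g e ∂mu := by
  classical
  induction S using Finset.induction_on generalizing f g with
  | empty =>
    exact (integral_mul_indep hf hg df (by simpa using dependsOn_univ g)).le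
  | insert i S _ ih =>
    have hsub : ((insert i S : Finset Site) : Set Site) \ {i} ⊆ (S : Set Site) := by
      intro z hz
      simp only [Finset.coe_insert, Set.mem_sdiff, Set.mem_insert_iff, Finset.mem_coe,
        Set.mem_singleton_iff] at hz
      exact hz.1.resolve_left hz.2
    have h1 := ih (hf.cE {i}) (hg.cE {i}) ((dependsOn_cE df {i}).mono hsub)
      ((dependsOn_cE dg {i}).mono hsub)
      (fun e e' h => integral_mono (hf.fiber _ e).integrable (hf.fiber _ e').integrable
        fun u => hi _ _ (prob_pw_abs_le _ u h))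
      (fun e e' h => neg_le_neg (integral_mono (hg.fiber _ e').integrable
        (hg.fiber _ e).integrable fun u => neg_le_neg_iff.1 (hd _ _ (prob_pw_abs_le _ u h))))
    rw [integral_cE _ hf, integral_cE _ hg] at h1
    refine le_trans ?_ h1
    rw [← integral_cE {i} (hf.mul hg)]
    refine integral_mono ((hf.mul hg).cE _).integrable ((hf.cE _).mul (hg.cE _)).integrable
      fun e => prob_cheb (hf.fiber {i} e) (hg.fiber {i} e) fun u v => ?_
    have key : ∀ u v : Env, |u i| ≤ |v i| → ∀ z, |pw {i} u e z| ≤ |pw {i} v e z| := by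
      intro u v huv z
      by_cases hz : z ∈ ({i} : Set Site)
      · simp only [prob_pw_mem hz]
        rw [Set.mem_singleton_iff.1 hz]
        exact huv
      · simp only [prob_pw_not hz, le_refl]
    rcases le_total |u i| |v i| with h | h
    · have a1 := hi _ _ (key u v h)
      have a2 := hd _ _ (key u v h)
      simp only at a2
      nlinarith
    · have a1 := hi _ _ (key v u h)
      have a2 := hd _ _ (key v u h)
      simp only at a2
      nlinarith

lemma harris_set (S : Finset Site) (hf : Measurable f) (hg : Measurable g)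
    (df : DependsOn f (S : Set Site)) (dg : DependsOn g (S : Set Site)) (hi : Inc f)
    (hd : Inc g) (s t : ℝ) :
    mu.real {e | s ≤ f e ∧ g e ≤ t} ≤ mu.real {e | s ≤ f e} * mu.real {e | g e ≤ t} := by
  have hA : MeasurableSet {e | s ≤ f e} := measurableSet_le measurable_const hf
  have hB : MeasurableSet {e | g e ≤ t} := measurableSet_le hg measurable_const
  have h := harris S (pg_indicator hA) (pg_indicator hB)
    (fun x y hxy => by simp [Set.indicator, df hxy])
    (fun x y hxy => by simp [Set.indicator, dg hxy])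
    (fun e e' h => by
      have := hi e e' h
      by_cases h1 : s ≤ f e
      · simp [Set.indicator, h1, h1.trans this]
      · simp only [Set.indicator, Set.mem_ofPred_eq, h1, if_false]
        split_ifs <;> simp)
    (fun e e' h => by
      have := hd e e' h
      by_cases h1 : g e' ≤ t
      · simp [Set.indicator, h1, this.trans h1]
      · simp only [Set.indicator, Set.mem_ofPred_eq, h1, if_false]
        split_ifs <;> simp)
  have h2 : ∀ e, {e | s ≤ f e}.indicator (1 : Env → ℝ) e * {e | g e ≤ t}.indicator 1 e =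
      ({e | s ≤ f e} ∩ {e | g e ≤ t}).indicator 1 e := by
    intro e
    by_cases ha : s ≤ f e <;> by_cases hb : g e ≤ t <;> simp [Set.indicator, ha, hb]
  simp only [h2] at h
  rw [integral_indicator_one (hA.inter hB), integral_indicator_one hA,
    integral_indicator_one hB] at h
  exact h

/-! ### tails -/

lemma Tail.mono {K B : ℝ} (hg : Tail g K B) (h : ∀ e, f e ≤ g e) : Tail f K B :=
  fun t ht => (measureReal_mono (fun e he => le_trans he (h e))).trans (hg t ht)

lemma Tail.weaken {K B K' B' : ℝ} (hf : Tail f K B) (hK : K ≤ K') (hB : B ≤ B') :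
    Tail f K' B' := fun t ht =>
  ((measureReal_mono (fun _ he => le_trans (mul_le_mul_of_nonneg_left hK ht) he)).trans
    (hf t ht)).trans (mul_le_mul_of_nonneg_right hB (Real.exp_pos _).le)

lemma Tail.add {K B K' B' : ℝ} (hf : Tail f K B) (hg : Tail g K' B') :
    Tail (fun e => f e + g e) (K + K') (B + B') := by
  intro t ht
  have h : {e | t * (K + K') ≤ f e + g e} ⊆ {e | t * K ≤ f e} ∪ {e | t * K' ≤ g e} := by
    intro e he
    simp only [Set.mem_ofPred_eq, Set.mem_union] at he ⊢
    by_contra hc
    push Not at hc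
    linarith [hc.1, hc.2]
  have h1 := (measureReal_mono (μ := mu) h).trans (measureReal_union_le _ _)
  have h2 := hf t ht
  have h3 := hg t ht
  rw [add_mul]
  linarith

lemma Tail.const_mul {K B t : ℝ} (hf : Tail f K B) (ht : 0 < t) :
    Tail (fun e => t * f e) (t * K) B := by
  intro s hs
  refine (measureReal_mono fun e he => ?_).trans (hf s hs)
  simp only [Set.mem_ofPred_eq] at he ⊢
  refine le_of_mul_le_mul_left ?_ ht
  linarith

lemma Tail.add_const {K B t : ℝ} (hf : Tail f K B) (hK : 0 < K) (ht : 0 ≤ t) (hB : 1 ≤ B) :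
    Tail (fun e => f e + t * K) K (B * Real.exp t) := by
  intro s hs
  have _ := hK
  have _ := ht
  rw [mul_assoc, ← Real.exp_add]
  rcases le_total t s with h | h
  · have h1 := hf (s - t) (by linarith)
    rw [show -(s - t) = t + -s by ring] at h1
    refine (measureReal_mono fun e he => ?_).trans h1
    simp only [Set.mem_ofPred_eq] at he ⊢
    linarith
  · have h1 : 1 ≤ Real.exp (t + -s) := Real.one_le_exp (by linarith)
    have h2 : mu.real {e | s * K ≤ f e + t * K} ≤ 1 := measureReal_le_one
    nlinarith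

lemma Tail.comp {K B : ℝ} (hf : Tail f K B) {Φ : Env → Env} (hΦ : MeasurePreserving Φ mu mu) :
    Tail (fun e => f (Φ e)) K B :=
  fun t ht => (real_preimage_le hΦ {e | t * K ≤ f e}).trans (hf t ht)

lemma Tail.prob_nonneg {K B : ℝ} (hf : Tail f K B) : 0 ≤ B := by
  have := (measureReal_nonneg).trans (hf 0 le_rfl)
  simpa using this

lemma Tail.prob_moment {K B : ℝ} (hf : Tail f K B) (hK : 0 < K) (hp : PG f) {p : ℝ} (h0 : 0 < p)
    (hi : Integrable (fun e => (max (f e) 0) ^ p) mu) :
    ∫ e, (max (f e) 0) ^ p ∂mu ≤ p * B * (K ^ p * Real.Gamma p) := by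
  have hB := hf.prob_nonneg
  have hnn : ∀ e, 0 ≤ max (f e) 0 := fun e => le_max_right _ _
  have h1 := lintegral_rpow_eq_lintegral_meas_le_mul mu (f := fun e => max (f e) 0)
    (Filter.Eventually.of_forall hnn) (hp.1.max measurable_const).aemeasurable h0
  have hint : IntegrableOn (fun t : ℝ => t ^ (p - 1) * Real.exp (-(K⁻¹ * t))) (Set.Ioi 0) := by
    have := integrableOn_rpow_mul_exp_neg_mul_rpow (s := p - 1) (p := 1) (b := K⁻¹)
      (by linarith) one_pos (inv_pos.2 hK)
    simpa using this
  have h2 : ∫⁻ t in Set.Ioi (0 : ℝ), mu {e | t ≤ max (f e) 0} * ENNReal.ofReal (t ^ (p - 1)) ≤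
      ENNReal.ofReal (B * (K ^ p * Real.Gamma p)) := by
    have e1 := Real.integral_rpow_mul_exp_neg_mul_Ioi h0 (inv_pos.2 hK)
    rw [one_div, inv_inv] at e1
    rw [← e1, ← integral_const_mul, ofReal_integral_eq_lintegral_ofReal (hint.const_mul B)]
    · refine setLIntegral_mono' measurableSet_Ioi fun t ht => ?_
      have ht' : 0 < t := ht
      have a1 : mu.real {e | t ≤ max (f e) 0} ≤ B * Real.exp (-(K⁻¹ * t)) := by
        refine (measureReal_mono fun e he => ?_).trans (hf (K⁻¹ * t) (by positivity))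
        simp only [Set.mem_ofPred_eq] at he ⊢
        have : K⁻¹ * t * K = t := by field_simp
        rw [this]
        rcases le_max_iff.1 he with h | h
        · exact h
        · linarith
      rw [← ofReal_measureReal (measure_ne_top _ _),
        ← ENNReal.ofReal_mul measureReal_nonneg]
      refine ENNReal.ofReal_le_ofReal ?_
      have a2 : 0 ≤ t ^ (p - 1) := Real.rpow_nonneg ht'.le _
      nlinarith [mul_le_mul_of_nonneg_right a1 a2]
    · filter_upwards [ae_restrict_mem measurableSet_Ioi] with t ht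
      have ht' : 0 < t := ht
      positivity
  rw [← ofReal_integral_eq_lintegral_ofReal hi
    (Filter.Eventually.of_forall fun e => Real.rpow_nonneg (hnn e) _)] at h1
  have h3 := h1.le.trans (mul_le_mul_right h2 _)
  rw [← ENNReal.ofReal_mul h0.le, ENNReal.ofReal_le_ofReal_iff
    (by have := Real.Gamma_pos_of_pos h0; positivity)] at h3
  linarith

lemma Tail.integral_sq {K B : ℝ} (hf : Tail f K B) (hK : 0 < K) (hp : PG f) :
    ∫ e, (max (f e) 0) ^ 2 ∂mu ≤ 2 * B * K ^ 2 := by
  have h := hf.prob_moment hK hp (p := 2) two_pos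
    (by simpa using ((hp.max (pg_const 0)).pow 2).integrable)
  simpa using h

lemma Tail.integral_pos {K B : ℝ} (hf : Tail f K B) (hK : 0 < K) (hp : PG f) :
    ∫ e, max (f e) 0 ∂mu ≤ B * K := by
  have h := hf.prob_moment hK hp (p := 1) one_pos
    (by simpa using (hp.max (pg_const 0)).integrable)
  simpa using h

lemma real_le_of_sq (hf : PG f) {t : ℝ} (ht : 0 < t) :
    mu.real {e | t ≤ |f e|} ≤ (∫ e, f e ^ 2 ∂mu) / t ^ 2 := by
  have h := mul_meas_ge_le_integral_of_nonneg (μ := mu) (f := fun e => f e ^ 2)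
    (Filter.Eventually.of_forall fun _ => sq_nonneg _) (hf.pow 2).integrable (t ^ 2)
  rw [le_div_iff₀ (by positivity), mul_comm]
  refine le_trans (mul_le_mul_of_nonneg_left (measureReal_mono fun e he => ?_) (sq_nonneg _)) h
  simp only [Set.mem_ofPred_eq] at he ⊢
  rw [← sq_abs (f e)]
  exact pow_le_pow_left₀ ht.le he 2

end Pool.Agent.P.MP_9957ef_pr
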