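import Pool.Agent.P.MP_9957ef_pr.Det
import Pool.Agent.P.MP_9957ef_pr.Prob
import Pool.Agent.P.MP_9957ef_pr.Iface

/-! From the uniform wall to wall estimate to the scaling statement. -/

set_option autoImplicit false

noncomputable section

open MeasureTheory ProbabilityTheory Filter Topology

namespace Pool.Agent.P.MP_9957ef_pr

theorem final_det {e : Env} (he : ∀ z, 0 ≤ e z) (s δ : ℝ) (hδ : 0 ≤ δ) (a b : Site)
    (h : ∀ x y : ℤ, a.2 ≤ x → x ≤ y → y ≤ b.2 → |T s x y e - T s x y (rs e)| ≤ δ) :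
    |L 0 (fun z => if z.1 = z.2 then s * e z else e z) a b -
      L 0 (fun z => if z.1 = z.2 then s * e (z.1, z.1 + 1) else e z) a b| ≤ δ := by
  have e1 : (fun z : Site => if z.1 = z.2 then s * e z else e z) = wt (cT s) e := by
    funext z
    unfold wt cT
    rw [abs_of_nonneg (he z)]
    split_ifs <;> simp
  have e2 : L 0 (fun z => if z.1 = z.2 then s * e (z.1, z.1 + 1) else e z) a b =
      L 0 (wt (cT s) (rs e)) a b := by
    refine L_congr fun z h1 _ => ?_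
    have h2 := h1.2.2.2
    unfold wt cT rs
    by_cases hz : z.1 = z.2
    · simp only [if_pos hz, abs_of_nonneg (he _)]
    · simp only [if_neg hz, if_neg (show ¬ z.2 = z.1 + 1 by omega), abs_of_nonneg (he _), one_mul]
  rw [e1, e2]
  refine reduce_wall hδ (fun z hz => ?_) h
  unfold wt rs
  rw [if_neg hz.ne', if_neg (by omega)]

theorem final (hMT : S_MT) :
    ∀ (Ω : Type) [MeasurableSpace Ω] (P : Measure Ω) [IsProbabilityMeasure P]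
      (E : ℤ × ℤ → Ω → ℝ),
      (∀ z, Measurable (E z)) → iIndepFun E P →
      (∀ z, Measure.map (E z) P = expMeasure 1) →
      ∀ (G : (ℤ × ℤ → ℝ) → ℤ × ℤ → ℤ × ℤ → ℝ),
      (∀ W a b, G W a b = sSup {w : ℝ | ∃ (m : ℕ) (π : ℕ → ℤ × ℤ), π 0 = a ∧ π m = b ∧
          (∀ k < m, π (k + 1) = π k + (1, 0) ∨ π (k + 1) = π k + (0, 1)) ∧
          (∀ k ≤ m, (π k).2 ≤ (π k).1) ∧
          w = ∑ k ∈ Finset.range (m + 1), W (π k)}) →
      ∀ (U : ℕ → ℝ → ℝ → ℤ × ℤ),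
      (∀ n x s, U n x s = (⌊(n : ℝ) * s + (2 : ℝ) ^ ((5 : ℝ) / 3) * (n : ℝ) ^ ((2 : ℝ) / 3) * x⌋,
          ⌊(n : ℝ) * s⌋)) →
      ∀ (h : ℕ → ℝ → ℝ → ℝ),
      (∀ n x s, h n x s = 4 * (n : ℝ) * s + (2 : ℝ) ^ ((8 : ℝ) / 3) * (n : ℝ) ^ ((2 : ℝ) / 3) * x) →
      ∀ (Lsc : ℕ → (ℤ × ℤ → ℝ) → ℝ × ℝ × ℝ × ℝ → ℝ),
      (∀ n W p, Lsc n W p = (2 : ℝ) ^ (-(4 : ℝ) / 3) * (n : ℝ) ^ (-(1 : ℝ) / 3) *
          (G W (U n p.1 p.2.1) (U n p.2.2.1 p.2.2.2) - (h n p.2.2.1 p.2.2.2 - h n p.1 p.2.1))) →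
      ∀ (ρ : ℝ) (K : Set (ℝ × ℝ × ℝ × ℝ)), IsCompact K →
      K ⊆ {p | 0 ≤ p.1 ∧ 0 ≤ p.2.2.1 ∧ p.2.1 < p.2.2.2} →
      ∀ ε : ℝ, 0 < ε →
      Tendsto (fun n : ℕ => P {ω | ∃ p ∈ K, U n p.1 p.2.1 ≤ U n p.2.2.1 p.2.2.2 ∧
          ε < |Lsc n (fun z => if z.1 = z.2
                then (1 / 2 - (2 : ℝ) ^ (-(4 : ℝ) / 3) * ρ * (n : ℝ) ^ (-(1 : ℝ) / 3))⁻¹ * E z ω
                else E z ω) p
              - Lsc n (fun z => if z.1 = z.2
                then (1 / 2 - (2 : ℝ) ^ (-(4 : ℝ) / 3) * ρ * (n : ℝ) ^ (-(1 : ℝ) / 3))⁻¹ * E (z.1, z.1 + 1) ω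
                else E z ω) p|})
        atTop (𝓝 0) := by
  intro Ω _ P _ E hEm hEi hEl G hG U hU h _ Lsc hL ρ K hK _ ε hε
  have hΦm : Measurable (fun ω z => E z ω) := measurable_pi_lambda _ hEm
  have hlaw : P.map (fun ω z => E z ω) = mu := by
    rw [(iIndepFun_iff_map_fun_eq_infinitePi_map hEm).1 hEi]
    unfold mu ex
    simp only [hEl]
  have hGL : ∀ W a b, G W a b = L 0 W a b := by
    intro W a b
    rw [hG]
    unfold L IsPath pval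
    simp only [add_zero, and_assoc]
  obtain ⟨R, hR⟩ : ∃ R : ℕ, ∀ p ∈ K, |p.2.1| ≤ R ∧ |p.2.2.2| ≤ R := by
    obtain ⟨C, hC⟩ := hK.isBounded.exists_norm_le
    refine ⟨⌈C⌉₊, fun p hp => ?_⟩
    have h1 := (hC p hp).trans (Nat.le_ceil C)
    have h2 := (norm_snd_le p).trans h1
    exact ⟨(norm_fst_le p.2).trans h2, (norm_snd_le p.2.2).trans ((norm_snd_le p.2).trans h2)⟩
  have hc0 : (0 : ℝ) < 2 ^ (-(4 : ℝ) / 3) := by positivity
  have hc1 : (2 : ℝ) ^ (-(4 : ℝ) / 3) ≤ 1 :=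
    Real.rpow_le_one_of_one_le_of_nonpos (by norm_num) (by norm_num)
  rw [ENNReal.tendsto_nhds_zero]
  intro η hη
  obtain ⟨η', hη'0, hη'⟩ : ∃ η' : ℝ, 0 < η' ∧ ENNReal.ofReal η' ≤ η := by
    by_cases ht : η = ⊤
    · exact ⟨1, one_pos, ht ▸ le_top⟩
    · exact ⟨η.toReal, ENNReal.toReal_pos hη.ne' ht, (ENNReal.ofReal_toReal ht).le⟩
  have hρ := abs_nonneg ρ
  have hR0 : (0 : ℝ) ≤ R := Nat.cast_nonneg R
  obtain ⟨ν0, hν0⟩ := hMT (2 * R + |ρ| + 1) ε η' (by linarith) hε hη'0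
  have hev : ∀ᶠ n : ℕ in atTop, ν0 ≤ (n : ℝ) ^ ((1 : ℝ) / 3) :=
    ((tendsto_rpow_atTop (by norm_num)).comp tendsto_natCast_atTop_atTop).eventually_ge_atTop ν0
  filter_upwards [hev, eventually_gt_atTop 0] with n hn hn0
  have hn' : (0 : ℝ) < n := by exact_mod_cast hn0
  set ν : ℝ := (n : ℝ) ^ ((1 : ℝ) / 3) with hν
  have hνp : 0 < ν := by positivity
  have hν3 : ν ^ 3 = n := by
    rw [hν, ← Real.rpow_natCast, ← Real.rpow_mul hn'.le]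
    norm_num
  have hνi : (n : ℝ) ^ (-(1 : ℝ) / 3) = ν⁻¹ := by
    rw [hν, ← Real.rpow_neg hn'.le]
    congr 1
    ring
  have hx : |(2 : ℝ) ^ (-(4 : ℝ) / 3) * ρ * ν⁻¹| ≤ (2 * R + |ρ| + 1) / ν := by
    rw [abs_mul, abs_mul, abs_of_pos hc0, abs_of_pos (inv_pos.2 hνp), div_eq_mul_inv _ ν]
    refine mul_le_mul_of_nonneg_right ?_ (inv_pos.2 hνp).le
    nlinarith
  have key := hν0 ν hn _ hx (-((n : ℤ) * R)) (2 * ((n : ℤ) * R)) (by
    rw [hν3]; push_cast; nlinarith)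
  set A := {e : Env | ∃ a b : ℤ, -((n : ℤ) * R) ≤ a ∧ a ≤ b ∧
    b ≤ -((n : ℤ) * R) + 2 * ((n : ℤ) * R) ∧
      ε * ν < |T (q ((2 : ℝ) ^ (-(4 : ℝ) / 3) * ρ * ν⁻¹)) a b e -
        T (q ((2 : ℝ) ^ (-(4 : ℝ) / 3) * ρ * ν⁻¹)) a b (rs e)|} with hA
  have hnull : mu {e : Env | ¬ ∀ z, 0 ≤ e z} = 0 := ae_iff.1 ae_nonneg
  have hA' : mu A ≤ η := by
    refine le_trans ?_ hη'
    rw [← ofReal_measureReal (measure_ne_top mu A)]
    exact ENNReal.ofReal_le_ofReal key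
  refine le_trans (measure_mono (t := (fun ω z => E z ω) ⁻¹' (A ∪ {e : Env | ¬ ∀ z, 0 ≤ e z}))
    ?_) ?_
  · rintro ω ⟨p, hp, -, hlt⟩
    by_contra hc
    simp only [Set.mem_preimage, Set.mem_union, not_or, Set.mem_setOf_eq, not_not] at hc
    obtain ⟨h1, h2⟩ := hc
    obtain ⟨r1, r2⟩ := hR p hp
    have hd := final_det (e := fun z => E z ω) h2 (q ((2 : ℝ) ^ (-(4 : ℝ) / 3) * ρ * ν⁻¹))
      (ε * ν) (by positivity) (U n p.1 p.2.1) (U n p.2.2.1 p.2.2.2) (by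
        intro x y a1 a2 a3
        by_contra hc
        refine h1 ⟨x, y, le_trans ?_ a1, a2, le_trans a3 ?_, not_le.1 hc⟩
        · rw [hU]
          refine Int.le_floor.2 ?_
          have := (abs_le.1 r1).1
          push_cast
          nlinarith
        · rw [hU]
          have := (abs_le.1 r2).2
          have h3 := Int.floor_le ((n : ℝ) * p.2.2.2)
          have h4 : ((⌊(n : ℝ) * p.2.2.2⌋ : ℤ) : ℝ) ≤
              ((-((n : ℤ) * R) + 2 * ((n : ℤ) * R) : ℤ) : ℝ) := by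
            push_cast
            nlinarith
          exact_mod_cast h4)
    rw [hL, hL, hGL, hGL, hνi, ← mul_sub, sub_sub_sub_cancel_right, abs_mul, abs_mul,
      abs_of_pos hc0, abs_of_pos (inv_pos.2 hνp)] at hlt
    unfold q at hd
    have h5 := mul_le_mul_of_nonneg_left hd (mul_pos hc0 (inv_pos.2 hνp)).le
    have h6 : (2 : ℝ) ^ (-(4 : ℝ) / 3) * ν⁻¹ * (ε * ν) = 2 ^ (-(4 : ℝ) / 3) * ε := by
      field_simp
    nlinarith
  · refine (Measure.le_map_apply hΦm.aemeasurable _).trans ?_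
    rw [hlaw]
    refine (measure_union_le _ _).trans ?_
    rw [hnull, add_zero]
    exact hA'

end Pool.Agent.P.MP_9957ef_pr
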