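import Pool.Agent.P.MP_9957ef_pr.Det
import Pool.Agent.P.MP_9957ef_pr.Prob
import Pool.Agent.P.MP_9957ef_pr.Iface

/-! From single passage times to a uniform statement: dyadic chaining and a net. -/

set_option autoImplicit false

noncomputable section

open MeasureTheory ProbabilityTheory Finset

namespace Pool.Agent.P.MP_9957ef_pr

namespace Mt

/-- dyadic positions -/
def dy (a0 : ℤ) (j r : ℕ) : ℤ := a0 + r * 2 ^ j

lemma dy_succ (a0 : ℤ) (j r : ℕ) : dy a0 (j + 1) r = dy a0 j (2 * r) := by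
  unfold dy; push_cast; ring

lemma dy_add (a0 : ℤ) (j r s : ℕ) : dy a0 j (r + s) = dy a0 j r + s * 2 ^ j := by
  unfold dy; push_cast; ring

lemma dy_lt (a0 : ℤ) (j : ℕ) {r s : ℕ} (h : r < s) : dy a0 j r < dy a0 j s := by
  unfold dy
  have : (r : ℤ) < s := by exact_mod_cast h
  have h2 : (0 : ℤ) < 2 ^ j := by positivity
  nlinarith

lemma dy_le (a0 : ℤ) (j : ℕ) {r s : ℕ} (h : r ≤ s) : dy a0 j r ≤ dy a0 j s := by
  rcases h.eq_or_lt with rfl | h
  · exact le_rfl
  · exact (dy_lt a0 j h).le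

lemma dy_sub (a0 : ℤ) (j r s : ℕ) : ((dy a0 j (r + s) : ℤ) : ℝ) - dy a0 j r = s * 2 ^ j := by
  rw [dy_add]; push_cast; ring

lemma chain {τ : ℤ → ℤ → ℝ} (hs : ∀ u y w, u ≤ y → y ≤ w → τ u y + τ y w ≤ τ u w)
    (hge : ∀ u v : ℤ, u ≤ v → -(4 * ((v : ℝ) - u)) ≤ τ u v) (a0 : ℤ) (j0 : ℕ) (c : ℕ → ℝ)
    (hc : ∀ i, 0 ≤ c i) (n : ℕ) : ∀ K : ℕ,
    (∀ i < n, ∀ r < K * 2 ^ (n - i), -c i ≤ τ (dy a0 (j0 + i) r) (dy a0 (j0 + i) (r + 1))) →
    ∀ k < K, ∀ u v, dy a0 (j0 + n) k ≤ u → u ≤ v → v ≤ dy a0 (j0 + n) (k + 1) →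
      -(4 * 2 ^ j0 + ∑ i ∈ range n, c i) ≤ τ (dy a0 (j0 + n) k) v ∧
      -(4 * 2 ^ j0 + ∑ i ∈ range n, c i) ≤ τ u (dy a0 (j0 + n) (k + 1)) ∧
      -(2 * (4 * 2 ^ j0 + ∑ i ∈ range n, c i)) ≤ τ u v := by
  induction n with
  | zero =>
    intro K _ k _ u v h1 h2 h3
    have e := dy_sub a0 (j0 + 0) k 1
    have r1 : ((dy a0 (j0 + 0) k : ℤ) : ℝ) ≤ u := by exact_mod_cast h1
    have r2 : (u : ℝ) ≤ v := by exact_mod_cast h2
    have r3 : (v : ℝ) ≤ (dy a0 (j0 + 0) (k + 1) : ℤ) := by exact_mod_cast h3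
    have g1 := hge _ _ (h1.trans h2)
    have g2 := hge _ _ (h2.trans h3)
    have g3 := hge _ _ h2
    have p0 : (0 : ℝ) < 2 ^ j0 := by positivity
    simp only [add_zero, Nat.cast_one, one_mul, sum_range_zero] at *
    refine ⟨?_, ?_, ?_⟩ <;> linarith
  | succ n ih =>
    intro K hK k hk u v h1 h2 h3
    have IH := ih (2 * K) fun i hi r hr => hK i (by omega) r (by
      rwa [show n + 1 - i = (n - i) + 1 by omega, pow_succ, ← mul_assoc, mul_comm _ 2, ← mul_assoc])
    have b0 := hK n (by omega) (2 * k) (by rw [show n + 1 - n = 1 by omega]; omega)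
    have b1 := hK n (by omega) (2 * k + 1) (by rw [show n + 1 - n = 1 by omega]; omega)
    have I0 := IH (2 * k) (by omega)
    have I1 := IH (2 * k + 1) (by omega)
    rw [← add_assoc, dy_succ] at h1 h3 ⊢
    rw [dy_succ, sum_range_succ]
    rw [show 2 * (k + 1) = 2 * k + 1 + 1 by ring] at h3 ⊢
    have l0 := dy_le a0 (j0 + n) (Nat.le_succ (2 * k))
    have l1 := dy_le a0 (j0 + n) (Nat.le_succ (2 * k + 1))
    simp only [Nat.succ_eq_add_one] at l0 l1
    generalize dy a0 (j0 + n) (2 * k) = s at *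
    generalize dy a0 (j0 + n) (2 * k + 1 + 1) = t at *
    generalize dy a0 (j0 + n) (2 * k + 1) = m at *
    have c0 := hc n
    generalize c n = γ at *
    refine ⟨?_, ?_, ?_⟩
    · rcases le_total v m with h | h
      · have := (I0 s v le_rfl (h1.trans h2) h).1
        linarith
      · have := (I1 m v le_rfl h h3).1
        have := hs s m v l0 h
        linarith
    · rcases le_total u m with h | h
      · have := (I0 u m h1 h le_rfl).2.1
        have := hs u m t h l1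
        linarith
      · have := (I1 u t h (h2.trans h3) le_rfl).2.1
        linarith
    · rcases le_total v m with h | h
      · have := (I0 u v h1 h2 h).2.2
        linarith
      · rcases le_total u m with h' | h'
        · have := (I0 u m h1 h' le_rfl).2.1
          have := (I1 m v le_rfl h h3).1
          have := hs u m v h' h
          linarith
        · have := (I1 u v h' h2 h3).2.2
          linarith

lemma net {τ : ℤ → ℤ → ℝ} (hs : ∀ u y w, u ≤ y → y ≤ w → τ u y + τ y w ≤ τ u w) {a0 : ℤ}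
    {j K : ℕ} {D W : ℝ} (hD : 0 ≤ D) (hW : 0 ≤ W)
    (ha : ∀ k < K, ∀ u v, dy a0 j k ≤ u → u ≤ v → v ≤ dy a0 j (k + 1) →
      -D ≤ τ (dy a0 j k) v ∧ -D ≤ τ u (dy a0 j (k + 1)) ∧ -(2 * D) ≤ τ u v)
    (hb : ∀ k < K, τ (dy a0 j k) (dy a0 j (k + 2)) ≤ W)
    (hc : ∀ l < K, ∀ a, a0 ≤ a → a < dy a0 j (l + 1) →
      τ a (dy a0 j (l + 2)) ≤ τ a (dy a0 j (l + 1)) + W)
    (hd : ∀ k < K, ∀ v, dy a0 j (k + 1) < v → v ≤ dy a0 j (K + 1) →
      τ (dy a0 j k) v ≤ τ (dy a0 j (k + 1)) v + W)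
    {k l : ℕ} (hl : l + 2 ≤ K) {a b : ℤ} (h1 : dy a0 j k ≤ a) (h2 : a < dy a0 j (k + 1))
    (h3 : dy a0 j l ≤ b) (h4 : b < dy a0 j (l + 1)) (hab : a ≤ b) :
    |τ a (b + 1) - if k + 2 ≤ l then τ (dy a0 j (k + 1)) (dy a0 j l) else 0| ≤ 3 * D + 2 * W := by
  have hkl : k ≤ l := by
    by_contra h
    have := dy_le a0 j (show l + 1 ≤ k by omega)
    omega
  have A1 := (ha k (by omega) _ a le_rfl h1 h2.le).1
  have A2 := (ha k (by omega) a _ h1 h2.le le_rfl).2.1
  have B1 := (ha l (by omega) _ (b + 1) le_rfl (by omega) (by omega)).1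
  have B2 := (ha l (by omega) (b + 1) _ (by omega) (by omega) le_rfl).2.1
  have U1 := hs _ a (b + 1) h1 (by omega)
  have U2 := hs (dy a0 j k) (b + 1) (dy a0 j (l + 1)) (by omega) (by omega)
  rw [abs_le]
  split_ifs with h
  · obtain ⟨l, rfl⟩ : ∃ l', l = l' + 1 := ⟨l - 1, by omega⟩
    have p1 := dy_lt a0 j (show k + 1 < l + 1 by omega)
    have p2 := dy_le a0 j (Nat.zero_le k)
    have p3 := dy_le a0 j (show l + 1 ≤ K + 1 by omega)
    have p0 : dy a0 j 0 = a0 := by simp [dy]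
    have L1 := hs a (dy a0 j (k + 1)) (dy a0 j (l + 1)) h2.le p1.le
    have L2 := hs a (dy a0 j (l + 1)) (b + 1) (by omega) (by omega)
    have C1 := hc l (by omega) (dy a0 j k) (by omega) (by omega)
    have C2 := hd k (by omega) (dy a0 j (l + 1)) p1 p3
    constructor <;> linarith
  · have C := hb k (by omega)
    rcases hkl.eq_or_lt with rfl | h'
    · have L := (ha k (by omega) a (b + 1) h1 (by omega) (by omega)).2.2
      have p1 := dy_le a0 j (Nat.le_succ k)
      have p2 := dy_le a0 j (Nat.le_succ (k + 1))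
      have F := (ha (k + 1) (by omega) _ _ le_rfl p2 le_rfl).1
      have U3 := hs _ _ _ p1 p2
      constructor <;> linarith
    · obtain rfl : l = k + 1 := by omega
      have L := hs a (dy a0 j (k + 1)) (b + 1) h2.le (by omega)
      constructor <;> linarith

/-- centred passage time of the half open interval `[u, v)` -/
def tau (s : ℝ) (e : Env) (u v : ℤ) : ℝ :=
  if u < v then T s u (v - 1) e - 4 * ((v : ℝ) - u) else 0

lemma tau_super {s : ℝ} (hs : 0 ≤ s) (e : Env) (u y w : ℤ) (h1 : u ≤ y) (h2 : y ≤ w) :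
    tau s e u y + tau s e y w ≤ tau s e u w := by
  rcases h1.eq_or_lt with rfl | h1
  · simp [tau]
  rcases h2.eq_or_lt with rfl | h2
  · simp [tau]
  have := T_super hs (x := u) (y := y - 1) (w := w - 1) (by omega) (by omega) e
  rw [sub_add_cancel] at this
  simp only [tau, h1, h2, h1.trans h2, if_true]
  linarith

lemma tau_ge {s : ℝ} (hs : 0 ≤ s) (e : Env) (u v : ℤ) (h : u ≤ v) :
    -(4 * ((v : ℝ) - u)) ≤ tau s e u v := by
  rcases h.eq_or_lt with rfl | h
  · simp [tau]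
  have := T_nonneg hs u (v - 1) e
  simp only [tau, h, if_true]
  linarith

lemma sum_geo (n : ℕ) : ∑ m ∈ range n, ((m : ℝ) + 1) * (4 / 5) ^ m ≤ 25 := by
  have : ∑ m ∈ range n, ((m : ℝ) + 1) * (4 / 5) ^ m = 25 - (5 * n + 25) * (4 / 5) ^ n := by
    induction n with
    | zero => simp
    | succ n ih => rw [sum_range_succ, ih]; push_cast; ring
  rw [this]
  have : (0 : ℝ) ≤ (5 * n + 25) * (4 / 5) ^ n := by positivity
  linarith

lemma sum_geo2 {z : ℝ} (h0 : 0 ≤ z) (h : z ≤ 1 / 2) (n : ℕ) :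
    ∑ m ∈ range n, z ^ (m + 1) ≤ 2 * z := by
  induction n with
  | zero => simp; positivity
  | succ n ih =>
    rw [sum_range_succ']
    simp only [pow_succ _ (_ + 1), ← sum_mul]
    rw [zero_add, pow_one]
    nlinarith [mul_le_mul_of_nonneg_right ih h0]

lemma real_biUnion_le {ι : Type} (s : Finset ι) (f : ι → Set Env) {c : ℝ}
    (h : ∀ i ∈ s, mu.real (f i) ≤ c) : mu.real (⋃ i ∈ s, f i) ≤ s.card * c := by
  refine (measureReal_biUnion_finset_le s f).trans ?_
  rw [← nsmul_eq_mul]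
  exact sum_le_card_nsmul _ _ _ h

lemma bad (hTT : S_TT) (hI : S_INC) {C0 : ℝ} (hC : 0 < C0) : ∃ (A B : ℝ) (j0 : ℕ),
    0 < A ∧ 1 ≤ B ∧ ∀ (M ν x : ℝ) (L K : ℕ) (a0 : ℤ), 2 ≤ M → 0 < ν → |x| ≤ C0 / ν → 0 ≤ q x →
      (2 : ℝ) ^ (j0 + L) ≤ ν ^ 3 → ∃ Bad : Set Env, mu.real Bad ≤ 7 * K * B * Real.exp (-M) ∧
        ∀ e ∉ Bad, ∀ k l : ℕ, l + 2 ≤ K → ∀ a b : ℤ, dy a0 (j0 + L) k ≤ a →
          a < dy a0 (j0 + L) (k + 1) → dy a0 (j0 + L) l ≤ b → b < dy a0 (j0 + L) (l + 1) → a ≤ b →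
          |tau (q x) e a (b + 1) - if k + 2 ≤ l then
            tau (q x) e (dy a0 (j0 + L) (k + 1)) (dy a0 (j0 + L) l) else 0| ≤
            12 * 2 ^ j0 + 77 * (M * A * ν) := by
  obtain ⟨A1, B1, ν1, hA1, hB1, hν1, h1⟩ := hTT (C0 + 2) (by linarith)
  obtain ⟨A2, B2, ν2, hA2, hB2, hν2, h2⟩ := hI (C0 + 2) (by linarith)
  obtain ⟨j0, hj0⟩ := pow_unbounded_of_one_lt ((max ν1 ν2) ^ 3) (one_lt_two (α := ℝ))
  refine ⟨max A1 A2, max B1 B2, j0, lt_max_of_lt_left hA1, le_max_of_le_left hB1,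
    fun M ν x L K a0 hM hν hx hq hL => ?_⟩
  have hsc : ∀ (t : ℝ) (j : ℕ), 0 < t → t ≤ ν → (2 : ℝ) ^ (j0 + j) ≤ t ^ 3 →
      max ν1 ν2 ≤ t ∧ |x| ≤ (C0 + 2) / t := by
    intro t j ht htν h
    constructor
    · refine le_of_lt (lt_of_pow_lt_pow_left₀ 3 ht.le (hj0.trans_le (le_trans ?_ h)))
      exact pow_le_pow_right₀ one_le_two (by omega)
    · exact hx.trans (div_le_div₀ (by linarith) (by linarith) ht htν)
  obtain ⟨hνm, hx'⟩ := hsc ν L hν le_rfl hL
  have ν3 : 0 < ν ^ 3 := by positivity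
  set j := j0 + L with hj
  set z := Real.exp (-M) with hz
  have z0 : 0 < z := Real.exp_pos _
  have z4 : 2 * z ≤ 1 / 2 := by
    have e1 : z ≤ Real.exp (-2) := Real.exp_le_exp.2 (by linarith)
    have e2 : (4 : ℝ) ≤ Real.exp 2 := by
      have := Real.add_one_le_exp (1 : ℝ)
      rw [show (2 : ℝ) = 1 + 1 by norm_num, Real.exp_add]
      nlinarith
    have e3 : Real.exp (-2) * Real.exp 2 = 1 := by rw [← Real.exp_add]; simp
    nlinarith [Real.exp_pos (-2)]
  set B := max B1 B2 with hB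
  have B1B : B1 ≤ B := le_max_left _ _
  have B2B : B2 ≤ B := le_max_right _ _
  set A := max A1 A2 with hA
  have A1A : A1 ≤ A := le_max_left _ _
  have A2A : A2 ≤ A := le_max_right _ _
  let Ea : ℕ → ℕ → Set Env := fun i r =>
    {e | M * (((L - 1 - i : ℕ) : ℝ) + 1) * (A1 * (ν * (4 / 5) ^ (L - 1 - i))) ≤
      4 * (((dy a0 (j0 + i) (r + 1) - 1 : ℤ) : ℝ) - dy a0 (j0 + i) r + 1) -
        T (q x) (dy a0 (j0 + i) r) (dy a0 (j0 + i) (r + 1) - 1) e}
  let Eb : ℕ → Set Env := fun k =>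
    {e | M * (A1 * ν) ≤ T (q x) (dy a0 j k) (dy a0 j (k + 2) - 1) e -
      4 * (((dy a0 j (k + 2) - 1 : ℤ) : ℝ) - dy a0 j k + 1)}
  let Ec : ℕ → Set Env := fun l =>
    {e | ∃ a : ℤ, a0 ≤ a ∧ a ≤ dy a0 j (l + 1) - 1 ∧ M * (A2 * ν) ≤
      T (q x) a (dy a0 j (l + 2) - 1) e - T (q x) a (dy a0 j (l + 1) - 1) e -
        4 * (((dy a0 j (l + 2) - 1 : ℤ) : ℝ) - (dy a0 j (l + 1) - 1 : ℤ))}
  let Ed : ℕ → Set Env := fun k =>
    {e | ∃ b : ℤ, dy a0 j (k + 1) ≤ b ∧ b ≤ dy a0 j (K + 1) ∧ M * (A2 * ν) ≤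
      T (q x) (dy a0 j k) b e - T (q x) (dy a0 j (k + 1)) b e -
        4 * (((dy a0 j (k + 1) : ℤ) : ℝ) - dy a0 j k)}
  have pa : ∀ i < L, ∀ r, mu.real (Ea i r) ≤ B * z ^ (L - 1 - i + 1) := by
    intro i hi r
    have t0 : 0 < ν * (4 / 5) ^ (L - 1 - i) := by positivity
    have t1 : ν * (4 / 5) ^ (L - 1 - i) ≤ ν :=
      mul_le_of_le_one_right hν.le (pow_le_one₀ (by norm_num) (by norm_num))
    have t2 : (2 : ℝ) ^ (j0 + i) ≤ (ν * (4 / 5) ^ (L - 1 - i)) ^ 3 := by
      have e1 : (2 : ℝ) ^ (j0 + i) * 2 ^ (L - 1 - i) ≤ ν ^ 3 := by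
        rw [← pow_add]
        exact le_trans (pow_le_pow_right₀ one_le_two (by omega)) hL
      have e2 : (1 : ℝ) ≤ 2 ^ (L - 1 - i) * ((4 / 5) ^ (L - 1 - i)) ^ 3 := by
        rw [← pow_mul, mul_comm _ 3, pow_mul, ← mul_pow]
        exact one_le_pow₀ (by norm_num)
      rw [mul_pow]
      calc (2 : ℝ) ^ (j0 + i) ≤ 2 ^ (j0 + i) * (2 ^ (L - 1 - i) * ((4 / 5) ^ (L - 1 - i)) ^ 3) :=
            le_mul_of_one_le_right (by positivity) e2
        _ ≤ _ := by rw [← mul_assoc]; gcongr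
    obtain ⟨s1, s2⟩ := hsc _ i t0 t1 t2
    have lt := dy_lt a0 (j0 + i) (Nat.lt_succ_self r)
    have := (h1 _ ((le_max_left _ _).trans s1) x s2 (dy a0 (j0 + i) r) (dy a0 (j0 + i) (r + 1) - 1)
      (by simp only [Nat.succ_eq_add_one] at lt; omega) (by
        have := dy_sub a0 (j0 + i) r 1
        push_cast at this ⊢
        nlinarith [pow_pos t0 3])).2 (M * (((L - 1 - i : ℕ) : ℝ) + 1)) (by positivity)
    refine this.trans ?_
    rw [hz, ← Real.exp_nat_mul]
    refine mul_le_mul B1B (le_of_eq ?_) (Real.exp_pos _).le (by linarith)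
    congr 1
    push_cast
    ring
  have pb : ∀ k, mu.real (Eb k) ≤ B * z := by
    intro k
    have lt := dy_lt a0 j (show k < k + 2 by omega)
    have := (h1 _ ((le_max_left _ _).trans hνm) x hx' (dy a0 j k) (dy a0 j (k + 2) - 1)
      (by omega) (by
        have := dy_sub a0 j k 2
        push_cast at this ⊢
        nlinarith)).1 M (by linarith)
    exact this.trans (by gcongr)
  have pc : ∀ l, mu.real (Ec l) ≤ B * z := by
    intro l
    have lt := dy_lt a0 j (show l + 1 < l + 2 by omega)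
    have lt2 := dy_lt a0 j (show 0 < l + 1 by omega)
    have p0 : dy a0 j 0 = a0 := by simp [dy]
    have := (h2 _ ((le_max_right _ _).trans hνm) x hx' M (by linarith)).1 a0
      (dy a0 j (l + 1) - 1) (dy a0 j (l + 2) - 1) (by omega) (by omega) (by
        have := dy_sub a0 j (l + 1) 1
        push_cast at this ⊢
        nlinarith)
    exact this.trans (by gcongr)
  have pd : ∀ k < K, mu.real (Ed k) ≤ B * z := by
    intro k hk
    have := (h2 _ ((le_max_right _ _).trans hνm) x hx' M (by linarith)).2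
      (dy a0 j k) (dy a0 j (k + 1)) (dy a0 j (K + 1)) (dy_le _ _ (by omega)) (dy_le _ _ (by omega)) (by
        have := dy_sub a0 j k 1
        push_cast at this ⊢
        nlinarith)
    exact this.trans (by gcongr)
  refine ⟨(((⋃ i ∈ range L, ⋃ r ∈ range (K * 2 ^ (L - i)), Ea i r) ∪ ⋃ k ∈ range K, Eb k) ∪
    ⋃ k ∈ range K, Ec k) ∪ ⋃ k ∈ range K, Ed k, ?_, fun e he k l hl a b g1 g2 g3 g4 hab => ?_⟩
  · have qa : mu.real (⋃ i ∈ range L, ⋃ r ∈ range (K * 2 ^ (L - i)), Ea i r) ≤ 4 * K * B * z := by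
      refine (measureReal_biUnion_finset_le _ _).trans ?_
      calc ∑ i ∈ range L, mu.real (⋃ r ∈ range (K * 2 ^ (L - i)), Ea i r)
          ≤ ∑ i ∈ range L, K * B * (2 * z) ^ (L - 1 - i + 1) := by
            refine sum_le_sum fun i hi => ?_
            rw [mem_range] at hi
            refine (real_biUnion_le _ _ fun r _ => pa i hi r).trans (le_of_eq ?_)
            rw [card_range, show L - i = L - 1 - i + 1 by omega]
            push_cast
            ring
        _ = K * B * ∑ m ∈ range L, (2 * z) ^ (m + 1) := by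
            rw [← mul_sum, sum_range_reflect (fun m => (2 * z) ^ (m + 1))]
        _ ≤ K * B * (2 * (2 * z)) := by
            have : 0 ≤ B := by linarith
            gcongr
            exact sum_geo2 (by positivity) z4 L
        _ = _ := by ring
    have qb := real_biUnion_le (range K) Eb fun k _ => pb k
    have qc := real_biUnion_le (range K) Ec fun k _ => pc k
    have qd := real_biUnion_le (range K) Ed fun k hk => pd k (mem_range.1 hk)
    rw [card_range] at qb qc qd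
    refine (measureReal_union_le _ _).trans ?_
    refine (add_le_add_left (measureReal_union_le _ _) _).trans ?_
    refine (add_le_add_left (add_le_add_left (measureReal_union_le _ _) _) _).trans ?_
    linarith
  · simp only [Set.mem_union, Set.mem_iUnion, not_or, not_exists, mem_range] at he
    obtain ⟨⟨⟨ea, eb⟩, ec⟩, ed⟩ := he
    have M0 : 0 ≤ M := by linarith
    have ch := chain (tau_super hq e) (tau_ge hq e) a0 j0
      (fun i => M * (((L - 1 - i : ℕ) : ℝ) + 1) * (A1 * (ν * (4 / 5) ^ (L - 1 - i))))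
      (fun i => by positivity) L K fun i hi r hr => by
        have := ea i hi r hr
        simp only [Ea, Set.mem_ofPred_eq, not_le] at this
        simp only [tau, dy_lt a0 (j0 + i) (Nat.lt_add_one r), if_true]
        push_cast at this
        linarith
    have sD : ∑ i ∈ range L, M * (((L - 1 - i : ℕ) : ℝ) + 1) *
        (A1 * (ν * (4 / 5) ^ (L - 1 - i))) ≤ 25 * (M * A * ν) := by
      rw [sum_range_reflect (fun m : ℕ => M * ((m : ℝ) + 1) * (A1 * (ν * (4 / 5) ^ m)))]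
      calc ∑ m ∈ range L, M * ((m : ℝ) + 1) * (A1 * (ν * (4 / 5) ^ m))
          = (∑ m ∈ range L, ((m : ℝ) + 1) * (4 / 5) ^ m) * (M * A1 * ν) := by
            rw [sum_mul]; exact sum_congr rfl fun m _ => by ring
        _ ≤ 25 * (M * A * ν) := by
            gcongr
            exact sum_geo L
    have w1 : M * (A1 * ν) ≤ M * A * ν := by rw [mul_assoc]; gcongr
    have w2 : M * (A2 * ν) ≤ M * A * ν := by rw [mul_assoc]; gcongr
    have key := net (tau_super hq e) (a0 := a0) (j := j) (K := K) (W := M * A * ν) (by positivity) (by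
        have : 0 ≤ A := by linarith
        positivity) ch
      (fun k hk => by
        have := eb k hk
        simp only [Eb, Set.mem_ofPred_eq, not_le] at this
        simp only [tau, dy_lt a0 j (show k < k + 2 by omega), if_true]
        push_cast at this
        linarith)
      (fun l hl a c1 c2 => by
        have := ec l hl
        simp only [Ec, Set.mem_ofPred_eq, not_exists, not_and, not_le] at this
        have := this a c1 (by omega)
        simp only [tau, c2, c2.trans (dy_lt a0 j (show l + 1 < l + 2 by omega)), if_true]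
        push_cast at this
        linarith)
      (fun k hk v c1 c2 => by
        have := ed k hk
        simp only [Ed, Set.mem_ofPred_eq, not_exists, not_and, not_le] at this
        have := this (v - 1) (by omega) (by omega)
        simp only [tau, c1, (dy_lt a0 j (Nat.lt_add_one k)).trans c1, if_true]
        linarith)
      hl g1 g2 g3 g4 hab
    linarith

lemma pg_rs {f : Env → ℝ} (hf : PG f) : PG (fun e => f (rs e)) := by
  have := hf.reindex (fun z : Site =>
    if z.1 = z.2 then (z.1, z.1 + 1) else if z.2 = z.1 + 1 then (z.1, z.1) else z)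
  convert this using 3 with e
  funext z
  unfold rs
  split_ifs <;> rfl

lemma cell (a0 : ℤ) (j : ℕ) {a : ℤ} (h : a0 ≤ a) :
    dy a0 j ((a - a0).toNat / 2 ^ j) ≤ a ∧ a < dy a0 j ((a - a0).toNat / 2 ^ j + 1) := by
  obtain ⟨n, rfl⟩ : ∃ n : ℕ, a = a0 + n := ⟨(a - a0).toNat, by omega⟩
  have e : (a0 + n - a0).toNat = n := by omega
  rw [e]
  have h1 : n / 2 ^ j * 2 ^ j ≤ n := Nat.div_mul_le_self _ _
  have h2 : n < (n / 2 ^ j + 1) * 2 ^ j := by
    rw [mul_comm]; exact Nat.lt_mul_div_succ _ (by positivity)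
  generalize n / 2 ^ j = k at *
  have h3 : (k : ℤ) * 2 ^ j ≤ n := by exact_mod_cast h1
  have h4 : (n : ℤ) < ((k + 1 : ℕ) : ℤ) * 2 ^ j := by exact_mod_cast h2
  unfold dy
  constructor <;> linarith

lemma exists_M {c d η : ℝ} (hη : 0 < η) (m : ℝ) :
    ∃ M : ℝ, m ≤ M ∧ (c * M ^ 3 + d) * Real.exp (-M) ≤ η := by
  have h1 := ((Real.tendsto_pow_mul_exp_neg_atTop_nhds_zero 3).const_mul c).add
    (Real.tendsto_exp_neg_atTop_nhds_zero.const_mul d)
  simp only [mul_zero, add_zero] at h1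
  obtain ⟨M, hM1, hM2⟩ := ((Filter.eventually_ge_atTop m).and
    (h1.eventually (ge_mem_nhds hη))).exists
  exact ⟨M, hM1, by linarith⟩

end Mt

theorem mt (hP : S_POINT) (hTT : S_TT) (hI : S_INC) : S_MT := by
  intro C0 ε η hC hε hη
  obtain ⟨A, B, j0, hA, hB, hbad⟩ := Mt.bad hTT hI hC
  obtain ⟨M, hM, hM'⟩ := Mt.exists_M (c := 14 * B * (2 * C0 * (616 * A / ε) ^ 3))
    (d := 14 * B * 2) (half_pos hη) (max 2 (ε / (616 * A)))
  have M2 : 2 ≤ M := (le_max_left _ _).trans hM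
  have M0 : 0 < M := by linarith
  set δ := ε / (616 * A * M) with hδ
  have δ0 : 0 < δ := by positivity
  have δ1 : δ ≤ 1 := by
    have := (le_max_right _ _).trans hM
    rw [div_le_iff₀ (by positivity)] at this
    rw [hδ, div_le_one (by positivity)]
    linarith
  set Kb := 2 * C0 / δ ^ 3 + 2 with hKb
  have Kb0 : 0 < Kb := by positivity
  have hKM : 14 * Kb * B * Real.exp (-M) ≤ η / 2 := by
    refine le_trans (le_of_eq ?_) hM'
    rw [hKb, hδ]
    field_simp
  obtain ⟨ν3, h3⟩ := hP C0 (η * ε ^ 2 / (8 * Kb ^ 2)) hC (by positivity)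
  refine ⟨max (max ν3 (2 * C0)) (max (96 * 2 ^ j0 / ε) (2 ^ j0 / δ)),
    fun ν hν x hx a0 N hN => ?_⟩
  simp only [max_le_iff] at hν
  obtain ⟨⟨n1, n2⟩, n3, n4⟩ := hν
  have ν0 : 0 < ν := by linarith
  rw [div_le_iff₀ hε] at n3
  rw [div_le_iff₀ δ0] at n4
  have hq : 0 ≤ q x := by
    have : C0 / ν ≤ 1 / 2 := by rw [div_le_iff₀ ν0]; linarith
    have := (le_abs_self x).trans (hx.trans this)
    exact inv_nonneg.2 (by linarith)
  have p0 : (0 : ℝ) < 2 ^ j0 := by positivity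
  have p1 : (1 : ℝ) ≤ 2 ^ j0 := one_le_pow₀ one_le_two
  obtain ⟨L, hL1, hL2⟩ := exists_nat_pow_near (x := (ν * δ) ^ 3 / 2 ^ j0) (y := (2 : ℝ)) (by
    rw [one_le_div p0]
    exact n4.trans (le_self_pow₀ (by linarith) (by norm_num))) one_lt_two
  rw [le_div_iff₀ p0, ← pow_add, add_comm] at hL1
  rw [div_lt_iff₀ p0, pow_succ (2 : ℝ), mul_right_comm, ← pow_add, add_comm] at hL2
  set K := N.toNat / 2 ^ (j0 + L) + 2 with hK
  have hN' : (N.toNat : ℝ) ≤ C0 * ν ^ 3 := by
    rcases le_total N 0 with h | h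
    · rw [Int.toNat_eq_zero.2 h]; push_cast; positivity
    · rw [← Int.cast_natCast, Int.toNat_of_nonneg h]; exact hN
  have hK1 : ((N.toNat / 2 ^ (j0 + L) : ℕ) : ℝ) * 2 ^ (j0 + L) ≤ C0 * ν ^ 3 := by
    refine le_trans ?_ hN'
    exact_mod_cast Nat.div_mul_le_self _ _
  have hKK : (K : ℝ) ≤ Kb := by
    rw [hK, hKb]
    push_cast
    refine add_le_add_left ?_ _
    rw [le_div_iff₀ (by positivity)]
    have e : (0 : ℝ) < ν ^ 3 := by positivity
    have k0 : (0 : ℝ) ≤ (N.toNat / 2 ^ (j0 + L) : ℕ) := Nat.cast_nonneg _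
    refine le_of_mul_le_mul_right ?_ e
    rw [mul_pow] at hL2
    nlinarith
  obtain ⟨Bad, hB1, hB2⟩ := hbad M (ν * δ) x L K a0 M2 (by positivity)
    (hx.trans (div_le_div_of_nonneg_left hC.le (by positivity)
      (mul_le_of_le_one_right ν0.le δ1))) hq hL1
  let E : ℕ × ℕ → Set Env := fun p => {e | p.1 + 2 ≤ p.2 ∧ p.2 + 2 ≤ K ∧ ε * ν / 2 ≤
    |T (q x) (Mt.dy a0 (j0 + L) (p.1 + 1)) (Mt.dy a0 (j0 + L) p.2 - 1) e -
      T (q x) (Mt.dy a0 (j0 + L) (p.1 + 1)) (Mt.dy a0 (j0 + L) p.2 - 1) (rs e)|}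
  have pE : ∀ p, mu.real (E p) ≤ η / (2 * Kb ^ 2) := by
    rintro ⟨k, l⟩
    by_cases h : k + 2 ≤ l ∧ l + 2 ≤ K
    swap
    · have : E (k, l) = ∅ := Set.eq_empty_of_forall_notMem fun e he => h ⟨he.1, he.2.1⟩
      rw [this, measureReal_empty]
      positivity
    have lt := Mt.dy_lt a0 (j0 + L) (show k + 1 < l by omega)
    have pg : PG (T (q x) (Mt.dy a0 (j0 + L) (k + 1)) (Mt.dy a0 (j0 + L) l - 1)) := pg_L _
    have i1 := h3 ν n1 x hx (Mt.dy a0 (j0 + L) (k + 1)) (Mt.dy a0 (j0 + L) l - 1) (by omega) (by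
      refine le_trans ?_ hK1
      have l1 : (l : ℝ) ≤ (N.toNat / 2 ^ (j0 + L) : ℕ) := by exact_mod_cast (by omega : l ≤ _)
      have l2 : (0 : ℝ) < 2 ^ (j0 + L) := by positivity
      have l3 : (0 : ℝ) ≤ k := Nat.cast_nonneg _
      simp only [Mt.dy]
      push_cast
      nlinarith)
    have i2 := real_le_of_sq (pg.sub (Mt.pg_rs pg)) (t := ε * ν / 2) (by positivity)
    refine (measureReal_mono (fun e he => he.2.2)).trans (i2.trans ?_)
    refine (div_le_div_of_nonneg_right i1 (by positivity)).trans (le_of_eq ?_)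
    field_simp
    ring
  have sub : {e | ∃ a b : ℤ, a0 ≤ a ∧ a ≤ b ∧ b ≤ a0 + N ∧
      ε * ν < |T (q x) a b e - T (q x) a b (rs e)|} ⊆
      (Bad ∪ rs ⁻¹' Bad) ∪ ⋃ p ∈ range K ×ˢ range K, E p := by
    rintro e ⟨a, b, g1, g2, g3, g4⟩
    by_contra hcon
    simp only [Set.mem_union, Set.mem_iUnion, not_or, not_exists, Set.mem_preimage] at hcon
    obtain ⟨⟨c1, c2⟩, c3⟩ := hcon
    obtain ⟨k1, k2⟩ := Mt.cell a0 (j0 + L) g1
    obtain ⟨l1, l2⟩ := Mt.cell a0 (j0 + L) (g1.trans g2)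
    have hl : (b - a0).toNat / 2 ^ (j0 + L) + 2 ≤ K :=
      Nat.add_le_add_right (Nat.div_le_div_right (by omega)) _
    generalize (a - a0).toNat / 2 ^ (j0 + L) = k at *
    generalize (b - a0).toNat / 2 ^ (j0 + L) = l at *
    have d1 := abs_le.1 (hB2 e c1 k l hl a b k1 k2 l1 l2 g2)
    have d2 := abs_le.1 (hB2 (rs e) c2 k l hl a b k1 k2 l1 l2 g2)
    have w : 77 * (M * A * (ν * δ)) = ε * ν / 8 := by rw [hδ]; field_simp; ring
    rw [w] at d1 d2
    simp only [Mt.tau, show a < b + 1 by omega, if_true, add_sub_cancel_right] at d1 d2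
    refine absurd g4 (not_lt.2 (abs_le.2 ?_))
    have εν : 0 < ε * ν := by positivity
    split_ifs at d1 d2 with h h'
    · have := c3 (k, l) (mem_product.2 ⟨mem_range.2 (by omega), mem_range.2 (by omega)⟩)
      simp only [E, Set.mem_ofPred_eq, h, hl, true_and, not_le] at this
      have := abs_lt.1 this
      constructor <;> linarith [d1.1, d1.2, d2.1, d2.2]
    · exact absurd (Mt.dy_lt a0 (j0 + L) (by omega)) h'
    · constructor <;> linarith [d1.1, d1.2, d2.1, d2.2]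
  have q1 := real_preimage_le mp_rs Bad
  have q2 := Mt.real_biUnion_le (range K ×ˢ range K) E fun p _ => pE p
  rw [card_product, card_range] at q2
  have q3 : ((K * K : ℕ) : ℝ) * (η / (2 * Kb ^ 2)) ≤ η / 2 := by
    have : ((K * K : ℕ) : ℝ) ≤ Kb ^ 2 := by
      push_cast
      rw [sq]
      exact mul_le_mul hKK hKK (Nat.cast_nonneg _) Kb0.le
    refine (mul_le_mul_of_nonneg_right this (by positivity)).trans (le_of_eq ?_)
    field_simp
  have q4 : 14 * K * B * Real.exp (-M) ≤ 14 * Kb * B * Real.exp (-M) := by gcongr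
  refine (measureReal_mono sub).trans ((measureReal_union_le _ _).trans ?_)
  refine (add_le_add_left (measureReal_union_le _ _) _).trans ?_
  linarith

end Pool.Agent.P.MP_9957ef_pr
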