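import Pool.Agent.P.MP_9957ef_pr.Multi2
import Pool.Agent.P.MP_9957ef_pr.Iface

/-! The multiscale overlap bound. -/

set_option autoImplicit false

noncomputable section

open MeasureTheory ProbabilityTheory Finset

namespace Pool.Agent.P.MP_9957ef_pr

lemma multi_pw_update {R : Set Site} {i : Site} (hi : i ∈ R) (e' e : Env) (x : ℝ) :
    pw R (Function.update e' i x) e = Function.update (pw R e' e) i x := by
  funext z
  by_cases h : z = i
  · subst h; simp [pw, hi]
  · simp [pw, h]

lemma multi_iV_pw {R : Set Site} {i : Site} (hi : i ∈ R) (f : Env → ℝ) (e' e : Env) :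
    iV (fun u => f (pw R u e)) i e' = iV f i (pw R e' e) := by
  simp only [iV, multi_pw_update hi]

lemma multi_integral_indicator {A : Set Env} (hA : MeasurableSet A) :
    ∫ e, A.indicator (1 : Env → ℝ) e ∂mu = mu.real A := integral_indicator_one hA

theorem multi : S_MULTI := by
  intro ε hε
  obtain ⟨K, hK, hK4⟩ : ∃ K : ℝ, 0 < K ∧ 4 / K ^ 2 ≤ ε / 4 := by
    refine ⟨1 + 16 / ε, by positivity, ?_⟩
    have h1 : 0 < 16 / ε := by positivity
    rw [div_le_iff₀ (by positivity)]
    have h2 : ε / 4 * (16 / ε) = 4 := by field_simp; norm_num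
    have h3 : 16 / ε ≤ (1 + 16 / ε) ^ 2 := by nlinarith
    nlinarith
  set τ := ε / 4 with hτ
  have hτ0 : 0 < τ := by positivity
  set C := K ^ 4 * Real.exp (K ^ 2) with hC
  have hC0 : 0 < C := by positivity
  set ρ := 32 * C / (K * τ * ε) with hρ
  have hρ0 : 0 < ρ := by positivity
  have hρ1 : 4 * C / (K * ρ * τ) = ε / 8 := by rw [hρ]; field_simp; norm_num
  obtain ⟨S, hS⟩ := exists_nat_gt (256 * ρ / (K * ε))
  have hS0 : (0 : ℝ) < S := lt_trans (by positivity) hS
  have hS1 : 2 * ρ / K * 32 ≤ ε / 4 * S := by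
    rw [div_lt_iff₀ (by positivity)] at hS
    rw [div_mul_eq_mul_div, div_le_iff₀ hK]
    nlinarith
  refine ⟨S, K / τ, Nat.cast_pos.1 hS0, ?_⟩
  intro s ν D f R blk nb Ξ Act hs1 hs4 hν hf hh hb hΞ h1 h2 h3 h4 h5
  have hS0' : 0 < S := Nat.cast_pos.1 hS0
  have hs0 : 0 < s := by linarith
  have hν' : K ≤ τ * ν := by rwa [div_le_iff₀' hτ0] at hν
  set χ : ℕ → ℕ → Env → ℝ := fun k b => (Act k b).indicator 1 with hχ
  have hχp : ∀ k < S, ∀ b < nb k, PG (χ k b) := fun k hk b hb' => pg_indicator (hΞ k hk b hb').2.2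
  have hχ0 : ∀ k b e, 0 ≤ χ k b e := fun k b e => Set.indicator_nonneg (fun _ _ => zero_le_one) e
  have hχ3 : ∀ k < S, ∀ i ∈ R, ∀ e, iV f i e ≤ χ k (blk k i) e := by
    intro k hk i hi e
    unfold iV
    split_ifs with h
    · simp [hχ, h3 k hk i hi e h]
    · exact hχ0 _ _ _
  have hmem : ∀ {k b : ℕ}, k ∈ range S → b ∈ range (nb k) → k < S ∧ b < nb k :=
    fun hk hb' => ⟨Finset.mem_range.1 hk, Finset.mem_range.1 hb'⟩
  -- the expected number of sites that matter
  have hn : ∑ i ∈ R, ∫ e, iV f i e ∂mu ≤ D := by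
    have hpt : ∀ b ∈ range (nb 0), ∀ e,
        ∑ i ∈ R.filter (fun i => blk 0 i = b), |e i| * iV f i e ≤
          1 / 2 * ((2 ^ 0 * ν) ^ 2 * χ 0 b e) + 1 / 2 * Ξ 0 b e ^ 2 := by
      intro b hb' e
      have hb'' := Finset.mem_range.1 hb'
      by_cases he : e ∈ Act 0 b
      · have h6 := h2 0 hS0' b hb'' e
        have h7 : χ 0 b e = 1 := by simp [hχ, he]
        have h8 := sq_nonneg (2 ^ 0 * ν - Ξ 0 b e)
        rw [h7]; nlinarith
      · have h7 : χ 0 b e = 0 := by simp [hχ, he]
        have h8 : ∑ i ∈ R.filter (fun i => blk 0 i = b), |e i| * iV f i e = 0 := by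
          refine Finset.sum_eq_zero fun i hi => ?_
          obtain ⟨hi1, hi2⟩ := Finset.mem_filter.1 hi
          have h9 := hχ3 0 hS0' i hi1 e
          rw [hi2, h7] at h9
          rw [le_antisymm h9 (multi_iV_nonneg f i e), mul_zero]
        rw [h7, h8]; positivity
    calc ∑ i ∈ R, ∫ e, iV f i e ∂mu ≤ ∑ i ∈ R, ∫ e, |e i| * iV f i e ∂mu :=
          Finset.sum_le_sum fun i hi => multi_iV_le hs0 hf (hh i hi)
      _ = ∑ b ∈ range (nb 0), ∑ i ∈ R.filter (fun i => blk 0 i = b),
            ∫ e, |e i| * iV f i e ∂mu :=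
          (Finset.sum_fiberwise_of_maps_to
            (fun i hi => Finset.mem_range.2 (hb 0 hS0' i hi)) _).symm
      _ ≤ ∑ b ∈ range (nb 0), (1 / 2 * ((2 ^ 0 * ν) ^ 2 * mu.real (Act 0 b)) +
            1 / 2 * ∫ e, Ξ 0 b e ^ 2 ∂mu) := by
          refine Finset.sum_le_sum fun b hb' => ?_
          have hb'' := Finset.mem_range.1 hb'
          have p1 := ((hχp 0 hS0' b hb'').const_mul ((2 ^ 0 * ν) ^ 2)).const_mul (1 / 2)
          have p2 := ((hΞ 0 hS0' b hb'').1.pow 2).const_mul (1 / 2)
          rw [← integral_finsetSum _ fun i _ => (multi_pg_wiV hf i).integrable]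
          refine (integral_mono (pg_sum _ fun i _ => multi_pg_wiV hf i).integrable
            (p1.add p2).integrable (hpt b hb')).trans (le_of_eq ?_)
          rw [integral_add p1.integrable p2.integrable, integral_const_mul, integral_const_mul,
            integral_const_mul, multi_integral_indicator (hΞ 0 hS0' b hb'').2.2]
      _ ≤ D := by
          rw [Finset.sum_add_distrib, ← Finset.mul_sum, ← Finset.mul_sum, ← Finset.mul_sum]
          have := h4 0 hS0'
          have := h5 0 hS0'
          linarith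
  have hD : 0 ≤ D :=
    (Finset.sum_nonneg fun i _ => integral_nonneg (multi_iV_nonneg f i)).trans hn
  -- the pieces as functions of the outer environment
  set X : Env → ℝ := fun e => ∑ i ∈ R, cE (R : Set Site) (iV f i) e ^ 2 with hX
  set N : Env → ℝ := fun e => ∑ i ∈ R, cE (R : Set Site) (iV f i) e with hN
  set P : ℕ → Env → ℝ := fun k e => ∑ b ∈ range (nb k), cE (R : Set Site) (χ k b) e with hP
  set V : Env → ℝ := cE (R : Set Site) (fun u => (f u - cE (R : Set Site) f u) ^ 2) with hV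
  set A : Env → ℝ := fun e => ∑ k ∈ range S, ∑ b ∈ range (nb k), cE (R : Set Site) (Ξ k b) e ^ 2
    with hA
  have hXp : PG X := pg_sum R fun i _ => ((hf.iV i).cE _).pow 2
  have hNp : PG N := pg_sum R fun i _ => (hf.iV i).cE _
  have hPp : ∀ k ∈ range S, PG (P k) := fun k hk =>
    pg_sum _ fun b hb' => (hχp k (hmem hk hb').1 b (hmem hk hb').2).cE _
  have hVp0 : PG (fun u => (f u - cE (R : Set Site) f u) ^ 2) := (hf.sub (hf.cE _)).pow 2
  have hVp : PG V := hVp0.cE _
  have hAp : PG A := pg_sum _ fun k hk => pg_sum _ fun b hb' =>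
    ((hΞ k (hmem hk hb').1 b (hmem hk hb').2).1.cE _).pow 2
  have hpt : ∀ e, S * X e ≤ τ / 2 * ∑ k ∈ range S, ((2 ^ k * ν) ^ 2 * P k e + N e) +
      2 * ρ / K * V e + ε / 8 * (A e + S * X e) + 4 / K ^ 2 * A e := by
    intro e
    have hi : ∀ i ∈ R, ∫ e', iV (fun u => f (pw R u e)) i e' ∂mu =
        cE (R : Set Site) (iV f i) e := by
      intro i hi
      simp only [multi_iV_pw (Finset.mem_coe.2 hi)]; rfl
    have hc := multi_core (g := fun u => f (pw R u e)) (R := R) (s := s) (S := S) (blk := blk)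
      (nb := nb) (Ξ := fun k b u => Ξ k b (pw R u e)) (χ := fun k b u => χ k b (pw R u e))
      hs1 hK hτ0 hρ0 hν' (hf.fiber _ e)
      (fun i hi u => by
        obtain ⟨t, ht0, ht⟩ := hh i hi (pw R u e)
        refine ⟨t, ht0, fun x => ?_⟩
        simp only [multi_pw_update (Finset.mem_coe.2 hi)]
        exact ht x) hb
      (fun k hk b hb' => ⟨(hΞ k hk b hb').1.fiber _ e, (hχp k hk b hb').fiber _ e,
        fun u => hχ0 _ _ _⟩)
      (fun k hk b hb' u u' hu1 hu2 => h1 k hk b hb' _ _
        (fun z => by unfold pw; split_ifs; exacts [hu1 z, le_rfl])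
        (fun z hz => by unfold pw; split_ifs; exacts [hu2 z hz, rfl]))
      (fun k hk b hb' u => by
        refine le_trans (le_of_eq (Finset.sum_congr rfl fun i hi => ?_)) (h2 k hk b hb' (pw R u e))
        have hi' := Finset.mem_coe.2 (Finset.mem_filter.1 hi).1
        rw [multi_iV_pw hi', prob_pw_mem hi'])
      (fun k hk i hi u => by
        rw [multi_iV_pw (Finset.mem_coe.2 hi)]; exact hχ3 k hk i hi _)
      (cE (R : Set Site) f e)
    have e1 : ∑ i ∈ R, (∫ e', iV (fun u => f (pw R u e)) i e' ∂mu) ^ 2 = X e :=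
      Finset.sum_congr rfl fun i h => by rw [hi i h]
    have e2 : ∑ i ∈ R, ∫ e', iV (fun u => f (pw R u e)) i e' ∂mu = N e :=
      Finset.sum_congr rfl fun i h => hi i h
    have e3 : ∫ u, (f (pw R u e) - cE (R : Set Site) f e) ^ 2 ∂mu = V e := by
      simp only [hV]
      show _ = ∫ u, (f (pw R u e) - cE (R : Set Site) f (pw R u e)) ^ 2 ∂mu
      simp only [cE_pw]
    rw [e1, e2, e3, ← hC, hρ1] at hc
    exact hc
  -- expectations of the pieces
  have hEN : ∫ e, N e ∂mu ≤ D := by
    rw [hN, integral_finsetSum _ fun i _ => ((hf.iV i).cE _).integrable]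
    simpa only [integral_cE _ (hf.iV _)] using hn
  have hEX : ∫ e, X e ∂mu ≤ D := by
    refine le_trans (integral_mono hXp.integrable hNp.integrable fun e => ?_) hEN
    refine Finset.sum_le_sum fun i _ => ?_
    have a0 := cE_nonneg (R : Set Site) (multi_iV_nonneg f i) e
    have a1 := cE_mono (R : Set Site) (hf.iV i) (pg_const 1) (multi_iV_le_one f i) e
    rw [cE_const] at a1
    nlinarith
  have hEP : ∀ k ∈ range S, (2 ^ k * ν) ^ 2 * ∫ e, P k e ∂mu ≤ D := by
    intro k hk
    refine le_trans (le_of_eq ?_) (h5 k (Finset.mem_range.1 hk))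
    congr 1
    simp only [hP]
    rw [integral_finsetSum _ fun b hb' =>
      ((hχp k (hmem hk hb').1 b (hmem hk hb').2).cE _).integrable]
    refine Finset.sum_congr rfl fun b hb' => ?_
    rw [integral_cE _ (hχp k (hmem hk hb').1 b (hmem hk hb').2)]
    exact multi_integral_indicator (hΞ k (hmem hk hb').1 b (hmem hk hb').2).2.2
  have hEV : ∫ e, V e ∂mu ≤ 32 * D := by
    rw [hV, integral_cE _ hVp0]
    refine (efron_stein R hf).trans ?_
    refine (Finset.sum_le_sum fun i hi => integral_var_single (hh i hi) hs0 hf).trans ?_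
    rw [← Finset.mul_sum]
    have h6 : 2 * s ^ 2 ≤ 32 := by nlinarith
    exact mul_le_mul h6 hn
      (Finset.sum_nonneg fun i _ => integral_nonneg (multi_iV_nonneg f i)) (by norm_num)
  have hEA : ∫ e, A e ∂mu ≤ S * D := by
    rw [hA, integral_finsetSum _ fun k hk => (pg_sum _ fun b hb' =>
      ((hΞ k (hmem hk hb').1 b (hmem hk hb').2).1.cE _).pow 2).integrable]
    have h6 : ∀ k ∈ range S,
        ∫ e, ∑ b ∈ range (nb k), cE (R : Set Site) (Ξ k b) e ^ 2 ∂mu ≤ D := by
      intro k hk
      rw [integral_finsetSum _ fun b hb' =>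
        (((hΞ k (hmem hk hb').1 b (hmem hk hb').2).1.cE _).pow 2).integrable]
      refine le_trans (Finset.sum_le_sum fun b hb' => ?_) (h4 k (Finset.mem_range.1 hk))
      have p1 := (hΞ k (hmem hk hb').1 b (hmem hk hb').2).1
      rw [← integral_cE (R : Set Site) (p1.pow 2)]
      exact integral_mono ((p1.cE _).pow 2).integrable ((p1.pow 2).cE _).integrable
        fun e => sq_cE_le _ p1 e
    simpa using Finset.sum_le_sum h6
  have q0 : ∀ k ∈ range S, PG (fun e => (2 ^ k * ν) ^ 2 * P k e + N e) := fun k hk =>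
    ((hPp k hk).const_mul _).add hNp
  have q1 := (pg_sum _ q0).const_mul (τ / 2)
  have q2 := hVp.const_mul (2 * ρ / K)
  have q3 := (hAp.add (hXp.const_mul S)).const_mul (ε / 8)
  have q4 := hAp.const_mul (4 / K ^ 2)
  have hint := integral_mono (hXp.const_mul S).integrable
    (((q1.add q2).add q3).add q4).integrable hpt
  rw [integral_add ((q1.add q2).add q3).integrable q4.integrable,
    integral_add (q1.add q2).integrable q3.integrable, integral_add q1.integrable q2.integrable,
    integral_const_mul, integral_const_mul, integral_const_mul, integral_const_mul,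
    integral_const_mul, integral_add hAp.integrable (hXp.const_mul S).integrable,
    integral_const_mul, integral_finsetSum _ fun k hk => (q0 k hk).integrable] at hint
  have h6 : ∑ k ∈ range S, ∫ e, ((2 ^ k * ν) ^ 2 * P k e + N e) ∂mu ≤ S * (2 * D) := by
    have h7 : ∀ k ∈ range S, ∫ e, ((2 ^ k * ν) ^ 2 * P k e + N e) ∂mu ≤ 2 * D := by
      intro k hk
      rw [integral_add ((hPp k hk).const_mul _).integrable hNp.integrable, integral_const_mul]
      have := hEP k hk
      linarith
    simpa using Finset.sum_le_sum h7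
  have t1 := mul_le_mul_of_nonneg_left h6 (by positivity : 0 ≤ τ / 2)
  have t2 : 2 * ρ / K * ∫ e, V e ∂mu ≤ ε / 4 * S * D := by
    have := mul_le_mul_of_nonneg_left hEV (by positivity : 0 ≤ 2 * ρ / K)
    have := mul_le_mul_of_nonneg_right hS1 hD
    linarith
  have t3 : ε / 8 * (∫ e, A e ∂mu + S * ∫ e, X e ∂mu) ≤ ε / 8 * (S * D + S * D) :=
    mul_le_mul_of_nonneg_left (add_le_add hEA (mul_le_mul_of_nonneg_left hEX hS0.le))
      (by positivity)
  have t4 : 4 / K ^ 2 * ∫ e, A e ∂mu ≤ ε / 4 * (S * D) :=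
    (mul_le_mul_of_nonneg_left hEA (by positivity)).trans
      (mul_le_mul_of_nonneg_right hK4 (by positivity))
  refine le_of_mul_le_mul_left ?_ hS0
  rw [hτ] at t1
  rw [hτ] at hint
  nlinarith

end Pool.Agent.P.MP_9957ef_pr
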