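import Pool.Agent.P.MP_9957ef_pr.Iface
import Pool.Agent.P.MP_9957ef_pr.Det
import Pool.Agent.P.MP_9957ef_pr.Exp1

/-! Resampling the wall changes a single passage time by a small amount in mean square. -/

set_option autoImplicit false

noncomputable section

open MeasureTheory ProbabilityTheory Finset

namespace Pool.Agent.P.MP_9957ef_pr

lemma point_iV_nonneg (f : Env → ℝ) (i : Site) (e : Env) : 0 ≤ iV f i e := by
  unfold iV; split_ifs <;> norm_num

lemma point_iV_le_one (f : Env → ℝ) (i : Site) (e : Env) : iV f i e ≤ 1 := by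
  unfold iV; split_ifs <;> norm_num

lemma point_iV_le {f g : Env → ℝ} {i : Site} {e : Env}
    (h : f (Function.update e i 0) < f e → g (Function.update e i 0) < g e) :
    iV f i e ≤ iV g i e := by
  by_cases hf : f (Function.update e i 0) < f e
  · unfold iV
    rw [if_pos hf, if_pos (h hf)]
  · refine le_trans (le_of_eq ?_) (point_iV_nonneg g i e)
    unfold iV
    rw [if_neg hf]

lemma point_mem_wall {a b : ℤ} {i : Site} : i ∈ wall a b ↔ i.1 = i.2 ∧ a ≤ i.1 ∧ i.1 ≤ b := by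
  obtain ⟨u, v⟩ := i
  simp only [wall, mem_image, mem_Icc, Prod.mk.injEq]
  constructor
  · rintro ⟨j, h, rfl, rfl⟩
    exact ⟨rfl, h⟩
  · rintro ⟨rfl, h⟩
    exact ⟨u, h, rfl, rfl⟩

lemma point_pg_T (s : ℝ) (a b : ℤ) : PG (T s a b) := pg_L _

lemma point_pg_F (c : ℤ) (r : ℝ) (d : ℤ → ℝ) : PG (F c r d) := pg_L _

lemma point_pg_Y {f : Env → ℝ} (hf : PG f) (R : Finset Site) :
    PG fun e => ∑ i ∈ R, |e i| * iV f i e :=
  pg_sum _ fun i _ => (pg_coord i).abs.mul (hf.iV i)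

lemma point_Y_nonneg (f : Env → ℝ) (R : Finset Site) (e : Env) :
    0 ≤ ∑ i ∈ R, |e i| * iV f i e :=
  sum_nonneg fun i _ => mul_nonneg (abs_nonneg _) (point_iV_nonneg f i e)

lemma point_Y_int {f : Env → ℝ} (hf : PG f) {R : Finset Site} {K B : ℝ} (hK : 0 < K)
    (hT : Tail (fun e => ∑ i ∈ R, |e i| * iV f i e) K B) :
    ∫ e, ∑ i ∈ R, |e i| * iV f i e ∂mu ≤ B * K := by
  have := hT.integral_pos hK (point_pg_Y hf R)
  simpa only [max_eq_left (point_Y_nonneg f R _)] using this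

lemma point_Y_sq {f : Env → ℝ} (hf : PG f) {R : Finset Site} {K B : ℝ} (hK : 0 < K)
    (hT : Tail (fun e => ∑ i ∈ R, |e i| * iV f i e) K B) :
    ∫ e, (∑ i ∈ R, |e i| * iV f i e) ^ 2 ∂mu ≤ 2 * B * K ^ 2 := by
  have := hT.integral_sq hK (point_pg_Y hf R)
  simpa only [max_eq_left (point_Y_nonneg f R _)] using this

lemma point_window {s K B : ℝ} {a b : ℤ} (hs : 0 < s) (hK : 0 < K)
    (hT : Tail (fun e => ∑ i ∈ wall a b, |e i| * iV (T s a b) i e) K B) :
    ∫ e, ∑ i ∈ wall a b, iV (T s a b) i e ∂mu ≤ B * K := by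
  have hf := point_pg_T s a b
  refine le_trans ?_ (point_Y_int hf hK hT)
  rw [integral_finsetSum _ fun i _ => (hf.iV i).integrable,
    integral_finsetSum _ fun i _ => ((pg_coord i).abs.mul (hf.iV i)).integrable]
  refine sum_le_sum fun i hi => ?_
  rw [← integral_cE {i} (hf.iV i), ← integral_cE {i} ((pg_coord i).abs.mul (hf.iV i))]
  exact integral_mono ((hf.iV i).cE _).integrable
    (((pg_coord i).abs.mul (hf.iV i)).cE _).integrable (hinge_le (hinge_T hs hi) hs hf.1)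

/-- the wall sites near the two ends -/
lemma point_ends {s : ℝ} (hs : 0 ≤ s) {l n : ℤ} {E : Finset Site}
    (hE : ∀ i ∈ E, i ∈ wall 1 l ∧ (i.1 ≤ n ∨ l - n < i.1)) (e : Env) :
    ∑ i ∈ E, iV (T s 1 l) i e ≤ 2 +
      ∑ i ∈ wall 1 (min l (n + 1)), iV (T s 1 (min l (n + 1))) i e +
      ∑ i ∈ wall (max 1 (l - n)) l, iV (T s (max 1 (l - n)) l) i e := by
  have aux : ∀ (V : Finset Site) (φ : Site → ℝ), (∀ i, 0 ≤ φ i) →
      ∑ i ∈ E, (if i ∈ V then φ i else 0) ≤ ∑ i ∈ V, φ i := by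
    intro V φ hφ
    rw [← sum_filter]
    exact sum_le_sum_of_subset_of_nonneg (fun i hi => (mem_filter.1 hi).2) fun i _ _ => hφ i
  have h1 := aux {(1, 1), (l, l)} (fun _ => 1) fun _ => zero_le_one
  have h2 := aux (wall 1 (min l (n + 1))) _ fun i => point_iV_nonneg (T s 1 (min l (n + 1))) i e
  have h3 := aux (wall (max 1 (l - n)) l) _ fun i => point_iV_nonneg (T s (max 1 (l - n)) l) i e
  have h4 : ∑ _i ∈ ({(1, 1), (l, l)} : Finset Site), (1 : ℝ) ≤ 2 := by
    rw [sum_const, nsmul_eq_mul, mul_one]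
    exact_mod_cast card_le_two
  refine le_trans ?_ (add_le_add (add_le_add (h1.trans h4) h2) h3)
  rw [← sum_add_distrib, ← sum_add_distrib]
  refine sum_le_sum fun i hi => ?_
  obtain ⟨a1, a2⟩ := hE i hi
  obtain ⟨u, v⟩ := i
  obtain ⟨b1, b2, b3⟩ := point_mem_wall.1 a1
  simp only at a2 b1 b2 b3
  subst b1
  have n1 : (0 : ℝ) ≤ if (u, u) ∈ ({(1, 1), (l, l)} : Finset Site) then 1 else 0 := by
    split_ifs <;> norm_num
  have n2 : 0 ≤ if (u, u) ∈ wall 1 (min l (n + 1)) then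
      iV (T s 1 (min l (n + 1))) (u, u) e else 0 := by
    split_ifs
    exacts [point_iV_nonneg _ _ _, le_rfl]
  have n3 : 0 ≤ if (u, u) ∈ wall (max 1 (l - n)) l then
      iV (T s (max 1 (l - n)) l) (u, u) e else 0 := by
    split_ifs
    exacts [point_iV_nonneg _ _ _, le_rfl]
  by_cases c1 : u = 1 ∨ u = l
  · rw [if_pos (by rcases c1 with rfl | rfl <;> simp)]
    linarith [point_iV_le_one (T s 1 l) (u, u) e]
  · rcases a2 with a2 | a2
    · rw [if_pos (show (u, u) ∈ wall 1 (min l (n + 1)) from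
        point_mem_wall.2 ⟨rfl, b2, by simp only; omega⟩)]
      have := point_iV_le (gap_mono (x' := 1) (y' := min l (n + 1)) (i := u) hs le_rfl le_rfl
        (by omega) (by omega) (min_le_left _ _) e)
      linarith
    · rw [if_pos (show (u, u) ∈ wall (max 1 (l - n)) l from
        point_mem_wall.2 ⟨rfl, by simp only; omega, b3⟩)]
      have := point_iV_le (gap_mono (x' := max 1 (l - n)) (y' := l) (i := u) hs le_rfl
        (le_max_left _ _) (by omega) (by omega) le_rfl e)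
      linarith

lemma point_cD_nonneg {c : ℤ} {r : ℝ} {d : ℤ → ℝ} (hr : 0 ≤ r) (hd : ∀ j, 0 ≤ d j) (z : Site) :
    0 ≤ cD c r d z := by
  unfold cD
  split_ifs
  exacts [le_rfl, hr, hd _, zero_le_one]

/-- a path of the damaged environment that misses a window is a path of the weak model -/
lemma point_miss {c x y : ℤ} {r s w : ℝ} (hr : 0 ≤ r) (hs : 0 ≤ s) (hw : 0 ≤ w) (e : Env)
    (i : Site) {m : ℕ} {π : ℕ → Site} (hp : IsPath 0 (1, 0) (c, c - 1) m π)
    (h : ¬ ∃ n ≤ m, ∃ j, x ≤ j ∧ j ≤ y ∧ π n = (j, j)) :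
    pval (wt (cD c r fun _ => s) (Function.update e i 0)) m π ≤
      F c r (fun j => if x ≤ j ∧ j ≤ y then w else s) e := by
  refine le_trans (pval_mono fun n hn => ?_) (le_L _ hp)
  have e1 : cD c r (fun _ => s) (π n) = cD c r (fun j => if x ≤ j ∧ j ≤ y then w else s) (π n) := by
    unfold cD
    by_cases h3 : (π n).1 = (π n).2
    · have h4 : ¬ (x ≤ (π n).1 ∧ (π n).1 ≤ y) := fun h4 =>
        h ⟨n, hn, (π n).1, h4.1, h4.2, Prod.ext rfl h3.symm⟩
      simp only [if_neg h4]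
    · simp only [if_neg h3]
  unfold wt
  rw [e1]
  refine mul_le_mul_of_nonneg_left ?_ (point_cD_nonneg hr (fun j => ?_) _)
  · by_cases hi : π n = i
    · rw [hi, Function.update_self, abs_zero]
      exact abs_nonneg _
    · rw [Function.update_of_ne hi]
  · split_ifs
    exacts [hw, hs]

/-- if both windows are touched, a site that matters for `T` matters for `F` -/
lemma point_det {c l n i : ℤ} {r s s' w : ℝ} (hr : 0 ≤ r) (hs : 0 ≤ s) (hss : s ≤ s')
    (hw : 0 ≤ w) (hc : l + 1 ≤ c) (h1 : n < i) (h2 : i ≤ l - n) (hn : 0 ≤ n) (e : Env)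
    (g1 : F c r (fun j => if 1 ≤ j ∧ j ≤ n then w else s') e < F c r (fun _ => s') e)
    (g2 : F c r (fun j => if l - n + 1 ≤ j ∧ j ≤ l then w else s') e < F c r (fun _ => s') e)
    (h : T s 1 l (Function.update e (i, i) 0) < T s 1 l e) :
    F c r (fun _ => s') (Function.update e (i, i) 0) < F c r (fun _ => s') e := by
  have hs' : 0 ≤ s' := hs.trans hss
  set W0 := wt (cD c r fun _ => s') (Function.update e (i, i) 0) with hW0
  set W := wt (cD c r fun _ => s') e with hW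
  obtain ⟨m, π, hp, he⟩ := exists_opt W0 (k := 0) (a := (1, 0)) (b := (c, c - 1))
    (by unfold Adm; simp only; omega)
  have he' : F c r (fun _ => s') (Function.update e (i, i) 0) = pval W0 m π := he
  rw [he']
  by_cases c1 : ∃ t ≤ m, ∃ j, 1 ≤ j ∧ j ≤ n ∧ π t = (j, j)
  swap
  · exact (point_miss hr hs' hw e _ hp c1).trans_lt g1
  by_cases c2 : ∃ t ≤ m, ∃ j, l - n + 1 ≤ j ∧ j ≤ l ∧ π t = (j, j)
  swap
  · exact (point_miss hr hs' hw e _ hp c2).trans_lt g2
  obtain ⟨t1, a1, x, a2, a3, a4⟩ := c1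
  obtain ⟨t2, b1, y, b2, b3, b4⟩ := c2
  have ht : t1 ≤ t2 := by
    have d1 := hp.sum_eq a1
    have d2 := hp.sum_eq b1
    rw [a4] at d1
    rw [b4] at d2
    simp only at d1 d2
    omega
  have s1 := pval_split W0 π b1
  have s2 := (hp.take b1).split_le W0 ht
  have s3 := le_L W0 (hp.drop b1)
  rw [a4, b4] at s2
  rw [b4] at s1 s3
  have off : ∀ z : Site, z.1 ≠ i → W0 z = W z := by
    intro z hz
    simp only [hW0, hW, wt]
    rw [Function.update_of_ne fun h' => hz (by rw [h'])]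
  have mid : ∀ e' : Env, L 0 (wt (cD c r fun _ => s') e') (x, x) (y, y) = T s' x y e' := by
    intro e'
    refine L_congr fun z z1 z2 => ?_
    obtain ⟨u, v⟩ := z
    unfold Adm at z1 z2
    simp only at z1 z2
    unfold wt cD cT
    rw [if_neg (by simp only [Prod.mk.injEq]; omega), if_neg (by simp only; omega)]
  have e1 : L 0 W0 (1, 0) (x, x) = L 0 W (1, 0) (x, x) :=
    L_congr fun z _ z2 => off z (by have := z2.1; simp only at this; omega)
  have e2 : L 0 W0 (y, y) (c, c - 1) = L 0 W (y, y) (c, c - 1) :=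
    L_congr fun z z1 _ => off z (by have := z1.1; simp only at this; omega)
  have e3 := off (x, x) (by simp only; omega)
  have e4 := off (y, y) (by simp only; omega)
  have e5 := gap_mono hs hss a2 (show x < i by omega) (show i < y by omega) b3 e h
  rw [← mid, ← mid] at e5
  have k1 := L_concat W (k := 0) (a := (1, 0)) (b := (x, x)) (c := (y, y))
    (by unfold Adm; simp only; omega) (by unfold Adm; simp only; omega)
  have k2 := L_concat W (k := 0) (a := (1, 0)) (b := (y, y)) (c := (c, c - 1))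
    (by unfold Adm; simp only; omega) (by unfold Adm; simp only; omega)
  have k3 : F c r (fun _ => s') e = L 0 W (1, 0) (c, c - 1) := rfl
  rw [← hW0, ← hW] at e5
  linarith

/-- comparison of overlaps outside a bad event -/
lemma point_abs {s κ : ℝ} {f g : Env → ℝ} {R M : Finset Site} (hM : M ⊆ R) (hs : 0 < s)
    (hf : PG f) (hg : PG g) (hh : ∀ i ∈ R, Hinge s f i) {Bad : Set Env} (hB : MeasurableSet Bad)
    (hd : ∀ i ∈ M, ∀ e, e ∉ Bad → iV f i e ≤ iV g i e) (hκ : 0 < κ) :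
    ∫ e, ∑ i ∈ R, cE (R : Set Site) (iV f i) e ^ 2 ∂mu ≤
      ∫ e, ∑ i ∈ R \ M, iV f i e ∂mu + 2 * ∫ e, ∑ i ∈ R, cE (R : Set Site) (iV g i) e ^ 2 ∂mu +
        κ⁻¹ * mu.real Bad + κ * ∫ e, (∑ i ∈ R, |e i| * iV f i e) ^ 2 ∂mu := by
  have pB := pg_indicator hB
  have pY := point_pg_Y hf R
  have pE : PG fun e => ∑ i ∈ R \ M, iV f i e := pg_sum _ fun i _ => hf.iV i
  have pG : PG fun e => ∑ i ∈ R, cE (R : Set Site) (iV g i) e ^ 2 :=
    pg_sum _ fun i _ => ((hg.iV i).cE _).pow 2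
  have iB0 : ∀ e, (0 : ℝ) ≤ Bad.indicator 1 e := fun e =>
    Set.indicator_nonneg (fun _ _ => zero_le_one) e
  have iB1 : ∀ e, Bad.indicator (1 : Env → ℝ) e ≤ 1 := fun e =>
    Set.indicator_le_self' (fun _ _ => zero_le_one) e
  have key : ∀ e, ∑ i ∈ R, cE (R : Set Site) (iV f i) e ^ 2 ≤
      cE (R : Set Site) (fun e => ∑ i ∈ R \ M, iV f i e) e +
        2 * ∑ i ∈ R, cE (R : Set Site) (iV g i) e ^ 2 + κ⁻¹ * cE (R : Set Site) (Bad.indicator 1) e +
        κ * cE (R : Set Site) (fun e => (∑ i ∈ R, |e i| * iV f i e) ^ 2) e := by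
    intro e
    set p := cE (R : Set Site) (Bad.indicator 1) e with hp
    have p0 : 0 ≤ p := cE_nonneg _ iB0 e
    have p1 : p ≤ 1 := (cE_mono _ pB (pg_const 1) iB1 e).trans_eq (cE_const _ _ _)
    have z0 : ∀ i, 0 ≤ cE (R : Set Site) (fun e => |e i| * iV f i e) e := fun i =>
      cE_nonneg _ (fun e => mul_nonneg (abs_nonneg _) (point_iV_nonneg f i e)) e
    have a1 : ∑ i ∈ R \ M, cE (R : Set Site) (iV f i) e ^ 2 ≤
        cE (R : Set Site) (fun e => ∑ i ∈ R \ M, iV f i e) e := by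
      rw [cE_sum _ _ fun i _ => hf.iV i]
      refine sum_le_sum fun i _ => ?_
      have b0 := cE_nonneg (R : Set Site) (point_iV_nonneg f i) e
      have b1 := (cE_mono (R : Set Site) (hf.iV i) (pg_const 1) (point_iV_le_one f i) e).trans_eq
        (cE_const _ _ _)
      nlinarith
    have a2 : ∑ i ∈ M, cE (R : Set Site) (iV f i) e ^ 2 ≤
        ∑ i ∈ R, (2 * cE (R : Set Site) (iV g i) e ^ 2 +
          2 * p * cE (R : Set Site) (fun e => |e i| * iV f i e) e) := by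
      refine le_trans (sum_le_sum fun i hi => ?_) (sum_le_sum_of_subset_of_nonneg hM
        fun i _ _ => add_nonneg (by positivity) (mul_nonneg (by positivity) (z0 i)))
      have pρ := pB.mul (hf.iV i)
      have b0 := cE_nonneg (R : Set Site) (point_iV_nonneg f i) e
      have b1 : cE (R : Set Site) (iV f i) e ≤ cE (R : Set Site) (iV g i) e +
          cE (R : Set Site) (fun e => Bad.indicator 1 e * iV f i e) e := by
        rw [← cE_add _ (hg.iV i) pρ]
        refine cE_mono _ (hf.iV i) ((hg.iV i).add pρ) (fun e => ?_) e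
        by_cases he : e ∈ Bad
        · rw [Set.indicator_of_mem he, Pi.one_apply, one_mul]
          linarith [point_iV_nonneg g i e]
        · rw [Set.indicator_of_notMem he, zero_mul, add_zero]
          exact hd i hi e he
      have b2 : 0 ≤ cE (R : Set Site) (fun e => Bad.indicator 1 e * iV f i e) e :=
        cE_nonneg _ (fun e => mul_nonneg (iB0 e) (point_iV_nonneg f i e)) e
      have b3 : cE (R : Set Site) (fun e => Bad.indicator 1 e * iV f i e) e ≤ p :=
        cE_mono _ pρ pB (fun e => mul_le_of_le_one_right (iB0 e) (point_iV_le_one f i e)) e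
      have b4 : cE (R : Set Site) (fun e => Bad.indicator 1 e * iV f i e) e ≤
          cE (R : Set Site) (fun e => |e i| * iV f i e) e :=
        (cE_mono _ pρ (hf.iV i)
          (fun e => mul_le_of_le_one_left (point_iV_nonneg f i e) (iB1 e)) e).trans
          (cE_iV_le (hh i (hM hi)) hs hf (mem_coe.2 (hM hi)) e)
      have b5 := mul_le_mul b3 b4 b2 p0
      have b6 := pow_le_pow_left₀ b0 b1 2
      nlinarith [sq_nonneg (cE (R : Set Site) (iV g i) e -
        cE (R : Set Site) (fun e => Bad.indicator 1 e * iV f i e) e)]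
    rw [sum_add_distrib, ← mul_sum, ← mul_sum,
      ← cE_sum _ _ fun i _ => (pg_coord i).abs.mul (hf.iV i)] at a2
    have a3 := sq_cE_le (R : Set Site) pY e
    set Z := cE (R : Set Site) (fun e => ∑ i ∈ R, |e i| * iV f i e) e
    have a4 : 2 * p * Z ≤ κ⁻¹ * p ^ 2 + κ * Z ^ 2 := by
      have : κ⁻¹ * p ^ 2 + κ * Z ^ 2 - 2 * p * Z = κ⁻¹ * (p - κ * Z) ^ 2 := by
        field_simp
        ring
      have : 0 ≤ κ⁻¹ * (p - κ * Z) ^ 2 := by positivity
      linarith
    have a5 : κ⁻¹ * p ^ 2 ≤ κ⁻¹ * p := mul_le_mul_of_nonneg_left (by nlinarith) (by positivity)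
    have a6 := mul_le_mul_of_nonneg_left a3 hκ.le
    rw [← sum_sdiff hM]
    linarith
  have i1 := (pE.cE (R : Set Site)).integrable
  have i2 := pG.integrable.const_mul 2
  have i3 := (pB.cE (R : Set Site)).integrable.const_mul κ⁻¹
  have i4 := ((pY.pow 2).cE (R : Set Site)).integrable.const_mul κ
  refine (integral_mono (pg_sum _ fun i _ => ((hf.iV i).cE _).pow 2).integrable
    (((i1.add i2).add i3).add i4) key).trans_eq ?_
  rw [integral_add' ((i1.add i2).add i3) i4, integral_add' (i1.add i2) i3, integral_add' i1 i2,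
    integral_const_mul, integral_const_mul, integral_const_mul, integral_cE _ pE, integral_cE _ pB,
    integral_cE _ (pY.pow 2), integral_indicator_one hB]

/-- the overlap bound -/
lemma point_overlap (hS : S_STAT) (hT : S_TOUCH) (hD : S_VD) {C0 η : ℝ} (hC : 0 < C0)
    (hη : 0 < η) : ∃ ν0 : ℝ, ∀ ν : ℝ, ν0 ≤ ν → ∀ x : ℝ, |x| ≤ C0 / ν → ∀ l : ℤ, 1 ≤ l →
      (l : ℝ) ≤ C0 * ν ^ 3 → ∀ R ⊆ wall 1 l,
        ∫ e, ∑ i ∈ R, cE (R : Set Site) (iV (T (q x) 1 l) i) e ^ 2 ∂mu ≤ η * ν ^ 2 := by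
  obtain ⟨A, B, ν1, hA, hB, hν1, hD⟩ := hD (C0 + 3) (by linarith)
  have hB0 : 0 < B := by linarith
  obtain ⟨δ, δ0, δ1, δ2⟩ : ∃ δ : ℝ, 0 < δ ∧ δ ≤ 1 ∧ δ ≤ η / (10 * A * B) :=
    ⟨min 1 (η / (10 * A * B)), by positivity, min_le_left _ _, min_le_right _ _⟩
  obtain ⟨κ, κ0, hκ⟩ : ∃ κ : ℝ, 0 < κ ∧ κ = η / (10 * B * A ^ 2) := ⟨_, by positivity, rfl⟩
  obtain ⟨CT, θT, CT0, θT0, hT⟩ := hT (η * κ / 10) (by positivity)
  obtain ⟨C1, hC1⟩ : ∃ C1 : ℝ, C1 = C0 + 1 + (CT + 1) / δ := ⟨_, rfl⟩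
  have c0 : 0 < (CT + 1) / δ := by positivity
  have c1 : C0 ≤ C1 := by linarith
  have c2 : 1 ≤ C1 := by linarith
  have c3 : CT + 1 ≤ C1 * δ := by
    rw [← div_le_iff₀ δ0]
    linarith
  obtain ⟨θS, θS0, hS⟩ := hS (η / (10 * C1 * (C0 + 2))) (by positivity)
  refine ⟨1 + 10 / η + ν1 / δ + C1 / θT + C1 / θS + 8 * C1, fun ν hν x hx l hl hl' R hR => ?_⟩
  have t1 : 0 < 10 / η := by positivity
  have t2 : 0 < ν1 / δ := by positivity
  have t3 : 0 < C1 / θT := by positivity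
  have t4 : 0 < C1 / θS := by positivity
  have ν_1 : 1 ≤ ν := by linarith
  have ν_0 : 0 < ν := by linarith
  have ν_2 : 10 ≤ η * ν := by rw [← div_le_iff₀' hη]; linarith
  have ν_3 : ν1 ≤ δ * ν := by rw [← div_le_iff₀' δ0]; linarith
  have ν_4 : δ * ν ≤ ν := mul_le_of_le_one_left ν_0.le δ1
  obtain ⟨θ, hθ⟩ : ∃ θ : ℝ, θ = C1 / ν := ⟨_, rfl⟩
  have θ0 : 0 < θ := by rw [hθ]; positivity
  have θ1 : θ ≤ θT := by rw [hθ, div_le_comm₀ ν_0 θT0]; linarith
  have θ2 : θ ≤ θS := by rw [hθ, div_le_comm₀ ν_0 θS0]; linarith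
  have θ3 : θ ≤ 1 / 8 := by rw [hθ, div_le_iff₀ ν_0]; linarith
  have θ4 : θ * ν = C1 := by rw [hθ]; field_simp
  have xθ : x ≤ θ := (le_abs_self x).trans (hx.trans (by rw [hθ]; gcongr))
  have s0 : 0 < q x := q_pos (by linarith)
  have hx1 : |x| ≤ (C0 + 3) / (δ * ν) := hx.trans (by gcongr; linarith)
  have hx2 : |x| ≤ (C0 + 3) / ν := hx.trans (by gcongr; linarith)
  obtain ⟨n, n1, n2⟩ : ∃ n : ℤ, (δ * ν) ^ 3 ≤ n ∧ (n : ℝ) ≤ (δ * ν) ^ 3 + 1 :=
    ⟨⌈(δ * ν) ^ 3⌉, Int.le_ceil _, (Int.ceil_lt_add_one _).le⟩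
  have u1 : 1 ≤ (δ * ν) ^ 3 := one_le_pow₀ (by linarith)
  have n0 : 1 ≤ n := by exact_mod_cast u1.trans n1
  have len : (n : ℝ) + 1 ≤ (C0 + 3) * (δ * ν) ^ 3 := by
    linarith [mul_nonneg hC.le (zero_le_one.trans u1)]
  have hK : 0 < A * (δ * ν) ^ 2 := by positivity
  have w1 := point_window s0 hK (hD _ ν_3 x hx1 1 (min l (n + 1)) (by omega) (by
    refine le_trans ?_ len
    have : min l (n + 1) ≤ n + 1 := min_le_right _ _
    have : ((min l (n + 1) : ℤ) : ℝ) ≤ ((n + 1 : ℤ) : ℝ) := by exact_mod_cast this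
    push_cast at this ⊢
    linarith))
  have w2 := point_window s0 hK (hD _ ν_3 x hx1 (max 1 (l - n)) l (by omega) (by
    refine le_trans ?_ len
    have : l - n ≤ max 1 (l - n) := le_max_right _ _
    have : ((l - n : ℤ) : ℝ) ≤ ((max 1 (l - n) : ℤ) : ℝ) := by exact_mod_cast this
    push_cast at this ⊢
    linarith))
  have hf := point_pg_T (q x) 1 l
  have w3 := point_Y_sq hf (by positivity) (hD ν (ν_3.trans ν_4) x hx2 1 l hl (by
    push_cast
    linarith [pow_pos ν_0 3]))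
  obtain ⟨c, hc1, hc2, hS⟩ := hS θ θ0 θ2 l (by omega)
  have hS := hS R fun i hi => by
    obtain ⟨a1, a2, a3⟩ := point_mem_wall.1 (hR hi)
    exact point_mem_wall.2 ⟨a1, a2, by omega⟩
  obtain ⟨Bad, mB, pB, dB⟩ : ∃ Bad : Set Env, MeasurableSet Bad ∧
      mu.real Bad ≤ 2 * (η * κ / 10) ∧ ∀ i ∈ R.filter fun i => n < i.1 ∧ i.1 ≤ l - n,
        ∀ e, e ∉ Bad → iV (T (q x) 1 l) i e ≤ iV (F c (q (-θ)) fun _ => q θ) i e := by
    by_cases hnl : n ≤ l
    swap
    · refine ⟨∅, MeasurableSet.empty, by rw [measureReal_empty]; positivity, fun i hi => ?_⟩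
      have := (mem_filter.1 hi).2
      omega
    have long : CT ≤ θ ^ 3 * n := by
      calc CT ≤ (CT + 1) ^ 3 := by linarith [pow_pos CT0 3, pow_pos CT0 2]
        _ ≤ (C1 * δ) ^ 3 := by gcongr
        _ = θ ^ 3 * (δ * ν) ^ 3 := by rw [← θ4]; ring
        _ ≤ _ := by gcongr
    refine ⟨_ ∪ _, (measurableSet_le (point_pg_F _ _ _).1 (point_pg_F _ _ _).1).union
      (measurableSet_le (point_pg_F _ _ _).1 (point_pg_F _ _ _).1),
      (measureReal_union_le _ _).trans ((add_le_add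
        (hT θ θ0 θ1 c 1 n le_rfl n0 (by omega) (by push_cast; linarith))
        (hT θ θ0 θ1 c (l - n + 1) l (by omega) (by omega) (by omega)
          (by push_cast; linarith))).trans_eq (by ring)), fun i hi e he => ?_⟩
    obtain ⟨a0, a1, a2⟩ := mem_filter.1 hi
    obtain ⟨u, v⟩ := i
    obtain rfl : u = v := (point_mem_wall.1 (hR a0)).1
    simp only [Set.mem_union, Set.mem_ofPred_eq, not_or, not_le] at he
    exact point_iV_le (point_det (q_pos (by linarith)).le s0.le (q_mono xθ (by linarith))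
      (q_pos (by linarith)).le hc1 a1 a2 (by omega) e he.1 he.2)
  have main := point_abs (κ := κ / ν ^ 2) (filter_subset _ _) s0 hf (point_pg_F _ _ _)
    (fun i hi => hinge_T s0 (hR hi)) mB dB (by positivity)
  have e1 : ∫ e, ∑ i ∈ R \ R.filter fun i => n < i.1 ∧ i.1 ≤ l - n, iV (T (q x) 1 l) i e ∂mu ≤
      2 + B * (A * (δ * ν) ^ 2) + B * (A * (δ * ν) ^ 2) := by
    have i1 := (pg_sum (wall 1 (min l (n + 1))) fun i _ =>
      (point_pg_T (q x) 1 (min l (n + 1))).iV i).integrable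
    have i2 := (pg_sum (wall (max 1 (l - n)) l) fun i _ =>
      (point_pg_T (q x) (max 1 (l - n)) l).iV i).integrable
    have i0 : Integrable (fun _ : Env => (2 : ℝ)) mu := integrable_const _
    refine (integral_mono (pg_sum _ fun i _ => hf.iV i).integrable ((i0.add i1).add i2)
      (point_ends (n := n) s0.le fun i hi => ?_)).trans ?_
    · obtain ⟨a1, a2⟩ := mem_sdiff.1 hi
      refine ⟨hR a1, ?_⟩
      by_contra hcon
      exact a2 (mem_filter.2 ⟨a1, by omega⟩)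
    · rw [integral_add' (i0.add i1) i2, integral_add' i0 i1]
      simp only [integral_const, probReal_univ, smul_eq_mul, one_mul]
      linarith
  have e2 : ∫ e, (∑ i ∈ R, |e i| * iV (T (q x) 1 l) i e) ^ 2 ∂mu ≤ 2 * B * (A * ν ^ 2) ^ 2 := by
    refine le_trans (integral_mono ((point_pg_Y hf R).pow 2).integrable
      ((point_pg_Y hf (wall 1 l)).pow 2).integrable fun e => ?_) w3
    exact pow_le_pow_left₀ (point_Y_nonneg _ _ e) (sum_le_sum_of_subset_of_nonneg hR
      fun i _ _ => mul_nonneg (abs_nonneg _) (point_iV_nonneg _ i e)) 2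
  have f1 : 2 ≤ η / 5 * ν ^ 2 := by
    linarith [mul_le_mul_of_nonneg_left ν_1 (mul_pos hη ν_0).le]
  have f2 : B * (A * (δ * ν) ^ 2) ≤ η / 10 * ν ^ 2 := by
    have : A * B * δ ≤ η / 10 := by
      rw [le_div_iff₀ (by positivity)] at δ2
      linarith
    calc _ = A * B * δ * δ * ν ^ 2 := by ring
      _ ≤ η / 10 * 1 * ν ^ 2 := by gcongr
      _ = _ := by ring
  have f3 : η / (10 * C1 * (C0 + 2)) * θ * c ≤ η / 10 * ν ^ 2 := by
    have g1 : (θ ^ 3)⁻¹ ≤ ν ^ 3 := by
      rw [inv_le_iff_one_le_mul₀ (by positivity), ← mul_pow, mul_comm, θ4]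
      exact one_le_pow₀ c2
    have g2 : (c : ℝ) ≤ (C0 + 2) * ν ^ 3 := by linarith [one_le_pow₀ (n := 3) ν_1]
    calc _ ≤ η / (10 * C1 * (C0 + 2)) * θ * ((C0 + 2) * ν ^ 3) := by gcongr
      _ = _ := by rw [hθ]; field_simp
  have f4 : (κ / ν ^ 2)⁻¹ * mu.real Bad ≤ η / 5 * ν ^ 2 := by
    calc _ ≤ (κ / ν ^ 2)⁻¹ * (2 * (η * κ / 10)) := by gcongr
      _ = _ := by field_simp; ring
  have f5 : κ / ν ^ 2 * ∫ e, (∑ i ∈ R, |e i| * iV (T (q x) 1 l) i e) ^ 2 ∂mu ≤ η / 5 * ν ^ 2 := by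
    calc _ ≤ κ / ν ^ 2 * (2 * B * (A * ν ^ 2) ^ 2) := by gcongr
      _ = _ := by rw [hκ]; field_simp; ring
  linarith

lemma point_rs {s : ℝ} (l : ℤ) :
    ∫ e, (T s 1 l e - T s 1 l (rs e)) ^ 2 ∂mu ≤
      4 * ∫ e, (T s 1 l e - cE (wall 1 l : Set Site) (T s 1 l) e) ^ 2 ∂mu := by
  have hf := point_pg_T s 1 l
  have p1 := (hf.sub (hf.cE (wall 1 l : Set Site))).pow 2
  have hg : ∀ e, cE (wall 1 l : Set Site) (T s 1 l) (rs e) = cE (wall 1 l : Set Site) (T s 1 l) e := by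
    intro e
    refine dependsOn_cE (f := T s 1 l) (dependsOn_L (cT s)) _ fun z hz => ?_
    obtain ⟨⟨a1, a2, -⟩, a3⟩ := hz
    have a4 : ¬ (z.1 = z.2 ∧ 1 ≤ z.1 ∧ z.1 ≤ l) := fun h => a3 (mem_coe.2 (point_mem_wall.2 h))
    unfold Adm at a1 a2
    simp only at a1 a2
    unfold rs
    rw [if_neg (by omega), if_neg (by omega)]
  have i1 := p1.integrable
  have i2 : Integrable (fun e => (T s 1 l (rs e) -
      cE (wall 1 l : Set Site) (T s 1 l) (rs e)) ^ 2) mu := mp_rs.integrable_comp_of_integrable i1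
  have e2 : ∫ e, (T s 1 l (rs e) - cE (wall 1 l : Set Site) (T s 1 l) (rs e)) ^ 2 ∂mu =
      ∫ e, (T s 1 l e - cE (wall 1 l : Set Site) (T s 1 l) e) ^ 2 ∂mu := by
    conv_rhs => rw [← mp_rs.map_eq]
    rw [integral_map mp_rs.measurable.aemeasurable p1.1.aestronglyMeasurable]
  refine (integral_mono_of_nonneg (Filter.Eventually.of_forall fun e => sq_nonneg _)
    ((i1.const_mul 2).add (i2.const_mul 2)) (Filter.Eventually.of_forall fun e => ?_)).trans_eq ?_
  · simp only [Pi.add_apply, hg]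
    nlinarith [sq_nonneg (T s 1 l e + T s 1 l (rs e) - 2 * cE (wall 1 l : Set Site) (T s 1 l) e)]
  · rw [integral_add' (i1.const_mul 2) (i2.const_mul 2), integral_const_mul, integral_const_mul, e2]
    ring

lemma point_shift (s : ℝ) (a b : ℤ) :
    ∫ e, (T s a b e - T s a b (rs e)) ^ 2 ∂mu =
      ∫ e, (T s 1 (b - a + 1) e - T s 1 (b - a + 1) (rs e)) ^ 2 ∂mu := by
  have hσ := mp_reindex (σ := fun z : Site => z + (a - 1, a - 1)) (add_left_injective _)
  have hf := (point_pg_T s 1 (b - a + 1)).1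
  have hm : Measurable fun e => (T s 1 (b - a + 1) e - T s 1 (b - a + 1) (rs e)) ^ 2 :=
    (hf.sub (hf.comp mp_rs.measurable)).pow_const 2
  conv_rhs => rw [← hσ.map_eq]
  rw [integral_map hσ.measurable.aemeasurable hm.aestronglyMeasurable]
  refine integral_congr_ae (Filter.Eventually.of_forall fun e => ?_)
  have e1 : ∀ e, T s a b e = T s 1 (b - a + 1) fun z => e (z + (a - 1, a - 1)) := fun e => by
    rw [← T_shift]
    congr 1 <;> ring
  have e2 : (fun z => rs e (z + (a - 1, a - 1))) = rs fun z => e (z + (a - 1, a - 1)) := by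
    funext z
    obtain ⟨u, v⟩ := z
    simp only [rs, Prod.mk_add_mk]
    by_cases h1 : u = v
    · rw [if_pos h1, if_pos (by omega)]
      congr 2
      ring
    · rw [if_neg h1, if_neg (by omega)]
      by_cases h2 : v = u + 1
      · rw [if_pos h2, if_pos (by omega)]
      · rw [if_neg h2, if_neg (by omega)]
  simp only [e1, e2]

theorem point (hV : S_VAR) (hS : S_STAT) (hT : S_TOUCH) (hD : S_VD) : S_POINT := by
  intro C0 η hC hη
  obtain ⟨A, B, ν1, hA, hB, hν1, hD'⟩ := hD C0 hC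
  have hB0 : 0 < B := by linarith
  obtain ⟨C, C_0, hV⟩ := hV (η / (8 * A * B)) (by positivity)
  obtain ⟨ν2, hO⟩ := point_overlap hS hT hD hC (η := η / (8 * C)) (by positivity)
  refine ⟨max ν2 (ν1 + 4 * C0), fun ν hν x hx a b hab hl => ?_⟩
  have h1 : ν1 + 4 * C0 ≤ ν := (le_max_right _ _).trans hν
  have ν0 : 0 < ν := by linarith
  have hx' : x ≤ 1 / 4 := (le_abs_self x).trans (hx.trans (by rw [div_le_iff₀ ν0]; linarith))
  have s0 : 0 < q x := q_pos (by linarith)
  have s4 : q x ≤ 4 := (q_mono hx' (by norm_num)).trans_eq (by norm_num [q])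
  have hl' : ((b - a + 1 : ℤ) : ℝ) ≤ C0 * ν ^ 3 := by push_cast; exact hl
  have hf := point_pg_T (q x) 1 (b - a + 1)
  have k1 := hV (q x) _ _ _ (wall 1 (b - a + 1)) s0 s4 hf (fun i hi => hinge_T s0 hi)
    (point_Y_int hf (by positivity) (hD' ν (by linarith) x hx 1 (b - a + 1) (by omega)
      (by push_cast; linarith)))
    (hO ν ((le_max_left _ _).trans hν) x hx (b - a + 1) (by omega) hl')
  rw [point_shift]
  refine (point_rs _).trans ((mul_le_mul_of_nonneg_left k1 (by norm_num)).trans_eq ?_)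
  field_simp
  ring

end Pool.Agent.P.MP_9957ef_pr
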