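import Pool.Agent.P.MP_9957ef_pr.Iface
import Pool.Agent.P.MP_9957ef_pr.Det
import Pool.Agent.P.MP_9957ef_pr.Burke

/-! The big triangle seen from a block of the wall. -/

set_option autoImplicit false

noncomputable section

open MeasureTheory ProbabilityTheory Finset

namespace Pool.Agent.P.MP_9957ef_pr

theorem slab_cS {c i j : ℤ} (r s : ℝ) (e : Env) (hi : i ≤ c - 1) :
    G 1 r s (i, j) e = L 0 (wt (cD c r (fun _ => s)) e) (1, 0) (i, j) := by
  refine L_congr ?_
  rintro ⟨z1, z2⟩ ⟨a1, a2, -, a4⟩ ⟨b1, b2, -, -⟩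
  simp only at a1 a2 a4 b1 b2
  unfold wt cS cD
  simp only [Prod.mk.injEq]
  congr 1
  split_ifs <;> first | rfl | omega

theorem slab_mir (c : ℤ) (r s : ℝ) (e : Env) :
    (fun z => wt (cD c r (fun _ => s)) e (mir c z)) =
      wt (cD c r (fun _ => s)) (fun z => e (mir c z)) := by
  funext ⟨z1, z2⟩
  unfold wt cD mir
  simp only [Prod.mk.injEq]
  congr 1
  split_ifs <;> first | rfl | omega

theorem slab_back {c i j : ℤ} (r s : ℝ) (e : Env) (hj : 1 ≤ j) :
    G 1 r s (c - j, c - i) (fun z => e (mir c z)) =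
      L 0 (wt (cD c r (fun _ => s)) e) (i, j) (c, c - 1) := by
  rw [slab_cS (c := c) r s _ (by omega), L_mirror (a := (i, j)) _ c, slab_mir]
  simp [mir]

theorem slab : S_SLAB := by
  intro θ hθ c x y h1 h2 h3
  obtain ⟨Φ, hΦ, f1, f2, -⟩ := burke hθ (X := 1) (r := x - 1) (c := y) zero_le_one (by omega)
    (by omega)
  obtain ⟨Φ', hΦ', g1, g2, -⟩ := burke hθ (X := 1) (r := c - y - 1) (c := c - x) zero_le_one
    (by omega) (by omega)
  let σ : Site → Site := fun z =>
    (Equiv.swap (y + 1) c (z.1 + (x - 1)), Equiv.swap (x - 1) 0 (z.2 + (x - 1)))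
  have hσ : Function.Injective σ := by
    rintro ⟨a1, a2⟩ ⟨b1, b2⟩ h
    simp only [σ, Prod.mk.injEq, EmbeddingLike.apply_eq_iff_eq, add_left_inj] at h
    rw [h.1, h.2]
  have hm := mp_reindex (mir_injective c)
  have key : ∀ (e : Env) (z : Site), z.1 ≤ y → Φ' (fun z => e (mir c z)) (mir c z) = e z := by
    intro e z hz
    rw [g1, mir_mir]
    simp only [mir]
    omega
  refine ⟨fun e z => Φ' (fun z => Φ e (mir c z)) (mir c (σ z)),
    (mp_reindex hσ).comp (hm.comp (hΦ'.comp (hm.comp hΦ))), ?_, ?_, ?_⟩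
  · intro e i i1 i2
    have e1 : σ (i, 0) = (x - 1 + i, 0) := by
      simp only [σ, zero_add, Equiv.swap_apply_left]
      rw [Equiv.swap_apply_of_ne_of_ne (by omega) (by omega), add_comm]
    simp only [e1]
    rw [key _ _ (by simp only; omega), f2 e _ (by omega) (by omega),
      slab_cS (c := c) _ _ _ (by omega), slab_cS (c := c) _ _ _ (by omega),
      show x - 1 + i - 1 = x - 2 + i by ring]
  · intro e j j1 j2
    have e1 : mir c (σ (y - x + 2, j)) = (c - (x - 1 + j), 0) := by
      simp only [σ, mir]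
      rw [show y - x + 2 + (x - 1) = y + 1 by ring, Equiv.swap_apply_left,
        Equiv.swap_apply_of_ne_of_ne (by omega) (by omega), add_comm j, sub_self]
    have e2 : ∀ t, L 0 (wt (cD c (q (-θ)) (fun _ => q θ)) (Φ e)) (y + 1, t) (c, c - 1) =
        L 0 (wt (cD c (q (-θ)) (fun _ => q θ)) e) (y + 1, t) (c, c - 1) := by
      intro t
      refine L_congr fun z a _ => ?_
      have := a.1
      simp only at this
      unfold wt
      rw [f1 e z (by omega)]
    simp only [e1]
    rw [g2 _ _ (by omega) (by omega), show c - (x - 1 + j) - 1 = c - (x + j) by ring,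
      show c - y - 1 = c - (y + 1) by ring, slab_back _ _ _ (by omega), slab_back _ _ _ (by omega),
      e2, e2]
  · intro e i j j1 j2 j3
    have e1 : σ (i, j) = (x - 1 + i, x - 1 + j) := by
      simp only [σ]
      rw [Equiv.swap_apply_of_ne_of_ne (by omega) (by omega),
        Equiv.swap_apply_of_ne_of_ne (by omega) (by omega), add_comm i, add_comm j]
    simp only [e1]
    rw [key _ _ (by simp only; omega), f1]
    simp only
    omega

/-- `et` is the local picture of `e` around the block `[x,y]` -/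
def Local (c x y : ℤ) (r s : ℝ) (e et : Env) : Prop :=
  (∀ i, 2 ≤ i → i ≤ y - x + 1 → r * |et (i, 0)| =
    L 0 (wt (cD c r (fun _ => s)) e) (1, 0) (x - 1 + i, x - 1) -
    L 0 (wt (cD c r (fun _ => s)) e) (1, 0) (x - 2 + i, x - 1)) ∧
  (∀ j, 1 ≤ j → j ≤ y - x → r * |et (y - x + 2, j)| =
    L 0 (wt (cD c r (fun _ => s)) e) (y + 1, x - 1 + j) (c, c - 1) -
    L 0 (wt (cD c r (fun _ => s)) e) (y + 1, x + j) (c, c - 1)) ∧
  (∀ i j, 1 ≤ j → j ≤ i → i ≤ y - x + 1 → et (i, j) = e (x - 1 + i, x - 1 + j))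

/-- the part of the passage time outside the block -/
def base (c x y : ℤ) (r s : ℝ) (e : Env) : ℝ :=
  L 0 (wt (cD c r (fun _ => s)) e) (1, 0) (x, x - 1) +
    L 0 (wt (cD c r (fun _ => s)) e) (y + 1, y) (c, c - 1)

theorem slab_low {x y : ℤ} {W W' : Site → ℝ}
    (h : ∀ z : Site, ¬ (z.1 = z.2 ∧ x ≤ z.1 ∧ z.1 ≤ y) → W' z = W z) (a : Site) (i : ℤ) :
    L 0 W' a (i, x - 1) = L 0 W a (i, x - 1) :=
  L_congr fun z _ b => h z (by have := b.2.1; simp only at this; omega)

theorem slab_high {x y : ℤ} {W W' : Site → ℝ}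
    (h : ∀ z : Site, ¬ (z.1 = z.2 ∧ x ≤ z.1 ∧ z.1 ≤ y) → W' z = W z) (b : Site) (j : ℤ) :
    L 0 W' (y + 1, j) b = L 0 W (y + 1, j) b :=
  L_congr fun z a _ => h z (by have := a.1; simp only at this; omega)

theorem slab_cD_nonneg {c : ℤ} {r s : ℝ} (hr : 0 ≤ r) (hs : 0 ≤ s) (z : Site) :
    0 ≤ cD c r (fun _ => s) z := by
  unfold cD
  split_ifs
  exacts [le_rfl, hr, hs, zero_le_one]

theorem slab_shift (k t : ℤ) (W : Site → ℝ) (a1 a2 b1 b2 : ℤ) :
    L k W (a1 + t, a2 + t) (b1 + t, b2 + t) =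
      L k (fun z => W (z.1 + t, z.2 + t)) (a1, a2) (b1, b2) := by
  have := L_shift (k := k) (a := (a1, a2)) (b := (b1, b2)) W (t, t)
  simp only [Prod.mk_add_mk, sub_add_cancel] at this
  exact this

theorem dec_lower {c x y : ℤ} {r s : ℝ} (hr : 0 ≤ r) (hs : 0 ≤ s) (h1 : 1 ≤ x) (h2 : x ≤ y)
    (h3 : y ≤ c - 1) {e et e' : Env} (hl : Local c x y r s e et)
    (he : ∀ z : Site, ¬ (z.1 = z.2 ∧ x ≤ z.1 ∧ z.1 ≤ y) → e' z = e z) :
    base c x y r s e + O (y - x + 1) r 0 et ≤ F c r (fun _ => s) e' := by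
  obtain ⟨l1, l2, l3⟩ := hl
  unfold base F
  set W := wt (cD c r (fun _ => s)) e with hW
  set W' := wt (cD c r (fun _ => s)) e' with hW'
  have hWW : ∀ z : Site, ¬ (z.1 = z.2 ∧ x ≤ z.1 ∧ z.1 ≤ y) → W' z = W z := fun z hz => by
    simp only [hW, hW', wt, he z hz]
  set W1 : Site → ℝ := fun z => if z.2 = x - 1 then
    (if z.1 = x then 0 else L 0 W' (1, 0) z - L 0 W' (1, 0) (z.1 - 1, z.2)) else W' z with hW1
  set W2 : Site → ℝ := fun z => if z.1 = y + 1 then
    (if z.2 = y then 0 else L 0 W1 z (c, c - 1) - L 0 W1 (z.1, z.2 + 1) (c, c - 1)) else W1 z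
    with hW2
  have r1 := restart (k := 0) (a := (1, 0)) (u := (c, c - 1)) (W := W') (W' := W1) (r := x - 1)
    (l := x) (by simp) (by simp only; omega) (by simp only; omega) (by simp only; omega)
    (by unfold Adm; simp only; omega) (by simp [hW1])
    (fun i i1 _ => by simp [hW1, i1.ne']) (fun z _ _ hz => by simp [hW1, hz.ne'])
  have r2 := restart' (k := 0) (b := (c, c - 1)) (u := (x, x - 1)) (W := W1) (W' := W2)
    (t := y + 1) (l := y) (by simp) (by simp only; omega) (by simp only; omega)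
    (by simp only; omega) (by unfold Adm; simp only; omega) (by simp [hW2])
    (fun j j1 _ => by simp [hW2, j1.ne]) (fun z _ _ hz => by simp [hW2, hz.ne])
  have hb : ∀ j, x ≤ j → L 0 W1 (y + 1, j) (c, c - 1) = L 0 W (y + 1, j) (c, c - 1) := by
    intro j hj
    rw [← slab_high hWW]
    refine L_congr fun z a _ => ?_
    have := a.2.1
    simp only at this
    simp only [hW1]
    rw [if_neg (by omega)]
  rw [r1, r2, hb y h2, slab_low hWW]
  have main : O (y - x + 1) r 0 et ≤ L 0 W2 (x, x - 1) (y + 1, y) := by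
    have e1 := slab_shift 1 (x - 1) W2 1 0 (y - x + 1 + 1) (y - x + 1)
    rw [show 1 + (x - 1) = x by ring, zero_add, show y - x + 1 + 1 + (x - 1) = y + 1 by ring,
      show y - x + 1 + (x - 1) = y by ring] at e1
    refine le_trans ?_ (L_region W2 (k' := 1) zero_le_one (by unfold Adm; simp only; omega))
    rw [e1, O, zero_add, sub_zero]
    refine L_mono ?_
    rintro ⟨z1, z2⟩ ⟨a1, a2, -, a4⟩ ⟨b1, b2, -, -⟩
    simp only at a1 a2 a4 b1 b2
    simp only [wt, cO, Prod.mk.injEq, hW2]
    by_cases c1 : z1 = y - x + 1 + 1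
    · rw [if_pos (show z1 + (x - 1) = y + 1 by omega)]
      by_cases c2 : z2 = y - x + 1
      · rw [if_pos (by omega), if_pos (by omega), zero_mul]
      · rw [if_neg (show ¬ z2 + (x - 1) = y by omega), show z1 + (x - 1) = y + 1 by omega]
        by_cases c3 : z2 = 0
        · rw [if_pos (by omega), zero_mul, c3, zero_add]
          have k1 := L_concat2 (k := 0) (a := (y + 1, x - 1)) (b := (y + 1, x - 1))
            (c := (c, c - 1)) W1 (by unfold Adm; simp only; omega)
            (by unfold Adm; simp only; omega)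
          rw [L_self _ (by simp only; omega)] at k1
          have k2 := det_step1 (k := 0) (a := (1, 0)) W' (i := y + 1) (j := x - 1)
            (by unfold Adm; simp only; omega)
          have k3 : 0 ≤ W' (y + 1, x - 1) := wt_nonneg (slab_cD_nonneg hr hs) _ _
          have k4 : W1 (y + 1, x - 1) =
              L 0 W' (1, 0) (y + 1, x - 1) - L 0 W' (1, 0) (y + 1 - 1, x - 1) := by
            simp only [hW1, if_true]
            rw [if_neg (by omega)]
          simp only at k1
          linarith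
        · rw [if_neg (by omega), if_pos (by omega), hb _ (by omega), hb _ (by omega),
            show z1 = y - x + 2 by omega, l2 z2 (by omega) (by omega), add_comm z2,
            show x - 1 + z2 + 1 = x + z2 by ring]
    · rw [if_neg (show ¬ z1 + (x - 1) = y + 1 by omega)]
      simp only [hW1]
      by_cases c2 : z2 = 0
      · subst c2
        rw [zero_add (x - 1), if_pos (rfl : x - 1 = x - 1)]
        by_cases c3 : z1 = 1
        · rw [if_pos (by omega), if_pos (by omega), zero_mul]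
        · rw [if_neg (by omega), if_pos (by omega), if_neg (by omega), slab_low hWW, slab_low hWW,
            l1 z1 (by omega) (by omega), add_comm z1, show x - 1 + z1 - 1 = x - 2 + z1 by ring]
      · rw [if_neg (by omega), if_neg (by omega), if_neg (by omega), hWW _ (by simp only; omega),
          l3 z1 z2 (by omega) (by omega) (by omega)]
        simp only [hW, wt, cD, Prod.mk.injEq]
        rw [if_neg (by omega), if_neg (by omega), if_neg (by omega), add_comm z1, add_comm z2]
  linarith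

theorem dec_upper {c x y : ℤ} {r s s'' : ℝ} (hr : 0 ≤ r) (hs : 0 ≤ s) (h1 : 1 ≤ x) (h2 : x ≤ y)
    (h3 : y ≤ c - 1) {e et e' : Env} (hl : Local c x y r s e et)
    (he : ∀ z : Site, ¬ (z.1 = z.2 ∧ x ≤ z.1 ∧ z.1 ≤ y) → e' z = e z) {d : ℤ → ℝ}
    (hd1 : ∀ j, x ≤ j → j ≤ y → d j ≤ s'') (hd2 : ∀ j, ¬ (x ≤ j ∧ j ≤ y) → d j = s) :
    F c r d e ≤ max (F c r (fun _ => s) e') (base c x y r s e + U (y - x + 1) r s'' et) := by
  have _ := hr
  have _ := hs
  obtain ⟨l1, l2, l3⟩ := hl
  obtain ⟨m, π, hp, hopt⟩ := exists_opt (k := 0) (a := (1, 0)) (b := (c, c - 1))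
    (wt (cD c r d) e) (by unfold Adm; simp only; omega)
  rw [F, hopt]
  by_cases hv : ∃ n ≤ m, (π n).1 = (π n).2 ∧ x ≤ (π n).1 ∧ (π n).1 ≤ y
  swap
  · refine le_max_of_le_left (le_trans (pval_mono fun n hn => le_of_eq ?_) (le_L _ hp))
    have hz : ¬ ((π n).1 = (π n).2 ∧ x ≤ (π n).1 ∧ (π n).1 ≤ y) := fun h => hv ⟨n, hn, h⟩
    unfold wt cD
    rw [he _ hz]
    congr 1
    split_ifs with c1 c2 c3
    exacts [rfl, rfl, hd2 _ (fun h => hz ⟨c3, h⟩), rfl]
  refine le_max_of_le_right ?_
  obtain ⟨n, hn, v1, v2, v3⟩ := hv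
  obtain _ | n := n
  · rw [hp.1] at v1
    simp at v1
  set j := (π (n + 1)).1 with hj
  have p1 : π (n + 1) = (j, j) := Prod.ext rfl v1.symm
  have p0 : π n = (j, j - 1) := by
    have a1 := hp.2.2.2 n (by omega)
    rcases hp.2.2.1 n (by omega) with h | h
    all_goals
      rw [p1, Prod.ext_iff] at h
      simp only [Prod.fst_add, Prod.snd_add] at h
      ext <;> simp only <;> omega
  have hsplit := hp.split_le' (wt (cD c r d) e) (n := n) (by omega)
  rw [p0, p1] at hsplit
  set W := wt (cD c r (fun _ => s)) e with hW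
  set W' := wt (cD c r (fun i => if x ≤ i ∧ i ≤ y then s'' else s)) e with hW'
  have hle : ∀ z, wt (cD c r d) e z ≤ W' z := by
    intro z
    refine mul_le_mul_of_nonneg_right ?_ (abs_nonneg _)
    simp only [cD]
    split_ifs with c1 c2 c3 c4
    exacts [le_rfl, le_rfl, hd1 _ c4.1 c4.2, (hd2 _ c4).le, le_rfl]
  have hWW : ∀ z : Site, ¬ (z.1 = z.2 ∧ x ≤ z.1 ∧ z.1 ≤ y) → W' z = W z := fun z hz => by
    simp only [hW, hW', wt, cD]
    congr 1
    split_ifs with c1 c2 c3 c4
    exacts [rfl, rfl, absurd ⟨c3, c4⟩ hz, rfl, rfl]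
  set V := wt (cD (y - x + 1 + 1) r (fun _ => s'')) et with hV
  set W3 : Site → ℝ := fun z => V (z.1 - (x - 1), z.2 - (x - 1)) with hW3
  have hin : ∀ z : Site, x ≤ z.2 → z.2 ≤ z.1 → z.1 ≤ y → W3 z = W' z := by
    rintro ⟨z1, z2⟩ a1 a2 a3
    simp only at a1 a2 a3
    simp only [hW3, hV, hW', wt, cD, Prod.mk.injEq]
    rw [l3 _ _ (by omega) (by omega) (by omega), add_sub_cancel, add_sub_cancel]
    congr 1
    split_ifs <;> first | rfl | omega
  have r1 := restart (k := 0) (a := (1, 0)) (u := (j, j - 1)) (W := W') (W' := W3) (r := x - 1)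
    (l := x) (by simp) (by simp only; omega) (by simp only; omega) (by simp only; omega)
    (by unfold Adm; simp only; omega) (by simp [hW3, hV, wt, cD])
    (fun i i1 i2 => by
      simp only at i2
      simp only [hW3, hV, wt, cD, Prod.mk.injEq, sub_self]
      rw [if_neg (by omega), if_pos (by simp), l1 _ (by omega) (by omega), slab_low hWW,
        slab_low hWW, add_sub_cancel, show x - 2 + (i - (x - 1)) = i - 1 by ring])
    (fun z a b hz => hin z (by omega) (by have := a.2.2.2; omega)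
      (by have := b.1; simp only at this; omega))
  have r2 := restart' (k := 0) (b := (c, c - 1)) (u := (j, j)) (W := W') (W' := W3)
    (t := y + 1) (l := y) (by simp) (by simp only; omega) (by simp only; omega)
    (by simp only; omega) (by unfold Adm; simp only; omega)
    (by simp only [hW3, hV, wt, cD, Prod.mk.injEq]; rw [if_pos (by omega), zero_mul])
    (fun i i1 i2 => by
      simp only at i2
      simp only [hW3, hV, wt, cD, Prod.mk.injEq]
      rw [if_neg (by omega), if_pos (by omega), show y + 1 - (x - 1) = y - x + 2 by ring,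
        l2 _ (by omega) (by omega), slab_high hWW, slab_high hWW, add_sub_cancel,
        show x + (i - (x - 1)) = i + 1 by ring])
    (fun z a b hz => hin z (by have := a.2.1; simp only at this; omega)
      (by have := a.2.2.2; omega) (by omega))
  have hV3 : (fun z : Site => W3 (z.1 + (x - 1), z.2 + (x - 1))) = V := by
    funext z
    simp only [hW3, add_sub_cancel_right]
  have s1 := slab_shift 0 (x - 1) W3 1 0 (j - (x - 1)) (j - (x - 1) - 1)
  have s2 := slab_shift 0 (x - 1) W3 (j - (x - 1)) (j - (x - 1)) (y - x + 1 + 1) (y - x + 1)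
  rw [hV3, show 1 + (x - 1) = x by ring, zero_add, sub_add_cancel,
    show j - (x - 1) - 1 + (x - 1) = j - 1 by ring] at s1
  rw [hV3, sub_add_cancel, show y - x + 1 + 1 + (x - 1) = y + 1 by ring,
    show y - x + 1 + (x - 1) = y by ring] at s2
  have u1 := le_U (n := y - x + 1) (j := j - (x - 1)) r s'' et (by omega) (by omega)
  have m1 : L 0 (wt (cD c r d) e) (1, 0) (j, j - 1) ≤ L 0 W' (1, 0) (j, j - 1) :=
    L_mono fun z _ _ => hle z
  have m2 : L 0 (wt (cD c r d) e) (j, j) (c, c - 1) ≤ L 0 W' (j, j) (c, c - 1) :=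
    L_mono fun z _ _ => hle z
  rw [slab_low hWW, s1] at r1
  rw [slab_high hWW, s2] at r2
  unfold base
  linarith

end Pool.Agent.P.MP_9957ef_pr
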