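import Pool.Agent.P.MP_9957ef_pr.Slab
import Pool.Agent.P.MP_9957ef_pr.Prob

/-! The overlap bound in the stationary model. -/

set_option autoImplicit false

noncomputable section

open MeasureTheory ProbabilityTheory Finset

namespace Pool.Agent.P.MP_9957ef_pr

lemma stat_cD_nonneg (c : ℤ) {r : ℝ} {d : ℤ → ℝ} (hr : 0 ≤ r) (hd : ∀ j, 0 ≤ d j) (z : Site) :
    0 ≤ cD c r d z := by
  unfold cD
  split_ifs
  · exact le_rfl
  · exact hr
  · exact hd _
  · exact zero_le_one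

lemma stat_cD_mono (c : ℤ) (r : ℝ) {d d' : ℤ → ℝ} (hd : ∀ j, d j ≤ d' j) (z : Site) :
    cD c r d z ≤ cD c r d' z := by
  unfold cD
  split_ifs
  · exact le_rfl
  · exact le_rfl
  · exact hd _
  · exact le_rfl

lemma stat_cD_wall {c j : ℤ} (r : ℝ) (d : ℤ → ℝ) (h1 : 1 ≤ j) (h2 : j ≤ c - 1) :
    cD c r d (j, j) = d j := by
  unfold cD
  rw [if_neg, if_neg, if_pos rfl]
  · simp only; omega
  · simp only [Prod.mk.injEq]; omega

lemma stat_F_nonneg (c : ℤ) {r s : ℝ} (hr : 0 ≤ r) (hs : 0 ≤ s) (e : Env) :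
    0 ≤ F c r (fun _ => s) e :=
  L_nonneg (wt_nonneg (stat_cD_nonneg c hr fun _ => hs) e)

/-- changing the block lowers the passage time by at most `Xi` -/
lemma stat_det1 {c x y : ℤ} {r s s'' : ℝ} (hr : 0 ≤ r) (hs : 0 ≤ s) (hss : s ≤ s'')
    (h1 : 1 ≤ x) (h2 : x ≤ y) (h3 : y ≤ c - 1) {e et e' : Env} (hl : Local c x y r s e et)
    (he : ∀ z : Site, ¬ (z.1 = z.2 ∧ x ≤ z.1 ∧ z.1 ≤ y) → e' z = e z) :
    F c r (fun _ => s) e - F c r (fun _ => s) e' ≤ Xi (y - x + 1) r s'' et := by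
  have hu := dec_upper (s'' := s'') hr hs h1 h2 h3 hl he (d := fun _ => s)
    (fun _ _ _ => hss) (fun _ _ => rfl)
  have hd := dec_lower hr hs h1 h2 h3 hl he
  unfold Xi
  rcases le_max_iff.1 hu with h | h
  · exact le_max_of_le_right (by linarith)
  · exact le_max_of_le_left (by linarith)

/-- the weight collected in the block -/
lemma stat_det2 {c x y : ℤ} {r s s'' : ℝ} (hr : 0 ≤ r) (hs : 0 ≤ s) (hss : s ≤ s'')
    (h1 : 1 ≤ x) (h2 : x ≤ y) (h3 : y ≤ c - 1) {e et : Env} (hl : Local c x y r s e et)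
    {B : Finset Site} (hB : B ⊆ wall x y) :
    (s'' - s) * ∑ i ∈ B, |e i| * iV (F c r (fun _ => s)) i e ≤ Xi (y - x + 1) r s'' et := by
  classical
  set I : Finset Site := B.filter fun i =>
    F c r (fun _ => s) (Function.update e i 0) < F c r (fun _ => s) e with hI
  set d : ℤ → ℝ := fun j => if (j, j) ∈ I then s'' else s with hdd
  have hsd : ∀ j, s ≤ d j := fun j => by
    simp only [hdd]
    split_ifs
    · exact hss
    · exact le_rfl
  have hu := dec_upper (s'' := s'') (e' := e) hr hs h1 h2 h3 hl (fun _ _ => rfl) (d := d)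
    (fun j _ _ => by
      simp only [hdd]
      split_ifs
      · exact le_rfl
      · exact hss)
    (fun j hj => by
      simp only [hdd]
      rw [if_neg]
      intro hm
      obtain ⟨j', h4, h5, h6⟩ := det_mem_wall (hB (mem_filter.1 hm).1)
      obtain rfl : j = j' := congrArg Prod.fst h6
      exact hj ⟨h4, h5⟩)
  have hd := dec_lower (e' := e) hr hs h1 h2 h3 hl (fun _ _ => rfl)
  have hg := L_subgrad (k := 0) (a := (1, 0)) (b := (c, c - 1))
    (W := wt (cD c r (fun _ => s)) e) (W' := wt (cD c r d) e)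
    (wt_nonneg (stat_cD_nonneg c hr fun _ => hs) e)
    (fun z => mul_le_mul_of_nonneg_right (stat_cD_mono c r hsd z) (abs_nonneg _)) I
    (fun z hz => by
      have := (mem_filter.1 hz).2
      unfold F at this
      rwa [wt_update] at this)
  have e1 : ∑ z ∈ I, (wt (cD c r d) e z - wt (cD c r (fun _ => s)) e z) =
      (s'' - s) * ∑ i ∈ B, |e i| * iV (F c r (fun _ => s)) i e := by
    have e2 : ∑ i ∈ B, |e i| * iV (F c r (fun _ => s)) i e = ∑ i ∈ I, |e i| := by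
      rw [hI, sum_filter]
      refine sum_congr rfl fun i _ => ?_
      unfold iV
      split_ifs <;> simp
    rw [e2, mul_sum]
    refine sum_congr rfl fun z hz => ?_
    obtain ⟨j, h4, h5, rfl⟩ := det_mem_wall (hB (mem_filter.1 hz).1)
    unfold wt
    rw [stat_cD_wall r d (by omega) (by omega), stat_cD_wall r _ (by omega) (by omega)]
    simp only [hdd]
    rw [if_pos hz]
    ring
  rw [e1] at hg
  change F c r (fun _ => s) e + _ ≤ F c r d e at hg
  unfold Xi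
  rcases le_max_iff.1 hu with h | h
  · exact le_max_of_le_right (by linarith)
  · exact le_max_of_le_left (by linarith)

/-- a site of the block matters only if the block is active -/
lemma stat_det3 {c x y : ℤ} {r s s'' : ℝ} (hr : 0 ≤ r) (hs : 0 ≤ s) (hss : s ≤ s'')
    (h1 : 1 ≤ x) (h2 : x ≤ y) (h3 : y ≤ c - 1) {e et : Env} (hl : Local c x y r s e et)
    {i : Site} (hi : i ∈ wall x y)
    (hlt : F c r (fun _ => s) (Function.update e i 0) < F c r (fun _ => s) e) :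
    O (y - x + 1) r 0 et ≤ U (y - x + 1) r s'' et := by
  obtain ⟨j, h4, h5, rfl⟩ := det_mem_wall hi
  have he : ∀ z : Site, ¬ (z.1 = z.2 ∧ x ≤ z.1 ∧ z.1 ≤ y) →
      Function.update e (j, j) 0 z = e z := fun z hz =>
    Function.update_of_ne (fun h => hz (by subst h; exact ⟨rfl, h4, h5⟩)) _ _
  have hu := dec_upper (s'' := s'') hr hs h1 h2 h3 hl he (d := fun _ => s)
    (fun _ _ _ => hss) (fun _ _ => rfl)
  have hd := dec_lower hr hs h1 h2 h3 hl he
  rcases le_max_iff.1 hu with h | h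
  · linarith
  · linarith

lemma stat_pg_Xi (m : ℤ) (r s : ℝ) : PG (Xi m r s) :=
  ((pg_U m r s).sub (pg_L (cO m r 0))).max (pg_const 0)

/-- all the data attached to one block -/
lemma stat_block {θ ν : ℝ} (hθ0 : 0 ≤ θ) (hθ : θ ≤ 1 / 16) (hν : 16 ≤ ν) {c x y : ℤ}
    (h1 : 1 ≤ x) (h2 : x ≤ y) (h3 : y ≤ c - 1) {B : Finset Site} (hB : B ⊆ wall x y) :
    ∃ (Ξ : Env → ℝ) (A : Set Env), (PG Ξ ∧ (∀ e, 0 ≤ Ξ e) ∧ MeasurableSet A) ∧
      (∀ e e' : Env, (∀ z, z ∉ B → e' z = e z) →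
        F c (q (-θ)) (fun _ => q θ) e - F c (q (-θ)) (fun _ => q θ) e' ≤ Ξ e) ∧
      (∀ e, ∑ i ∈ B, |e i| * iV (F c (q (-θ)) (fun _ => q θ)) i e ≤ ν * Ξ e) ∧
      (∀ i ∈ B, ∀ e, F c (q (-θ)) (fun _ => q θ) (Function.update e i 0) <
        F c (q (-θ)) (fun _ => q θ) e → e ∈ A) ∧
      ∫ e, Ξ e ^ 2 ∂mu ≤ ∫ e, Xi (y - x + 1) (q (-θ)) (q (θ + 1 / ν)) e ^ 2 ∂mu ∧
      mu.real A ≤ mu.real {e | O (y - x + 1) (q (-θ)) 0 e ≤
        U (y - x + 1) (q (-θ)) (q (θ + 1 / ν)) e} := by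
  have hν0 : 0 < ν := by linarith
  have hν1 : 1 / ν ≤ 1 / 16 := one_div_le_one_div_of_le (by norm_num) hν
  have hν2 : 0 < 1 / ν := by positivity
  obtain ⟨Ψ, hΨ, p1, p2, p3⟩ := slab θ (abs_lt.2 ⟨by linarith, by linarith⟩) c x y h1 h2 h3
  have hl : ∀ e, Local c x y (q (-θ)) (q θ) e (Ψ e) := fun e => ⟨p1 e, p2 e, p3 e⟩
  have hr : 0 ≤ q (-θ) := (q_pos (by linarith)).le
  have hs : 0 ≤ q θ := (q_pos (by linarith)).le
  have hq := (q_sub (x := θ) (y := θ + 1 / ν) (by linarith)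
    (abs_le.2 ⟨by linarith, by linarith⟩) (abs_le.2 ⟨by linarith, by linarith⟩)).1
  have hss : q θ ≤ q (θ + 1 / ν) := by linarith
  set f := F c (q (-θ)) (fun _ => q θ) with hf
  set X := Xi (y - x + 1) (q (-θ)) (q (θ + 1 / ν)) with hX
  have hXp : PG X := stat_pg_Xi _ _ _
  have hX0 : ∀ e, 0 ≤ X e := fun e => le_max_right _ _
  have hfp : PG f := pg_L _
  have hf0 : ∀ e, 0 ≤ f e := stat_F_nonneg c hr hs
  have hg : PG fun e => f e + ∑ i ∈ B, |e i| :=
    hfp.add (pg_sum B fun i _ => (pg_coord i).abs)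
  have hS0 : ∀ e : Env, 0 ≤ ∑ i ∈ B, |e i| := fun e => sum_nonneg fun _ _ => abs_nonneg _
  have hm0 : ∀ e, 0 ≤ min (X (Ψ e)) (f e + ∑ i ∈ B, |e i|) := fun e =>
    le_min (hX0 _) (add_nonneg (hf0 e) (hS0 e))
  have hmp : PG fun e => min (X (Ψ e)) (f e + ∑ i ∈ B, |e i|) :=
    hg.of_le ((hXp.1.comp hΨ.measurable).min hg.1) fun e => by
      rw [abs_of_nonneg (hm0 e)]
      exact min_le_right _ _
  refine ⟨fun e => min (X (Ψ e)) (f e + ∑ i ∈ B, |e i|),
    Ψ ⁻¹' {e | O (y - x + 1) (q (-θ)) 0 e ≤ U (y - x + 1) (q (-θ)) (q (θ + 1 / ν)) e},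
    ⟨hmp, hm0, ?_⟩, ?_, ?_, ?_, ?_, real_preimage_le hΨ _⟩
  · exact hΨ.measurable (measurableSet_le (measurable_L _) (pg_U _ _ _).1)
  · intro e e' he
    refine le_min (stat_det1 hr hs hss h1 h2 h3 (hl e) fun z hz => he z fun hzB => hz ?_) ?_
    · obtain ⟨j, h4, h5, rfl⟩ := det_mem_wall (hB hzB)
      exact ⟨rfl, h4, h5⟩
    · have := hf0 e'
      have := hS0 e
      linarith
  · intro e
    have hT0 : 0 ≤ ∑ i ∈ B, |e i| * iV f i e := sum_nonneg fun i _ =>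
      mul_nonneg (abs_nonneg _) (by unfold iV; split_ifs <;> norm_num)
    have hT1 : ∑ i ∈ B, |e i| * iV f i e ≤ ∑ i ∈ B, |e i| := sum_le_sum fun i _ =>
      mul_le_of_le_one_right (abs_nonneg _) (by unfold iV; split_ifs <;> norm_num)
    have hd := stat_det2 hr hs hss h1 h2 h3 (hl e) hB
    rw [mul_min_of_nonneg _ _ hν0.le]
    refine le_min ?_ ?_
    · have h5 : (1 / ν) * ∑ i ∈ B, |e i| * iV f i e ≤ X (Ψ e) :=
        le_trans (mul_le_mul_of_nonneg_right (by linarith) hT0) hd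
      have h6 := mul_le_mul_of_nonneg_left h5 hν0.le
      rwa [← mul_assoc, mul_one_div_cancel hν0.ne', one_mul] at h6
    · have h5 := hf0 e
      have h6 := hS0 e
      nlinarith
  · intro i hi e hlt
    exact stat_det3 hr hs hss h1 h2 h3 (hl e) (hB hi) hlt
  · have hi : Integrable (fun e => X e ^ 2) mu := (hXp.pow 2).integrable
    have e1 : ∫ e, X (Ψ e) ^ 2 ∂mu = ∫ e, X e ^ 2 ∂mu := by
      have := integral_map (μ := mu) (f := fun e => X e ^ 2) hΨ.measurable.aemeasurable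
        (hXp.pow 2).1.aestronglyMeasurable
      rw [hΨ.map_eq] at this
      exact this.symm
    rw [← e1]
    refine integral_mono (hmp.pow 2).integrable (hΨ.integrable_comp_of_integrable hi) fun e => ?_
    exact pow_le_pow_left₀ (hm0 e) (min_le_left _ _) 2

lemma stat_blk {P nb : ℕ} (hP : 0 < P) {j : ℤ} (h1 : 1 ≤ j) (h2 : j ≤ (P * nb : ℕ)) :
    ((j - 1) / P).toNat < nb ∧ (((j - 1) / P).toNat : ℤ) * P + 1 ≤ j ∧
      j ≤ ((((j - 1) / P).toNat : ℤ) + 1) * P := by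
  have hP' : (0 : ℤ) < P := by exact_mod_cast hP
  have h3 : 0 ≤ (j - 1) / P := Int.ediv_nonneg (by omega) hP'.le
  have h4 : (((j - 1) / P).toNat : ℤ) = (j - 1) / P := Int.toNat_of_nonneg h3
  have h5 := Int.ediv_mul_le (j - 1) hP'.ne'
  have h6 := Int.lt_ediv_add_one_mul_self (j - 1) hP'
  refine ⟨?_, by rw [h4]; omega, by rw [h4]; omega⟩
  have h7 : (j - 1) / P < nb := by
    rw [Int.ediv_lt_iff_lt_mul hP']
    push_cast at h2
    rw [mul_comm]
    omega
  omega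

theorem stat (hX : S_XI) (hM : S_MULTI) : S_STAT := by
  classical
  obtain ⟨C, hC, hX⟩ := hX
  intro ε hε
  obtain ⟨S, ν0, hS, hM⟩ := hM (ε / C) (by positivity)
  have h2S : (0 : ℝ) < 2 ^ S := by positivity
  obtain ⟨ν1, hX⟩ := hX (1 / 2 ^ S / 2) (by positivity)
  set K : ℕ := ν1 + ⌈ν0⌉₊ + 16 with hK
  have hK16 : (16 : ℝ) ≤ K := by
    have : 16 ≤ K := by omega
    exact_mod_cast this
  refine ⟨min (1 / 16) (1 / 2 ^ S / K), by positivity, fun θ hθ0 hθ1 l hl => ?_⟩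
  have hθ : θ ≤ 1 / 16 := hθ1.trans (min_le_left _ _)
  have hθK : (K : ℝ) ≤ 1 / 2 ^ S / θ := by
    have := hθ1.trans (min_le_right _ _)
    rw [le_div_iff₀ (by linarith)] at this
    rw [le_div_iff₀ hθ0]
    linarith
  set n0 : ℕ := ⌊1 / 2 ^ S / θ⌋₊ with hn0
  have hn1 : K ≤ n0 := Nat.le_floor hθK
  have hn2 : (n0 : ℝ) ≤ 1 / 2 ^ S / θ := Nat.floor_le (by positivity)
  have hn3 : 1 / 2 ^ S / θ < (n0 : ℝ) + 1 := Nat.lt_floor_add_one _
  have hn16 : (16 : ℝ) ≤ n0 := hK16.trans (by exact_mod_cast hn1)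
  have hn4 : θ * n0 ≤ 1 / 2 ^ S := by
    rw [le_div_iff₀ hθ0] at hn2
    linarith
  have hn5 : 1 / 2 ^ S / 2 ≤ θ * n0 := by
    rw [div_lt_iff₀ hθ0] at hn3
    nlinarith
  have hn0pos : 0 < n0 := by omega
  have hνS : θ * (2 ^ S * n0) ≤ 1 := by
    rw [le_div_iff₀ h2S] at hn4
    linarith
  set M : ℕ := (2 ^ S * n0) ^ 3 with hMd
  have hMpos : 0 < M := by positivity
  have hMθ : (M : ℝ) ≤ (θ ^ 3)⁻¹ := by
    rw [← one_div, le_div_iff₀ (by positivity), hMd]
    push_cast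
    rw [← mul_pow]
    exact pow_le_one₀ (by positivity) (by linarith)
  obtain ⟨l, rfl⟩ := Int.eq_ofNat_of_zero_le hl
  set N : ℕ := M * (l / M + 1) with hN
  have hN1 : l ≤ N := (Nat.lt_mul_div_succ l hMpos).le
  have hN2 : N ≤ l + M := by
    have := Nat.mul_div_le l M
    rw [hN, mul_add, mul_one]
    omega
  refine ⟨(N : ℤ) + 1, by omega, ?_, fun R hR => ?_⟩
  · have : (N : ℝ) ≤ l + M := by exact_mod_cast hN2
    push_cast
    linarith
  set c : ℤ := (N : ℤ) + 1 with hc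
  set P : ℕ → ℕ := fun k => (2 ^ k * n0) ^ 3 with hP
  have hPpos : ∀ k, 0 < P k := fun k => by simp only [hP]; positivity
  set nb : ℕ → ℕ := fun k => N / P k with hnb
  have hdiv : ∀ k < S, P k * nb k = N := fun k hk => by
    refine Nat.mul_div_cancel' (Dvd.dvd.mul_right ?_ _)
    exact pow_dvd_pow_of_dvd (Nat.mul_dvd_mul_right (pow_dvd_pow 2 hk.le) n0) 3
  set blk : ℕ → Site → ℕ := fun k z => ((z.1 - 1) / P k).toNat with hblk
  have hb : ∀ k < S, ∀ i ∈ R, blk k i < nb k ∧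
      i ∈ wall ((blk k i : ℤ) * P k + 1) (((blk k i : ℤ) + 1) * P k) := fun k hk i hi => by
    obtain ⟨j, h4, h5, rfl⟩ := det_mem_wall (hR hi)
    have := stat_blk (nb := nb k) (hPpos k) h4 (by rw [hdiv k hk]; omega)
    exact ⟨this.1, mem_image.2 ⟨j, mem_Icc.2 this.2, rfl⟩⟩
  have hνk : ∀ k : ℕ, (n0 : ℝ) ≤ 2 ^ k * n0 := fun k =>
    le_mul_of_one_le_left (by linarith) (one_le_pow₀ (by norm_num))
  have key : ∀ k b : ℕ, ∃ (Ξ : Env → ℝ) (A : Set Env), k < S → b < nb k →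
      (PG Ξ ∧ (∀ e, 0 ≤ Ξ e) ∧ MeasurableSet A) ∧
      (∀ e e' : Env, (∀ z, z ∉ R.filter (fun i => blk k i = b) → e' z = e z) →
        F c (q (-θ)) (fun _ => q θ) e - F c (q (-θ)) (fun _ => q θ) e' ≤ Ξ e) ∧
      (∀ e, ∑ i ∈ R.filter (fun i => blk k i = b),
        |e i| * iV (F c (q (-θ)) (fun _ => q θ)) i e ≤ 2 ^ k * n0 * Ξ e) ∧
      (∀ i ∈ R.filter (fun i => blk k i = b), ∀ e,
        F c (q (-θ)) (fun _ => q θ) (Function.update e i 0) <
        F c (q (-θ)) (fun _ => q θ) e → e ∈ A) ∧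
      ∫ e, Ξ e ^ 2 ∂mu ≤ C * θ * P k ∧ mu.real A ≤ C * θ * (2 ^ k * n0) := by
    intro k b
    by_cases hkb : k < S ∧ b < nb k
    swap
    · exact ⟨0, ∅, fun h1 h2 => absurd ⟨h1, h2⟩ hkb⟩
    obtain ⟨hk, hbk⟩ := hkb
    have hPk : (0 : ℤ) < P k := by exact_mod_cast hPpos k
    have hy : ((b : ℤ) + 1) * P k ≤ c - 1 := by
      have h1 : (b + 1) * P k ≤ nb k * P k := Nat.mul_le_mul_right _ hbk
      rw [mul_comm (nb k), hdiv k hk] at h1
      have h2 : ((b : ℤ) + 1) * P k ≤ N := by exact_mod_cast h1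
      omega
    obtain ⟨Ξ, A, a1, a2, a3, a4, a5, a6⟩ := stat_block (θ := θ) (ν := 2 ^ k * n0) hθ0.le hθ
      (hn16.trans (hνk k)) (c := c) (x := (b : ℤ) * P k + 1) (y := ((b : ℤ) + 1) * P k)
      (le_add_of_nonneg_left (by positivity)) (by nlinarith) hy
      (B := R.filter (fun i => blk k i = b)) (fun i hi => by
        obtain ⟨h1, h2⟩ := mem_filter.1 hi
        rw [← h2]
        exact (hb k hk i h1).2)
    have hX' := hX (2 ^ k * n0) (by
        have : n0 ≤ 2 ^ k * n0 := Nat.le_mul_of_pos_left _ (by positivity)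
        omega) θ
      (by
        push_cast
        exact hn5.trans (mul_le_mul_of_nonneg_left (hνk k) hθ0.le))
      (by
        push_cast
        refine le_trans (mul_le_mul_of_nonneg_left (mul_le_mul_of_nonneg_right ?_ (by linarith))
          hθ0.le) hνS
        exact pow_le_pow_right₀ (by norm_num) hk.le)
    have e1 : ((b : ℤ) + 1) * P k - ((b : ℤ) * P k + 1) + 1 = ((2 ^ k * n0 : ℕ) : ℤ) ^ 3 := by
      simp only [hP]
      push_cast
      ring
    rw [e1] at a5 a6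
    have e2 : ((2 ^ k * n0 : ℕ) : ℝ) = 2 ^ k * n0 := by push_cast; rfl
    rw [e2] at hX'
    refine ⟨Ξ, A, fun _ _ => ⟨a1, a2, a3, a4, a5.trans (hX'.2.trans_eq ?_), a6.trans hX'.1⟩⟩
    simp only [hP]
    push_cast
    rfl
  choose Ξ A hΞ using key
  have hq := q_bounds (x := θ) (abs_le.2 ⟨by linarith, by linarith⟩)
  have hr : 0 ≤ q (-θ) := (q_pos (by linarith)).le
  have hdiv' : ∀ k < S, (nb k : ℝ) * P k = N := fun k hk => by
    rw [← hdiv k hk]
    push_cast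
    ring
  have main := hM (q θ) n0 (C * θ * N) (F c (q (-θ)) (fun _ => q θ)) R blk nb Ξ A
    (by linarith [hq.1]) (by nlinarith [hq.2])
    (by
      have h1 : ⌈ν0⌉₊ ≤ n0 := by omega
      exact (Nat.le_ceil ν0).trans (by exact_mod_cast h1))
    (pg_L _) (fun i hi => hinge_F hr (by linarith [hq.1]) (hR hi))
    (fun k hk i hi => (hb k hk i hi).1)
    (fun k hk b hbk => (hΞ k b hk hbk).1)
    (fun k hk b hbk e e' _ he => (hΞ k b hk hbk).2.1 e e' fun z hz =>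
      he z fun h => hz (mem_filter.2 h))
    (fun k hk b hbk e => (hΞ k b hk hbk).2.2.1 e)
    (fun k hk i hi e hlt => (hΞ k _ hk (hb k hk i hi).1).2.2.2.1 i (mem_filter.2 ⟨hi, rfl⟩) e hlt)
    (fun k hk => by
      refine (sum_le_sum fun b hb' => (hΞ k b hk (mem_range.1 hb')).2.2.2.2.1).trans_eq ?_
      rw [sum_const, card_range, nsmul_eq_mul, ← hdiv' k hk]
      ring)
    (fun k hk => by
      refine (mul_le_mul_of_nonneg_left
        (sum_le_sum fun b hb' => (hΞ k b hk (mem_range.1 hb')).2.2.2.2.2) (by positivity)).trans_eq ?_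
      rw [sum_const, card_range, nsmul_eq_mul, ← hdiv' k hk]
      simp only [hP]
      push_cast
      ring)
  refine main.trans ?_
  have e3 : ε / C * (C * θ * N) = ε * θ * N := by field_simp
  rw [e3, hc]
  push_cast
  have : 0 < ε * θ := by positivity
  nlinarith

end Pool.Agent.P.MP_9957ef_pr
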