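import Pool.Agent.P.MP_9957ef_pr.Exp1

/-! Random walk estimates. -/

set_option autoImplicit false

noncomputable section

open MeasureTheory ProbabilityTheory Finset
open scoped ENNReal

namespace Pool.Agent.P.MP_9957ef_pr

/-- conditioning on the coordinates outside `S` -/
lemma rw_cond (S : Set Site) {E : Set Env} (hE : MeasurableSet E) :
    mu E = ∫⁻ e, mu {e' | pw S e' e ∈ E} ∂mu := by
  rw [← lintegral_indicator_one hE, lintegral_pw S (measurable_one.indicator hE)]
  refine lintegral_congr fun e => ?_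
  have hm : Measurable fun e' : Env => pw S e' e :=
    (measurable_pw S).comp (measurable_const.prodMk measurable_id)
  exact lintegral_indicator_one (μ := mu) (hm hE)

lemma rw_eval (z : Site) {φ : ℝ → ℝ≥0∞} (hφ : Measurable φ) :
    ∫⁻ e, φ (e z) ∂mu = ∫⁻ x, φ x ∂ex := (mp_eval z).lintegral_comp hφ

lemma rw_step (a b : Site) (hab : a ≠ b) {α β l : ℝ} (hα : 0 < α) (hl : 0 ≤ l)
    (hβ : l ≤ β - α) :
    ∫⁻ e, ENNReal.ofReal (Real.exp (l * (β⁻¹ * |e a| - α⁻¹ * |e b|))) ∂mu =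
      ENNReal.ofReal (β / (β - l) * (α / (α + l))) := by
  have hβ0 : 0 < β := by linarith
  have hβl : 0 < β - l := by linarith
  have e1 : ∀ e : Env, ENNReal.ofReal (Real.exp (l * (β⁻¹ * |e a| - α⁻¹ * |e b|))) =
      ENNReal.ofReal (Real.exp (l * β⁻¹ * |e a|)) *
        ENNReal.ofReal (Real.exp (-(l * α⁻¹) * |e b|)) := by
    intro e
    rw [← ENNReal.ofReal_mul (Real.exp_pos _).le, ← Real.exp_add]
    congr 2
    ring
  simp only [e1]
  rw [lintegral_mul_indep (S := {a}) (by fun_prop) (by fun_prop)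
      (fun e e' h => by simp only [h a rfl]) (fun e e' h => by simp only [h b hab.symm]),
    rw_eval a (φ := fun x => ENNReal.ofReal (Real.exp (l * β⁻¹ * |x|))) (by fun_prop),
    rw_eval b (φ := fun x => ENNReal.ofReal (Real.exp (-(l * α⁻¹) * |x|))) (by fun_prop),
    ex_mgf (by rw [mul_inv_lt_iff₀ hβ0]; linarith),
    ex_mgf (by have : 0 ≤ l * α⁻¹ := by positivity
               linarith), ENNReal.ofReal_mul (by positivity)]
  have hαl : 0 < α + l := by linarith
  rw [sub_neg_eq_add]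
  congr 2 <;> field_simp

lemma ville_aux {α β l : ℝ} (hα : 0 < α) (hl : 0 ≤ l) (hβ : l ≤ β - α) (n : ℕ) :
    ∀ (k1 k2 : ℕ → Site) (Z : ℕ), (∀ u < n, ∀ v < n, k1 u = k1 v → u = v) →
    (∀ u < n, ∀ v < n, k2 u = k2 v → u = v) → (∀ u < n, ∀ v < n, k1 u ≠ k2 v) → ∀ h : ℝ,
    mu {e | ∃ N, Z ≤ N ∧ N ≤ n ∧
        h ≤ ∑ u ∈ range N, (β⁻¹ * |e (k1 u)| - α⁻¹ * |e (k2 u)|)} ≤
      ENNReal.ofReal (Real.exp (-(l * h)) * (β / (β - l) * (α / (α + l))) ^ Z) := by
  have hβ0 : 0 < β := by linarith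
  have hβl : 0 < β - l := by linarith
  set ρ := β / (β - l) * (α / (α + l)) with hρ
  have ρ0 : 0 ≤ ρ := by positivity
  have ρ1 : ρ ≤ 1 := by
    rw [hρ, div_mul_div_comm, div_le_one (by positivity)]
    nlinarith [mul_nonneg hl (sub_nonneg.2 hβ)]
  have triv : ∀ (h : ℝ) (E : Set Env), h ≤ 0 →
      mu E ≤ ENNReal.ofReal (Real.exp (-(l * h)) * ρ ^ 0) := by
    intro h E hh
    refine prob_le_one.trans ?_
    rw [pow_zero, mul_one, ENNReal.one_le_ofReal]
    exact Real.one_le_exp (by nlinarith)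
  induction n with
  | zero =>
    intro k1 k2 Z _ _ _ h
    rcases Set.eq_empty_or_nonempty {e : Env | ∃ N, Z ≤ N ∧ N ≤ 0 ∧
        h ≤ ∑ u ∈ range N, (β⁻¹ * |e (k1 u)| - α⁻¹ * |e (k2 u)|)} with h0 | ⟨e, N, a1, a2, a3⟩
    · rw [h0, measure_empty]
      exact zero_le
    · obtain rfl : N = 0 := by omega
      obtain rfl : Z = 0 := by omega
      exact triv h _ (by simpa using a3)
  | succ n ih =>
    have step : ∀ (k1 k2 : ℕ → Site) (Z : ℕ), (∀ u < n + 1, ∀ v < n + 1, k1 u = k1 v → u = v) →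
        (∀ u < n + 1, ∀ v < n + 1, k2 u = k2 v → u = v) →
        (∀ u < n + 1, ∀ v < n + 1, k1 u ≠ k2 v) → ∀ h : ℝ,
        mu {e | ∃ N, Z + 1 ≤ N ∧ N ≤ n + 1 ∧
          h ≤ ∑ u ∈ range N, (β⁻¹ * |e (k1 u)| - α⁻¹ * |e (k2 u)|)} ≤
        ENNReal.ofReal (Real.exp (-(l * h)) * ρ ^ (Z + 1)) := by
      intro k1 k2 Z h1 h2 h12 h
      rw [rw_cond ({k1 0, k2 0}ᶜ) (by
        simp only [Set.ofPred_exists, Set.ofPred_and]
        refine MeasurableSet.iUnion fun N => (MeasurableSet.const _).inter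
          ((MeasurableSet.const _).inter (measurableSet_le measurable_const (by fun_prop))))]
      have key : ∀ e : Env, mu {e' | pw ({k1 0, k2 0}ᶜ) e' e ∈ {e | ∃ N, Z + 1 ≤ N ∧ N ≤ n + 1 ∧
          h ≤ ∑ u ∈ range N, (β⁻¹ * |e (k1 u)| - α⁻¹ * |e (k2 u)|)}} ≤
          ENNReal.ofReal (Real.exp (-(l * h)) * ρ ^ Z) *
            ENNReal.ofReal (Real.exp (l * (β⁻¹ * |e (k1 0)| - α⁻¹ * |e (k2 0)|))) := by
        intro e
        refine le_trans (measure_mono ?_) ((ih (fun u => k1 (u + 1)) (fun u => k2 (u + 1)) Z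
          (fun u hu v hv e => by have := h1 (u + 1) (by omega) (v + 1) (by omega) e; omega)
          (fun u hu v hv e => by have := h2 (u + 1) (by omega) (v + 1) (by omega) e; omega)
          (fun u hu v hv => h12 (u + 1) (by omega) (v + 1) (by omega))
          (h - (β⁻¹ * |e (k1 0)| - α⁻¹ * |e (k2 0)|))).trans_eq ?_)
        · rintro e' ⟨N, a1, a2, a3⟩
          obtain ⟨M, rfl⟩ : ∃ M, N = M + 1 := ⟨N - 1, by omega⟩
          refine ⟨M, by omega, by omega, ?_⟩
          rw [Finset.sum_range_succ'] at a3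
          have b1 : pw ({k1 0, k2 0}ᶜ) e' e (k1 0) = e (k1 0) := by simp [pw]
          have b2 : pw ({k1 0, k2 0}ᶜ) e' e (k2 0) = e (k2 0) := by simp [pw]
          have b3 : ∀ u ∈ range M, β⁻¹ * |pw ({k1 0, k2 0}ᶜ) e' e (k1 (u + 1))| -
              α⁻¹ * |pw ({k1 0, k2 0}ᶜ) e' e (k2 (u + 1))| =
              β⁻¹ * |e' (k1 (u + 1))| - α⁻¹ * |e' (k2 (u + 1))| := by
            intro u hu
            have hu' : u + 1 < n + 1 := by have := mem_range.1 hu; omega
            have c1 : k1 (u + 1) ≠ k1 0 := fun e => by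
              have := h1 _ hu' 0 (by omega) e; omega
            have c2 : k2 (u + 1) ≠ k2 0 := fun e => by
              have := h2 _ hu' 0 (by omega) e; omega
            have c3 := h12 _ hu' 0 (by omega)
            have c4 := (h12 0 (by omega) _ hu').symm
            simp [pw, c1, c2, c3, c4]
          rw [b1, b2, Finset.sum_congr rfl b3] at a3
          linarith
        · rw [← ENNReal.ofReal_mul (by positivity), mul_right_comm, ← Real.exp_add]
          congr 3
          ring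
      refine (lintegral_mono key).trans_eq ?_
      rw [lintegral_const_mul' _ _ ENNReal.ofReal_ne_top,
        rw_step _ _ (h12 0 (by omega) 0 (by omega)) hα hl hβ,
        ← ENNReal.ofReal_mul (by positivity), pow_succ, mul_assoc]
    intro k1 k2 Z h1 h2 h12 h
    rcases Z with _ | Z
    · rcases le_or_gt h 0 with hh | hh
      · exact triv h _ hh
      · refine le_trans (measure_mono ?_) ((step k1 k2 0 h1 h2 h12 h).trans ?_)
        · rintro e ⟨N, -, a2, a3⟩
          refine ⟨N, ?_, a2, a3⟩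
          rcases N with _ | N
          · exact absurd a3 (by simpa using hh)
          · omega
        · refine ENNReal.ofReal_le_ofReal (mul_le_mul_of_nonneg_left ?_ (Real.exp_pos _).le)
          simpa using ρ1
    · exact step k1 k2 Z h1 h2 h12 h

/-- maximal inequality for a walk with steps `Exp(β) - Exp(α)` -/
theorem ville (k1 k2 : ℕ → Site) (n Z : ℕ) (h1 : ∀ u < n, ∀ v < n, k1 u = k1 v → u = v)
    (h2 : ∀ u < n, ∀ v < n, k2 u = k2 v → u = v) (h12 : ∀ u < n, ∀ v < n, k1 u ≠ k2 v)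
    {α β l : ℝ} (hα : 0 < α) (hl : 0 ≤ l) (hβ : l ≤ β - α) (h : ℝ) :
    mu.real {e | ∃ N, Z ≤ N ∧ N ≤ n ∧
        h ≤ ∑ u ∈ range N, (β⁻¹ * |e (k1 u)| - α⁻¹ * |e (k2 u)|)} ≤
      Real.exp (-(l * h)) * (β / (β - l) * (α / (α + l))) ^ Z := by
  have hβ0 : 0 < β := by linarith
  have hβl : 0 < β - l := by linarith
  exact ENNReal.toReal_le_of_le_ofReal (by positivity) (ville_aux hα hl hβ n k1 k2 Z h1 h2 h12 h)

lemma persist_step {w τ : ℝ} (hw0 : 0 ≤ w) (hw : w < 1) (hτ : 0 ≤ τ) :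
    ∫⁻ x, (if τ < |x| then 0 else ENNReal.ofReal (1 - (1 - w) * Real.exp (w * (|x| - τ)))) ∂ex =
      ENNReal.ofReal (1 - Real.exp (-(w * τ))) := by
  have hw1 : 0 < 1 - w := by linarith
  have hm : MeasurableSet {x : ℝ | τ < |x|} := measurableSet_lt measurable_const (by fun_prop)
  have mg : ∀ c : ℝ, ∫⁻ x, ENNReal.ofReal ((1 - w) * Real.exp (w * (|x| - c))) ∂ex =
      ENNReal.ofReal (Real.exp (-(w * c))) := by
    intro c
    have : ∀ x : ℝ, ENNReal.ofReal ((1 - w) * Real.exp (w * (|x| - c))) =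
        ENNReal.ofReal ((1 - w) * Real.exp (-(w * c))) * ENNReal.ofReal (Real.exp (w * |x|)) := by
      intro x
      rw [← ENNReal.ofReal_mul (by positivity), mul_assoc, ← Real.exp_add]
      congr 3
      ring
    simp only [this]
    rw [lintegral_const_mul' _ _ ENNReal.ofReal_ne_top, ex_mgf hw,
      ← ENNReal.ofReal_mul (by positivity)]
    congr 1
    field_simp
  have m1 := ex_memoryless hτ (f := fun y => ENNReal.ofReal ((1 - w) * Real.exp (w * y)))
    (by fun_prop)
  have m2 := mg 0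
  simp only [sub_zero, mul_zero, neg_zero, Real.exp_zero, ENNReal.ofReal_one] at m2
  rw [m2, mul_one, ← ex_tail hτ] at m1
  rw [ENNReal.ofReal_sub _ (Real.exp_pos _).le, ENNReal.ofReal_one]
  refine ENNReal.eq_sub_of_add_eq ENNReal.ofReal_ne_top ?_
  rw [← mg τ, ← lintegral_add_right _ (by fun_prop)]
  calc _ = ∫⁻ x, ((if τ < |x| then 0 else 1) +
        if τ < |x| then ENNReal.ofReal ((1 - w) * Real.exp (w * (|x| - τ))) else 0) ∂ex := by
        refine lintegral_congr fun x => ?_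
        split_ifs with hx
        · rfl
        · have : (1 - w) * Real.exp (w * (|x| - τ)) ≤ 1 :=
            mul_le_one₀ (by linarith) (Real.exp_pos _).le
              (Real.exp_le_one_iff.2 (mul_nonpos_of_nonneg_of_nonpos hw0 (by linarith)))
          rw [← ENNReal.ofReal_add (by linarith) (by positivity), sub_add_cancel,
            ENNReal.ofReal_one, add_zero]
    _ = ∫⁻ x, ((if τ < |x| then 0 else 1) + if τ < |x| then 1 else 0) ∂ex := by
        rw [lintegral_add_left (Measurable.ite hm measurable_const measurable_const),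
          lintegral_add_left (Measurable.ite hm measurable_const measurable_const), m1]
    _ = ∫⁻ _, 1 ∂ex := by
        refine lintegral_congr fun x => ?_
        split_ifs <;> simp
    _ = 1 := by simp

lemma persist_aux {β w ρ : ℝ} (hβ : 0 < β) (hw0 : 0 ≤ w) (hw : w < 1) (hρ1 : 1 ≤ ρ)
    (hρ : ρ * (1 - w) = Real.exp (-(w * (2 * β)))) (n : ℕ) :
    ∀ k : ℕ → Site, (∀ u < n, ∀ v < n, k u = k v → u = v) → ∀ h : ℝ, 0 ≤ h →
      ENNReal.ofReal (1 - ρ⁻¹ ^ n) * mu {e | ∀ N ≤ n, ∑ u ∈ range N, (β⁻¹ * |e (k u)| - 2) ≤ h} ≤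
        ENNReal.ofReal (1 - (1 - w) * Real.exp (-(w * (β * h)))) := by
  have hρ0 : 0 < ρ := by linarith
  induction n with
  | zero => intro k _ h _; simp
  | succ n ih =>
    intro k hk h hh
    set E := {e : Env | ∀ N ≤ n + 1, ∑ u ∈ range N, (β⁻¹ * |e (k u)| - 2) ≤ h} with hE
    have hEm : MeasurableSet E := by
      simp only [hE, Set.ofPred_forall]
      exact MeasurableSet.iInter fun N => MeasurableSet.iInter fun _ =>
        measurableSet_le (by fun_prop) measurable_const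
    have hτ : 0 ≤ β * (h + 2) := by positivity
    have key : ∀ e : Env, ENNReal.ofReal (1 - ρ⁻¹ ^ n) * mu {e' | pw ({k 0}ᶜ) e' e ∈ E} ≤
        if β * (h + 2) < |e (k 0)| then 0 else
          ENNReal.ofReal (1 - (1 - w) * Real.exp (w * (|e (k 0)| - β * (h + 2)))) := by
      intro e
      have b1 : ∀ e', pw ({k 0}ᶜ) e' e (k 0) = e (k 0) := fun e' => by simp [pw]
      have b0 : β⁻¹ * |e (k 0)| - 2 ≤ h ↔ |e (k 0)| ≤ β * (h + 2) := by
        rw [sub_le_iff_le_add, inv_mul_le_iff₀ hβ]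
      split_ifs with hx
      · have : {e' | pw ({k 0}ᶜ) e' e ∈ E} = ∅ := by
          refine Set.eq_empty_of_forall_notMem fun e' he' => ?_
          have := he' 1 (by omega)
          rw [Finset.sum_range_one, b1] at this
          exact (b0.1 this).not_gt hx
        rw [this, measure_empty, mul_zero]
      · refine le_trans (mul_le_mul_right (measure_mono ?_) _) ((ih (fun u => k (u + 1))
          (fun u hu v hv e => by have := hk (u + 1) (by omega) (v + 1) (by omega) e; omega)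
          (h - (β⁻¹ * |e (k 0)| - 2)) (sub_nonneg.2 (b0.2 (not_lt.1 hx)))).trans_eq ?_)
        · intro e' he' M hM
          have a3 := he' (M + 1) (by omega)
          rw [Finset.sum_range_succ', b1] at a3
          have b3 : ∀ u ∈ range M, β⁻¹ * |pw ({k 0}ᶜ) e' e (k (u + 1))| - 2 =
              β⁻¹ * |e' (k (u + 1))| - 2 := by
            intro u hu
            have hu' : u + 1 < n + 1 := by have := mem_range.1 hu; omega
            have c1 : k (u + 1) ≠ k 0 := fun e => by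
              have := hk _ hu' 0 (by omega) e; omega
            simp [pw, c1]
          rw [Finset.sum_congr rfl b3] at a3
          linarith
        · congr 4
          field_simp
          ring
    have h1 : ENNReal.ofReal (1 - ρ⁻¹ ^ n) * mu E ≤
        ENNReal.ofReal (1 - Real.exp (-(w * (β * (h + 2))))) := by
      rw [rw_cond ({k 0}ᶜ) hEm, ← lintegral_const_mul' _ _ ENNReal.ofReal_ne_top,
        ← persist_step hw0 hw hτ, ← rw_eval (k 0) (Measurable.ite
          (measurableSet_lt measurable_const (by fun_prop)) measurable_const (by fun_prop))]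
      exact lintegral_mono key
    have hi0 : 0 ≤ ρ⁻¹ := by positivity
    have hi1 : ρ⁻¹ ≤ 1 := inv_le_one_of_one_le₀ hρ1
    have p0 : 0 ≤ mu.real E := measureReal_nonneg
    have p1 : mu.real E ≤ 1 := measureReal_le_one
    rw [← ofReal_measureReal, ← ENNReal.ofReal_mul (sub_nonneg.2 (pow_le_one₀ hi0 hi1))] at h1 ⊢
    refine ENNReal.ofReal_le_ofReal ?_
    rw [ENNReal.ofReal_le_ofReal_iff (sub_nonneg.2 (Real.exp_le_one_iff.2 (by
      have : 0 ≤ w * (β * (h + 2)) := by positivity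
      linarith)))] at h1
    have e1 : (1 - w) * Real.exp (-(w * (β * h))) = ρ⁻¹ * Real.exp (-(w * (β * (h + 2)))) := by
      rw [show -(w * (β * (h + 2))) = -(w * (2 * β)) + -(w * (β * h)) by ring, Real.exp_add, ← hρ]
      field_simp
    rw [e1, pow_succ]
    nlinarith [mul_le_mul_of_nonneg_left h1 hi0, mul_nonneg (sub_nonneg.2 hi1) (sub_nonneg.2 p1)]

/-- persistence of a nearly centred walk below a level -/
theorem persist {θ : ℝ} (h0 : 0 < θ) (h1 : θ ≤ 1 / 16) (n : ℕ) (hn : 1 ≤ θ ^ 2 * n)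
    (k : ℕ → Site) (hk : ∀ u < n, ∀ v < n, k u = k v → u = v) {h : ℝ} (hh : 0 ≤ h) :
    mu.real {e | ∀ N ≤ n, ∑ u ∈ range N, (q (-θ) * |e (k u)| - 2) ≤ h} ≤ 20 * θ * (h + 1) := by
  have hβ : 0 < 1 / 2 + θ := by linarith
  set w := 4 * θ / (1 / 2 + θ) with hw
  have w0 : 0 ≤ w := by positivity
  have w8 : w ≤ 8 * θ := by rw [hw, div_le_iff₀ hβ]; nlinarith
  have w1 : 0 < 1 - w := by linarith
  have wβ : w * (1 / 2 + θ) = 4 * θ := div_mul_cancel₀ _ hβ.ne'
  set ρ := Real.exp (-(w * (2 * (1 / 2 + θ)))) / (1 - w) with hρ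
  have ρ1 : 1 + θ ^ 2 ≤ ρ := by
    rw [hρ, le_div_iff₀ w1, show -(w * (2 * (1 / 2 + θ))) = (4 : ℕ) * (-(2 * θ)) by
      push_cast; linarith, Real.exp_nat_mul]
    have a1 : (1 - 2 * θ) ^ 4 ≤ Real.exp (-(2 * θ)) ^ 4 :=
      pow_le_pow_left₀ (by linarith) (by linarith [Real.add_one_le_exp (-(2 * θ))]) 4
    refine le_trans ?_ a1
    have a2 : 1 - w = (1 - 6 * θ) / (1 + 2 * θ) := by
      rw [hw]; field_simp; ring
    rw [a2, ← mul_div_assoc, div_le_iff₀ (by linarith)]
    have t2 : 0 < θ ^ 2 := by positivity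
    nlinarith [mul_pos t2 h0, mul_pos t2 t2, mul_pos (mul_pos t2 t2) h0,
      mul_nonneg t2.le (mul_nonneg h0.le (sub_nonneg.2 h1))]
  have ρ1' : 1 ≤ ρ := by nlinarith [sq_nonneg θ]
  have key := persist_aux hβ w0 (by linarith) ρ1' (div_mul_cancel₀ _ w1.ne') n k hk h hh
  have hq : q (-θ) = (1 / 2 + θ)⁻¹ := by simp [q]
  rw [hq]
  have b1 : ρ⁻¹ ^ n ≤ 1 / 2 := by
    rw [inv_pow, one_div]
    refine inv_anti₀ two_pos ?_
    calc (2 : ℝ) ≤ 1 + n * θ ^ 2 := by linarith
      _ ≤ (1 + θ ^ 2) ^ n := one_add_mul_le_pow (by nlinarith [sq_nonneg θ]) n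
      _ ≤ ρ ^ n := pow_le_pow_left₀ (by positivity) ρ1 n
  have b2 : 1 - (1 - w) * Real.exp (-(w * ((1 / 2 + θ) * h))) ≤ 8 * θ + 4 * θ * h := by
    rw [← mul_assoc, wβ]
    have a1 := Real.add_one_le_exp (-(4 * θ * h))
    have a2 : 0 ≤ 4 * θ * h := by positivity
    nlinarith [mul_le_mul_of_nonneg_left a1 w1.le, mul_nonneg w0 a2]
  rw [← ofReal_measureReal, ← ENNReal.ofReal_mul (by linarith)] at key
  have b3 := (ENNReal.ofReal_le_ofReal_iff (by positivity)).1
    (key.trans (ENNReal.ofReal_le_ofReal b2))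
  have p0 := measureReal_nonneg (μ := mu)
    (s := {e | ∀ N ≤ n, ∑ u ∈ range N, ((1 / 2 + θ)⁻¹ * |e (k u)| - 2) ≤ h})
  nlinarith [mul_nonneg h0.le hh]

lemma rw_markov (N : ℕ) (k : ℕ → Site) (hk : ∀ u < N, ∀ v < N, k u = k v → u = v)
    {a : ℝ} (ha : a < 1) (c : ℝ) :
    mu.real {e | c ≤ a * ∑ u ∈ range N, |e (k u)|} ≤ Real.exp (-c) * (1 / (1 - a)) ^ N := by
  have ha' : 0 < 1 - a := by linarith
  have hinj : Set.InjOn k (range N : Set ℕ) := fun u hu v hv e =>
    hk u (mem_range.1 hu) v (mem_range.1 hv) e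
  have h1 : ∫⁻ e, ENNReal.ofReal (Real.exp (a * ∑ u ∈ range N, |e (k u)|)) ∂mu =
      ENNReal.ofReal ((1 / (1 - a)) ^ N) := by
    have : ∀ e : Env, ENNReal.ofReal (Real.exp (a * ∑ u ∈ range N, |e (k u)|)) =
        ∏ z ∈ (range N).image k, ENNReal.ofReal (Real.exp (a * |e z|)) := by
      intro e
      rw [Finset.prod_image hinj, Finset.mul_sum, Real.exp_sum,
        ENNReal.ofReal_prod_of_nonneg fun _ _ => (Real.exp_pos _).le]
    simp only [this]
    rw [lintegral_prod_coord _ (φ := fun _ x => ENNReal.ofReal (Real.exp (a * |x|)))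
      fun _ => by fun_prop, Finset.prod_const, ex_mgf ha, Finset.card_image_of_injOn hinj,
      Finset.card_range, ENNReal.ofReal_pow (by positivity)]
  have h2 := mul_meas_ge_le_lintegral₀ (μ := mu)
    (f := fun e => ENNReal.ofReal (Real.exp (a * ∑ u ∈ range N, |e (k u)|)))
    (Measurable.aemeasurable (by fun_prop)) (ENNReal.ofReal (Real.exp c))
  rw [h1] at h2
  have h3 : ENNReal.ofReal (Real.exp c) * mu {e | c ≤ a * ∑ u ∈ range N, |e (k u)|} ≤
      ENNReal.ofReal ((1 / (1 - a)) ^ N) :=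
    le_trans (mul_le_mul_right (measure_mono fun e he =>
      ENNReal.ofReal_le_ofReal (Real.exp_le_exp.2 he)) _) h2
  rw [← ofReal_measureReal, ← ENNReal.ofReal_mul (Real.exp_pos _).le,
    ENNReal.ofReal_le_ofReal_iff (by positivity)] at h3
  rw [Real.exp_neg, ← div_eq_inv_mul, le_div_iff₀' (Real.exp_pos _)]
  exact h3

theorem chernoff_up (N : ℕ) (k : ℕ → Site) (hk : ∀ u < N, ∀ v < N, k u = k v → u = v)
    {l : ℝ} (h0 : 0 ≤ l) (h1 : l ≤ 1 / 2) (h : ℝ) :
    mu.real {e | (N : ℝ) + h ≤ ∑ u ∈ range N, |e (k u)|} ≤ Real.exp (l ^ 2 * N - l * h) := by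
  refine le_trans (measureReal_mono fun e he => mul_le_mul_of_nonneg_left he h0)
    ((rw_markov N k hk (by linarith) (l * (N + h))).trans ?_)
  have a1 : 1 / (1 - l) ≤ Real.exp (l + l ^ 2) := by
    rw [div_le_iff₀ (by linarith)]
    have a2 := Real.quadratic_le_exp_of_nonneg (x := l + l ^ 2) (by positivity)
    refine le_trans ?_ (mul_le_mul_of_nonneg_right a2 (by linarith))
    have a3 : 0 ≤ (1 + l) ^ 2 * (1 - l) / 2 - l := by
      nlinarith [mul_nonneg h0 (sub_nonneg.2 h1), mul_nonneg h0 (mul_nonneg h0 (sub_nonneg.2 h1))]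
    nlinarith [mul_nonneg (sq_nonneg l) a3]
  calc _ ≤ Real.exp (-(l * (N + h))) * Real.exp (l + l ^ 2) ^ N := by
        have : 0 < 1 - l := by linarith
        gcongr
    _ = _ := by
        rw [← Real.exp_nat_mul, ← Real.exp_add]
        congr 1
        ring

theorem chernoff_down (N : ℕ) (k : ℕ → Site) (hk : ∀ u < N, ∀ v < N, k u = k v → u = v)
    {l : ℝ} (h0 : 0 ≤ l) (h : ℝ) :
    mu.real {e | ∑ u ∈ range N, |e (k u)| ≤ (N : ℝ) - h} ≤ Real.exp (l ^ 2 * N - l * h) := by
  refine le_trans (measureReal_mono fun e he =>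
    mul_le_mul_of_nonpos_left he (neg_nonpos.2 h0))
    ((rw_markov N k hk (by linarith) (-l * (N - h))).trans ?_)
  have hl : 0 < 1 - -l := by linarith
  have a1 : 1 / (1 - -l) ≤ Real.exp (l ^ 2 - l) := by
    rw [div_le_iff₀ hl]
    refine le_trans ?_ (mul_le_mul_of_nonneg_right (Real.add_one_le_exp (l ^ 2 - l)) hl.le)
    nlinarith [pow_nonneg h0 3]
  calc _ ≤ Real.exp (-(-l * (N - h))) * Real.exp (l ^ 2 - l) ^ N := by gcongr
    _ = _ := by
        rw [← Real.exp_nat_mul, ← Real.exp_add]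
        congr 1
        ring

theorem sum_sq (N : ℕ) (k : ℕ → Site) (hk : ∀ u < N, ∀ v < N, k u = k v → u = v) :
    ∫ e, (∑ u ∈ range N, |e (k u)| - N) ^ 2 ∂mu = N := by
  have pg : ∀ z : Site, PG fun e => |e z| - 1 := fun z => (pg_coord z).abs.sub (pg_const 1)
  have ev : ∀ (z : Site) (φ : ℝ → ℝ), Measurable φ → ∫ e, φ (e z) ∂mu = ∫ x, φ x ∂ex := by
    intro z φ hφ
    rw [← (mp_eval z).map_eq, integral_map (mp_eval z).measurable.aemeasurable
      hφ.aestronglyMeasurable]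
  have m1 : ∀ z : Site, ∫ e, (|e z| - 1) ∂mu = 0 := fun z => by
    rw [ev z (fun x => |x| - 1) (by fun_prop), integral_sub ex_integrable_abs (integrable_const _),
      ex_integral_abs]
    simp
  have m2 : ∀ z : Site, ∫ e, (|e z| - 1) * (|e z| - 1) ∂mu = 1 := fun z => by
    rw [ev z (fun x => (|x| - 1) * (|x| - 1)) (by fun_prop)]
    have : ∀ x : ℝ, (|x| - 1) * (|x| - 1) = |x| ^ 2 - (2 * |x| - 1) := fun x => by ring
    simp only [this]
    have i1 : Integrable (fun x : ℝ => 2 * |x| - 1) ex :=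
      (ex_integrable_abs.const_mul 2).sub (integrable_const _)
    rw [integral_sub (ex_integrable_pow 2) i1, integral_sub (ex_integrable_abs.const_mul 2) (integrable_const _),
      integral_const_mul, ex_integral_pow, ex_integral_abs]
    norm_num [Nat.factorial]
  have e1 : ∀ e : Env, (∑ u ∈ range N, |e (k u)| - N) ^ 2 =
      ∑ u ∈ range N, ∑ v ∈ range N, (|e (k u)| - 1) * (|e (k v)| - 1) := by
    intro e
    rw [← Finset.sum_mul_sum, ← sq, Finset.sum_sub_distrib]
    simp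
  simp only [e1]
  rw [integral_finsetSum _ fun u _ => (pg_sum _ fun v _ => (pg _).mul (pg _)).integrable]
  have e2 : ∀ u ∈ range N, ∫ e, ∑ v ∈ range N, (|e (k u)| - 1) * (|e (k v)| - 1) ∂mu = 1 := by
    intro u hu
    rw [integral_finsetSum _ fun v _ => ((pg _).mul (pg _)).integrable,
      Finset.sum_eq_single_of_mem u hu fun v hv hvu => ?_, m2]
    have c : k v ≠ k u := fun e => hvu (hk v (mem_range.1 hv) u (mem_range.1 hu) e)
    rw [integral_mul_indep (S := {k u}) (pg _) (pg _) (fun e e' h => by simp only [h (k u) rfl])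
      (fun e e' h => by simp only [h (k v) c]), m1, zero_mul]
  rw [Finset.sum_congr rfl e2]
  simp

end Pool.Agent.P.MP_9957ef_pr
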