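import Pool.Agent.P.MP_9957ef_pr.Iface
import Pool.Agent.P.MP_9957ef_pr.Det
import Pool.Agent.P.MP_9957ef_pr.Burke
import Pool.Agent.P.MP_9957ef_pr.RW

/-! A strongly attractive wall is touched in every long window. -/

set_option autoImplicit false

noncomputable section

open MeasureTheory ProbabilityTheory Finset

namespace Pool.Agent.P.MP_9957ef_pr

lemma touch_cong {c : ℤ} (r : ℝ) (d : ℤ → ℝ) (s : ℝ) {z : Site} (h1 : Adm 0 (1, 0) z)
    (h2 : z.1 ≤ c - 1) (hd : z.1 = z.2 → d z.1 = s) : cD c r d z = cS 1 r s z := by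
  obtain ⟨i, j⟩ := z
  simp only [Adm] at h1 h2 hd
  simp only [cD, cS, Prod.mk.injEq]
  split_ifs <;> first | rfl | omega | exact hd (by omega)

lemma touch_GF {c : ℤ} (r s : ℝ) (e : Env) {u : Site} (hu : u.1 ≤ c - 1) :
    L 0 (wt (cD c r (fun _ => s)) e) (1, 0) u = G 1 r s u e :=
  L_congr fun z h1 h2 => by
    simp only [wt]
    rw [touch_cong r _ s h1 (h2.1.trans hu) fun _ => rfl]

lemma touch_cD_mir (c : ℤ) (r s : ℝ) (z : Site) :
    cD c r (fun _ => s) (mir c z) = cD c r (fun _ => s) z := by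
  obtain ⟨i, j⟩ := z
  simp only [cD, mir, Prod.mk.injEq]
  exact if_congr (by omega) rfl (if_congr (by omega) rfl (if_congr (by omega) rfl rfl))

lemma touch_Gb {c : ℤ} (r s : ℝ) (e : Env) (i : ℤ) {j : ℤ} (hj : 1 ≤ j) :
    L 0 (wt (cD c r (fun _ => s)) e) (i, j) (c, c - 1) =
      G 1 r s (c - j, c - i) (fun z => e (mir c z)) := by
  rw [L_mirror _ c, ← touch_GF (c := c) r s _ (u := (c - j, c - i)) (by simp only; omega)]
  have h1 : mir c (c, c - 1) = (1, 0) := by simp [mir]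
  rw [h1]
  congr 1
  funext z
  simp only [wt, touch_cD_mir]

lemma touch_cD_nonneg (c : ℤ) {r : ℝ} {d : ℤ → ℝ} (hr : 0 ≤ r) (hd : ∀ j, 0 ≤ d j) (z : Site) :
    0 ≤ cD c r d z := by
  simp only [cD]
  split_ifs
  exacts [le_rfl, hr, hd _, zero_le_one]

lemma touch_cD_mono (c : ℤ) (r : ℝ) {d d' : ℤ → ℝ} (hd : ∀ j, d j ≤ d' j) (e : Env) (z : Site) :
    wt (cD c r d) e z ≤ wt (cD c r d') e z := by
  refine mul_le_mul_of_nonneg_right ?_ (abs_nonneg _)
  simp only [cD]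
  split_ifs
  exacts [le_rfl, le_rfl, hd _, le_rfl]

lemma touch_cD_off (c : ℤ) (r : ℝ) {d d' : ℤ → ℝ} (e : Env) {z : Site}
    (hd : z.1 = z.2 → d z.1 = d' z.1) : wt (cD c r d) e z = wt (cD c r d') e z := by
  simp only [wt, cD]
  split_ifs with h1 h2 h3
  exacts [rfl, rfl, by rw [hd h3], rfl]

/-- telescoping downwards -/
lemma touch_tele (f : ℤ → ℝ) (y : ℤ) (N : ℕ) :
    f y - f (y - N) = ∑ u ∈ range N, (f (y - u) - f (y - u - 1)) := by
  induction N with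
  | zero => simp
  | succ N ih =>
    rw [sum_range_succ, ← ih, Nat.cast_succ, ← sub_sub]
    ring

/-- the deterministic case distinction -/
lemma touch_det {c x y Z : ℤ} {r s s' : ℝ} (hr : 0 ≤ r) (hs' : 0 ≤ s') (hs : s' ≤ s)
    (h1 : 1 ≤ x) (h2 : x ≤ y) (h3 : y ≤ c - 1) (hZ : Z ≤ y) (e : Env)
    (h : F c r (fun _ => s) e ≤ F c r (fun j => if x ≤ j ∧ j ≤ y then s' else s) e) :
    (∃ k, 1 ≤ k ∧ k ≤ y - Z ∧
      L 0 (wt (cD c r (fun _ => s)) e) (1, 0) (y, y) +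
          L 0 (wt (cD c r (fun _ => s)) e) (y + 1, y) (c, c - 1) ≤
        L 0 (wt (cD c r (fun _ => s)) e) (1, 0) (y, k) +
          L 0 (wt (cD c r (fun _ => s)) e) (y + 1, k) (c, c - 1)) ∨
    (∃ i, y + 1 ≤ i ∧ i ≤ c ∧ L 0 (wt (cD c r (fun _ => s)) e) (1, 1) (c, c - 1) ≤
      L 0 (wt (cD c r (fun _ => s)) e) (1, 0) (i, 0) +
        L 0 (wt (cD c r (fun _ => s)) e) (i, 1) (c, c - 1)) ∨
    L 0 (wt (cD c r (fun _ => s)) e) (1, 0) (y, y - Z) ≤
      L 0 (wt (cD c r (fun j => if x ≤ j ∧ j ≤ y then s' else s)) e) (1, 0) (y, y - Z) := by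
  set W := wt (cD c r (fun _ => s)) e with hW
  set Ww := wt (cD c r (fun j => if x ≤ j ∧ j ≤ y then s' else s)) e with hWw
  have hle : ∀ z, Ww z ≤ W z := touch_cD_mono c r (fun j => by split_ifs; exacts [hs, le_rfl]) e
  have hW0 : ∀ z, 0 ≤ W z := wt_nonneg (touch_cD_nonneg c hr fun _ => hs'.trans hs) e
  obtain ⟨k, hk1, hk2, hk⟩ := L_cut_col (k := 0) (a := (1, 0)) (b := (c, c - 1)) Ww
    (by simp only [Adm]; omega) (r := y) (by simp only; omega) (by simp only; omega)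
  have hb : L 0 Ww (y + 1, k) (c, c - 1) = L 0 W (y + 1, k) (c, c - 1) :=
    L_congr fun z hz _ => touch_cD_off c r e fun _ => by
      have := hz.1
      simp only at this
      rw [if_neg (by omega)]
  have hF : L 0 W (1, 0) (c, c - 1) ≤ L 0 Ww (1, 0) (y, k) + L 0 W (y + 1, k) (c, c - 1) := by
    rw [← hb, ← hk]; exact h
  have hcat : ∀ k', 0 ≤ k' → k' ≤ y →
      L 0 W (1, 0) (y, k') + L 0 W (y + 1, k') (c, c - 1) ≤ L 0 W (1, 0) (c, c - 1) :=
    fun k' a1 a2 => L_concat1 (b := (y, k')) W (by simp only [Adm]; omega)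
      (by simp only [Adm]; omega)
  have hm : L 0 Ww (1, 0) (y, k) ≤ L 0 W (1, 0) (y, k) := L_mono fun z _ _ => hle z
  simp only [Adm] at hk1 hk2
  by_cases hk0 : k = 0
  · subst hk0
    right; left
    obtain ⟨i, hi1, hi2, hi⟩ := L_cut_row (k := 0) (a := (y + 1, 0)) (b := (c, c - 1)) W
      (by simp only [Adm]; omega) (r := 0) le_rfl (by simp only; omega)
    have a1 : L 0 W (1, 0) (y, 0) + L 0 W (y + 1, 0) (i, 0) ≤ L 0 W (1, 0) (i, 0) :=
      L_concat1 (b := (y, 0)) W (by simp only [Adm]; omega) hi1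
    have a2 : L 0 W (1, 1) (c, c - 1) ≤ L 0 W (1, 0) (c, c - 1) :=
      L_inner hW0 (by simp only [Adm]; omega) (by simp only [Adm]; omega)
        (by simp only [Adm]; omega)
    simp only [Adm] at hi1 hi2
    refine ⟨i, hi1.1, hi2.1, ?_⟩
    rw [zero_add] at hi
    linarith
  by_cases hkZ : k ≤ y - Z
  · left
    refine ⟨k, by omega, hkZ, ?_⟩
    have := hcat y (by omega) le_rfl
    linarith
  · right; right
    have a1 := hcat k (by omega) (by omega)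
    have a2 := (attract (k := 0) (a := (1, 0)) (b := (y, k)) (W := Ww) (W' := W) (by simp)
      (fun z _ _ a b => (touch_cD_off c r e fun a' => by simp only at a b; omega).le)
      (fun z _ _ _ _ => hle z)
      (fun z _ _ a b => touch_cD_off c r e fun a' => by simp only at a b; omega)).2
    have a3 := det_tele (fun j => L 0 Ww (1, 0) (y, j)) (fun j => L 0 W (1, 0) (y, j))
      (p := y - Z) (r := k) (by omega) fun j b1 b2 =>
        a2 y j (by simp only [Adm]; omega) (by simp only [Adm]; omega)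
    linarith

lemma touch_q_neg (θ : ℝ) : q (-θ) = (1 / 2 + θ)⁻¹ := by rw [q, sub_neg_eq_add]

lemma touch_factor (θ : ℝ) :
    (1 / 2 + θ) / (1 / 2 + θ - θ) * ((1 / 2 - θ) / (1 / 2 - θ + θ)) = 1 - 4 * θ ^ 2 := by
  rw [add_sub_cancel_right, sub_add_cancel]
  ring

/-- the walk bound used twice -/
lemma touch_ville {θ : ℝ} (h0 : 0 < θ) (h1 : θ < 1 / 2) (k1 k2 : ℕ → Site) (n Z : ℕ)
    (a1 : ∀ u < n, ∀ v < n, k1 u = k1 v → u = v) (a2 : ∀ u < n, ∀ v < n, k2 u = k2 v → u = v)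
    (a12 : ∀ u < n, ∀ v < n, k1 u ≠ k2 v) :
    mu.real {e | ∃ N, Z ≤ N ∧ N ≤ n ∧
      0 ≤ ∑ u ∈ range N, (q (-θ) * |e (k1 u)| - q θ * |e (k2 u)|)} ≤
      Real.exp (-(4 * θ ^ 2 * Z)) := by
  have h := ville k1 k2 n Z a1 a2 a12 (α := 1 / 2 - θ) (β := 1 / 2 + θ) (l := θ) (by linarith)
    h0.le (by linarith) 0
  rw [touch_factor θ, mul_zero, neg_zero, Real.exp_zero, one_mul] at h
  rw [touch_q_neg]
  refine h.trans ?_
  rw [show -(4 * θ ^ 2 * Z) = Z * (-(4 * θ ^ 2)) by ring, Real.exp_nat_mul]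
  refine pow_le_pow_left₀ (by nlinarith) ?_ _
  have := Real.add_one_le_exp (-(4 * θ ^ 2))
  linarith

lemma touch_E1 {θ : ℝ} (h0 : 0 < θ) (h1 : θ < 1 / 2) {c y : ℤ} (hy : 1 ≤ y) (hc : y ≤ c - 1)
    (Z : ℕ) :
    mu.real {e | ∃ k, 1 ≤ k ∧ k ≤ y - Z ∧
      L 0 (wt (cD c (q (-θ)) (fun _ => q θ)) e) (1, 0) (y, y) +
          L 0 (wt (cD c (q (-θ)) (fun _ => q θ)) e) (y + 1, y) (c, c - 1) ≤
        L 0 (wt (cD c (q (-θ)) (fun _ => q θ)) e) (1, 0) (y, k) +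
          L 0 (wt (cD c (q (-θ)) (fun _ => q θ)) e) (y + 1, k) (c, c - 1)} ≤
      Real.exp (-(4 * θ ^ 2 * Z)) := by
  have hθ : |θ| < 1 / 2 := by rw [abs_of_pos h0]; exact h1
  obtain ⟨Φ1, m1, s1, -, v1⟩ := burke hθ (X := 1) (r := y) (c := y) (by omega) (by omega)
    (by omega)
  obtain ⟨Φ2, m2, s2, v2, -⟩ := burke hθ (X := 1) (r := c - y - 1) (c := c - 1) (by omega)
    (by omega) (by omega)
  have mm := mp_reindex (mir_injective c)
  have mp : MeasurePreserving (fun e : Env => Φ1 (fun z => Φ2 (fun z => e (mir c z)) (mir c z)))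
      mu mu := m1.comp (mm.comp (m2.comp mm))
  refine le_trans (measureReal_mono ?_) ((real_preimage_le mp _).trans
    (touch_ville h0 h1 (fun u => (c, y - u - 1)) (fun u => (y - u, y - u)) (y - 1).toNat Z
      (fun u _ v _ h => by simp only [Prod.mk.injEq] at h; omega)
      (fun u _ v _ h => by simp only [Prod.mk.injEq] at h; omega)
      (fun u _ v _ h => by simp only [Prod.mk.injEq] at h; omega)))
  rintro e ⟨k, hk1, hk2, hk⟩
  obtain ⟨N, hN⟩ : ∃ N : ℕ, (N : ℤ) = y - k := ⟨(y - k).toNat, by omega⟩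
  refine ⟨N, by omega, by omega, ?_⟩
  set eh : Env := fun z => e (mir c z) with heh
  set e' : Env := fun z => Φ2 eh (mir c z) with he'
  have hG : ∀ j, G 1 (q (-θ)) (q θ) (y, j) e' =
      L 0 (wt (cD c (q (-θ)) (fun _ => q θ)) e) (1, 0) (y, j) := fun j => by
    rw [touch_GF _ _ e (u := (y, j)) hc]
    refine L_congr fun z _ hz => ?_
    have hz1 := hz.1
    simp only [wt, he']
    rw [s2 eh _ (by simp only [mir] at hz1 ⊢; omega), heh]
    simp only [mir_mir]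
  have t1 := touch_tele (fun j => L 0 (wt (cD c (q (-θ)) (fun _ => q θ)) e) (1, 0) (y, j)) y N
  have t2 := touch_tele (fun j => L 0 (wt (cD c (q (-θ)) (fun _ => q θ)) e) (y + 1, j)
    (c, c - 1)) y N
  rw [hN, sub_sub_cancel] at t1 t2
  have t3 : ∑ u ∈ range N, (q (-θ) * |Φ1 e' (c, y - u - 1)| - q θ * |Φ1 e' (y - u, y - u)|) =
      -(∑ u ∈ range N, (L 0 (wt (cD c (q (-θ)) (fun _ => q θ)) e) (y + 1, y - u) (c, c - 1) -
        L 0 (wt (cD c (q (-θ)) (fun _ => q θ)) e) (y + 1, y - u - 1) (c, c - 1))) -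
      ∑ u ∈ range N, (L 0 (wt (cD c (q (-θ)) (fun _ => q θ)) e) (1, 0) (y, y - u) -
        L 0 (wt (cD c (q (-θ)) (fun _ => q θ)) e) (1, 0) (y, y - u - 1)) := by
    rw [← sum_neg_distrib, ← sum_sub_distrib]
    refine sum_congr rfl fun u hu => ?_
    have hu' := mem_range.1 hu
    have b1 := v1 e' (y - u) (by omega) (by omega)
    rw [max_eq_right (by omega), hG, hG] at b1
    have b2 := v2 eh (c - (y - u - 1)) (by omega) (by omega)
    rw [b1, s1 e' _ (by simp only; omega), touch_Gb _ _ e _ (by omega),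
      touch_Gb _ _ e _ (by omega)]
    have b3 : e' (c, y - u - 1) = Φ2 eh (c - (y - u - 1), 0) := by simp [he', mir]
    rw [b3, b2, show c - (y - u - 1) - 1 = c - (y - u) by ring,
      show c - (y + 1) = c - y - 1 by ring]
    ring
  show 0 ≤ ∑ u ∈ range N, (q (-θ) * |Φ1 e' (c, y - u - 1)| - q θ * |Φ1 e' (y - u, y - u)|)
  rw [t3, ← t1, ← t2]
  linarith

lemma touch_E2 {θ : ℝ} (h0 : 0 < θ) (h1 : θ < 1 / 2) {c y : ℤ} (hy : 1 ≤ y) (hc : y ≤ c - 1)
    (Z : ℕ) (hZ : (Z : ℤ) ≤ y) :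
    mu.real {e | ∃ i, y + 1 ≤ i ∧ i ≤ c ∧
      L 0 (wt (cD c (q (-θ)) (fun _ => q θ)) e) (1, 1) (c, c - 1) ≤
        L 0 (wt (cD c (q (-θ)) (fun _ => q θ)) e) (1, 0) (i, 0) +
          L 0 (wt (cD c (q (-θ)) (fun _ => q θ)) e) (i, 1) (c, c - 1)} ≤
      Real.exp (-(4 * θ ^ 2 * Z)) := by
  have hθ : |θ| < 1 / 2 := by rw [abs_of_pos h0]; exact h1
  obtain ⟨Φ, m1, s1, -, v1⟩ := burke hθ (X := 1) (r := c - 1) (c := c - 1) (by omega) (by omega)
    (by omega)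
  have mp : MeasurePreserving (fun e : Env => Φ (fun z => e (mir c z))) mu mu :=
    m1.comp (mp_reindex (mir_injective c))
  refine le_trans (measureReal_mono ?_) ((real_preimage_le mp _).trans
    (touch_ville h0 h1 (fun u => (c, c - 2 - u)) (fun u => (c - 1 - u, c - 1 - u)) (c - 1).toNat Z
      (fun u _ v _ h => by simp only [Prod.mk.injEq] at h; omega)
      (fun u _ v _ h => by simp only [Prod.mk.injEq] at h; omega)
      (fun u _ v _ h => by simp only [Prod.mk.injEq] at h; omega)))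
  rintro e ⟨i, hi1, hi2, hi⟩
  obtain ⟨N, hN⟩ : ∃ N : ℕ, (N : ℤ) = i - 1 := ⟨(i - 1).toNat, by omega⟩
  refine ⟨N, by omega, by omega, ?_⟩
  set eh : Env := fun z => e (mir c z) with heh
  rw [touch_Gb _ _ e _ le_rfl, touch_Gb _ _ e _ le_rfl] at hi
  have t1 := touch_tele (fun j => G 1 (q (-θ)) (q θ) (c - 1, j) eh) (c - 1) N
  rw [hN, show c - 1 - (i - 1) = c - i by ring] at t1
  have t2 : L 0 (wt (cD c (q (-θ)) (fun _ => q θ)) e) (1, 0) (i, 0) ≤
      ∑ u ∈ range N, q (-θ) * |Φ eh (c, c - 2 - u)| := by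
    have := L_row (k := 0) (wt (cD c (q (-θ)) (fun _ => q θ)) e) (x := 1) (y := 0) (by omega) N
    rw [hN, add_sub_cancel] at this
    rw [this, sum_range_succ']
    have b0 : wt (cD c (q (-θ)) (fun _ => q θ)) e (1 + (0 : ℕ), 0) = 0 := by simp [wt, cD]
    rw [b0, add_zero]
    refine sum_le_sum fun u _ => ?_
    rw [s1 eh _ (by simp only; omega)]
    have b1 : eh (c, c - 2 - u) = e (1 + ((u + 1 : ℕ) : ℤ), 0) := by
      simp only [heh, mir]
      congr 2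
      · push_cast; ring
      · ring
    rw [b1]
    refine mul_le_mul_of_nonneg_right ?_ (abs_nonneg _)
    have hq := (q_pos (x := -θ) (by linarith)).le
    simp only [cD]
    split_ifs with c1 c2
    exacts [hq, le_rfl, absurd (Or.inl trivial) c2, absurd (Or.inl trivial) c2]
  have t3 : ∑ u ∈ range N, q θ * |Φ eh (c - 1 - u, c - 1 - u)| =
      ∑ u ∈ range N, (G 1 (q (-θ)) (q θ) (c - 1, c - 1 - u) eh -
        G 1 (q (-θ)) (q θ) (c - 1, c - 1 - u - 1) eh) := by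
    refine sum_congr rfl fun u hu => ?_
    have hu' := mem_range.1 hu
    have b1 := v1 eh (c - 1 - u) (by omega) (by omega)
    rwa [max_eq_right (by omega)] at b1
  show 0 ≤ ∑ u ∈ range N, (q (-θ) * |Φ eh (c, c - 2 - u)| - q θ * |Φ eh (c - 1 - u, c - 1 - u)|)
  rw [sum_sub_distrib, t3, ← t1]
  rw [← heh] at hi
  linarith

/-- restart at the row below the window -/
lemma touch_restart {c x y : ℤ} {r s s' : ℝ} {d : ℤ → ℝ} (h1 : 1 ≤ x) (h2 : x ≤ y)
    (h3 : y ≤ c - 1) (hd1 : ∀ j, j < x → d j = s) (hd2 : ∀ j, x ≤ j → j ≤ y → d j = s')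
    {e et : Env}
    (a1 : ∀ i, 2 ≤ i → i ≤ y - x + 1 → r * |et (i, 0)| =
      L 0 (wt (cD c r (fun _ => s)) e) (1, 0) (x - 1 + i, x - 1) -
      L 0 (wt (cD c r (fun _ => s)) e) (1, 0) (x - 2 + i, x - 1))
    (a3 : ∀ i j, 1 ≤ j → j ≤ i → i ≤ y - x + 1 → et (i, j) = e (x - 1 + i, x - 1 + j))
    {Z : ℤ} (hZ0 : 0 ≤ Z) (hZ : Z ≤ y - x + 1) :
    L 0 (wt (cD c r d) e) (1, 0) (y, y - Z) =
      L 0 (wt (cD c r (fun _ => s)) e) (1, 0) (x, x - 1) +
        G 1 r s' (y - x + 1, y - x + 1 - Z) et := by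
  have hlow : ∀ i, L 0 (wt (cD c r d) e) (1, 0) (i, x - 1) =
      L 0 (wt (cD c r (fun _ => s)) e) (1, 0) (i, x - 1) := fun i =>
    L_congr fun z _ hz => touch_cD_off c r e fun hz' => hd1 _ (by
      have := hz.2.1
      simp only at this
      omega)
  have h := restart (k := 0) (a := (1, 0)) (u := (y, y - Z)) (W := wt (cD c r d) e)
    (W' := fun z => wt (cS 1 r s') et (z - (x - 1, x - 1))) (r := x - 1) (l := x) (by simp)
    (by simp only; omega) (by simp only; omega) (by simp only; omega)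
    (by simp only [Adm]; omega) (by simp [wt, cS]) ?_ ?_
  · rw [h, hlow]
    congr 1
    have h4 := L_shift (k := 0) (a := (1, 0)) (b := (y - x + 1, y - x + 1 - Z))
      (fun z => wt (cS 1 r s') et (z - (x - 1, x - 1))) (x - 1, x - 1)
    simp only [add_sub_cancel_right, Prod.mk_add_mk, sub_add_cancel] at h4
    rw [show (1 : ℤ) + (x - 1) = x by ring, zero_add, show y - x + 1 + (x - 1) = y by ring,
      show y - x + 1 - Z + (x - 1) = y - Z by ring] at h4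
    exact h4
  · intro i b1 b2
    simp only at b2
    have b3 := a1 (i - x + 1) (by omega) (by omega)
    rw [show x - 1 + (i - x + 1) = i by ring, show x - 2 + (i - x + 1) = i - 1 by ring] at b3
    rw [hlow, hlow, ← b3]
    simp only [wt, cS, Prod.mk_sub_mk, sub_self, if_true]
    rw [if_neg (by omega), show i - (x - 1) = i - x + 1 by ring]
  · rintro ⟨i, j⟩ b1 b2 b3
    simp only [Adm] at b1 b2 b3
    have b4 := a3 (i - (x - 1)) (j - (x - 1)) (by omega) (by omega) (by omega)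
    rw [add_sub_cancel, add_sub_cancel] at b4
    simp only [wt, Prod.mk_sub_mk, b4]
    congr 1
    simp only [cS, cD, Prod.mk.injEq]
    rw [if_neg (by omega), if_neg (show ¬(i = 1 ∧ j = 0 ∨ i = c ∧ j = c - 1 ∨ i = c ∧ j = 0) by
      omega), if_neg (show ¬(j = 0 ∨ i = c) by omega)]
    by_cases b5 : i = j
    · rw [if_pos (by omega), if_pos b5, hd2 i (by omega) (by omega)]
    · rw [if_neg (by omega), if_neg b5]

lemma touch_T_le {r s : ℝ} {m : ℤ} (hm : 1 ≤ m) (e : Env) : T s 1 m e ≤ G 1 r s (m, m) e := by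
  have h1 := L_concat2 (k := 0) (a := (1, 0)) (b := (1, 0)) (c := (m, m)) (wt (cS 1 r s) e)
    (by simp [Adm]) (by simp only [Adm]; omega)
  rw [L_self _ (by simp)] at h1
  have h2 : wt (cS 1 r s) e (1, 0) = 0 := by simp [wt, cS]
  have h3 : T s 1 m e = L 0 (wt (cS 1 r s) e) (1, 1) (m, m) := L_congr fun z hz _ => by
    obtain ⟨i, j⟩ := z
    simp only [Adm] at hz
    simp only [wt, cT, cS]
    rw [if_neg (show ¬ j = 0 by omega), max_eq_right (by omega)]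
  rw [h2, zero_add] at h1
  rw [h3]
  exact h1

lemma touch_up {θ κ : ℝ} {m Z : ℤ} (h0 : 0 < θ) (h1 : θ ≤ 1 / 1000) (hκ : θ ^ 3 * m = κ)
    (hZ1 : 1 ≤ Z) (hZ : Z ≤ m) :
    mu.real {e | 4 * m - 2 * Z + 4 * m * θ ^ 2 + κ / (6 * θ) ≤
      G 1 (q (-θ)) (q (-θ / 2)) (m, m - Z) e} ≤ Real.exp (-(κ / 10)) := by
  have hx : |-θ / 2| ≤ 1 / 8 := by rw [abs_le]; constructor <;> linarith
  have hy : |θ| ≤ 1 / 8 := by rw [abs_le]; constructor <;> linarith
  have hm : (1 : ℝ) ≤ m := by exact_mod_cast hZ1.trans hZ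
  have hZ1' : (1 : ℝ) ≤ Z := by exact_mod_cast hZ1
  have hZ' : (Z : ℝ) ≤ m := by exact_mod_cast hZ
  refine (G_upper (x := -θ / 2) (y := θ) (by linarith) (by linarith) (by linarith) (X := 1)
    (i := m) (j := m - Z) (by omega) (by omega) (by omega) _).trans (Real.exp_le_exp.2 ?_)
  have h2 := (abs_le.1 (Lam_approx (p := (m : ℝ) - 1) (j := (m : ℝ) - Z) (by linarith)
    (by linarith) hx hy)).2
  push_cast
  have e1 : (θ - -θ / 2) * (κ / (6 * θ)) = κ / 4 := by field_simp; ring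
  have e2 : 22 * ((m : ℝ) - 1 + (m - Z)) * ((-θ / 2) ^ 4 + θ ^ 4) ≤ 47 * (κ * θ) := by
    have : (m : ℝ) - 1 + (m - Z) ≤ 2 * m := by linarith
    have h4 : 0 < θ ^ 4 := by positivity
    calc _ = 187 / 8 * θ ^ 4 * ((m : ℝ) - 1 + (m - Z)) := by ring
      _ ≤ 187 / 8 * θ ^ 4 * (2 * m) := by gcongr
      _ = 187 / 4 * (θ ^ 4 * m) := by ring
      _ ≤ 47 * (θ ^ 4 * m) := by gcongr; norm_num
      _ = _ := by rw [← hκ]; ring
  have e3 : 2 * ((m : ℝ) - 1 + (m - Z)) - 2 * (m - 1 - (m - Z)) * (-θ / 2 + θ) +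
      8 / 3 * (m - 1 + (m - Z)) * ((-θ / 2) ^ 2 + -θ / 2 * θ + θ ^ 2) ≤
      4 * m - 2 * Z + 4 * m * θ ^ 2 := by
    have b1 : 0 ≤ ((Z : ℝ) - 1) * θ := mul_nonneg (by linarith) h0.le
    have b2 : 0 ≤ ((Z : ℝ) + 1) * θ ^ 2 := by positivity
    nlinarith
  have e4 := mul_le_mul_of_nonneg_left e3 (show 0 ≤ θ - -θ / 2 by linarith)
  have hk0 : 0 ≤ κ := by rw [← hκ]; positivity
  have e5 : κ * θ ≤ κ * (1 / 1000) := mul_le_mul_of_nonneg_left h1 hk0
  rw [mul_add (θ - -θ / 2) _ (κ / (6 * θ)), e1]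
  linarith

lemma touch_low {θ κ : ℝ} {m : ℤ} (h0 : 0 < θ) (h1 : θ ≤ 1 / 1000) (hκ : θ ^ 3 * m = κ)
    (hm1 : 1 ≤ m) :
    mu.real {e | G 1 (q (-0)) (q θ) (m, m) e ≤
      4 * m - 3 + 16 / 3 * m * θ ^ 2 - κ / (6 * θ)} ≤ Real.exp (-(κ / 10)) := by
  have hx : |(0 : ℝ)| ≤ 1 / 8 := by simp
  have hy : |θ| ≤ 1 / 8 := by rw [abs_le]; constructor <;> linarith
  have hm : (1 : ℝ) ≤ m := by exact_mod_cast hm1
  refine (G_lower (x := θ) (y := 0) (by linarith) (by linarith) h0.le (X := 1)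
    (i := m) (j := m) (by omega) (by omega) (by omega) _).trans (Real.exp_le_exp.2 ?_)
  have h2 := (abs_le.1 (Lam_approx (p := (m : ℝ) - 1) (j := (m : ℝ)) (by linarith)
    (by linarith) hy hx)).2
  push_cast
  have e1 : (θ - 0) * (κ / (6 * θ)) = κ / 6 := by field_simp; ring
  have e2 : 22 * ((m : ℝ) - 1 + m) * (θ ^ 4 + 0 ^ 4) ≤ 44 * (κ * θ) := by
    have h4 : 0 < θ ^ 4 := by positivity
    rw [← hκ]
    nlinarith
  have e3 : 4 * m - 3 + 16 / 3 * m * θ ^ 2 ≤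
      2 * ((m : ℝ) - 1 + m) - 2 * (m - 1 - m) * (θ + 0) +
        8 / 3 * (m - 1 + m) * (θ ^ 2 + θ * 0 + 0 ^ 2) := by
    nlinarith
  have e4 := mul_le_mul_of_nonneg_left e3 h0.le
  have hk0 : 0 ≤ κ := by rw [← hκ]; positivity
  have e5 : κ * θ ≤ κ * (1 / 1000) := mul_le_mul_of_nonneg_left h1 hk0
  rw [mul_sub (θ - 0) _ (κ / (6 * θ)), e1]
  linarith

lemma touch_E3 (hGM : S_GM) {θ κ ρ : ℝ} {m : ℤ} {Z : ℕ} (h0 : 0 < θ) (h1 : θ ≤ 1 / 1000)
    (hκ : θ ^ 3 * m = κ) (hρ : 20 ≤ ρ) (hρκ : ρ ^ 2 = κ) (hZρ : θ ^ 2 * Z ≤ ρ + 1)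
    (hZ1 : 1 ≤ Z) (hZ : (Z : ℤ) ≤ m) :
    mu.real {e | G 1 (q (-θ)) (q θ) (m, m - Z) e ≤ G 1 (q (-θ)) (q (-θ / 2)) (m, m - Z) e} ≤
      4 * Real.exp (-(κ / 10)) := by
  have hy : |θ| ≤ 1 / 8 := by rw [abs_le]; constructor <;> linarith
  have hθ : |θ| < 1 / 2 := by linarith
  have hm1 : 1 ≤ m := by omega
  obtain ⟨Φ, m1, -, -, v1⟩ := burke hθ (X := 1) (r := m) (c := m) (by omega) (by omega)
    (by omega)
  set h := κ / (6 * θ) with hh
  have hθh : θ * h = κ / 6 := by rw [hh]; field_simp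
  have hκ0 : 400 ≤ κ := by nlinarith
  have hh0 : 0 ≤ h := by positivity
  have p1 := touch_up (Z := Z) h0 h1 hκ (by omega) hZ
  have p2 := (real_preimage_le m1 _).trans (chernoff_up Z (fun u => (m - u, m - u))
    (fun u _ v _ h => by simp only [Prod.mk.injEq] at h; omega) h0.le (by linarith) h)
  have p2' : Real.exp (θ ^ 2 * Z - θ * h) ≤ Real.exp (-(κ / 10)) :=
    Real.exp_le_exp.2 (by nlinarith)
  have p3 := hGM θ 0 hθ (by simp) (by linarith) m hm1 h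
  have p3' : Real.exp (-((θ + 0) * h)) ≤ Real.exp (-(κ / 10)) :=
    Real.exp_le_exp.2 (by rw [add_zero, hθh]; linarith)
  have p4 := touch_low h0 h1 hκ hm1
  rw [← hh] at p1 p4
  refine le_trans (measureReal_mono (s₂ := ((_ ∪ _) ∪ _) ∪ _) ?_)
    ((measureReal_union_le _ _).trans ((add_le_add ((measureReal_union_le _ _).trans
      (add_le_add ((measureReal_union_le _ _).trans (add_le_add p1 (p2.trans p2')))
        (p3.trans p3'))) p4).trans (le_of_eq (by ring))))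
  intro e he
  by_contra hc
  simp only [Set.mem_union, Set.mem_preimage, Set.mem_ofPred_eq, not_or, not_le] at he hc
  obtain ⟨⟨⟨c1, c2⟩, c3⟩, c4⟩ := hc
  have t1 := touch_tele (fun j => G 1 (q (-θ)) (q θ) (m, j) e) m Z
  have t2 : q θ * ∑ u ∈ range Z, |Φ e (m - u, m - u)| =
      ∑ u ∈ range Z, (G 1 (q (-θ)) (q θ) (m, m - u) e - G 1 (q (-θ)) (q θ) (m, m - u - 1) e) := by
    rw [mul_sum]
    refine sum_congr rfl fun u hu => ?_
    have hu' := mem_range.1 hu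
    have b1 := v1 e (m - u) (by omega) (by omega)
    rwa [max_eq_right (by omega)] at b1
  have t3 := touch_T_le (r := q (-θ)) (s := q θ) hm1 e
  have hs0 := (q_pos (x := θ) (by linarith)).le
  have hs : q θ ≤ 2 + 5 * θ := (q_bounds hy).2.trans (by nlinarith)
  have t4 : q θ * ∑ u ∈ range Z, |Φ e (m - u, m - u)| ≤ (2 + 5 * θ) * (Z + h) :=
    (mul_le_mul_of_nonneg_left c2.le hs0).trans
      (mul_le_mul_of_nonneg_right hs (by positivity))
  have t5 : (m : ℝ) * θ ^ 2 = 6 * h := by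
    rw [hh, ← hκ]; field_simp
  have t6 : 3 + 5 * θ * Z ≤ (3 - 5 * θ) * h := by
    refine le_of_mul_le_mul_left ?_ h0
    have : θ * ((3 - 5 * θ) * h) = (3 - 5 * θ) * (κ / 6) := by rw [← hθh]; ring
    rw [this]
    nlinarith
  push_cast at c1
  rw [← t2] at t1
  rw [mul_assoc, t5] at c1 c4
  have d1 := he.trans_lt c1
  have d2 := t1.trans_le t4
  have d3 : G 1 (q (-0)) (q θ) (m, m) e < h + G 1 (q (-θ)) (q θ) (m, m) e := by linarith
  have d4 := c4.trans d3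
  have d5 : G 1 (q (-θ)) (q θ) (m, m) e < 4 * m - 2 * Z + 4 * (6 * h) + h +
    (2 + 5 * θ) * (Z + h) := by linarith
  have d6 : 4 * m - 3 + 16 / 3 * (6 * h) - h < h + (4 * m - 2 * Z + 4 * (6 * h) + h +
    (2 + 5 * θ) * (Z + h)) := by linarith
  linarith

theorem touch (hS : S_SLAB) (hGM : S_GM) : S_TOUCH := by
  intro ε hε
  refine ⟨400 + (6 / ε) ^ 2, 1 / 1000, by positivity, by norm_num,
    fun θ h0 h1 c x y hx hxy hyc hC => ?_⟩
  have hθ : |θ| < 1 / 2 := by rw [abs_of_pos h0]; linarith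
  obtain ⟨Ψ, mΨ, a1, -, a3⟩ := hS θ hθ c x y hx hxy hyc
  set m := y - x + 1 with hm
  have hmr : (y : ℝ) - x + 1 = m := by rw [hm]; push_cast; ring
  rw [hmr] at hC
  set κ := θ ^ 3 * (m : ℝ) with hκ
  set ρ := Real.sqrt κ with hρ
  have h6 : 0 ≤ (6 / ε) ^ 2 := by positivity
  have hρκ : ρ ^ 2 = κ := Real.sq_sqrt (by linarith)
  have hρ0 : 0 ≤ ρ := Real.sqrt_nonneg _
  have hρ20 : 20 ≤ ρ := by
    refine Real.le_sqrt_of_sq_le ?_
    linarith
  have hρε : 6 / ε ≤ ρ := Real.le_sqrt_of_sq_le (by linarith)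
  set Z := ⌈ρ / θ ^ 2⌉₊ with hZ
  have hθ2 : 0 < θ ^ 2 := by positivity
  have z1 : ρ ≤ θ ^ 2 * Z := by
    have := Nat.le_ceil (ρ / θ ^ 2)
    rwa [div_le_iff₀' hθ2] at this
  have z2 : θ ^ 2 * Z ≤ ρ + θ ^ 2 := by
    have := (Nat.ceil_lt_add_one (a := ρ / θ ^ 2) (by positivity)).le
    calc θ ^ 2 * Z ≤ θ ^ 2 * (ρ / θ ^ 2 + 1) := mul_le_mul_of_nonneg_left this hθ2.le
      _ = _ := by field_simp
  have z3 : 1 ≤ Z := Nat.ceil_pos.2 (by positivity)
  have hθ1 : θ ^ 2 ≤ 1 := by nlinarith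
  have z4 : (Z : ℤ) ≤ m := by
    have : (Z : ℝ) ≤ m := by
      refine le_of_mul_le_mul_left ?_ (show 0 < θ ^ 3 by positivity)
      have b1 : θ ^ 3 * Z = θ * (θ ^ 2 * Z) := by ring
      have b2 : θ * (θ ^ 2 * Z) ≤ 1 / 1000 * (ρ + 1) :=
        mul_le_mul h1 (by linarith) (by positivity) (by norm_num)
      rw [b1, ← hκ, ← hρκ]
      nlinarith
    exact_mod_cast this
  have p1 := touch_E1 h0 (by linarith) (by omega) hyc Z
  have p2 := touch_E2 h0 (by linarith) (by omega) hyc Z (by omega)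
  have p3 := (real_preimage_le mΨ _).trans
    (touch_E3 hGM h0 h1 hκ.symm hρ20 hρκ (by linarith) z3 z4)
  have q1 : Real.exp (-(4 * θ ^ 2 * Z)) ≤ Real.exp (-ρ) := Real.exp_le_exp.2 (by nlinarith)
  have q2 : Real.exp (-(κ / 10)) ≤ Real.exp (-ρ) := Real.exp_le_exp.2 (by nlinarith)
  have q3 : 6 * Real.exp (-ρ) ≤ ε := by
    have b1 := Real.add_one_le_exp ρ
    rw [div_le_iff₀ hε] at hρε
    rw [Real.exp_neg, ← div_eq_mul_inv, div_le_iff₀ (Real.exp_pos _)]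
    nlinarith
  refine le_trans (measureReal_mono (s₂ := (_ ∪ _) ∪ _) ?_)
    ((measureReal_union_le _ _).trans ((add_le_add ((measureReal_union_le _ _).trans
      (add_le_add p1 p2)) p3).trans (by linarith)))
  intro e he
  have hq1 := (q_pos (x := -θ) (by linarith)).le
  have hq2 := (q_pos (x := -θ / 2) (by linarith)).le
  have hq3 : q (-θ / 2) ≤ q θ := q_mono (by linarith) (by linarith)
  rcases touch_det (Z := Z) hq1 hq2 hq3 hx hxy hyc (by omega) e he with h | h | h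
  · exact Or.inl (Or.inl h)
  · exact Or.inl (Or.inr h)
  · refine Or.inr ?_
    rw [touch_restart (s := q θ) (s' := q θ) hx hxy hyc (fun _ _ => rfl) (fun _ _ _ => rfl)
        (a1 e) (a3 e) (by omega) z4,
      touch_restart (s := q θ) (s' := q (-θ / 2)) hx hxy hyc
        (fun j hj => if_neg (by omega)) (fun j b1 b2 => if_pos ⟨b1, b2⟩)
        (a1 e) (a3 e) (by omega) z4] at h
    simp only [Set.mem_preimage, Set.mem_ofPred_eq]
    linarith

end Pool.Agent.P.MP_9957ef_pr
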