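import Pool.Agent.P.MP_9957ef_pr.Iface
import Pool.Agent.P.MP_9957ef_pr.Det
import Pool.Agent.P.MP_9957ef_pr.Prob
import Pool.Agent.P.MP_9957ef_pr.Burke

/-! Upper tails of the best touching path and of increments of wall to wall passage times. -/

set_option autoImplicit false

noncomputable section

open MeasureTheory ProbabilityTheory Finset

namespace Pool.Agent.P.MP_9957ef_pr

/-- the gain from the boosted first row -/
def utincD (m : ℤ) (r s : ℝ) (e : Env) : ℝ := G 1 r s (m, m) e - T s 1 m e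

lemma utinc_DT {m x y : ℤ} (r s : ℝ) (e : Env) (hx : 1 ≤ x) (hy : y ≤ m) :
    L 0 (wt (cD (m + 1) r (fun _ => s)) e) (x, x) (y, y) = T s x y e := by
  unfold T
  refine L_congr ?_
  rintro ⟨i, j⟩ h1 h2
  simp only [Adm] at h1 h2
  simp only [wt, cD, cT, Prod.mk.injEq]
  rw [if_neg (by omega), if_neg (by omega)]

lemma utinc_DS {m : ℤ} (r s : ℝ) (e : Env) :
    L 0 (wt (cD (m + 1) r (fun _ => s)) e) (1, 0) (m, m) = G 1 r s (m, m) e := by
  unfold G
  refine L_congr ?_
  rintro ⟨i, j⟩ h1 h2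
  simp only [Adm] at h1 h2
  simp only [wt, cD, cS, Prod.mk.injEq]
  congr 1
  split_ifs <;> first | rfl | omega

lemma utinc_DS' {m : ℤ} (r s : ℝ) (e : Env) :
    L 0 (wt (cD (m + 1) r (fun _ => s)) e) (1, 1) (m + 1, m) =
      G 1 r s (m, m) (fun z => e (mir (m + 1) z)) := by
  rw [L_mirror _ (m + 1)]
  have e1 : mir (m + 1) (m + 1, m) = (1, 0) := by simp [mir]
  have e2 : mir (m + 1) (1, 1) = (m, m) := by simp [mir]
  rw [e1, e2]
  unfold G
  refine L_congr ?_
  rintro ⟨i, j⟩ h1 h2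
  simp only [Adm] at h1 h2
  have e3 : mir (m + 1) (i, j) = (m + 1 - j, m + 1 - i) := rfl
  simp only [wt]
  congr 1
  rw [e3]
  simp only [cD, cS, Prod.mk.injEq]
  split_ifs <;> first | rfl | omega

lemma utinc_U_le {m : ℤ} (hm : 1 ≤ m) (r s : ℝ) (e : Env) :
    U m r s e ≤ T s 1 m e + utincD m r s e + utincD m r s (fun z => e (mir (m + 1) z)) := by
  obtain ⟨j, h1, h2, hU⟩ := exists_U hm r s e
  set W := wt (cD (m + 1) r (fun _ => s)) e with hW
  have a1 := L_rec_left (k := 0) (a := (1, 0)) W (j := j) (by simp) (by simp only; omega)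
  have hmax : max (1 : ℤ) (j + 0) = j := by omega
  simp only [hmax] at a1
  have a2 := wall_incr (a := (1, 0)) (x := 1) (y := j) (y' := m) W (by simp [Adm]) h1 h2
  have a3 := wall_incr' (b := (m + 1, m)) (x := j) (x' := 1) (y := m) W (by simp [Adm]) h2 h1
  have a4 := L_concat (k := 0) (a := (1, 1)) (b := (j, j)) (c := (m, m)) W
    (by simp [Adm, h1]) (by simp [Adm, h2])
  have b1 : L 0 W (1, 1) (m, m) = T s 1 m e := utinc_DT r s e le_rfl le_rfl
  have b2 : L 0 W (1, 0) (m, m) = G 1 r s (m, m) e := utinc_DS r s e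
  have b3 : L 0 W (1, 1) (m + 1, m) = _ := utinc_DS' r s e
  have b4 := T_mirror s 1 m (m + 1) e
  have c1 : m + 1 - m = 1 := by ring
  have c2 : m + 1 - 1 = m := by ring
  rw [c1, c2] at b4
  unfold utincD
  linarith

lemma utinc_tail_D (hGM : S_GM) {x y ν : ℝ} (hx : |x| < 1 / 2) (hy : |y| < 1 / 2) (hν : 0 < ν)
    (hxy : 1 / ν ≤ x + y) {m : ℤ} (hm : 1 ≤ m) : Tail (utincD m (q (-y)) (q x)) ν 1 := by
  intro t ht
  have h0 : 0 < 1 / ν := by positivity
  have := hGM x y hx hy (by linarith) m hm (t * ν)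
  refine this.trans ?_
  rw [one_mul]
  apply Real.exp_le_exp.2
  have h1 : 1 / ν * (t * ν) = t := by field_simp
  have h2 : 1 / ν * (t * ν) ≤ (x + y) * (t * ν) :=
    mul_le_mul_of_nonneg_right hxy (by positivity)
  linarith

theorem ut (hGM : S_GM) (hTT : S_TT) : S_UT := by
  obtain ⟨A, B, ν0, hA, hB, hν0, H⟩ := hTT 2 two_pos
  refine ⟨A + 2, B + 2, max ν0 8, by linarith, by linarith, le_max_of_le_left hν0, ?_⟩
  intro ν hν θ h0 h1 m hm hm'
  have hν1 : ν0 ≤ ν := le_trans (le_max_left _ _) hν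
  have hν8 : 8 ≤ ν := le_trans (le_max_right _ _) hν
  have hνp : 0 < ν := by linarith
  have hi : 0 < 1 / ν := by positivity
  have hi8 : 1 / ν ≤ 1 / 8 := one_div_le_one_div_of_le (by norm_num) hν8
  have hx : |θ + 1 / ν| < 1 / 2 := by rw [abs_lt]; constructor <;> linarith
  have hy : |θ| < 1 / 2 := by rw [abs_lt]; constructor <;> linarith
  have hx2 : |θ + 1 / ν| ≤ 2 / ν := by
    have : 2 / ν = 1 / ν + 1 / ν := by ring
    rw [abs_le]; constructor <;> linarith
  have h3 : 0 ≤ ν ^ 3 := by positivity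
  have t1 := (H ν hν1 _ hx2 1 m hm (by push_cast; linarith)).1
  have t2 := utinc_tail_D hGM hx hy hνp (by linarith) hm
  have t3 := t2.comp (mp_reindex (mir_injective (m + 1)))
  have t4 := (t1.add t2).add t3
  refine (t4.mono ?_).weaken (le_of_eq (by ring)) (le_of_eq (by ring))
  intro e
  have := utinc_U_le hm (q (-θ)) (q (θ + 1 / ν)) e
  push_cast
  linarith

lemma utinc_ST {x y : ℤ} (r s : ℝ) (e : Env) (hx : 1 ≤ x) :
    L 0 (wt (cS 1 r s) e) (x, x) (y, y) = T s x y e := by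
  unfold T
  refine L_congr ?_
  rintro ⟨i, j⟩ h1 h2
  simp only [Adm] at h1 h2
  simp only [wt, cS, cT]
  congr 1
  split_ifs <;> first | rfl | omega

/-- relabelling of the sites seen from the row `b` -/
def utincSig (b : ℤ) (z : Site) : Site := (z.1 + b, Equiv.swap 0 b (z.2 + b))

lemma utincSig_inj (b : ℤ) : Function.Injective (utincSig b) := by
  rintro ⟨i, j⟩ ⟨i', j'⟩ h
  simp only [utincSig, Prod.mk.injEq, EmbeddingLike.apply_eq_iff_eq] at h ⊢
  omega

lemma utincSig_zero (b i : ℤ) : utincSig b (i, 0) = (i + b, 0) := by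
  simp [utincSig]

lemma utincSig_pos {b i j : ℤ} (hb : 0 ≤ b) (hj : 0 < j) : utincSig b (i, j) = (i + b, j + b) := by
  simp only [utincSig]
  rw [Equiv.swap_apply_of_ne_of_ne (by omega) (by omega)]

lemma utinc_core {x : ℝ} (hx : |x| < 1 / 2) {b b' : ℤ} (hb : 1 ≤ b) (hbb : b < b') :
    ∃ Ψ : Env → Env, MeasurePreserving Ψ mu mu ∧ ∀ (e : Env) (a : ℤ), 1 ≤ a → a ≤ b →
      T (q x) a b' e - T (q x) a b e ≤
        q (-x) * |Ψ e (1, 0)| + G 1 (q (-x)) (q x) (b' - b, b' - b) (Ψ e) := by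
  obtain ⟨Φ, hΦ, ho, hr, -⟩ := burke hx (X := 1) (r := b) (c := b') zero_le_one (by omega)
    (by omega)
  refine ⟨fun e z => Φ e (utincSig b z), (mp_reindex (utincSig_inj b)).comp hΦ, ?_⟩
  intro e a ha hab
  set W := wt (cS 1 (q (-x)) (q x)) e with hW
  set et : Env := fun z => Φ e (utincSig b z) with het
  have a1 := wall_incr (a := (1, 0)) (x := a) (y := b) (y' := b') W
    (by simp only [Adm]; omega) hab hbb.le
  have a2 : L 0 W (a, a) (b', b') = T (q x) a b' e := utinc_ST _ _ e ha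
  have a3 : L 0 W (a, a) (b, b) = T (q x) a b e := utinc_ST _ _ e ha
  have a4 := restart (k := 0) (a := (1, 0)) (u := (b', b')) (W := W)
    (W' := fun z => wt (cS 1 (q (-x)) (q x)) et (z - (b, b))) (r := b) (l := b + 1)
    (by simp) (by simp only; omega) (by simp only; omega) (by simp only; omega)
    (by simp only [Adm]; omega) (by simp [wt, cS])
    (by
      intro i h1 h2
      have := hr e i (by omega) h2
      simp only [G] at this
      rw [← hW] at this
      rw [← this]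
      simp only [wt, cS, Prod.mk_sub_mk, sub_self, if_true, het, utincSig_zero, sub_add_cancel]
      rw [if_neg (by omega)])
    (by
      rintro ⟨i, j⟩ h1 h2 h3
      simp only [Adm] at h1 h2 h3
      simp only [hW, wt, Prod.mk_sub_mk, het]
      rw [utincSig_pos (by omega) (by omega), sub_add_cancel, sub_add_cancel,
        ho e (i, j) (by simp only; omega)]
      congr 1
      simp only [cS]
      split_ifs <;> first | rfl | omega)
  have a5 := hr e (b + 1) (by omega) (by omega)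
  simp only [G] at a5
  rw [← hW, add_sub_cancel_right] at a5
  have a6 := L_shift (k := 0) (a := (1, 0)) (b := (b' - b, b' - b))
    (fun z => wt (cS 1 (q (-x)) (q x)) et (z - (b, b))) (b, b)
  simp only [Prod.mk_add_mk, sub_add_cancel, zero_add, add_sub_cancel_right, zero_sub,
    neg_add_cancel, add_comm 1 b] at a6
  have a7 : et (1, 0) = Φ e (b + 1, 0) := by
    simp only [het, utincSig_zero, add_comm 1 b]
  show _ ≤ q (-x) * |et (1, 0)| + G 1 (q (-x)) (q x) (b' - b, b' - b) et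
  rw [a7]
  unfold G
  linarith

lemma utinc_core1 {x : ℝ} (hx : |x| < 1 / 2) {a0 b b' : ℤ} (hb : a0 ≤ b) (hbb : b < b') :
    ∃ Ψ : Env → Env, MeasurePreserving Ψ mu mu ∧ ∀ (e : Env) (a : ℤ), a0 ≤ a → a ≤ b →
      T (q x) a b' e - T (q x) a b e ≤
        q (-x) * |Ψ e (1, 0)| + G 1 (q (-x)) (q x) (b' - b, b' - b) (Ψ e) := by
  obtain ⟨Ψ, hΨ, H⟩ := utinc_core hx (b := b - (a0 - 1)) (b' := b' - (a0 - 1)) (by omega)
    (by omega)
  refine ⟨fun e => Ψ (fun z => e (z + (a0 - 1, a0 - 1))),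
    hΨ.comp (mp_reindex (add_left_injective _)), ?_⟩
  intro e a h1 h2
  have := H (fun z => e (z + (a0 - 1, a0 - 1))) (a - (a0 - 1)) (by omega) (by omega)
  rw [← T_shift, ← T_shift, sub_add_cancel, sub_add_cancel, sub_add_cancel,
    sub_sub_sub_cancel_right] at this
  exact this

lemma utinc_core2 {x : ℝ} (hx : |x| < 1 / 2) {a' a b0 : ℤ} (hb : a ≤ b0) (haa : a' < a) :
    ∃ Ψ : Env → Env, MeasurePreserving Ψ mu mu ∧ ∀ (e : Env) (b : ℤ), a ≤ b → b ≤ b0 →
      T (q x) a' b e - T (q x) a b e ≤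
        q (-x) * |Ψ e (1, 0)| + G 1 (q (-x)) (q x) (a - a', a - a') (Ψ e) := by
  obtain ⟨Ψ, hΨ, H⟩ := utinc_core1 hx (a0 := 0 - b0) (b := 0 - a) (b' := 0 - a') (by omega)
    (by omega)
  refine ⟨fun e => Ψ (fun z => e (mir 0 z)), hΨ.comp (mp_reindex (mir_injective 0)), ?_⟩
  intro e b h1 h2
  have := H (fun z => e (mir 0 z)) (0 - b) (by omega) (by omega)
  rw [← T_mirror, ← T_mirror, show 0 - a' - (0 - a) = a - a' by ring] at this
  exact this

lemma utinc_G_mono (r : ℝ) {s s' : ℝ} (hs : s ≤ s') (u : Site) (e : Env) :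
    G 1 r s u e ≤ G 1 r s' u e := by
  unfold G
  refine L_mono ?_
  intro z _ _
  simp only [wt, cS]
  refine mul_le_mul_of_nonneg_right ?_ (abs_nonneg _)
  split_ifs <;> first | exact le_rfl | exact hs

lemma utinc_tail (hGM : S_GM) (hTT : S_TT) {C0 : ℝ} (hC : 0 < C0) :
    ∃ A B ν0 : ℝ, 0 < A ∧ 1 ≤ B ∧ 1 ≤ ν0 ∧ ∀ ν : ℝ, ν0 ≤ ν → ∀ x : ℝ, |x| ≤ C0 / ν →
      |x| < 1 / 2 ∧ ∀ n : ℤ, 1 ≤ n → (n : ℝ) ≤ C0 * ν ^ 3 →
      Tail (fun e => q (-x) * |e (1, 0)| + G 1 (q (-x)) (q x) (n, n) e - 4 * (n : ℝ))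
        (A * ν) B := by
  obtain ⟨A, B, ν0, hA, hB, hν0, H⟩ := hTT (C0 + 1) (by linarith)
  refine ⟨A + 2, B + 2, max ν0 (8 * (C0 + 1)), by linarith, by linarith,
    le_max_of_le_left hν0, ?_⟩
  intro ν hν x hx
  have hν1 : ν0 ≤ ν := le_trans (le_max_left _ _) hν
  have hν8 : 8 * (C0 + 1) ≤ ν := le_trans (le_max_right _ _) hν
  have hνp : 0 < ν := by linarith
  have hi : 0 < 1 / ν := by positivity
  have hc : 0 < C0 / ν := by positivity
  have hs : (C0 + 1) / ν = C0 / ν + 1 / ν := by ring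
  have h8 : (C0 + 1) / ν ≤ 1 / 8 := by
    rw [div_le_iff₀ hνp]; linarith
  obtain ⟨hx1, hx2⟩ := abs_le.1 hx
  have hx' : |x| < 1 / 2 := by rw [abs_lt]; constructor <;> linarith
  have hy' : |(C0 + 1) / ν| < 1 / 2 := by rw [abs_lt]; constructor <;> linarith
  refine ⟨hx', ?_⟩
  intro n hn hn'
  have h3 : 0 ≤ ν ^ 3 := by positivity
  have t1 := (H ν hν1 ((C0 + 1) / ν) (by rw [abs_le]; constructor <;> linarith) 1 n hn
    (by push_cast; linarith)).1
  have t2 := utinc_tail_D hGM hy' hx' hνp (by linarith) hn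
  have hq : q (-x) ≤ ν := by
    have h4 : q (-x) ≤ q (1 / 4) := q_mono (by linarith) (by norm_num)
    have h5 : q (1 / 4) = 4 := by unfold q; norm_num
    linarith
  have t3 : Tail (fun e => q (-x) * |e (1, 0)|) ν 1 := by
    intro t ht
    rw [one_mul]
    refine le_trans (measureReal_mono ?_) (real_coord_ge (1, 0) ht)
    intro e he
    simp only [Set.mem_ofPred_eq] at he ⊢
    have h6 : q (-x) * |e (1, 0)| ≤ ν * |e (1, 0)| :=
      mul_le_mul_of_nonneg_right hq (abs_nonneg _)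
    by_contra hlt
    have h7 : |e (1, 0)| * ν < t * ν := mul_lt_mul_of_pos_right (not_le.1 hlt) hνp
    linarith
  have t4 := (t1.add t2).add t3
  refine (t4.mono ?_).weaken (le_of_eq (by ring)) (le_of_eq (by ring))
  intro e
  have := utinc_G_mono (q (-x)) (q_mono (x := x) (y := (C0 + 1) / ν) (by linarith) (by linarith))
    (n, n) e
  unfold utincD
  push_cast
  linarith

lemma utinc_triv {S : Set Env} {t K B : ℝ} (ht : 0 ≤ t) (hK : 0 < K) (hB : 1 ≤ B)
    (h : ∀ e ∈ S, t * K ≤ 0) : mu.real S ≤ B * Real.exp (-t) := by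
  rcases ht.eq_or_lt with rfl | ht
  · rw [neg_zero, Real.exp_zero, mul_one]
    exact measureReal_le_one.trans hB
  · have : S = ∅ := by
      refine Set.eq_empty_of_forall_notMem ?_
      intro e he
      have := h e he
      have := mul_pos ht hK
      linarith
    rw [this, measureReal_empty]
    positivity

theorem inc (hGM : S_GM) (hTT : S_TT) : S_INC := by
  intro C0 hC
  obtain ⟨A, B, ν0, hA, hB, hν0, H⟩ := utinc_tail hGM hTT hC
  refine ⟨A, B, ν0, hA, hB, hν0, ?_⟩
  intro ν hν x hx t ht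
  obtain ⟨hx', H⟩ := H ν hν x hx
  have hK : 0 < A * ν := mul_pos hA (by linarith)
  constructor
  · intro a0 b b' h1 h2 h3
    rcases h2.eq_or_lt with rfl | h2
    · refine utinc_triv ht hK hB ?_
      rintro e ⟨a, -, -, h⟩
      linarith
    · obtain ⟨Ψ, hΨ, HΨ⟩ := utinc_core1 hx' h1 h2
      have := (H (b' - b) (by omega) (by push_cast; exact h3)).comp hΨ t ht
      refine le_trans (measureReal_mono ?_) this
      rintro e ⟨a, ha1, ha2, h⟩
      have := HΨ e a ha1 ha2
      simp only [Set.mem_ofPred_eq]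
      push_cast
      linarith
  · intro a' a b0 h1 h2 h3
    rcases h1.eq_or_lt with rfl | h1
    · refine utinc_triv ht hK hB ?_
      rintro e ⟨b, -, -, h⟩
      linarith
    · obtain ⟨Ψ, hΨ, HΨ⟩ := utinc_core2 hx' h2 h1
      have := (H (a - a') (by omega) (by push_cast; exact h3)).comp hΨ t ht
      refine le_trans (measureReal_mono ?_) this
      rintro e ⟨b, hb1, hb2, h⟩
      have := HΨ e b hb1 hb2
      simp only [Set.mem_ofPred_eq]
      push_cast
      linarith

end Pool.Agent.P.MP_9957ef_pr
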