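import Pool.Agent.P.MP_9957ef_pr.Iface
import Pool.Agent.P.MP_9957ef_pr.Exp1

/-! Small overlap gives small conditional variance. -/

set_option autoImplicit false

noncomputable section

open MeasureTheory ProbabilityTheory Finset

namespace Pool.Agent.P.MP_9957ef_pr

lemma var_key {ι : Type*} [DecidableEq ι] (R0 : Finset ι) (p : ℝ) {i : ι} (hi : i ∈ R0)
    (ψ : Finset ι → ℝ) :
    p * ∑ R ∈ R0.powerset, p ^ R.card * (1 - p) ^ (R0.card - R.card) *
        (if i ∈ R then 0 else ψ (insert i R)) =
      (1 - p) * ∑ R ∈ R0.powerset, p ^ R.card * (1 - p) ^ (R0.card - R.card) *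
        (if i ∈ R then ψ R else 0) := by
  obtain ⟨S, hS, rfl⟩ : ∃ S : Finset ι, i ∉ S ∧ R0 = insert i S :=
    ⟨R0.erase i, notMem_erase _ _, (insert_erase hi).symm⟩
  rw [sum_powerset_insert hS, sum_powerset_insert hS, card_insert_of_notMem hS]
  simp only [mem_insert_self, if_true, mul_zero, sum_const_zero, add_zero]
  have h0 : ∑ R ∈ S.powerset, p ^ R.card * (1 - p) ^ (S.card + 1 - R.card) *
      (if i ∈ R then ψ R else 0) = 0 := by
    refine sum_eq_zero fun R hR => ?_
    rw [if_neg fun h => hS (mem_powerset.1 hR h), mul_zero]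
  rw [h0, zero_add, mul_sum, mul_sum]
  refine sum_congr rfl fun R hR => ?_
  have hiR : i ∉ R := fun h => hS (mem_powerset.1 hR h)
  have hc : R.card ≤ S.card := card_le_card (mem_powerset.1 hR)
  rw [if_neg hiR, card_insert_of_notMem hiR, Nat.add_sub_add_right,
    show S.card + 1 - R.card = (S.card - R.card) + 1 by omega]
  ring

lemma var_avg {ι : Type*} [DecidableEq ι] (R0 : Finset ι) {p : ℝ} (hp : 0 < p) (hp1 : p ≤ 1)
    {V α β γ H : ℝ} (d : ι → ℝ) (a : ι → Finset ι → ℝ) (hγ : 0 ≤ γ) (hH0 : 0 ≤ H)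
    (hV : ∀ R ⊆ R0, V ≤ α * ∑ i ∈ R, d i + β + γ * ∑ i ∈ R0 \ R, a i (insert i R))
    (hH : ∀ R ⊆ R0, ∑ i ∈ R, a i R ≤ H) :
    V ≤ α * p * ∑ i ∈ R0, d i + β + γ / p * H := by
  set w : Finset ι → ℝ := fun R => p ^ R.card * (1 - p) ^ (R0.card - R.card) with hw
  have hw0 : ∀ R, 0 ≤ w R := fun R =>
    mul_nonneg (pow_nonneg hp.le _) (pow_nonneg (sub_nonneg.2 hp1) _)
  have hw1 : ∑ R ∈ R0.powerset, w R = 1 := by
    simp only [hw]
    rw [sum_pow_mul_eq_add_pow]
    simp
  have h1 : ∀ i ∈ R0, ∑ R ∈ R0.powerset, w R * (if i ∈ R then d i else 0) = p * d i := by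
    intro i hi
    have k := var_key R0 p hi (fun _ => d i)
    have k2 : ∑ R ∈ R0.powerset, w R * (if i ∈ R then 0 else d i) +
        ∑ R ∈ R0.powerset, w R * (if i ∈ R then d i else 0) = d i := by
      rw [← sum_add_distrib]
      have : ∀ R ∈ R0.powerset, w R * (if i ∈ R then 0 else d i) +
          w R * (if i ∈ R then d i else 0) = w R * d i := by
        intro R _
        split_ifs <;> ring
      rw [sum_congr rfl this, ← sum_mul, hw1, one_mul]
    simp only [hw] at k2 ⊢
    linear_combination p * k2 - k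
  have h2 : ∑ R ∈ R0.powerset, w R * ∑ i ∈ R, d i = p * ∑ i ∈ R0, d i := by
    rw [mul_sum, ← sum_congr rfl h1, sum_comm]
    refine sum_congr rfl fun R hR => ?_
    rw [← mul_sum, ← sum_filter, filter_mem_eq_inter, inter_eq_right.2 (mem_powerset.1 hR)]
  have h3 : p * ∑ R ∈ R0.powerset, w R * ∑ i ∈ R0 \ R, a i (insert i R) =
      (1 - p) * ∑ R ∈ R0.powerset, w R * ∑ i ∈ R, a i R := by
    have e1 : ∑ R ∈ R0.powerset, w R * ∑ i ∈ R0 \ R, a i (insert i R) =
        ∑ i ∈ R0, ∑ R ∈ R0.powerset, w R * (if i ∈ R then 0 else a i (insert i R)) := by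
      rw [sum_comm]
      refine sum_congr rfl fun R _ => ?_
      rw [← mul_sum, sdiff_eq_filter, sum_filter]
      congr 1
      refine sum_congr rfl fun i _ => ?_
      split_ifs <;> rfl
    have e2 : ∑ R ∈ R0.powerset, w R * ∑ i ∈ R, a i R =
        ∑ i ∈ R0, ∑ R ∈ R0.powerset, w R * (if i ∈ R then a i R else 0) := by
      rw [sum_comm]
      refine sum_congr rfl fun R hR => ?_
      rw [← mul_sum, ← sum_filter, filter_mem_eq_inter, inter_eq_right.2 (mem_powerset.1 hR)]
    rw [e1, e2, mul_sum, mul_sum]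
    exact sum_congr rfl fun i hi => var_key R0 p hi (a i)
  have h4 : ∑ R ∈ R0.powerset, w R * ∑ i ∈ R, a i R ≤ H := by
    calc _ ≤ ∑ R ∈ R0.powerset, w R * H :=
          sum_le_sum fun R hR => mul_le_mul_of_nonneg_left (hH R (mem_powerset.1 hR)) (hw0 R)
      _ = H := by rw [← sum_mul, hw1, one_mul]
  have h5 : ∑ R ∈ R0.powerset, w R * ∑ i ∈ R0 \ R, a i (insert i R) ≤ H / p := by
    rw [le_div_iff₀ hp, mul_comm, h3]
    nlinarith
  calc V = ∑ R ∈ R0.powerset, w R * V := by rw [← sum_mul, hw1, one_mul]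
    _ ≤ ∑ R ∈ R0.powerset, w R *
        (α * ∑ i ∈ R, d i + β + γ * ∑ i ∈ R0 \ R, a i (insert i R)) :=
        sum_le_sum fun R hR => mul_le_mul_of_nonneg_left (hV R (mem_powerset.1 hR)) (hw0 R)
    _ = α * ∑ R ∈ R0.powerset, w R * ∑ i ∈ R, d i + β * ∑ R ∈ R0.powerset, w R +
        γ * ∑ R ∈ R0.powerset, w R * ∑ i ∈ R0 \ R, a i (insert i R) := by
        rw [mul_sum, mul_sum, mul_sum, ← sum_add_distrib, ← sum_add_distrib]
        exact sum_congr rfl fun R _ => by ring
    _ ≤ _ := by
        rw [h2, hw1]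
        have := mul_le_mul_of_nonneg_left h5 hγ
        have e : γ / p * H = γ * (H / p) := by ring
        rw [e]
        linarith

variable {f : Env → ℝ} {s : ℝ} {i : Site}

lemma var_iV_nonneg (f : Env → ℝ) (i : Site) (e : Env) : 0 ≤ iV f i e := by
  unfold iV
  split_ifs <;> norm_num

lemma var_pg_d (hf : PG f) (i : Site) : PG (fun e => |e i| * iV f i e) :=
  (pg_coord i).abs.mul (hf.iV i)

lemma var_first (h : Hinge s f i) (hs : 0 < s) (hf : PG f) :
    ∫ e, (f e - cE {i} f e) ^ 2 ∂mu ≤ 2 * s ^ 2 * ∫ e, |e i| * iV f i e ∂mu := by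
  refine (integral_var_single h hs hf).trans (mul_le_mul_of_nonneg_left ?_ (by positivity))
  rw [← integral_cE {i} (hf.iV i), ← integral_cE {i} (var_pg_d hf i)]
  exact integral_mono ((hf.iV i).cE _).integrable ((var_pg_d hf i).cE _).integrable
    (hinge_le h hs hf.measurable)

lemma var_pw_update {R : Set Site} (hi : i ∉ R) (e' e : Env) (x : ℝ) :
    pw R e' (Function.update e i x) = Function.update (pw R e' e) i x := by
  funext z
  by_cases hz : z = i
  · subst hz
    rw [prob_pw_not hi, Function.update_self, Function.update_self]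
  · rw [Function.update_of_ne hz]
    by_cases hR : z ∈ R
    · rw [prob_pw_mem hR, prob_pw_mem hR]
    · rw [prob_pw_not hR, prob_pw_not hR, Function.update_of_ne hz]

lemma var_second (h : Hinge s f i) (hs : 0 < s) (hf : PG f) {A : ℝ} (hA : 1 ≤ A)
    {R : Set Site} (hi : i ∉ R) :
    ∫ e, (cE R f e - cE {i} (cE R f) e) ^ 2 ∂mu ≤
      s ^ 2 * (12 / A) * ∫ e, |e i| * iV f i e ∂mu +
        (s * A * Real.exp A) ^ 2 * ∫ e, cE (R ∪ {i}) (iV f i) e ^ 2 ∂mu := by
  have hg : PG (cE R f) := hf.cE R
  have hdep : DependsOn (fun e : Env => cE R f (Function.update e i 0)) ({i} : Set Site)ᶜ := by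
    intro e e' hee
    have : Function.update e i 0 = Function.update e' i 0 := by
      funext z
      by_cases hz : z = i
      · subst hz
        simp
      · rw [Function.update_of_ne hz, Function.update_of_ne hz]
        exact hee z hz
    simp only [this]
  refine (var_le_center hg (hg.update i 0) hdep).trans ?_
  set u : Env → ℝ := fun e => f e - f (Function.update e i 0) with hu
  have hup : PG u := hf.sub (hf.update i 0)
  set k : Env → ℝ := fun e => if A < |e i| then (f e - f (Function.update e i 0)) ^ 2 else 0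
    with hk
  have hkp : PG k := by
    refine (hup.pow 2).of_le ?_ fun e => ?_
    · exact Measurable.ite (measurableSet_lt measurable_const (pg_coord i).abs.measurable)
        (hup.pow 2).measurable measurable_const
    · simp only [hk, hu]
      split_ifs
      · exact (abs_of_nonneg (sq_nonneg _)).le
      · rw [abs_zero]
        exact sq_nonneg _
  have hk0 : ∀ e, 0 ≤ k e := by
    intro e
    simp only [hk]
    split_ifs
    · exact sq_nonneg _
    · exact le_rfl
  have e1 : ∀ e, cE R f e - cE R f (Function.update e i 0) = cE R u e := by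
    intro e
    rw [hu, cE_sub R hf (hf.update i 0)]
    congr 1
    unfold cE
    simp only [var_pw_update hi]
  have hv : PG (cE (R ∪ {i}) (iV f i)) := (hf.iV i).cE _
  have e2 : ∀ e, cE R u e ^ 2 ≤
      cE R k e + (s * A * Real.exp A) ^ 2 * cE (R ∪ {i}) (iV f i) e ^ 2 := by
    intro e
    rcases le_or_gt |e i| A with hc | hc
    · have hc' : ∀ e', |pw R e' e i| ≤ A := fun e' => by rwa [prob_pw_not hi]
      have l0 : 0 ≤ cE R u e :=
        integral_nonneg fun e' => (hinge_small h hs hf.measurable _ (hc' e')).1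
      have l1 : cE R u e ≤ cE R (fun e => s * A * Real.exp A * cE {i} (iV f i) e) e :=
        integral_mono (hup.fiber R e).integrable
          ((((hf.iV i).cE {i}).const_mul _).fiber R e).integrable
          fun e' => (hinge_small h hs hf.measurable _ (hc' e')).2
      rw [cE_const_mul, cE_cE R {i} (hf.iV i)] at l1
      have l2 := pow_le_pow_left₀ l0 l1 2
      have l3 := cE_nonneg R hk0 e
      rw [mul_pow] at l2
      linarith
    · have l1 := sq_cE_le R hup e
      have l2 : cE R (fun e => u e ^ 2) e = cE R k e := by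
        unfold cE
        refine integral_congr_ae (Filter.Eventually.of_forall fun e' => ?_)
        simp only [hk, hu]
        rw [if_pos (by rwa [prob_pw_not hi])]
      have l3 : 0 ≤ (s * A * Real.exp A) ^ 2 * cE (R ∪ {i}) (iV f i) e ^ 2 := by positivity
      linarith
  simp only [e1]
  refine (integral_mono ((hup.cE R).pow 2).integrable
    ((hkp.cE R).add ((hv.pow 2).const_mul _)).integrable e2).trans ?_
  rw [integral_add (hkp.cE R).integrable ((hv.pow 2).const_mul _).integrable, integral_const_mul,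
    integral_cE R hkp, ← integral_cE {i} hkp, ← integral_cE {i} (var_pg_d hf i),
    ← integral_const_mul (s ^ 2 * (12 / A))]
  refine add_le_add_left (integral_mono (hkp.cE _).integrable
    (((var_pg_d hf i).cE _).const_mul _).integrable (hinge_big h hs hf.measurable hA)) _

theorem var : S_VAR := by
  intro η hη
  set p : ℝ := min 1 (η / 64) with hp
  set A : ℝ := max 1 (384 / η) with hA
  have hp0 : 0 < p := lt_min one_pos (by positivity)
  have hA1 : 1 ≤ A := le_max_left _ _
  refine ⟨(4 * A * Real.exp A) ^ 2 / p, by positivity, ?_⟩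
  intro s D H f R0 hs hs4 hf hh hD hH
  set d : Site → ℝ := fun i => ∫ e, |e i| * iV f i e ∂mu with hd
  set a : Site → Finset Site → ℝ := fun i R => ∫ e, cE (R : Set Site) (iV f i) e ^ 2 ∂mu with ha
  have hd0 : ∀ i, 0 ≤ d i := fun i =>
    integral_nonneg fun e => mul_nonneg (abs_nonneg _) (var_iV_nonneg f i e)
  have ha0 : ∀ i R, 0 ≤ a i R := fun i R => integral_nonneg fun e => sq_nonneg _
  rw [integral_finsetSum _ fun i _ => (var_pg_d hf i).integrable] at hD
  have hH' : ∀ R ⊆ R0, ∑ i ∈ R, a i R ≤ H := by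
    intro R hR
    have := hH R hR
    rwa [integral_finsetSum _ fun i _ => (((hf.iV i).cE _).pow 2).integrable] at this
  have hH0 : 0 ≤ H := by simpa using hH' ∅ (empty_subset _)
  have hS0 : 0 ≤ ∑ i ∈ R0, d i := sum_nonneg fun i _ => hd0 i
  have hs2 : s ^ 2 ≤ 16 := by nlinarith
  have main := var_avg R0 hp0 (min_le_left _ _) (V := ∫ e, (f e - cE (R0 : Set Site) f e) ^ 2 ∂mu)
    (α := 32) (β := 192 / A * ∑ i ∈ R0, d i) (γ := (4 * A * Real.exp A) ^ 2) d a
    (by positivity) hH0 ?_ hH'
  · have b1 : 32 * p ≤ η / 2 := by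
      have := min_le_right 1 (η / 64)
      linarith
    have b2 : 192 / A ≤ η / 2 := by
      rw [div_le_iff₀ (by linarith)]
      have := le_max_right 1 (384 / η)
      rw [div_le_iff₀ hη] at this
      linarith
    have b3 := mul_le_mul_of_nonneg_right b1 hS0
    have b4 := mul_le_mul_of_nonneg_right b2 hS0
    have b5 := mul_le_mul_of_nonneg_left hD hη.le
    linarith
  · intro R hR
    rw [var_split (S := (R : Set Site)) (coe_subset.2 hR) hf]
    have c1 : ∫ e, (f e - cE (R : Set Site) f e) ^ 2 ∂mu ≤ 32 * ∑ i ∈ R, d i := by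
      refine (efron_stein R hf).trans ?_
      rw [mul_sum]
      refine sum_le_sum fun i hi => (var_first (hh i (hR hi)) hs hf).trans ?_
      exact mul_le_mul_of_nonneg_right (by linarith) (hd0 i)
    have c2 : ∀ e, cE (R0 : Set Site) f e =
        cE ((R0 \ R : Finset Site) : Set Site) (cE (R : Set Site) f) e := by
      intro e
      rw [cE_cE _ _ hf, ← coe_union, sdiff_union_of_subset hR]
    have c3 : ∫ e, (cE (R : Set Site) f e - cE (R0 : Set Site) f e) ^ 2 ∂mu ≤
        ∑ i ∈ R0 \ R, (192 / A * d i + (4 * A * Real.exp A) ^ 2 * a i (insert i R)) := by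
      simp only [c2]
      refine (efron_stein (R0 \ R) (hf.cE _)).trans (sum_le_sum fun i hi => ?_)
      have hiR : i ∉ (R : Set Site) := fun h' => (mem_sdiff.1 hi).2 (mem_coe.1 h')
      refine (var_second (hh i (mem_sdiff.1 hi).1) hs hf hA1 hiR).trans ?_
      have t1 : s ^ 2 * (12 / A) ≤ 192 / A := by
        have : 0 ≤ 12 / A := by positivity
        have e : 192 / A = 16 * (12 / A) := by ring
        rw [e]
        exact mul_le_mul_of_nonneg_right hs2 this
      have t2 : (s * A * Real.exp A) ^ 2 ≤ (4 * A * Real.exp A) ^ 2 := by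
        refine pow_le_pow_left₀ (by positivity) ?_ 2
        gcongr
      have t3 : ((R : Set Site) ∪ {i}) = ((insert i R : Finset Site) : Set Site) := by
        rw [coe_insert, Set.union_singleton]
      rw [t3]
      exact add_le_add (mul_le_mul_of_nonneg_right t1 (hd0 i))
        (mul_le_mul_of_nonneg_right t2 (ha0 i _))
    rw [sum_add_distrib, ← mul_sum, ← mul_sum] at c3
    have c4 : ∑ i ∈ R0 \ R, d i ≤ ∑ i ∈ R0, d i :=
      sum_le_sum_of_subset_of_nonneg sdiff_subset fun i _ _ => hd0 i
    have c5 := mul_le_mul_of_nonneg_left c4 (show 0 ≤ 192 / A by positivity)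
    linarith

end Pool.Agent.P.MP_9957ef_pr
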