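import Pool.Agent.P.MP_9957ef_pr.Defs

/-! Deterministic facts about paths and last passage times. -/

set_option autoImplicit false

noncomputable section

open MeasureTheory ProbabilityTheory Finset

namespace Pool.Agent.P.MP_9957ef_pr

variable {k : ℤ} {a b c : Site} {m : ℕ} {π : ℕ → Site} {W W' : Site → ℝ}

lemma IsPath.sum_eq (h : IsPath k a b m π) {n : ℕ} (hn : n ≤ m) :
    (π n).1 + (π n).2 = a.1 + a.2 + n := by
  induction n with
  | zero => simp [h.1]
  | succ n ih =>
    have h1 := ih (by omega)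
    rcases h.2.2.1 n (by omega) with h2 | h2 <;> simp [h2] <;> omega

lemma IsPath.mono (h : IsPath k a b m π) {n n' : ℕ} (hn : n ≤ n') (hn' : n' ≤ m) :
    (π n).1 ≤ (π n').1 ∧ (π n).2 ≤ (π n').2 := by
  induction n', hn using Nat.le_induction with
  | base => exact ⟨le_rfl, le_rfl⟩
  | succ n' _ ih =>
    have h1 := ih (by omega)
    rcases h.2.2.1 n' (by omega) with h2 | h2 <;> simp [h2] <;> omega

lemma IsPath.adm (h : IsPath k a b m π) {n : ℕ} (hn : n ≤ m) :
    Adm k a (π n) ∧ Adm k (π n) b := by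
  have h1 := h.mono (Nat.zero_le n) hn
  have h2 := h.mono hn le_rfl
  have h3 := h.2.2.2 0 (Nat.zero_le m)
  have h4 := h.2.2.2 n hn
  have h5 := h.2.2.2 m le_rfl
  rw [h.1] at h1 h3
  rw [h.2.1] at h2 h5
  exact ⟨⟨h1.1, h1.2, h3, h4⟩, ⟨h2.1, h2.2, h4, h5⟩⟩

lemma IsPath.inj (h : IsPath k a b m π) {n n' : ℕ} (hn : n ≤ m) (hn' : n' ≤ m)
    (he : π n = π n') : n = n' := by
  have h1 := h.sum_eq hn
  have h2 := h.sum_eq hn'
  rw [he] at h1
  omega

lemma IsPath.take (h : IsPath k a b m π) {n : ℕ} (hn : n ≤ m) : IsPath k a (π n) n π :=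
  ⟨h.1, rfl, fun i hi => h.2.2.1 i (by omega), fun i hi => h.2.2.2 i (by omega)⟩

lemma IsPath.drop (h : IsPath k a b m π) {n : ℕ} (hn : n ≤ m) :
    IsPath k (π n) b (m - n) (fun i => π (n + i)) :=
  ⟨rfl, by simp [Nat.add_sub_cancel' hn, h.2.1], fun i hi => h.2.2.1 (n + i) (by omega),
    fun i hi => h.2.2.2 (n + i) (by omega)⟩

lemma pval_split (W : Site → ℝ) (π : ℕ → Site) {m n : ℕ} (hn : n ≤ m) :
    pval W m π = pval W n π + pval W (m - n) (fun i => π (n + i)) - W (π n) := by
  obtain ⟨d, rfl⟩ := Nat.exists_eq_add_of_le hn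
  simp only [pval, Nat.add_sub_cancel_left]
  rw [add_assoc, sum_range_add, sum_range_succ (fun i => W (π i)) n]
  ring

lemma pval_split' (W : Site → ℝ) (π : ℕ → Site) {m n : ℕ} (hn : n < m) :
    pval W m π = pval W n π + pval W (m - (n + 1)) (fun i => π (n + 1 + i)) := by
  obtain ⟨d, rfl⟩ := Nat.exists_eq_add_of_le (Nat.succ_le_of_lt hn)
  simp only [pval, Nat.succ_eq_add_one, Nat.add_sub_cancel_left]
  rw [add_assoc (n + 1), sum_range_add]

lemma pval_mono (h : ∀ n ≤ m, W (π n) ≤ W' (π n)) : pval W m π ≤ pval W' m π :=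
  sum_le_sum fun n hn => h n (Nat.lt_succ_iff.1 (mem_range.1 hn))

/-- a path that passes from row `≤ r` to row `> r` does so by a vertical step -/
lemma IsPath.cross_row (h : IsPath k a b m π) {r : ℤ} (h1 : a.2 ≤ r) (h2 : r < b.2) :
    ∃ n < m, (π n).2 = r ∧ π (n + 1) = ((π n).1, r + 1) := by
  classical
  have hex : ∃ n, n ≤ m ∧ r < (π n).2 := ⟨m, le_rfl, by rw [h.2.1]; exact h2⟩
  have h3 := Nat.find_spec hex
  have h0 : Nat.find hex ≠ 0 := fun h0 => by
    rw [h0, h.1] at h3
    omega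
  obtain ⟨n, hn⟩ := Nat.exists_eq_succ_of_ne_zero h0
  have h4 := Nat.find_min hex (m := n) (by omega)
  rw [hn] at h3
  have h5 : n < m := h3.1
  have h6 : (π n).2 ≤ r := by
    by_contra hc
    exact h4 ⟨h5.le, not_le.1 hc⟩
  have h7 := h3.2
  rcases h.2.2.1 n h5 with h8 | h8
  · simp [h8] at h7
    omega
  · have h9 : (π n).2 = r := by
      simp [h8] at h7
      omega
    exact ⟨n, h5, h9, by rw [h8]; ext <;> simp [h9]⟩

lemma IsPath.cross_col (h : IsPath k a b m π) {r : ℤ} (h1 : a.1 ≤ r) (h2 : r < b.1) :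
    ∃ n < m, (π n).1 = r ∧ π (n + 1) = (r + 1, (π n).2) := by
  classical
  have hex : ∃ n, n ≤ m ∧ r < (π n).1 := ⟨m, le_rfl, by rw [h.2.1]; exact h2⟩
  have h3 := Nat.find_spec hex
  have h0 : Nat.find hex ≠ 0 := fun h0 => by
    rw [h0, h.1] at h3
    omega
  obtain ⟨n, hn⟩ := Nat.exists_eq_succ_of_ne_zero h0
  have h4 := Nat.find_min hex (m := n) (by omega)
  rw [hn] at h3
  have h5 : n < m := h3.1
  have h6 : (π n).1 ≤ r := by
    by_contra hc
    exact h4 ⟨h5.le, not_le.1 hc⟩
  have h7 := h3.2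
  rcases h.2.2.1 n h5 with h8 | h8
  · have h9 : (π n).1 = r := by
      simp [h8] at h7
      omega
    exact ⟨n, h5, h9, by rw [h8]; ext <;> simp [h9]⟩
  · simp [h8] at h7
    omega

lemma IsPath.adm_ends (h : IsPath k a b m π) : Adm k a b := by
  have := (h.adm le_rfl).1
  rwa [h.2.1] at this

lemma IsPath.pval_eq (W : Site → ℝ) (h : IsPath k a b m π) :
    pval W m π = ∑ z ∈ (range (m + 1)).image π, W z := by
  rw [sum_image]
  · rfl
  · intro n hn n' hn' he
    exact h.inj (Nat.lt_succ_iff.1 (mem_range.1 hn)) (Nat.lt_succ_iff.1 (mem_range.1 hn')) he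

lemma IsPath.image_subset (h : IsPath k a b m π) {S : Finset Site}
    (hS : ∀ z, Adm k a z → Adm k z b → z ∈ S) : (range (m + 1)).image π ⊆ S := by
  intro z hz
  obtain ⟨n, hn, rfl⟩ := mem_image.1 hz
  have := h.adm (Nat.lt_succ_iff.1 (mem_range.1 hn))
  exact hS _ this.1 this.2

lemma path_mem_box {z : Site} (h1 : Adm k a z) (h2 : Adm k z b) :
    z ∈ Icc a.1 b.1 ×ˢ Icc a.2 b.2 := by
  simp only [mem_product, mem_Icc]
  exact ⟨⟨h1.1, h2.1⟩, h1.2.1, h2.2.1⟩

lemma path_finite (W : Site → ℝ) :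
    {w : ℝ | ∃ (m : ℕ) (π : ℕ → Site), IsPath k a b m π ∧ w = pval W m π}.Finite := by
  refine (((Icc a.1 b.1 ×ˢ Icc a.2 b.2).powerset.image fun S => ∑ z ∈ S, W z).finite_toSet).subset ?_
  rintro w ⟨m, π, h, rfl⟩
  exact mem_coe.2 (mem_image.2 ⟨_, mem_powerset.2 (h.image_subset fun z => path_mem_box),
    (h.pval_eq W).symm⟩)

lemma exists_path (h : Adm k a b) : ∃ (m : ℕ) (π : ℕ → Site), IsPath k a b m π := by
  obtain ⟨h1, h2, h3, h4⟩ := h
  refine ⟨(b.1 - a.1 + (b.2 - a.2)).toNat,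
    fun n => (min (a.1 + n) b.1, max a.2 (a.2 + n - (b.1 - a.1))), ?_, ?_, ?_, ?_⟩
  · ext <;> simp <;> omega
  · ext <;> simp only [] <;> omega
  · intro n _
    by_cases hc : a.1 + n < b.1
    · left
      ext <;> simp only [Prod.fst_add, Prod.snd_add] <;> omega
    · right
      ext <;> simp only [Prod.fst_add, Prod.snd_add] <;> omega
  · intro n hn
    simp only []
    omega

lemma le_L (W : Site → ℝ) (h : IsPath k a b m π) : pval W m π ≤ L k W a b :=
  le_csSup (path_finite W).bddAbove ⟨m, π, h, rfl⟩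

lemma exists_opt (W : Site → ℝ) (h : Adm k a b) :
    ∃ (m : ℕ) (π : ℕ → Site), IsPath k a b m π ∧ L k W a b = pval W m π := by
  obtain ⟨m, π, hp⟩ := exists_path h
  exact Set.Nonempty.csSup_mem (s := {w : ℝ | ∃ (m : ℕ) (π : ℕ → Site), IsPath k a b m π ∧
    w = pval W m π}) ⟨_, m, π, hp, rfl⟩ (path_finite W)

lemma L_of_not_adm (W : Site → ℝ) (h : ¬ Adm k a b) : L k W a b = 0 := by
  have : {w : ℝ | ∃ (m : ℕ) (π : ℕ → Site), IsPath k a b m π ∧ w = pval W m π} = ∅ :=
    Set.eq_empty_of_forall_notMem fun w ⟨_, _, hp, _⟩ => h hp.adm_ends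
  rw [L, this, Real.sSup_empty]

lemma IsPath.split_le (W : Site → ℝ) (h : IsPath k a b m π) {n : ℕ} (hn : n ≤ m) :
    pval W m π ≤ L k W a (π n) + L k W (π n) b - W (π n) := by
  rw [pval_split W π hn]
  have h1 := le_L W (h.take hn)
  have h2 := le_L W (h.drop hn)
  linarith

lemma IsPath.split_le' (W : Site → ℝ) (h : IsPath k a b m π) {n : ℕ} (hn : n < m) :
    pval W m π ≤ L k W a (π n) + L k W (π (n + 1)) b := by
  rw [pval_split' W π hn]
  exact add_le_add (le_L W (h.take hn.le)) (le_L W (h.drop hn))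

lemma L_self (W : Site → ℝ) (h : a.2 + k ≤ a.1) : L k W a a = W a := by
  obtain ⟨m, π, hp, he⟩ := exists_opt W (k := k) (a := a) (b := a) ⟨le_rfl, le_rfl, h, h⟩
  have h1 := hp.sum_eq le_rfl
  rw [hp.2.1] at h1
  obtain rfl : m = 0 := by omega
  simp [he, pval, hp.1]

lemma L_concat (W : Site → ℝ) (h1 : Adm k a b) (h2 : Adm k b c) :
    L k W a b + L k W b c - W b ≤ L k W a c := by
  obtain ⟨m, π, hp, he⟩ := exists_opt W h1
  obtain ⟨m', π', hp', he'⟩ := exists_opt W h2
  have e1 : ∀ i, (if m + i ≤ m then π (m + i) else π' (m + i - m)) = π' i := fun i => by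
    split_ifs with hi
    · obtain rfl : i = 0 := by omega
      rw [add_zero, hp.2.1, hp'.1]
    · rw [Nat.add_sub_cancel_left]
  have hq : IsPath k a c (m + m') fun n => if n ≤ m then π n else π' (n - m) := by
    refine ⟨by simp [hp.1], by simp only [e1, hp'.2.1], fun n hn => ?_, fun n hn => ?_⟩
    · by_cases hc : n < m
      · simp only [if_pos hc.le, if_pos (Nat.succ_le_of_lt hc)]
        exact hp.2.2.1 n hc
      · obtain ⟨i, rfl⟩ := Nat.exists_eq_add_of_le (not_lt.1 hc)
        simp only [add_assoc, e1]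
        exact hp'.2.2.1 i (by omega)
    · by_cases hc : n ≤ m
      · simp only [if_pos hc]
        exact hp.2.2.2 n hc
      · simp only [if_neg hc]
        exact hp'.2.2.2 _ (by omega)
  have h3 := le_L W hq
  rw [pval_split W _ (Nat.le_add_right m m')] at h3
  simp only [e1] at h3
  simp only [Nat.add_sub_cancel_left, le_refl, if_true, hp.2.1] at h3
  have h4 : pval W m (fun n => if n ≤ m then π n else π' (n - m)) = pval W m π :=
    sum_congr rfl fun n hn => by simp only [if_pos (Nat.lt_succ_iff.1 (mem_range.1 hn))]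
  rw [h4] at h3
  rw [he, he']
  exact h3

lemma Adm.trans (h1 : Adm k a b) (h2 : Adm k b c) : Adm k a c :=
  ⟨h1.1.trans h2.1, h1.2.1.trans h2.2.1, h1.2.2.1, h2.2.2.2⟩

lemma L_step (W : Site → ℝ) {b' : Site} (h1 : Adm k a b)
    (hb : b' = b + (1, 0) ∨ b' = b + (0, 1)) (h2 : Adm k b' c) :
    L k W a b + L k W b' c ≤ L k W a c := by
  have hq : IsPath k b b' 1 fun n => if n = 0 then b else b' := by
    refine ⟨by simp, by simp, fun n hn => ?_, fun n _ => ?_⟩
    · obtain rfl : n = 0 := by omega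
      simpa using hb
    · by_cases hc : n = 0
      · simp only [if_pos hc]
        exact h1.2.2.2
      · simp only [if_neg hc]
        exact h2.2.2.1
  have h3 := le_L W hq
  have h4 := L_concat W h1 hq.adm_ends
  have h5 := L_concat W (h1.trans hq.adm_ends) h2
  simp [pval, sum_range_succ] at h3
  linarith

lemma L_last (W : Site → ℝ) (h : Adm k a b) (hne : a.1 + a.2 < b.1 + b.2) :
    ∃ p : Site, (p = (b.1 - 1, b.2) ∨ p = (b.1, b.2 - 1)) ∧ Adm k a p ∧
      L k W a b ≤ L k W a p + W b := by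
  obtain ⟨m, π, hp, he⟩ := exists_opt W h
  have h1 := hp.sum_eq le_rfl
  rw [hp.2.1] at h1
  obtain ⟨n, rfl⟩ := Nat.exists_eq_succ_of_ne_zero (n := m) (by omega)
  have h2 := hp.split_le' W (Nat.lt_succ_self n)
  have h3 : π (n + 1) = b := hp.2.1
  rw [h3, L_self W h.2.2.2] at h2
  refine ⟨π n, ?_, (hp.adm (Nat.le_succ n)).1, he ▸ h2⟩
  rcases hp.2.2.1 n (Nat.lt_succ_self n) with h4 | h4
  · left
    rw [← h3, h4]
    ext <;> simp
  · right
    rw [← h3, h4]
    ext <;> simp

lemma L_ge_left (W : Site → ℝ) {i j : ℤ} (h : Adm k a (i - 1, j)) :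
    L k W a (i - 1, j) + W (i, j) ≤ L k W a (i, j) := by
  have h1 : j + k ≤ i := by
    have := h.2.2.2
    simp only [] at this
    omega
  have h2 := L_step W (b' := (i, j)) (c := (i, j)) h (Or.inl (by ext <;> simp))
    ⟨le_rfl, le_rfl, h1, h1⟩
  rwa [L_self W (a := (i, j)) h1] at h2

lemma L_ge_down (W : Site → ℝ) {i j : ℤ} (h : Adm k a (i, j - 1)) (h1 : j + k ≤ i) :
    L k W a (i, j - 1) + W (i, j) ≤ L k W a (i, j) := by
  have h2 := L_step W (b' := (i, j)) (c := (i, j)) h (Or.inr (by ext <;> simp))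
    ⟨le_rfl, le_rfl, h1, h1⟩
  rwa [L_self W (a := (i, j)) h1] at h2

lemma L_concat1 (W : Site → ℝ) (h1 : Adm k a b) (h2 : Adm k (b.1 + 1, b.2) c) :
    L k W a b + L k W (b.1 + 1, b.2) c ≤ L k W a c :=
  L_step W h1 (Or.inl (by ext <;> simp)) h2

lemma L_concat2 (W : Site → ℝ) (h1 : Adm k a b) (h2 : Adm k (b.1, b.2 + 1) c) :
    L k W a b + L k W (b.1, b.2 + 1) c ≤ L k W a c :=
  L_step W h1 (Or.inr (by ext <;> simp)) h2

/-- recursion on the starting row -/
lemma L_rec_row (W : Site → ℝ) {i : ℤ} (ha : a.2 + k ≤ a.1) (hi : a.1 < i) :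
    L k W a (i, a.2) = L k W a (i - 1, a.2) + W (i, a.2) := by
  refine le_antisymm ?_ (L_ge_left W (by unfold Adm; simp only []; omega))
  obtain ⟨p, hp | hp, h1, h2⟩ := L_last W (k := k) (a := a) (b := (i, a.2))
    (by unfold Adm; simp only []; omega) (by simp only []; omega)
  · rwa [hp] at h2
  · have := h1.2.1
    rw [hp] at this
    simp only [] at this
    omega

/-- recursion on the left boundary -/
lemma L_rec_left (W : Site → ℝ) {j : ℤ} (ha : a.2 + k ≤ a.1) (hj : a.2 < j) :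
    L k W a (max a.1 (j + k), j) =
      L k W a (max a.1 (j + k), j - 1) + W (max a.1 (j + k), j) := by
  refine le_antisymm ?_ (L_ge_down W (by unfold Adm; simp only []; omega) (by omega))
  obtain ⟨p, hp | hp, h1, h2⟩ := L_last W (k := k) (a := a) (b := (max a.1 (j + k), j))
    (by unfold Adm; simp only []; omega) (by simp only []; omega)
  · have h3 := h1.1
    have h4 := h1.2.2.2
    rw [hp] at h3 h4
    simp only [] at h3 h4
    omega
  · rwa [hp] at h2

/-- recursion in the bulk -/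
lemma L_rec_bulk (W : Site → ℝ) {i j : ℤ} (ha : a.2 + k ≤ a.1) (hj : a.2 < j)
    (hi : max a.1 (j + k) < i) :
    L k W a (i, j) = max (L k W a (i - 1, j)) (L k W a (i, j - 1)) + W (i, j) := by
  have h3 := L_ge_left W (k := k) (a := a) (i := i) (j := j) (by unfold Adm; simp only []; omega)
  have h4 := L_ge_down W (k := k) (a := a) (i := i) (j := j) (by unfold Adm; simp only []; omega)
    (by omega)
  refine le_antisymm ?_ (by rw [← max_add_add_right]; exact max_le h3 h4)
  obtain ⟨p, hp | hp, -, h2⟩ := L_last W (k := k) (a := a) (b := (i, j))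
    (by unfold Adm; simp only []; omega) (by simp only []; omega)
  · rw [hp] at h2
    exact h2.trans (add_le_add_left (le_max_left _ _) _)
  · rw [hp] at h2
    exact h2.trans (add_le_add_left (le_max_right _ _) _)

lemma L_mono (h : ∀ z, Adm k a z → Adm k z b → W z ≤ W' z) : L k W a b ≤ L k W' a b := by
  by_cases hab : Adm k a b
  · obtain ⟨m, π, hp, he⟩ := exists_opt W hab
    rw [he]
    exact (pval_mono fun n hn => h _ (hp.adm hn).1 (hp.adm hn).2).trans (le_L W' hp)
  · rw [L_of_not_adm W hab, L_of_not_adm W' hab]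

lemma L_congr (h : ∀ z, Adm k a z → Adm k z b → W z = W' z) : L k W a b = L k W' a b :=
  le_antisymm (L_mono fun z h1 h2 => (h z h1 h2).le) (L_mono fun z h1 h2 => (h z h1 h2).ge)

lemma L_nonneg (h : ∀ z, 0 ≤ W z) : 0 ≤ L k W a b := by
  by_cases hab : Adm k a b
  · obtain ⟨m, π, -, he⟩ := exists_opt W hab
    rw [he]
    exact sum_nonneg fun n _ => h _
  · rw [L_of_not_adm W hab]

lemma L_region (W : Site → ℝ) {k' : ℤ} (hk : k ≤ k') (h : Adm k' a b) :
    L k' W a b ≤ L k W a b := by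
  obtain ⟨m, π, hp, he⟩ := exists_opt W h
  rw [he]
  exact le_L W ⟨hp.1, hp.2.1, hp.2.2.1, fun n hn => by have := hp.2.2.2 n hn; omega⟩

/-- shrinking the pair of endpoints lowers the passage time when the weights are nonnegative -/
lemma L_inner {a' b' : Site} (hW : ∀ z, 0 ≤ W z) (h1 : Adm k a a') (h2 : Adm k a' b')
    (h3 : Adm k b' b) : L k W a' b' ≤ L k W a b := by
  have key : ∀ {u v : Site}, Adm k u v → W u ≤ L k W u v ∧ W v ≤ L k W u v := fun {u v} huv => by
    obtain ⟨m, π, hp, he⟩ := exists_opt W huv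
    rw [he]
    constructor
    · rw [← hp.1]
      exact single_le_sum (f := fun n => W (π n)) (fun n _ => hW _) (mem_range.2 (Nat.succ_pos m))
    · rw [← hp.2.1]
      exact single_le_sum (f := fun n => W (π n)) (fun n _ => hW _)
        (mem_range.2 (Nat.lt_succ_self m))
  have h4 := L_concat W h1 h2
  have h5 := L_concat W (h1.trans h2) h3
  have h6 := (key h1).2
  have h7 := (key h3).1
  linarith

lemma L_shift (W : Site → ℝ) (v : Site) :
    L k W (a + v) (b + v) = L (k - v.1 + v.2) (fun z => W (z + v)) a b := by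
  unfold L
  congr 1
  ext w
  constructor
  · rintro ⟨m, π, hp, rfl⟩
    refine ⟨m, fun n => π n - v, ⟨by simp [hp.1], by simp [hp.2.1], fun n hn => ?_,
      fun n hn => ?_⟩, by simp [pval]⟩
    · rcases hp.2.2.1 n hn with h | h
      · exact Or.inl (by simp only [h]; abel)
      · exact Or.inr (by simp only [h]; abel)
    · have := hp.2.2.2 n hn
      simp only [Prod.fst_sub, Prod.snd_sub]
      omega
  · rintro ⟨m, π, hp, rfl⟩
    refine ⟨m, fun n => π n + v, ⟨by simp [hp.1], by simp [hp.2.1], fun n hn => ?_,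
      fun n hn => ?_⟩, by simp [pval]⟩
    · rcases hp.2.2.1 n hn with h | h
      · exact Or.inl (by simp only [h]; abel)
      · exact Or.inr (by simp only [h]; abel)
    · have := hp.2.2.2 n hn
      simp only [Prod.fst_add, Prod.snd_add]
      omega

lemma mir_mir (t : ℤ) (z : Site) : mir t (mir t z) = z := by
  ext <;> simp [mir]

lemma adm_mir (t : ℤ) : Adm k (mir t b) (mir t a) ↔ Adm k a b := by
  unfold Adm mir
  simp only []
  omega

lemma L_mirror_le (W : Site → ℝ) (t : ℤ) :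
    L k W a b ≤ L k (fun z => W (mir t z)) (mir t b) (mir t a) := by
  by_cases hab : Adm k a b
  · obtain ⟨m, π, hp, he⟩ := exists_opt W hab
    have hq : IsPath k (mir t b) (mir t a) m fun n => mir t (π (m - n)) := by
      refine ⟨by simp [hp.2.1], by simp [hp.1], fun n hn => ?_, fun n hn => ?_⟩
      · have e : m - n = m - (n + 1) + 1 := by omega
        rcases hp.2.2.1 (m - (n + 1)) (by omega) with h | h
        · right
          simp only [e, h, mir]
          ext <;> simp only [Prod.fst_add, Prod.snd_add] <;> omega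
        · left
          simp only [e, h, mir]
          ext <;> simp only [Prod.fst_add, Prod.snd_add] <;> omega
      · have := hp.2.2.2 (m - n) (by omega)
        simp only [mir]
        omega
    refine le_trans (le_of_eq ?_) (le_L _ hq)
    rw [he]
    simp only [pval, mir_mir]
    exact (sum_flip fun n => W (π n)).symm
  · rw [L_of_not_adm W hab, L_of_not_adm _ fun h => hab ((adm_mir t).1 h)]

lemma L_mirror (W : Site → ℝ) (t : ℤ) :
    L k W a b = L k (fun z => W (mir t z)) (mir t b) (mir t a) := by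
  refine le_antisymm (L_mirror_le W t) ?_
  have := L_mirror_le (k := k) (a := mir t b) (b := mir t a) (fun z => W (mir t z)) t
  simpa only [mir_mir] using this

lemma L_cut_row (W : Site → ℝ) (h : Adm k a b) {r : ℤ} (h1 : a.2 ≤ r) (h2 : r < b.2) :
    ∃ i : ℤ, Adm k a (i, r) ∧ Adm k (i, r + 1) b ∧
      L k W a b = L k W a (i, r) + L k W (i, r + 1) b := by
  obtain ⟨m, π, hp, he⟩ := exists_opt W h
  obtain ⟨n, hn, h3, h4⟩ := hp.cross_row h1 h2
  have h5 : π n = ((π n).1, r) := by ext <;> simp [h3]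
  have h6 := (hp.adm hn.le).1
  have h7 := (hp.adm (Nat.succ_le_of_lt hn)).2
  have h8 := hp.split_le' W hn
  rw [h5] at h6
  rw [h4] at h7
  rw [h4, ← he] at h8
  refine ⟨(π n).1, h6, h7, le_antisymm (by rwa [← h5]) (L_concat2 W h6 h7)⟩

lemma L_cut_col (W : Site → ℝ) (h : Adm k a b) {r : ℤ} (h1 : a.1 ≤ r) (h2 : r < b.1) :
    ∃ j : ℤ, Adm k a (r, j) ∧ Adm k (r + 1, j) b ∧
      L k W a b = L k W a (r, j) + L k W (r + 1, j) b := by
  obtain ⟨m, π, hp, he⟩ := exists_opt W h
  obtain ⟨n, hn, h3, h4⟩ := hp.cross_col h1 h2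
  have h5 : π n = (r, (π n).2) := by ext <;> simp [h3]
  have h6 := (hp.adm hn.le).1
  have h7 := (hp.adm (Nat.succ_le_of_lt hn)).2
  have h8 := hp.split_le' W hn
  rw [h5] at h6
  rw [h4] at h7
  rw [h4, ← he] at h8
  refine ⟨(π n).2, h6, h7, le_antisymm (by rwa [← h5]) (L_concat1 W h6 h7)⟩

lemma L_row (W : Site → ℝ) {x y : ℤ} (h : y + k ≤ x) (n : ℕ) :
    L k W (x, y) (x + n, y) = ∑ u ∈ range (n + 1), W (x + u, y) := by
  induction n with
  | zero => simpa using L_self W (a := (x, y)) h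
  | succ n ih =>
    have h1 := L_rec_row W (k := k) (a := (x, y)) (i := x + (n + 1 : ℕ)) h (by simp only []; omega)
    have e : x + (n + 1 : ℕ) - 1 = x + n := by omega
    simp only [e] at h1
    rw [h1, ih, sum_range_succ _ (n + 1)]

lemma L_col (W : Site → ℝ) {x y : ℤ} (h : y + k ≤ x) (n : ℕ) :
    L k W (x, y - n) (x, y) = ∑ u ∈ range (n + 1), W (x, y - u) := by
  rw [L_mirror W 0]
  have e1 : mir 0 (x, y) = (-y, -x) := by simp [mir]
  have e2 : mir 0 (x, y - n) = (-y + n, -x) := by ext <;> simp [mir]; ring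
  rw [e1, e2, L_row _ (by omega)]
  refine sum_congr rfl fun u _ => ?_
  congr 1
  ext <;> simp [mir]
  ring

lemma L_convex (W W' : Site → ℝ) :
    2 * L k (fun z => (W z + W' z) / 2) a b ≤ L k W a b + L k W' a b := by
  by_cases hab : Adm k a b
  · obtain ⟨m, π, hp, he⟩ := exists_opt (fun z => (W z + W' z) / 2) hab
    have h1 := le_L W hp
    have h2 := le_L W' hp
    have h3 : 2 * pval (fun z => (W z + W' z) / 2) m π = pval W m π + pval W' m π := by
      simp only [pval, mul_sum, ← sum_add_distrib]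
      exact sum_congr rfl fun n _ => by ring
    rw [he]
    linarith
  · simp [L_of_not_adm _ hab]

lemma pval_update_of_not (W : Site → ℝ) {z : Site} (t : ℝ) (h : ¬ ∃ n ≤ m, π n = z) :
    pval (Function.update W z t) m π = pval W m π :=
  sum_congr rfl fun n hn => Function.update_of_ne
    (fun he => h ⟨n, Nat.lt_succ_iff.1 (mem_range.1 hn), he⟩) _ _

lemma IsPath.pval_update (W : Site → ℝ) (h : IsPath k a b m π) {z : Site} (t : ℝ)
    (hz : ∃ n ≤ m, π n = z) : pval (Function.update W z t) m π = pval W m π + (t - W z) := by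
  obtain ⟨n, hn, rfl⟩ := hz
  have hm : π n ∈ (range (m + 1)).image π := mem_image_of_mem _ (mem_range.2 (by omega))
  rw [h.pval_eq, h.pval_eq, sum_update_of_mem hm, ← add_sum_erase _ _ hm, sdiff_singleton_eq_erase]
  ring

/-- sites whose removal lowers the passage time lie on every optimal path -/
lemma mem_opt_of_lt (hW : ∀ z, 0 ≤ W z) (h : IsPath k a b m π) (hopt : L k W a b = pval W m π)
    {z : Site} (hz : L k (Function.update W z 0) a b < L k W a b) : ∃ n ≤ m, π n = z := by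
  have _ := hW
  by_contra hc
  have h1 := le_L (Function.update W z 0) h
  rw [pval_update_of_not W 0 hc] at h1
  linarith

lemma L_subgrad (hW : ∀ z, 0 ≤ W z) (hW' : ∀ z, W z ≤ W' z) (S : Finset Site)
    (hS : ∀ z ∈ S, L k (Function.update W z 0) a b < L k W a b) :
    L k W a b + ∑ z ∈ S, (W' z - W z) ≤ L k W' a b := by
  by_cases hab : Adm k a b
  · obtain ⟨m, π, hp, he⟩ := exists_opt W hab
    have h1 := le_L W' hp
    have h2 : S ⊆ (range (m + 1)).image π := fun z hz => by
      obtain ⟨n, hn, rfl⟩ := mem_opt_of_lt hW hp he (hS z hz)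
      exact mem_image_of_mem _ (mem_range.2 (by omega))
    have h3 := sum_le_sum_of_subset_of_nonneg (f := fun z => W' z - W z) h2
      fun z _ _ => sub_nonneg.2 (hW' z)
    rw [sum_sub_distrib (s := (range (m + 1)).image π), ← hp.pval_eq, ← hp.pval_eq] at h3
    linarith
  · obtain rfl : S = ∅ := eq_empty_of_forall_notMem fun z hz => by
      have := hS z hz
      simp [L_of_not_adm _ hab] at this
    simp [L_of_not_adm _ hab]

lemma wt_nonneg {co : Site → ℝ} (h : ∀ z, 0 ≤ co z) (e : Env) (z : Site) : 0 ≤ wt co e z :=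
  mul_nonneg (h z) (abs_nonneg _)

lemma wt_update' (co : Site → ℝ) (e : Env) (i : Site) (x : ℝ) :
    wt co (Function.update e i x) = Function.update (wt co e) i (co i * |x|) := by
  funext z
  by_cases hz : z = i
  · subst hz
    simp [wt]
  · simp [wt, Function.update_of_ne hz]

lemma wt_update (co : Site → ℝ) (e : Env) (i : Site) :
    wt co (Function.update e i 0) = Function.update (wt co e) i 0 := by
  rw [wt_update']
  simp

lemma hinge_L {co : Site → ℝ} {i : Site} (hc : ∀ z, 0 ≤ co z) (hi : 0 < co i)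
    (h1 : Adm k a i) (h2 : Adm k i b) : Hinge (co i) (fun e => L k (wt co e) a b) i := by
  have _ := hc
  intro e
  set V : Site → ℝ := wt co (Function.update e i 0) with hV
  have hV0 : V i = 0 := by simp [hV, wt]
  have hVx : ∀ x, wt co (Function.update e i x) = Function.update V i (co i * |x|) := fun x => by
    rw [hV, wt_update', wt_update', Function.update_idem]
  have hB := L_concat V h1 h2
  refine ⟨(L k V a b - (L k V a i + L k V i b)) / co i, div_nonneg (by linarith) hi.le,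
    fun x => ?_⟩
  have hx : 0 ≤ co i * |x| := mul_nonneg hi.le (abs_nonneg x)
  have e1 : co i * max (|x| - (L k V a b - (L k V a i + L k V i b)) / co i) 0 =
      max (co i * |x| - (L k V a b - (L k V a i + L k V i b))) 0 := by
    rw [mul_max_of_nonneg _ _ hi.le, mul_zero, mul_sub, mul_div_cancel₀ _ hi.ne']
  simp only [← hV, hVx x, e1]
  set t := co i * |x|
  refine le_antisymm ?_ ?_
  · obtain ⟨m, π, hp, he⟩ := exists_opt (Function.update V i t) (h1.trans h2)
    rw [he]
    by_cases hz : ∃ n ≤ m, π n = i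
    · rw [hp.pval_update V t hz]
      obtain ⟨n, hn, hz⟩ := hz
      have h3 := hp.split_le V hn
      rw [hz] at h3
      have h4 := le_max_left (t - (L k V a b - (L k V a i + L k V i b))) 0
      linarith
    · rw [pval_update_of_not V t hz]
      have h3 := le_L V hp
      have h4 := le_max_right (t - (L k V a b - (L k V a i + L k V i b))) 0
      linarith
  · have h3 : L k V a b ≤ L k (Function.update V i t) a b := L_mono fun z _ _ => by
      by_cases hz : z = i
      · subst hz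
        simpa [hV0] using hx
      · rw [Function.update_of_ne hz]
    have h4 := L_concat (Function.update V i t) h1 h2
    obtain ⟨m, π, hp, he⟩ := exists_opt V h1
    obtain ⟨m', π', hp', he'⟩ := exists_opt V h2
    have h5 := le_L (Function.update V i t) hp
    have h6 := le_L (Function.update V i t) hp'
    rw [hp.pval_update V t ⟨m, le_rfl, hp.2.1⟩] at h5
    rw [hp'.pval_update V t ⟨0, Nat.zero_le _, hp'.1⟩] at h6
    rw [Function.update_self] at h4
    rcases max_cases (t - (L k V a b - (L k V a i + L k V i b))) 0 with h7 | h7 <;> linarith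

lemma inc_L {co : Site → ℝ} (hc : ∀ z, 0 ≤ co z) : Inc (fun e => L k (wt co e) a b) :=
  fun _ _ h => L_mono fun z _ _ => mul_le_mul_of_nonneg_left (h z) (hc z)

lemma dependsOn_L (co : Site → ℝ) :
    DependsOn (fun e : Env => L k (wt co e) a b) {z | Adm k a z ∧ Adm k z b ∧ co z ≠ 0} := by
  intro e e' h
  refine L_congr fun z h1 h2 => ?_
  by_cases hz : co z = 0
  · simp [wt, hz]
  · simp only [wt, h z ⟨h1, h2, hz⟩]

lemma abs_L_le (W : Site → ℝ) {S : Finset Site} (hS : ∀ z, Adm k a z → Adm k z b → z ∈ S) :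
    |L k W a b| ≤ ∑ z ∈ S, |W z| := by
  by_cases hab : Adm k a b
  · obtain ⟨m, π, hp, he⟩ := exists_opt W hab
    rw [he, hp.pval_eq]
    exact (abs_sum_le_sum_abs _ _).trans
      (sum_le_sum_of_subset_of_nonneg (hp.image_subset hS) fun z _ _ => abs_nonneg _)
  · rw [L_of_not_adm _ hab, abs_zero]
    exact sum_nonneg fun z _ => abs_nonneg _

lemma abs_L_wt_le (co : Site → ℝ) (e : Env) {S : Finset Site}
    (hS : ∀ z, Adm k a z → Adm k z b → z ∈ S) :
    |L k (wt co e) a b| ≤ (∑ z ∈ S, |co z|) * (1 + ∑ z ∈ S, |e z|) := by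
  refine (abs_L_le _ hS).trans ?_
  rw [sum_mul]
  refine sum_le_sum fun z hz => ?_
  rw [wt, abs_mul, abs_abs]
  have := single_le_sum (f := fun z => |e z|) (fun z _ => abs_nonneg _) hz
  exact mul_le_mul_of_nonneg_left (by linarith) (abs_nonneg _)

lemma measurable_wt (co : Site → ℝ) (z : Site) : Measurable fun e : Env => wt co e z :=
  ((measurable_pi_apply z).abs).const_mul _

lemma measurable_L (co : Site → ℝ) : Measurable fun e : Env => L k (wt co e) a b := by
  have key : (fun e : Env => L k (wt co e) a b) = fun e =>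
      ⨆ S : {S : Finset Site // ∃ (m : ℕ) (π : ℕ → Site), IsPath k a b m π ∧
        S = (range (m + 1)).image π}, ∑ z ∈ S.1, wt co e z := by
    funext e
    unfold L iSup
    congr 1
    ext w
    constructor
    · rintro ⟨m, π, hp, rfl⟩
      exact ⟨⟨_, m, π, hp, rfl⟩, (hp.pval_eq _).symm⟩
    · rintro ⟨⟨_, m, π, hp, rfl⟩, rfl⟩
      exact ⟨m, π, hp, (hp.pval_eq _).symm⟩
  rw [key]
  exact Measurable.iSup fun S => Finset.measurable_sum _ fun z _ => measurable_wt co z

lemma pg_L (co : Site → ℝ) : PG (fun e => L k (wt co e) a b) :=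
  ⟨measurable_L co, Icc a.1 b.1 ×ˢ Icc a.2 b.2, _, 1, sum_nonneg fun _ _ => abs_nonneg _,
    fun e => by simpa only [pow_one] using abs_L_wt_le co e fun z => path_mem_box⟩

lemma U_finite (n : ℤ) (r s : ℝ) (e : Env) : {v : ℝ | ∃ j : ℤ, 1 ≤ j ∧ j ≤ n ∧
    v = L 0 (wt (cD (n + 1) r (fun _ => s)) e) (1, 0) (j, j - 1) +
      L 0 (wt (cD (n + 1) r (fun _ => s)) e) (j, j) (n + 1, n)}.Finite := by
  refine ((Set.finite_Icc 1 n).image fun j =>
    L 0 (wt (cD (n + 1) r (fun _ => s)) e) (1, 0) (j, j - 1) +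
      L 0 (wt (cD (n + 1) r (fun _ => s)) e) (j, j) (n + 1, n)).subset ?_
  rintro v ⟨j, h1, h2, rfl⟩
  exact ⟨j, ⟨h1, h2⟩, rfl⟩

lemma U_of_lt {n : ℤ} (hn : n < 1) (r s : ℝ) (e : Env) : U n r s e = 0 := by
  unfold U
  rw [← Real.sSup_empty]
  congr 1
  exact Set.eq_empty_of_forall_notMem fun v ⟨j, h1, h2, _⟩ => by omega

lemma le_U {n j : ℤ} (r s : ℝ) (e : Env) (h1 : 1 ≤ j) (h2 : j ≤ n) :
    L 0 (wt (cD (n + 1) r (fun _ => s)) e) (1, 0) (j, j - 1) +
      L 0 (wt (cD (n + 1) r (fun _ => s)) e) (j, j) (n + 1, n) ≤ U n r s e :=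
  le_csSup (U_finite n r s e).bddAbove ⟨j, h1, h2, rfl⟩

lemma exists_U {n : ℤ} (hn : 1 ≤ n) (r s : ℝ) (e : Env) : ∃ j : ℤ, 1 ≤ j ∧ j ≤ n ∧
    U n r s e = L 0 (wt (cD (n + 1) r (fun _ => s)) e) (1, 0) (j, j - 1) +
      L 0 (wt (cD (n + 1) r (fun _ => s)) e) (j, j) (n + 1, n) := by
  refine Set.Nonempty.csSup_mem ?_ (U_finite n r s e)
  exact ⟨_, 1, le_rfl, hn, rfl⟩

lemma pg_U (n : ℤ) (r s : ℝ) : PG (U n r s) := by
  constructor
  · have key : U n r s = fun e => ⨆ j : {j : ℤ // 1 ≤ j ∧ j ≤ n},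
        (L 0 (wt (cD (n + 1) r (fun _ => s)) e) (1, 0) (j.1, j.1 - 1) +
          L 0 (wt (cD (n + 1) r (fun _ => s)) e) (j.1, j.1) (n + 1, n)) := by
      funext e
      unfold U iSup
      congr 1
      ext v
      constructor
      · rintro ⟨j, h1, h2, rfl⟩
        exact ⟨⟨j, h1, h2⟩, rfl⟩
      · rintro ⟨⟨j, h1, h2⟩, rfl⟩
        exact ⟨j, h1, h2, rfl⟩
    rw [key]
    exact Measurable.iSup fun j => (measurable_L _).add (measurable_L _)
  · have h0 : 0 ≤ ∑ z ∈ Icc 0 (n + 1) ×ˢ Icc 0 (n + 1), |cD (n + 1) r (fun _ => s) z| :=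
      sum_nonneg fun _ _ => abs_nonneg _
    refine ⟨Icc 0 (n + 1) ×ˢ Icc 0 (n + 1),
      2 * ∑ z ∈ Icc 0 (n + 1) ×ˢ Icc 0 (n + 1), |cD (n + 1) r (fun _ => s) z|, 1, by linarith,
      fun e => ?_⟩
    rcases lt_or_ge n 1 with hn | hn
    · rw [U_of_lt hn, abs_zero]
      positivity
    · obtain ⟨j, h1, h2, he⟩ := exists_U hn r s e
      have h3 := abs_L_wt_le (k := 0) (a := (1, 0)) (b := (j, j - 1))
        (S := Icc 0 (n + 1) ×ˢ Icc 0 (n + 1)) (cD (n + 1) r (fun _ => s)) e fun z a1 a2 => by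
          unfold Adm at a1 a2
          simp only [mem_product, mem_Icc] at a1 a2 ⊢
          omega
      have h4 := abs_L_wt_le (k := 0) (a := (j, j)) (b := (n + 1, n))
        (S := Icc 0 (n + 1) ×ˢ Icc 0 (n + 1)) (cD (n + 1) r (fun _ => s)) e fun z a1 a2 => by
          unfold Adm at a1 a2
          simp only [mem_product, mem_Icc] at a1 a2 ⊢
          omega
      rw [he, pow_one]
      exact (abs_add_le _ _).trans (by linarith)

lemma inc_U (n : ℤ) {r s : ℝ} (hr : 0 ≤ r) (hs : 0 ≤ s) : Inc (U n r s) := by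
  intro e e' h
  rcases lt_or_ge n 1 with hn | hn
  · rw [U_of_lt hn, U_of_lt hn]
  · obtain ⟨j, h1, h2, he⟩ := exists_U hn r s e
    have hc : ∀ z, 0 ≤ cD (n + 1) r (fun _ => s) z := fun z => by
      unfold cD
      split_ifs <;> first | exact le_rfl | exact hr | exact hs | exact zero_le_one
    rw [he]
    exact (add_le_add (inc_L hc e e' h) (inc_L hc e e' h)).trans (le_U r s e' h1 h2)

lemma dependsOn_U (n : ℤ) (r s : ℝ) :
    DependsOn (U n r s) {z : Site | 0 ≤ z.2 ∧ z.2 ≤ z.1 ∧ z.1 ≤ n + 1} := by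
  intro e e' h
  unfold U
  congr 1
  ext v
  refine exists_congr fun j => and_congr_right fun h1 => and_congr_right fun h2 => ?_
  have e1 := dependsOn_L (k := 0) (a := (1, 0)) (b := (j, j - 1)) (cD (n + 1) r (fun _ => s))
    (x := e) (y := e') fun z hz => h z (by
      obtain ⟨a1, a2, -⟩ := hz
      unfold Adm at a1 a2
      simp only [Set.mem_ofPred_eq] at a1 a2 ⊢
      omega)
  have e2 := dependsOn_L (k := 0) (a := (j, j)) (b := (n + 1, n)) (cD (n + 1) r (fun _ => s))
    (x := e) (y := e') fun z hz => h z (by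
      obtain ⟨a1, a2, -⟩ := hz
      unfold Adm at a1 a2
      simp only [Set.mem_ofPred_eq] at a1 a2 ⊢
      omega)
  simp only [] at e1 e2
  rw [e1, e2]

end Pool.Agent.P.MP_9957ef_pr
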