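import Pool.Agent.P.MP_9957ef_pr.Iface
import Pool.Agent.P.MP_9957ef_pr.Path
import Pool.Agent.P.MP_9957ef_pr.RW

/-! Probability that a block is active, and the cost of avoiding it. -/

set_option autoImplicit false

noncomputable section

open MeasureTheory ProbabilityTheory Finset
open scoped ENNReal

namespace Pool.Agent.P.MP_9957ef_pr

/-- the boundary sites used by the walk, interleaved -/
def xiK (m z : ℤ) (N : ℕ) : Site :=
  if N % 2 = 0 then (z + (N / 2 : ℕ) + 2, 0) else (m + 1, m - (z + (N / 2 : ℕ)) - 1)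

def xiStep (m : ℤ) (r : ℝ) (y : ℤ) (e : Env) : ℝ :=
  r * |e (y + 2, 0)| + r * |e (m + 1, m - y - 1)| - 4

def xiW (m : ℤ) (r : ℝ) (z : ℤ) (u : ℕ) (e : Env) : ℝ := ∑ v ∈ range u, xiStep m r (z + v) e

def xiO (m : ℤ) (r : ℝ) (z : ℤ) (e : Env) : ℝ := O m r z e - 4 * ((m : ℝ) - z)

def xiPast (m z : ℤ) : Set Site := {p | (p.2 = 0 ∧ p.1 ≤ z + 1) ∨ (p.1 = m + 1 ∧ m - z ≤ p.2)}

def xiFut (m y : ℤ) : Set Site := {p | (p.2 = 0 ∧ y + 2 ≤ p.1) ∨ (p.1 = m + 1 ∧ p.2 ≤ m - y - 1)}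

variable {m z : ℤ} {r : ℝ}

/-! ### deterministic facts -/

lemma xi_cO_nonneg (hr : 0 ≤ r) (p : Site) : 0 ≤ cO m r z p := by
  unfold cO
  split_ifs <;> first | exact le_rfl | exact hr | exact zero_le_one

lemma xi_O_step (hr : 0 ≤ r) (hm : z + 1 < m) (e : Env) :
    xiStep m r z e + xiO m r (z + 1) e ≤ xiO m r z e := by
  have hadm : Adm (z + 1 + 1) (z + 1 + 1, 0) (m + 1, m - (z + 1)) := by
    unfold Adm; simp only []; omega
  obtain ⟨n, π, hp, he⟩ := exists_opt (wt (cO m r (z + 1)) e) hadm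
  set V := wt (cO m r (z + 1)) e with hV
  have hne : ((m + 1, m - (z + 1)) : Site) ≠ (z + 1 + 1, 0) := by
    simp only [ne_eq, Prod.mk.injEq]; omega
  have h1 := le_L (Function.update (Function.update V (z + 1 + 1, 0) (r * |e (z + 2, 0)|))
    (m + 1, m - (z + 1)) (r * |e (m + 1, m - z - 1)|)) hp
  rw [hp.pval_update _ _ ⟨n, le_rfl, hp.2.1⟩, hp.pval_update _ _ ⟨0, Nat.zero_le _, hp.1⟩,
    Function.update_of_ne hne, ← he] at h1
  have v1 : V (z + 1 + 1, 0) = 0 := by simp [hV, wt, cO]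
  have v2 : V (m + 1, m - (z + 1)) = 0 := by simp [hV, wt, cO]
  have h2 : L (z + 1 + 1) (Function.update (Function.update V (z + 1 + 1, 0) (r * |e (z + 2, 0)|))
      (m + 1, m - (z + 1)) (r * |e (m + 1, m - z - 1)|)) (z + 1 + 1, 0) (m + 1, m - (z + 1)) =
      L (z + 1 + 1) (wt (cO m r z) e) (z + 1 + 1, 0) (m + 1, m - (z + 1)) := by
    refine L_congr fun p a1 a2 => ?_
    obtain ⟨i, j⟩ := p
    unfold Adm at a1 a2
    simp only [] at a1 a2
    by_cases c1 : ((i, j) : Site) = (m + 1, m - (z + 1))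
    · rw [c1, Function.update_self, wt, cO, if_neg (by simp only [Prod.mk.injEq]; omega),
        if_pos (Or.inr rfl), show m - (z + 1) = m - z - 1 by ring]
    rw [Function.update_of_ne c1]
    by_cases c2 : ((i, j) : Site) = (z + 1 + 1, 0)
    · rw [c2, Function.update_self, wt, cO, if_neg (by simp only [Prod.mk.injEq]; omega),
        if_pos (Or.inl rfl), show z + 1 + 1 = z + 2 by ring]
    rw [Function.update_of_ne c2, hV, wt, wt, cO, cO]
    simp only [Prod.mk.injEq] at c1 c2 ⊢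
    rw [if_congr (Q := i = z + 1 ∧ j = 0 ∨ i = m + 1 ∧ j = m - z ∨ i = m + 1 ∧ j = 0)
      (by omega) rfl rfl]
  have h3 := L_region (k := z + 1) (wt (cO m r z) e) (by omega) hadm
  have h4 := L_inner (k := z + 1) (W := wt (cO m r z) e) (a := (z + 1, 0)) (b := (m + 1, m - z))
    (a' := (z + 1 + 1, 0)) (b' := (m + 1, m - (z + 1))) (wt_nonneg (xi_cO_nonneg hr) e)
    (by unfold Adm; simp only []; omega) (by unfold Adm; simp only []; omega)
    (by unfold Adm; simp only []; omega)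
  unfold xiStep xiO O
  push_cast
  linarith

lemma xi_O_walk (hr : 0 ≤ r) {u : ℕ} (hm : z + u < m) (e : Env) :
    xiW m r z u e + xiO m r (z + u) e ≤ xiO m r z e := by
  induction u with
  | zero => simp [xiW]
  | succ u ih =>
    have h1 := ih (by omega)
    have h2 := xi_O_step (m := m) (z := z + u) hr (by omega) e
    rw [xiW, sum_range_succ, ← xiW, show z + (u + 1 : ℕ) = z + u + 1 by omega]
    linarith

lemma xi_Y_le (hr : 0 ≤ r) {w : ℕ} (hm : z + w + 1 < m) (e : Env) :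
    Y m r z w e ≤ xiO m r z e := by
  have h1 := L_concat1 (k := z + 1) (a := (z + 1, 0)) (b := (m, m - z - 1 - w))
    (c := (m + 1, m - z)) (wt (cO m r z) e) (by unfold Adm; simp only []; omega)
    (by unfold Adm; simp only []; omega)
  have h2 := L_col (k := z + 1) (wt (cO m r z) e) (x := m + 1) (y := m - z) (by omega) (w + 1)
  rw [show m - z - (w + 1 : ℕ) = m - z - 1 - w by omega, sum_range_succ'] at h2
  have h3 : ∑ u ∈ range (w + 1), wt (cO m r z) e (m + 1, m - z - (u + 1 : ℕ)) =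
      ∑ u ∈ range (w + 1), r * |e (m + 1, m - z - 1 - u)| := by
    refine sum_congr rfl fun u hu => ?_
    have := mem_range.1 hu
    rw [wt, cO, if_neg (by simp only [Prod.mk.injEq]; omega), if_pos (Or.inr rfl),
      show m - z - (u + 1 : ℕ) = m - z - 1 - u by omega]
  have h4 : wt (cO m r z) e (m + 1, m - z - (0 : ℕ)) = 0 := by simp [wt, cO]
  have h5 : L (z + 1) (wt (cY r z w) e) (z + 1, 0) (m, m - z - 1 - w) ≤
      L (z + 1) (wt (cO m r z) e) (z + 1, 0) (m, m - z - 1 - w) := by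
    refine L_mono fun p a1 a2 => mul_le_mul_of_nonneg_right ?_ (abs_nonneg _)
    obtain ⟨i, j⟩ := p
    unfold Adm at a1 a2
    simp only [] at a1 a2
    simp only [cY, cO, Prod.mk.injEq]
    split_ifs <;> first | exact le_rfl | exact hr | omega
  simp only [] at h1
  unfold Y xiO O
  linarith

lemma xi_O_ge (hr : 0 ≤ r) (e : Env) : -(4 * (m : ℝ)) ≤ xiO m r 0 e := by
  have := L_nonneg (k := 0 + 1) (a := (0 + 1, 0)) (b := (m + 1, m - 0))
    (wt_nonneg (xi_cO_nonneg (m := m) (z := 0) hr) e)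
  unfold xiO O
  rw [Int.cast_zero]
  linarith

lemma xi_W_add (X u : ℕ) (e : Env) :
    xiW m r z (X + u) e = xiW m r z X e + xiW m r (z + X) u e := by
  simp only [xiW, sum_range_add, Nat.cast_add, add_assoc]

lemma xi_W_eq (u : ℕ) (e : Env) :
    xiW m r z u e = ∑ N ∈ range (2 * u), (r * |e (xiK m z N)| - 2) := by
  induction u with
  | zero => simp [xiW]
  | succ u ih =>
    rw [xiW, sum_range_succ, ← xiW, ih, Nat.mul_succ, sum_range_succ, sum_range_succ, xiK, xiK,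
      if_pos (by omega), if_neg (by omega), show 2 * u / 2 = u by omega,
      show (2 * u + 1) / 2 = u by omega, xiStep]
    ring

lemma xi_K_inj {n : ℕ} (hm : z + n < m) : ∀ u < 2 * n, ∀ v < 2 * n, xiK m z u = xiK m z v → u = v := by
  intro u hu v hv h
  unfold xiK at h
  split_ifs at h <;> simp only [Prod.mk.injEq] at h <;> omega

/-! ### measurability and dependence -/

lemma xi_pg_W (u : ℕ) : PG (xiW m r z u) :=
  pg_sum _ fun _ _ => ((((pg_coord _).abs).const_mul r).add (((pg_coord _).abs).const_mul r)).sub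
    (pg_const 4)

lemma xi_pg_O : PG (xiO m r z) := (pg_L _).sub (pg_const _)

lemma xi_pg_Y (w : ℕ) : PG (Y m r z w) :=
  ((pg_L _).add (pg_sum _ fun _ _ => ((pg_coord _).abs).const_mul r)).sub (pg_const _)

lemma xi_dep_W {S : Set Site} {u : ℕ}
    (h : ∀ v < u, ((z + v + 2, 0) : Site) ∈ S ∧ ((m + 1, m - (z + v) - 1) : Site) ∈ S) :
    DependsOn (xiW m r z u) S := by
  intro e e' he
  refine sum_congr rfl fun v hv => ?_
  have := h v (mem_range.1 hv)
  rw [xiStep, xiStep, he _ this.1, he _ this.2]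

lemma xi_dep_O : DependsOn (xiO m r z) (xiPast m z)ᶜ := by
  intro e e' he
  have := dependsOn_L (k := z + 1) (a := (z + 1, 0)) (b := (m + 1, m - z)) (cO m r z)
    (x := e) (y := e') fun p hp => he p (by
      obtain ⟨a1, a2, a3⟩ := hp
      obtain ⟨i, j⟩ := p
      unfold Adm at a1 a2
      simp only [] at a1 a2
      intro hc
      simp only [xiPast, Set.mem_ofPred_eq] at hc
      refine a3 ?_
      rw [cO, if_pos (by simp only [Prod.mk.injEq]; omega)])
  simp only [] at this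
  rw [xiO, xiO, O, O, this]

lemma xi_dep_Y {w : ℕ} (hw : 1 ≤ w) (hm : z + w + 1 < m) :
    DependsOn (Y m r z w) (xiFut m (z + (2 * w : ℕ)))ᶜ := by
  intro e e' he
  have h1 := dependsOn_L (k := z + 1) (a := (z + 1, 0)) (b := (m, m - z - 1 - w)) (cY r z w)
    (x := e) (y := e') fun p hp => he p (by
      obtain ⟨a1, a2, a3⟩ := hp
      obtain ⟨i, j⟩ := p
      unfold Adm at a1 a2
      simp only [] at a1 a2
      intro hc
      simp only [xiFut, Set.mem_ofPred_eq] at hc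
      refine a3 ?_
      rw [cY, if_pos (by simp only []; omega), if_neg (by simp only []; omega)])
  have h2 : ∑ u ∈ range (w + 1), r * |e (m + 1, m - z - 1 - u)| =
      ∑ u ∈ range (w + 1), r * |e' (m + 1, m - z - 1 - u)| := by
    refine sum_congr rfl fun u hu => ?_
    have := mem_range.1 hu
    rw [he _ (by simp only [xiFut, Set.mem_compl_iff, Set.mem_ofPred_eq]; omega)]
  simp only [] at h1
  rw [Y, Y, h1, h2]

lemma xi_pw_in {f : Env → ℝ} {S : Set Site} (h : DependsOn f S) (e' e : Env) :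
    f (pw S e' e) = f e' := h fun p hp => by simp [pw, hp]

lemma xi_pw_out {f : Env → ℝ} {S : Set Site} (h : DependsOn f Sᶜ) (e' e : Env) :
    f (pw S e' e) = f e := h fun p hp => by simp [pw, show p ∉ S from hp]

lemma xi_meas_all {f : ℕ → Env → ℝ} {g : Env → ℝ} (hf : ∀ u, PG (f u)) (hg : PG g) (n : ℕ) :
    MeasurableSet {e | ∀ u ≤ n, f u e ≤ g e} := by
  simp only [Set.ofPred_forall]
  exact MeasurableSet.iInter fun u => MeasurableSet.iInter fun _ =>
    measurableSet_le (hf u).measurable hg.measurable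

/-! ### the walk -/

lemma xi_q_bounds {θ : ℝ} (h0 : 0 ≤ θ) : 0 ≤ q (-θ) ∧ q (-θ) ≤ 2 ∧ 2 - q (-θ) ≤ 4 * θ := by
  have h1 : 0 < 1 / 2 - -θ := by linarith
  have h2 : q (-θ) * (1 / 2 - -θ) = 1 := inv_mul_cancel₀ h1.ne'
  have h3 : 0 ≤ q (-θ) := inv_nonneg.2 h1.le
  have h4 : q (-θ) ≤ 2 := by nlinarith
  exact ⟨h3, h4, by nlinarith⟩

lemma xi_persist {θ : ℝ} (h0 : 0 < θ) (h1 : θ ≤ 1 / 16) {n : ℕ} (hn : 1 ≤ θ ^ 2 * n)
    (hm : z + n < m) {h : ℝ} (hh : 0 ≤ h) :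
    mu.real {e | ∀ u ≤ n, xiW m (q (-θ)) z u e ≤ h} ≤ 20 * θ * (h + 3) := by
  have h2 := persist h0 h1 (2 * n) (by push_cast; nlinarith) (xiK m z) (xi_K_inj hm)
    (h := h + 2) (by linarith)
  refine (measureReal_mono fun e he N hN => ?_).trans (h2.trans_eq (by ring))
  obtain ⟨v, rfl | rfl⟩ := Nat.even_or_odd' N
  · have := he v (by omega)
    rw [xi_W_eq] at this
    linarith
  · have h3 := he (v + 1) (by omega)
    rw [xi_W_eq, Nat.mul_succ, sum_range_succ] at h3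
    have h4 := mul_nonneg (xi_q_bounds h0.le).1 (abs_nonneg (e (xiK m z (2 * v + 1))))
    linarith

lemma xi_W_sq {θ : ℝ} (h0 : 0 ≤ θ) {X : ℕ} (hm : z + X < m) :
    ∫ e, xiW m (q (-θ)) z X e ^ 2 ∂mu ≤ 16 * X + 128 * θ ^ 2 * X ^ 2 := by
  obtain ⟨q0, q1, q2⟩ := xi_q_bounds h0
  have h1 := sum_sq (2 * X) (xiK m z) (xi_K_inj hm)
  have hp : PG fun e => (∑ u ∈ range (2 * X), |e (xiK m z u)| - ((2 * X : ℕ) : ℝ)) ^ 2 :=
    ((pg_sum _ fun _ _ => (pg_coord _).abs).sub (pg_const _)).pow 2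
  have h2 : ∫ e, xiW m (q (-θ)) z X e ^ 2 ∂mu ≤
      ∫ e, (8 * (∑ u ∈ range (2 * X), |e (xiK m z u)| - ((2 * X : ℕ) : ℝ)) ^ 2 +
        128 * θ ^ 2 * X ^ 2) ∂mu := by
    refine integral_mono ((xi_pg_W X).pow 2).integrable
      ((hp.const_mul 8).add (pg_const _)).integrable fun e => ?_
    simp only [xi_W_eq, sum_sub_distrib, ← mul_sum, sum_const, card_range, nsmul_eq_mul]
    push_cast
    set s := ∑ u ∈ range (2 * X), |e (xiK m z u)| - 2 * (X : ℝ) with hs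
    have e1 : q (-θ) * ∑ u ∈ range (2 * X), |e (xiK m z u)| - 2 * (X : ℝ) * 2 =
        q (-θ) * s - (2 - q (-θ)) * (2 * X) := by rw [hs]; ring
    rw [e1]
    have hX : (0 : ℝ) ≤ X := Nat.cast_nonneg X
    have a1 : (q (-θ) * s) ^ 2 ≤ 4 * s ^ 2 := by
      rw [mul_pow]
      exact mul_le_mul_of_nonneg_right (by nlinarith) (sq_nonneg s)
    have a2 : ((2 - q (-θ)) * (2 * X)) ^ 2 ≤ (4 * θ * (2 * X)) ^ 2 :=
      pow_le_pow_left₀ (by nlinarith) (by nlinarith) 2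
    nlinarith [sq_nonneg (q (-θ) * s + (2 - q (-θ)) * (2 * X))]
  rw [integral_add (hp.const_mul 8).integrable (pg_const _).integrable, integral_const_mul, h1,
    integral_const] at h2
  simp only [probReal_univ, smul_eq_mul, one_mul] at h2
  push_cast at h2
  linarith

/-- splitting at the first passage of the walk above a level -/
lemma xi_split (hr : 0 ≤ r) {n : ℕ} (hm : z + n < m) {a b φ : ℝ}
    (hφ : ∀ u ≤ n, mu.real {e | xiO m r (z + u) e ≤ b - a} ≤ φ) :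
    mu.real {e | xiO m r z e ≤ b ∧ ∃ u ≤ n, a < xiW m r z u e} ≤ φ := by
  classical
  set Fi : ℕ → Set Env := fun u => {e | a < xiW m r z u e ∧ ∀ v < u, xiW m r z v e ≤ a} with hF
  have mF : ∀ u, MeasurableSet (Fi u) := fun u => by
    simp only [hF, Set.ofPred_and, Set.ofPred_forall]
    exact (measurableSet_lt measurable_const (xi_pg_W u).measurable).inter
      (MeasurableSet.iInter fun v => MeasurableSet.iInter fun _ =>
        measurableSet_le (xi_pg_W v).measurable measurable_const)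
  have h0 : 0 ≤ φ := measureReal_nonneg.trans (hφ 0 (Nat.zero_le n))
  have h1 : {e | xiO m r z e ≤ b ∧ ∃ u ≤ n, a < xiW m r z u e} ⊆
      ⋃ u ∈ range (n + 1), Fi u ∩ {e | xiO m r (z + u) e ≤ b - a} := by
    rintro e ⟨h2, u, hu, h3⟩
    have hex : ∃ u, a < xiW m r z u e := ⟨u, h3⟩
    have h4 := Nat.find_spec hex
    have h5 : Nat.find hex ≤ u := Nat.find_min' hex h3
    have h6 := xi_O_walk (m := m) (z := z) (u := Nat.find hex) hr (by omega) e
    refine Set.mem_iUnion₂.2 ⟨Nat.find hex, mem_range.2 (by omega),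
      ⟨h4, fun v hv => not_lt.1 (Nat.find_min hex hv)⟩, ?_⟩
    simp only [Set.mem_ofPred_eq]
    linarith
  have h2 : ∀ u ∈ range (n + 1),
      mu.real (Fi u ∩ {e | xiO m r (z + u) e ≤ b - a}) ≤ mu.real (Fi u) * φ := by
    intro u hu
    have d1 : ∀ v ≤ u, DependsOn (xiW m r z v) (xiPast m (z + u)) := fun v hv =>
      xi_dep_W fun y hy => by simp only [xiPast, Set.mem_ofPred_eq, true_and]; omega
    rw [real_inter_indep (S := xiPast m (z + u)) (mF u)
      (measurableSet_le xi_pg_O.measurable measurable_const) ?_ ?_]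
    · exact mul_le_mul_of_nonneg_left (hφ u (by have := mem_range.1 hu; omega)) measureReal_nonneg
    · intro e e' he
      simp only [hF, Set.mem_ofPred_eq, eq_iff_iff]
      rw [d1 u le_rfl he]
      exact and_congr_right fun _ => forall₂_congr fun v hv => by rw [d1 v hv.le he]
    · intro e e' he
      simp only [Set.mem_ofPred_eq]
      rw [xi_dep_O he]
  have h3 : ∑ u ∈ range (n + 1), mu.real (Fi u) ≤ 1 := by
    rw [← measureReal_biUnion_finset ?_ fun u _ => mF u]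
    · exact measureReal_le_one
    · intro u _ v _ huv
      refine Set.disjoint_left.2 fun e h4 h5 => ?_
      rcases lt_or_gt_of_ne huv with h | h
      · exact absurd (h5.2 u h) (not_le.2 h4.1)
      · exact absurd (h4.2 v h) (not_le.2 h5.1)
  calc _ ≤ _ := measureReal_mono h1 (measure_ne_top _ _)
    _ ≤ _ := measureReal_biUnion_finset_le _ _
    _ ≤ ∑ u ∈ range (n + 1), mu.real (Fi u) * φ := sum_le_sum h2
    _ ≤ φ := by rw [← sum_mul]; nlinarith

/-- a bad local passage time together with persistence of the later part of the walk -/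
lemma xi_cond {θ : ℝ} (h0 : 0 < θ) (h1 : θ ≤ 1 / 16) {n w : ℕ} (hn : 1 ≤ θ ^ 2 * n) (hw : 1 ≤ w)
    (hm : z + (2 * w + n : ℕ) < m) {a b lam : ℝ} (ha : 0 ≤ a) (hl : 0 < lam) :
    mu.real {e | Y m (q (-θ)) z w e ≤ b ∧ ∀ u ≤ 2 * w + n, xiW m (q (-θ)) z u e ≤ a} ≤
      20 * θ * ((a + 3 + lam) * mu.real {e | Y m (q (-θ)) z w e ≤ b} +
        (32 * w + 512 * θ ^ 2 * w ^ 2) / lam) := by
  set Bad : Set Env := {e | Y m (q (-θ)) z w e ≤ b} with hBad
  set Gd : Set Env := Bad ∩ {e | ∀ u ≤ n, xiW m (q (-θ)) (z + (2 * w : ℕ)) u e ≤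
    a + |xiW m (q (-θ)) z (2 * w) e|} with hGd
  have mB : MeasurableSet Bad := measurableSet_le (xi_pg_Y w).measurable measurable_const
  have mG : MeasurableSet Gd :=
    mB.inter (xi_meas_all (fun u => xi_pg_W u) ((pg_const a).add (xi_pg_W _).abs) n)
  have s1 : {e | Y m (q (-θ)) z w e ≤ b ∧ ∀ u ≤ 2 * w + n, xiW m (q (-θ)) z u e ≤ a} ⊆ Gd := by
    rintro e ⟨h2, h3⟩
    refine ⟨h2, fun u hu => ?_⟩
    have h4 := h3 (2 * w + u) (by omega)
    rw [xi_W_add] at h4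
    have := neg_abs_le (xiW m (q (-θ)) z (2 * w) e)
    linarith
  have dY := xi_dep_Y (m := m) (z := z) (r := q (-θ)) hw (by omega)
  have dW : DependsOn (xiW m (q (-θ)) z (2 * w)) (xiFut m (z + (2 * w : ℕ)))ᶜ :=
    xi_dep_W fun y hy => by simp only [xiFut, Set.mem_compl_iff, Set.mem_ofPred_eq]; omega
  have dW' : ∀ u, DependsOn (xiW m (q (-θ)) (z + (2 * w : ℕ)) u) (xiFut m (z + (2 * w : ℕ))) :=
    fun u => xi_dep_W fun y hy => by simp only [xiFut, Set.mem_ofPred_eq, true_and]; omega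
  have key : ∀ e, cE (xiFut m (z + (2 * w : ℕ))) (Gd.indicator 1) e ≤
      20 * θ * ((a + 3 + lam) * Bad.indicator 1 e + lam⁻¹ * xiW m (q (-θ)) z (2 * w) e ^ 2) := by
    intro e
    set x := xiW m (q (-θ)) z (2 * w) e with hx
    have hsq : 0 ≤ lam⁻¹ * x ^ 2 := by positivity
    have hmem : ∀ e', pw (xiFut m (z + (2 * w : ℕ))) e' e ∈ Gd ↔ e ∈ Bad ∧
        ∀ u ≤ n, xiW m (q (-θ)) (z + (2 * w : ℕ)) u e' ≤ a + |x| := fun e' => by
      simp only [hGd, hBad, Set.mem_inter_iff, Set.mem_ofPred_eq, xi_pw_out dY, xi_pw_out dW,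
        xi_pw_in (dW' _), hx]
    by_cases hb : e ∈ Bad
    · have e1 : cE (xiFut m (z + (2 * w : ℕ))) (Gd.indicator 1) e =
          mu.real {e' | ∀ u ≤ n, xiW m (q (-θ)) (z + (2 * w : ℕ)) u e' ≤ a + |x|} := by
        rw [← integral_indicator_one (xi_meas_all (fun u => xi_pg_W u) (pg_const _) n), cE]
        congr 1
        funext e'
        simp only [Set.indicator, hmem, hb, true_and, Set.mem_ofPred_eq, Pi.one_apply]
      rw [e1, Set.indicator_of_mem hb]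
      refine (xi_persist h0 h1 hn (by omega) (by positivity)).trans ?_
      refine mul_le_mul_of_nonneg_left ?_ (by positivity)
      have : |x| ≤ lam + lam⁻¹ * x ^ 2 := by
        rcases le_total |x| lam with h | h
        · linarith
        · have : |x| ≤ lam⁻¹ * x ^ 2 := by
            rw [← sq_abs, le_inv_mul_iff₀ hl]
            nlinarith [abs_nonneg x]
          linarith
      simp only [Pi.one_apply]
      linarith
    · have e1 : cE (xiFut m (z + (2 * w : ℕ))) (Gd.indicator 1) e = 0 := by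
        rw [cE]
        refine integral_eq_zero_of_ae (Filter.Eventually.of_forall fun e' => ?_)
        exact Set.indicator_of_notMem (fun h => hb ((hmem e').1 h).1) _
      rw [e1, Set.indicator_of_notMem hb]
      positivity
  have p1 := (pg_indicator mB).const_mul (a + 3 + lam)
  have p2 := ((xi_pg_W (m := m) (r := q (-θ)) (z := z) (2 * w)).pow 2).const_mul lam⁻¹
  have h2 := integral_mono ((pg_indicator mG).cE _).integrable
    ((p1.add p2).const_mul (20 * θ)).integrable key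
  rw [integral_cE _ (pg_indicator mG), integral_indicator_one mG, integral_const_mul,
    integral_add p1.integrable p2.integrable, integral_const_mul, integral_const_mul,
    integral_indicator_one mB] at h2
  have h3 := xi_W_sq (m := m) (z := z) h0.le (X := 2 * w) (by omega)
  refine (measureReal_mono s1).trans (h2.trans (mul_le_mul_of_nonneg_left ?_ (by positivity)))
  rw [div_eq_inv_mul]
  refine add_le_add_right (mul_le_mul_of_nonneg_left (h3.trans_eq ?_) (by positivity)) _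
  push_cast
  ring

/-! ### the recursion -/

lemma xi_arith {A B ν j ε θ : ℝ} (hA : 0 < A) (hB : 1 ≤ B) (hν : 1 ≤ ν) (hj : 1 ≤ j) (h0 : 0 < ε)
    (h1 : ε ≤ 1) (h2 : j * ε ≤ 4) (hθ : 0 < θ) (hθ1 : θ * ν ≤ 1) :
    20 * θ * ((A * ν + 3 + j * ν / ε ^ 2) * (B * ε ^ 4) +
      (32 * (j * ν ^ 2) + 512 * θ ^ 2 * (j * ν ^ 2) ^ 2) / (j * ν / ε ^ 2)) ≤
      80 * ((A + 4) * B + 544) * (θ * ν) * ε := by
  have e1 : (A * ν + 3 + j * ν / ε ^ 2) * (B * ε ^ 4) +
      (32 * (j * ν ^ 2) + 512 * θ ^ 2 * (j * ν ^ 2) ^ 2) / (j * ν / ε ^ 2) =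
      ((A * ν + 3) * ε ^ 2 * B + j * ν * B + 32 * ν + 512 * (θ * ν) ^ 2 * (j * ν)) * ε ^ 2 := by
    field_simp
    ring
  have a0 : ν ≤ j * ν := by nlinarith
  have a1 : (A * ν + 3) * ε ^ 2 ≤ (A + 3) * (j * ν) := by
    have : ε ^ 2 ≤ 1 := pow_le_one₀ h0.le h1
    have h3 : A * ν + 3 ≤ (A + 3) * (j * ν) := by nlinarith
    nlinarith [mul_pos hA (by linarith : 0 < ν)]
  have a2 : (θ * ν) ^ 2 * (j * ν) ≤ j * ν := by
    have : (θ * ν) ^ 2 ≤ 1 := pow_le_one₀ (by positivity) hθ1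
    nlinarith
  have a3 : (A * ν + 3) * ε ^ 2 * B + j * ν * B + 32 * ν + 512 * (θ * ν) ^ 2 * (j * ν) ≤
      ((A + 4) * B + 544) * (j * ν) := by
    have := mul_le_mul_of_nonneg_right a1 (by linarith : 0 ≤ B)
    nlinarith
  have a4 : ((A + 4) * B + 544) * (j * ν) * ε ^ 2 ≤ ((A + 4) * B + 544) * (4 * ν * ε) := by
    rw [mul_assoc]
    refine mul_le_mul_of_nonneg_left ?_ (by positivity)
    have := mul_le_mul_of_nonneg_right h2 (by positivity : 0 ≤ ν * ε)
    nlinarith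
  rw [e1]
  calc _ ≤ 20 * θ * (((A + 4) * B + 544) * (4 * ν * ε)) :=
        mul_le_mul_of_nonneg_left
          ((mul_le_mul_of_nonneg_right a3 (by positivity)).trans a4) (by positivity)
    _ = _ := by ring

lemma xi_exp_succ (j : ℝ) : Real.exp (-(j + 1) / 4) ≤ 4 / 5 * Real.exp (-j / 4) := by
  have h1 : Real.exp (-(j + 1) / 4) * Real.exp (1 / 4) = Real.exp (-j / 4) := by
    rw [← Real.exp_add]; congr 1; ring
  have h2 := Real.add_one_le_exp (1 / 4 : ℝ)
  nlinarith [Real.exp_pos (-(j + 1) / 4)]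

lemma xi_mul_exp (j : ℝ) : j * Real.exp (-j / 4) ≤ 4 := by
  have h1 : Real.exp (-j / 4) * Real.exp (j / 4) = 1 := by
    rw [← Real.exp_add, ← Real.exp_zero]; congr 1; ring
  have h2 := Real.add_one_le_exp (j / 4)
  nlinarith [Real.exp_pos (-j / 4)]

lemma xi_lower {A B θ : ℝ} {ν J n H : ℕ} (hA : 0 < A) (hB : 1 ≤ B) (hν : 16 ≤ ν) (h0 : 0 < θ)
    (h1 : θ * ν ≤ 1) (hn : 1 ≤ θ ^ 2 * n) (hH : 2 * (J * ν ^ 2) + n ≤ H)
    (hm : ((J * H + H : ℕ) : ℤ) < m)
    (hY : ∀ z : ℤ, 0 ≤ z → z ≤ (J * H : ℕ) → ∀ t : ℕ, 1 ≤ t → t ≤ J →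
      mu.real {e | Y m (q (-θ)) z (t * ν ^ 2) e ≤ -(A * t * ν)} ≤ B * Real.exp (-(t : ℝ)))
    (hJ : B * Real.exp (-(J : ℝ)) ≤ θ * ν * Real.exp (-(J : ℝ) / 4)) (d : ℕ) :
    ∀ j : ℕ, j + d = J → 1 ≤ j → ∀ z : ℤ, 0 ≤ z → z ≤ (j * H : ℕ) →
      mu.real {e | xiO m (q (-θ)) z e ≤ -(A * j * ν)} ≤
        400 * ((A + 4) * B + 544) * (θ * ν) * Real.exp (-(j : ℝ) / 4) := by
  have hν' : (16 : ℝ) ≤ ν := by exact_mod_cast hν
  have hq := (xi_q_bounds h0.le).1
  have hν2 : 1 ≤ ν ^ 2 := Nat.one_le_pow _ _ (by omega)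
  induction d with
  | zero =>
    intro j hj hj1 z z0 z1
    obtain rfl : j = J := by omega
    have h2 : 1 ≤ j * ν ^ 2 := Nat.mul_pos hj1 hν2
    have s1 : {e | xiO m (q (-θ)) z e ≤ -(A * j * ν)} ⊆
        {e | Y m (q (-θ)) z (j * ν ^ 2) e ≤ -(A * j * ν)} := fun e he =>
      (xi_Y_le hq (by omega) e).trans he
    refine (measureReal_mono s1).trans ((hY z z0 z1 j hj1 le_rfl).trans (hJ.trans ?_))
    refine mul_le_mul_of_nonneg_right ?_ (Real.exp_pos _).le
    refine le_mul_of_one_le_left (by positivity) ?_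
    nlinarith
  | succ d ih =>
    intro j hj hj1 z z0 z1
    have h2 : 1 ≤ j * ν ^ 2 := Nat.mul_pos hj1 hν2
    have h3 : j * ν ^ 2 ≤ J * ν ^ 2 := Nat.mul_le_mul_right _ (by omega)
    have h4 : j * H ≤ J * H := Nat.mul_le_mul_right _ (by omega)
    have h5 : (j + 1) * H = j * H + H := Nat.succ_mul _ _
    have hj' : (1 : ℝ) ≤ j := by exact_mod_cast hj1
    set ε := Real.exp (-(j : ℝ) / 4) with hε
    have e0 : 0 < ε := Real.exp_pos _
    have e4 : Real.exp (-(j : ℝ)) = ε ^ 4 := by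
      rw [hε, ← Real.exp_nat_mul]; congr 1; push_cast; ring
    have b1 := xi_split (m := m) (z := z) (n := 2 * (j * ν ^ 2) + n) (a := A * ν)
      (b := -(A * j * ν)) hq (by omega) fun u hu => by
        have := ih (j + 1) (by omega) (by omega) (z + u) (by omega) (by omega)
        rwa [show -(A * ((j + 1 : ℕ) : ℝ) * ν) = -(A * j * ν) - A * ν by push_cast; ring] at this
    have b2 := xi_cond (m := m) (z := z) (n := n) (w := j * ν ^ 2) (a := A * ν)
      (b := -(A * j * ν)) (lam := j * ν / ε ^ 2) h0 (by nlinarith) hn h2 (by omega)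
      (by positivity) (by positivity)
    have b3 := hY z z0 (by omega) j hj1 (by omega)
    have b4 := xi_arith hA hB (by linarith : (1 : ℝ) ≤ ν) hj' e0
      (Real.exp_le_one_iff.2 (by linarith)) (xi_mul_exp j) h0 h1
    have b5 := xi_exp_succ j
    have s1 : {e | xiO m (q (-θ)) z e ≤ -(A * j * ν)} ⊆
        {e | xiO m (q (-θ)) z e ≤ -(A * j * ν) ∧
          ∃ u ≤ 2 * (j * ν ^ 2) + n, A * ν < xiW m (q (-θ)) z u e} ∪
        {e | Y m (q (-θ)) z (j * ν ^ 2) e ≤ -(A * j * ν) ∧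
          ∀ u ≤ 2 * (j * ν ^ 2) + n, xiW m (q (-θ)) z u e ≤ A * ν} := by
      intro e he
      by_cases hc : ∃ u ≤ 2 * (j * ν ^ 2) + n, A * ν < xiW m (q (-θ)) z u e
      · exact Or.inl ⟨he, hc⟩
      · exact Or.inr ⟨(xi_Y_le hq (by omega) e).trans he,
          fun u hu => not_lt.1 fun h => hc ⟨u, hu, h⟩⟩
    rw [e4] at b3
    have b6 := mul_le_mul_of_nonneg_left b3 (by positivity : 0 ≤ A * ν + 3 + j * ν / ε ^ 2)
    have b7 := mul_le_mul_of_nonneg_left b5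
      (by positivity : 0 ≤ 400 * ((A + 4) * B + 544) * (θ * ν))
    have b8 := (measureReal_mono (μ := mu) s1 (measure_ne_top _ _)).trans (measureReal_union_le _ _)
    have b9 := mul_le_mul_of_nonneg_left b6 (by positivity : 0 ≤ 20 * θ)
    push_cast at b1 b2
    rw [← hε] at b7
    linarith

lemma xi_zero {A θ ν φ h : ℝ} {n : ℕ} (hA : 0 < A) (hν : 16 ≤ ν) (h0 : 0 < θ)
    (h1 : θ * ν ≤ 1) (hn : 1 ≤ θ ^ 2 * n) (hm : (n : ℤ) < m) (hh : 0 ≤ h)
    (hφ : ∀ z : ℤ, 0 ≤ z → z ≤ n → mu.real {e | xiO m (q (-θ)) z e ≤ -(A * ν)} ≤ φ) :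
    mu.real {e | xiO m (q (-θ)) 0 e ≤ h} ≤ φ + 20 * θ * (h + A * ν + 3) := by
  have b1 := xi_split (m := m) (z := 0) (n := n) (a := h + A * ν) (b := h) (φ := φ)
    (xi_q_bounds h0.le).1 (by omega) fun u hu => by
      have := hφ (0 + u) (by omega) (by omega)
      rwa [show -(A * ν) = h - (h + A * ν) by ring] at this
  have b2 := xi_persist (m := m) (z := 0) (h := h + A * ν) h0 (by nlinarith) hn (by omega)
    (by positivity)
  have s1 : {e | xiO m (q (-θ)) 0 e ≤ h} ⊆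
      {e | xiO m (q (-θ)) 0 e ≤ h ∧ ∃ u ≤ n, h + A * ν < xiW m (q (-θ)) 0 u e} ∪
      {e | ∀ u ≤ n, xiW m (q (-θ)) 0 u e ≤ h + A * ν} := by
    intro e he
    by_cases hc : ∃ u ≤ n, h + A * ν < xiW m (q (-θ)) 0 u e
    · exact Or.inl ⟨he, hc⟩
    · exact Or.inr fun u hu => not_lt.1 fun h => hc ⟨u, hu, h⟩
  exact (measureReal_mono s1).trans ((measureReal_union_le _ _).trans (add_le_add b1 b2))

/-! ### summation -/

lemma xi_cover {f : Env → ℝ} (hf : PG f) (h0 : ∀ e, 0 ≤ f e) (E : ℕ → Set Env)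
    (mE : ∀ k, MeasurableSet (E k)) (c b : ℕ → ℝ) (hc : ∀ k, 0 ≤ c k)
    (hcov : ∀ e, f e = 0 ∨ ∃ k, e ∈ E k ∧ f e ≤ c k) (hb : ∀ k, c k * mu.real (E k) ≤ b k)
    (hs : Summable b) : ∫ e, f e ∂mu ≤ ∑' k, b k := by
  have b0 : ∀ k, 0 ≤ b k := fun k => (mul_nonneg (hc k) measureReal_nonneg).trans (hb k)
  rw [integral_eq_lintegral_of_nonneg_ae (Filter.Eventually.of_forall h0)
    hf.measurable.aestronglyMeasurable]
  refine ENNReal.toReal_le_of_le_ofReal (tsum_nonneg b0) ?_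
  calc _ ≤ ∫⁻ e, ∑' k, (E k).indicator (fun _ => ENNReal.ofReal (c k)) e ∂mu := by
        refine lintegral_mono fun e => ?_
        rcases hcov e with h | ⟨k, h1, h2⟩
        · simp [h]
        · refine le_trans ?_ (ENNReal.le_tsum k)
          rw [Set.indicator_of_mem h1]
          exact ENNReal.ofReal_le_ofReal h2
    _ = ∑' k, ENNReal.ofReal (c k) * mu (E k) := by
        rw [lintegral_tsum fun k => (measurable_const.indicator (mE k)).aemeasurable]
        exact tsum_congr fun k => lintegral_indicator_const (mE k) _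
    _ ≤ ∑' k, ENNReal.ofReal (b k) := by
        refine ENNReal.tsum_le_tsum fun k => ?_
        rw [← ofReal_measureReal, ← ENNReal.ofReal_mul (hc k)]
        exact ENNReal.ofReal_le_ofReal (hb k)
    _ = _ := (ENNReal.ofReal_tsum_of_nonneg b0 hs).symm

def xiw (k : ℕ) : ℝ := ((k : ℝ) + 1) ^ 3 * Real.exp (-(k : ℝ) / 4)

lemma xi_w_pos (k : ℕ) : 0 < xiw k := by unfold xiw; positivity

lemma xi_summable : Summable xiw := by
  have h1 : ‖Real.exp (-1 / 4)‖ < 1 := by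
    rw [Real.norm_of_nonneg (Real.exp_pos _).le]
    exact Real.exp_lt_one_iff.2 (by norm_num)
  have h0 : Summable fun n : ℕ => (n : ℝ) ^ 3 * Real.exp (-1 / 4) ^ n :=
    summable_pow_mul_geometric_of_norm_lt_one 3 h1
  have h2 := ((summable_nat_add_iff (f := fun n : ℕ => (n : ℝ) ^ 3 * Real.exp (-1 / 4) ^ n) 1).2
    h0).mul_right (Real.exp (1 / 4))
  refine h2.congr fun k => ?_
  rw [xiw, ← Real.exp_nat_mul, mul_assoc, ← Real.exp_add]
  push_cast
  congr 2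
  ring

lemma xi_J {B c γ : ℝ} (hB : 1 ≤ B) (hc : 0 < c) (hγ : 0 < γ) (K : ℝ) : ∃ J0 : ℕ, ∀ J : ℕ, J0 ≤ J →
    2 ≤ J ∧ 16 * B * ((J : ℝ) + 1) ^ 16 * Real.exp (-3 / 4) ^ J ≤ γ ∧ 1 ≤ c * J ∧ K ≤ J := by
  have h1 : |Real.exp (-3 / 4)| < 1 := by
    rw [abs_of_pos (Real.exp_pos _)]
    exact Real.exp_lt_one_iff.2 (by norm_num)
  have h2 := (tendsto_pow_const_mul_const_pow_of_abs_lt_one 16 h1).const_mul (16 * B * 2 ^ 16)
  rw [mul_zero] at h2
  obtain ⟨J1, h3⟩ := Filter.eventually_atTop.1 (h2.eventually (gt_mem_nhds hγ))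
  refine ⟨max (max 2 J1) (max ⌈c⁻¹⌉₊ ⌈K⌉₊), fun J hJ => ?_⟩
  simp only [max_le_iff, Nat.ceil_le] at hJ
  obtain ⟨⟨a1, a2⟩, a3, a4⟩ := hJ
  have a5 : (2 : ℝ) ≤ J := by exact_mod_cast a1
  refine ⟨a1, le_trans ?_ (h3 J a2).le, by rwa [inv_le_iff_one_le_mul₀' hc] at a3, a4⟩
  have a6 : ((J : ℝ) + 1) ^ 16 ≤ (2 * J) ^ 16 := pow_le_pow_left₀ (by positivity) (by linarith) _
  calc _ ≤ 16 * B * (2 * (J : ℝ)) ^ 16 * Real.exp (-3 / 4) ^ J := by gcongr
    _ = _ := by ring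

lemma xi_root (ν : ℕ) : ∃ J : ℕ, J ^ 4 ≤ ν ∧ ν < (J + 1) ^ 4 := by
  refine ⟨ν.sqrt.sqrt, ?_, ?_⟩
  · have h1 := Nat.sqrt_le' ν
    have h2 := Nat.pow_le_pow_left (Nat.sqrt_le' ν.sqrt) 2
    rw [← pow_mul] at h2
    exact h2.trans h1
  · have h1 := Nat.lt_succ_sqrt' ν
    have h2 := Nat.pow_le_pow_left (Nat.succ_le_of_lt (Nat.lt_succ_sqrt' ν.sqrt)) 2
    rw [← pow_mul] at h2
    exact h1.trans_le h2

lemma xi_pg_neg : PG fun e => (max (-xiO m r 0 e) 0) ^ 2 := by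
  simpa using (((xi_pg_O (m := m) (r := r) (z := 0)).const_mul (-1)).max (pg_const 0)).pow 2

lemma xi_neg_sq {μ D : ℝ} {J : ℕ} (hr : 0 ≤ r) (hμ : 0 < μ) (hD : 0 ≤ D)
    (h1 : ∀ j : ℕ, j < J → (((j : ℝ) + 1) * μ) ^ 2 *
      mu.real {e | xiO m r 0 e ≤ -(j * μ)} ≤ D * xiw j)
    (h2 : (4 * (m : ℝ)) ^ 2 * mu.real {e | xiO m r 0 e ≤ -(J * μ)} ≤ D * xiw J) :
    ∫ e, (max (-xiO m r 0 e) 0) ^ 2 ∂mu ≤ D * ∑' k, xiw k := by
  rw [← tsum_mul_left]
  refine xi_cover xi_pg_neg (fun e => sq_nonneg _)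
    (fun j => {e | xiO m r 0 e ≤ -(j * μ)})
    (fun j => measurableSet_le xi_pg_O.measurable measurable_const)
    (fun j => if j < J then (((j : ℝ) + 1) * μ) ^ 2 else if j = J then (4 * (m : ℝ)) ^ 2 else 0)
    _ (fun j => by split_ifs <;> positivity) (fun e => ?_) (fun j => ?_) (xi_summable.mul_left D)
  · set x := -xiO m r 0 e with hx
    rcases le_or_gt x 0 with h | h
    · left
      rw [max_eq_right h]
      norm_num
    right
    rw [max_eq_left h.le]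
    have a1 := Nat.floor_le (div_nonneg h.le hμ.le)
    have a2 := Nat.lt_floor_add_one (x / μ)
    rw [le_div_iff₀ hμ] at a1
    rw [div_lt_iff₀ hμ] at a2
    by_cases hc : ⌊x / μ⌋₊ < J
    · refine ⟨⌊x / μ⌋₊, by simp only [Set.mem_ofPred_eq]; linarith, ?_⟩
      rw [if_pos hc]
      exact pow_le_pow_left₀ h.le a2.le 2
    · have a3 : (J : ℝ) ≤ ⌊x / μ⌋₊ := by exact_mod_cast not_lt.1 hc
      refine ⟨J, by simp only [Set.mem_ofPred_eq]; nlinarith, ?_⟩
      rw [if_neg (lt_irrefl J), if_pos rfl]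
      have := xi_O_ge (m := m) hr e
      exact pow_le_pow_left₀ h.le (by linarith) 2
  · split_ifs with a1 a2
    · exact h1 j a1
    · rw [a2]; exact h2
    · rw [zero_mul]
      exact mul_nonneg hD (xi_w_pos j).le

/-- everything about the lower tail of the wall avoiding passage time -/
lemma xi_low (hYT : S_YT) : ∃ C : ℝ, 0 < C ∧ ∀ γ : ℝ, 0 < γ → ∃ ν0 : ℕ, ∀ ν : ℕ, ν0 ≤ ν →
    ∀ θ : ℝ, γ ≤ θ * ν → θ * ν ≤ 1 → 16 ≤ ν ∧
      (∀ h : ℝ, 0 ≤ h → mu.real {e | xiO ((ν : ℤ) ^ 3) (q (-θ)) 0 e ≤ h} ≤ C * θ * (h + ν)) ∧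
      ∫ e, (max (-xiO ((ν : ℤ) ^ 3) (q (-θ)) 0 e) 0) ^ 2 ∂mu ≤ C * θ * (ν : ℝ) ^ 3 := by
  obtain ⟨A, B, c, ν1, hA, hB, hc, -, hY⟩ := hYT
  set C1 := 400 * ((A + 4) * B + 544) with hC1
  have C1pos : 0 < C1 := by positivity
  set C2 := C1 + 20 * (A + 3) + 20 with hC2
  have C2pos : 0 < C2 := by positivity
  have Spos : 0 ≤ ∑' k, xiw k := tsum_nonneg fun k => (xi_w_pos k).le
  refine ⟨C2 + (A ^ 2 * C2 + 1) * ∑' k, xiw k, by positivity, fun γ hγ => ?_⟩
  obtain ⟨J0, hJ0⟩ := xi_J hB hc hγ (8 * (3 + γ⁻¹ ^ 2))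
  refine ⟨max (J0 ^ 4) ⌈ν1⌉₊, fun ν hν θ g1 g2 => ?_⟩
  rw [max_le_iff, Nat.ceil_le] at hν
  obtain ⟨J, j1, j2⟩ := xi_root ν
  obtain ⟨j3, j4, j5, j6⟩ := hJ0 J
    (Nat.lt_succ_iff.1 (lt_of_pow_lt_pow_left₀ 4 (Nat.zero_le _) (hν.1.trans_lt j2)))
  have ν16 : 16 ≤ ν := (Nat.pow_le_pow_left j3 4).trans j1
  have ν16' : (16 : ℝ) ≤ ν := by exact_mod_cast ν16
  have j1' : (J : ℝ) ^ 4 ≤ ν := by exact_mod_cast j1
  have j2' : (ν : ℝ) ≤ ((J : ℝ) + 1) ^ 4 := by exact_mod_cast j2.le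
  have j3' : (2 : ℝ) ≤ J := by exact_mod_cast j3
  have h0 : 0 < θ := by
    by_contra h
    nlinarith
  have hθ : θ ≤ 1 / ν := by rw [le_div_iff₀ (by linarith)]; exact g2
  set n := ⌈θ⁻¹ ^ 2⌉₊ with hn
  have n1 : 1 ≤ θ ^ 2 * n := by
    have := mul_le_mul_of_nonneg_left (Nat.le_ceil (θ⁻¹ ^ 2)) (sq_nonneg θ)
    rwa [← mul_pow, mul_inv_cancel₀ h0.ne', one_pow] at this
  have n2 : (n : ℝ) ≤ (γ⁻¹ ^ 2 + 1) * ν ^ 2 := by
    have a1 := (Nat.ceil_lt_add_one (sq_nonneg θ⁻¹)).le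
    have a2 : θ⁻¹ ≤ γ⁻¹ * ν := by
      rw [inv_le_iff_one_le_mul₀ h0, mul_assoc, le_inv_mul_iff₀ hγ]
      linarith
    have a3 := pow_le_pow_left₀ (inv_nonneg.2 h0.le) a2 2
    nlinarith
  set H := 2 * (J * ν ^ 2) + n with hH
  have hm : ((J * H + H : ℕ) : ℝ) + 1 ≤ (ν : ℝ) ^ 3 / 2 := by
    have a0 : 0 ≤ (γ⁻¹ ^ 2 + 1) * (ν : ℝ) ^ 2 := by positivity
    have a1 : (H : ℝ) ≤ (3 + γ⁻¹ ^ 2) * (J * ν ^ 2) := by
      rw [hH]
      push_cast
      nlinarith
    have a2 : (J : ℝ) * H + H ≤ 2 * J * H := by nlinarith [Nat.cast_nonneg (α := ℝ) H]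
    have a3 : 2 * (J : ℝ) * H ≤ 2 * J * ((3 + γ⁻¹ ^ 2) * (J * ν ^ 2)) := by gcongr
    have a4 : 8 * (3 + γ⁻¹ ^ 2) * (J : ℝ) ^ 2 ≤ ν := by
      have : 8 * (3 + γ⁻¹ ^ 2) ≤ (J : ℝ) ^ 2 := by nlinarith
      nlinarith [mul_le_mul_of_nonneg_right this (sq_nonneg (J : ℝ))]
    have a5 := mul_le_mul_of_nonneg_right a4 (sq_nonneg (ν : ℝ))
    have a6 : (16 : ℝ) ^ 3 ≤ ν ^ 3 := by gcongr
    push_cast
    nlinarith
  have hm' : ((J * H + H : ℕ) : ℤ) < (ν : ℤ) ^ 3 := by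
    have : ((J * H + H : ℕ) : ℝ) < (ν : ℝ) ^ 3 := by
      have : (0 : ℝ) ≤ ((J * H + H : ℕ) : ℝ) := Nat.cast_nonneg _
      linarith
    exact_mod_cast this
  have hY' : ∀ z : ℤ, 0 ≤ z → z ≤ (J * H : ℕ) → ∀ t : ℕ, 1 ≤ t → t ≤ J →
      mu.real {e | Y ((ν : ℤ) ^ 3) (q (-θ)) z (t * ν ^ 2) e ≤ -(A * t * ν)} ≤
        B * Real.exp (-(t : ℝ)) := by
    intro z z0 z1 t t1 t2
    have a1 : (z : ℝ) ≤ ((J * H + H : ℕ) : ℝ) := by
      have : z ≤ ((J * H + H : ℕ) : ℤ) := by omega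
      exact_mod_cast this
    have a2 : (t : ℝ) ≤ J := by exact_mod_cast t2
    refine hY ν hν.2 θ h0.le hθ _ z z0 (by push_cast at hm a1 ⊢; linarith) (by push_cast; rfl)
      t t1 (a2.trans ?_)
    have a3 : (J : ℝ) ^ 2 ≤ J ^ 4 := pow_le_pow_right₀ (by linarith) (by norm_num)
    nlinarith [mul_le_mul_of_nonneg_left (a3.trans j1') hc.le]
  have eJ : Real.exp (-(J : ℝ)) = Real.exp (-3 / 4) ^ J * Real.exp (-(J : ℝ) / 4) := by
    rw [← Real.exp_nat_mul, ← Real.exp_add]; congr 1; ring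
  have hE : 16 * (ν : ℝ) ^ 4 * (B * Real.exp (-(J : ℝ))) ≤ θ * ν * Real.exp (-(J : ℝ) / 4) := by
    have a1 : (ν : ℝ) ^ 4 ≤ ((J : ℝ) + 1) ^ 16 := by
      have := pow_le_pow_left₀ (by positivity) j2' 4
      rwa [← pow_mul] at this
    calc _ ≤ 16 * ((J : ℝ) + 1) ^ 16 * (B * Real.exp (-(J : ℝ))) := by gcongr
      _ = 16 * B * ((J : ℝ) + 1) ^ 16 * Real.exp (-3 / 4) ^ J * Real.exp (-(J : ℝ) / 4) := by
        rw [eJ]; ring
      _ ≤ _ := mul_le_mul_of_nonneg_right (j4.trans g1) (Real.exp_pos _).le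
  have hL := fun j (hj : j ≤ J) => xi_lower (m := (ν : ℤ) ^ 3) hA hB ν16 h0 g2 n1 le_rfl hm' hY'
    (le_trans (le_mul_of_one_le_left (by positivity)
      (by nlinarith [one_le_pow₀ (by linarith : (1 : ℝ) ≤ ν) (n := 4)])) hE) (J - j) j (by omega)
  have hZ : ∀ h : ℝ, 0 ≤ h →
      mu.real {e | xiO ((ν : ℤ) ^ 3) (q (-θ)) 0 e ≤ h} ≤ C2 * θ * (h + ν) := by
    intro h hh
    have a1 := xi_zero (m := (ν : ℤ) ^ 3) (φ := C1 * (θ * ν)) hA ν16' h0 g2 n1 (by omega) hh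
      fun z z0 z1 => by
        have := hL 1 (by omega) le_rfl z z0 (by omega)
        rw [Nat.cast_one, mul_one] at this
        exact this.trans (mul_le_of_le_one_right (by positivity)
          (Real.exp_le_one_iff.2 (by norm_num)))
    refine a1.trans ?_
    have a2 : C1 * ν + 20 * (h + A * ν + 3) ≤ C2 * (h + ν) := by
      rw [hC2]
      nlinarith
    nlinarith [mul_le_mul_of_nonneg_left a2 h0.le]
  refine ⟨ν16, fun h hh => (hZ h hh).trans ?_, ?_⟩
  · gcongr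
    exact le_add_of_nonneg_right (by positivity)
  refine (xi_neg_sq (μ := A * ν) (D := (A ^ 2 * C2 + 1) * (θ * ν ^ 3)) (J := J)
    (xi_q_bounds h0.le).1 (by positivity) (by positivity) (fun j hj => ?_) ?_).trans ?_
  · have a1 : mu.real {e | xiO ((ν : ℤ) ^ 3) (q (-θ)) 0 e ≤ -(j * (A * ν))} ≤
        C2 * (θ * ν) * Real.exp (-(j : ℝ) / 4) := by
      rcases Nat.eq_zero_or_pos j with rfl | hj1
      · have := hZ 0 le_rfl
        simpa [mul_assoc] using this
      · have := hL j hj.le hj1 0 le_rfl (by omega)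
        rw [show (j : ℝ) * (A * ν) = A * j * ν by ring]
        refine this.trans ?_
        gcongr
        rw [hC2]
        nlinarith
    have a2 : ((j : ℝ) + 1) ^ 2 ≤ (j + 1) ^ 3 :=
      pow_le_pow_right₀ (by linarith [Nat.cast_nonneg (α := ℝ) j]) (by norm_num)
    calc _ ≤ (((j : ℝ) + 1) * (A * ν)) ^ 2 * (C2 * (θ * ν) * Real.exp (-(j : ℝ) / 4)) := by gcongr
      _ = A ^ 2 * C2 * (θ * ν ^ 3) * (((j : ℝ) + 1) ^ 2 * Real.exp (-(j : ℝ) / 4)) := by ring
      _ ≤ _ := by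
        unfold xiw
        gcongr
        linarith
  · have a1 : mu.real {e | xiO ((ν : ℤ) ^ 3) (q (-θ)) 0 e ≤ -(J * (A * ν))} ≤
        B * Real.exp (-(J : ℝ)) := by
      refine le_trans (measureReal_mono (fun e he => ?_) (measure_ne_top _ _))
        (hY' 0 le_rfl (by omega) J (by omega) le_rfl)
      have a2 : 1 ≤ J * ν ^ 2 := Nat.mul_pos (by omega) (Nat.one_le_pow _ _ (by omega))
      have := xi_Y_le (m := (ν : ℤ) ^ 3) (z := 0) (w := J * ν ^ 2) (xi_q_bounds h0.le).1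
        (by omega) e
      simp only [Set.mem_ofPred_eq] at he ⊢
      linarith
    have a2 : (1 : ℝ) ≤ (J + 1) ^ 3 := one_le_pow₀ (by linarith)
    calc _ ≤ (4 * (((ν : ℤ) ^ 3 : ℤ) : ℝ)) ^ 2 * (B * Real.exp (-(J : ℝ))) := by gcongr
      _ = ν ^ 2 * (16 * (ν : ℝ) ^ 4 * (B * Real.exp (-(J : ℝ)))) := by push_cast; ring
      _ ≤ ν ^ 2 * (θ * ν * Real.exp (-(J : ℝ) / 4)) := by gcongr
      _ = 1 * (θ * ν ^ 3) * (1 * Real.exp (-(J : ℝ) / 4)) := by ring
      _ ≤ _ := by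
        unfold xiw
        gcongr
        exact le_add_of_nonneg_left (by positivity)
  · have : 0 ≤ C2 * (θ * ν ^ 3) := by positivity
    nlinarith

lemma xi_harris {s : ℝ} (hr : 0 ≤ r) (hs : 0 ≤ s) (a b : ℝ) :
    mu.real {e | a ≤ U m r s e - 4 * (m : ℝ) ∧ xiO m r 0 e ≤ b} ≤
      mu.real {e | a ≤ U m r s e - 4 * (m : ℝ)} * mu.real {e | xiO m r 0 e ≤ b} := by
  refine harris_set (Icc 0 (m + 1) ×ˢ Icc 0 (m + 1)) ((pg_U m r s).sub (pg_const _)).measurable
    xi_pg_O.measurable (fun e e' h => ?_) (fun e e' h => ?_) (fun e e' h => ?_)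
    (fun e e' h => ?_) a b
  · simp only []
    rw [dependsOn_U m r s (x := e) (y := e') fun p hp => h p (by
      simp only [Set.mem_ofPred_eq] at hp
      simp only [coe_product, coe_Icc, Set.mem_prod, Set.mem_Icc]
      omega)]
  · have := dependsOn_L (k := 0 + 1) (a := (0 + 1, 0)) (b := (m + 1, m - 0)) (cO m r 0)
      (x := e) (y := e') fun p hp => h p (by
        obtain ⟨a1, a2, -⟩ := hp
        unfold Adm at a1 a2
        simp only [coe_product, coe_Icc, Set.mem_prod, Set.mem_Icc] at a1 a2 ⊢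
        omega)
    simp only [] at this
    rw [xiO, xiO, O, O, this]
  · exact sub_le_sub_right (inc_U m hr hs e e' h) _
  · exact sub_le_sub_right (inc_L (xi_cO_nonneg hr) e e' h) _

theorem xi (hYT : S_YT) (hUT : S_UT) : S_XI := by
  obtain ⟨C, hC, hL⟩ := xi_low hYT
  obtain ⟨A, B, ν1, hA, hB, -, hU⟩ := hUT
  have Spos : 0 ≤ ∑' k, xiw k := tsum_nonneg fun k => (xi_w_pos k).le
  set D := B * C * (A + 1) with hD
  have Dpos : 0 < D := by positivity
  refine ⟨2 * C + (1 + 2 * A ^ 2) * D * ∑' k, xiw k, by positivity, fun γ hγ => ?_⟩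
  obtain ⟨ν0, h0⟩ := hL γ hγ
  refine ⟨max ν0 ⌈ν1⌉₊, fun ν hν θ g1 g2 => ?_⟩
  rw [max_le_iff, Nat.ceil_le] at hν
  obtain ⟨ν16, hZ, hN⟩ := h0 ν hν.1 θ g1 g2
  have ν16' : (16 : ℝ) ≤ ν := by exact_mod_cast ν16
  have hθ0 : 0 < θ := by
    by_contra h
    nlinarith
  have hθ : θ ≤ 1 / ν := by rw [le_div_iff₀ (by linarith)]; exact g2
  have hr := (xi_q_bounds hθ0.le).1
  have hs : 0 ≤ q (θ + 1 / ν) := by
    have : 1 / (ν : ℝ) ≤ 1 / 16 := one_div_le_one_div_of_le (by norm_num) ν16'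
    exact inv_nonneg.2 (by linarith)
  have hT := hU ν hν.2 θ hθ0.le hθ ((ν : ℤ) ^ 3) (one_le_pow₀ (by omega)) (by push_cast; rfl)
  set m : ℤ := (ν : ℤ) ^ 3 with hm
  set Ut : Env → ℝ := fun e => U m (q (-θ)) (q (θ + 1 / ν)) e - 4 * (m : ℝ) with hUt
  have pU : PG Ut := (pg_U _ _ _).sub (pg_const _)
  set E : ℕ → Set Env := fun k =>
    {e | (k : ℝ) * (A * ν) ≤ Ut e ∧ xiO m (q (-θ)) 0 e ≤ (k + 1) * (A * ν)} with hE
  have mE : ∀ k, MeasurableSet (E k) := fun k =>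
    (measurableSet_le measurable_const pU.measurable).inter
      (measurableSet_le xi_pg_O.measurable measurable_const)
  have bE : ∀ k : ℕ, ((k : ℝ) + 1) ^ 2 * mu.real (E k) ≤ D * (θ * ν) * xiw k := by
    intro k
    have k0 : (0 : ℝ) ≤ k := Nat.cast_nonneg k
    have a1 := xi_harris (m := m) hr hs (k * (A * ν)) ((k + 1) * (A * ν))
    have a2 := hT k k0
    have a3 := hZ ((k + 1) * (A * ν)) (by positivity)
    have a4 : Real.exp (-(k : ℝ)) ≤ Real.exp (-(k : ℝ) / 4) := Real.exp_le_exp.2 (by linarith)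
    have a5 : (k + 1) * (A * ν) + ν ≤ (k + 1) * ((A + 1) * ν) := by nlinarith
    calc _ ≤ ((k : ℝ) + 1) ^ 2 * ((B * Real.exp (-(k : ℝ) / 4)) *
          (C * θ * ((k + 1) * ((A + 1) * ν)))) := by
          refine mul_le_mul_of_nonneg_left (a1.trans (mul_le_mul (a2.trans ?_) (a3.trans ?_)
            measureReal_nonneg (by positivity))) (by positivity) <;> gcongr
      _ = _ := by rw [hD, xiw]; ring
  set Gd : Set Env := {e | 0 ≤ Ut e ∧ xiO m (q (-θ)) 0 e ≤ Ut e} with hGd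
  have mG : MeasurableSet Gd := (measurableSet_le measurable_const pU.measurable).inter
    (measurableSet_le xi_pg_O.measurable pU.measurable)
  have cov : ∀ e ∈ Gd, ∃ k, e ∈ E k ∧ Ut e ≤ (k + 1) * (A * ν) := by
    intro e he
    have hK : 0 < A * ν := by positivity
    have a1 := Nat.floor_le (div_nonneg he.1 hK.le)
    have a2 := Nat.lt_floor_add_one (Ut e / (A * ν))
    rw [le_div_iff₀ hK] at a1
    rw [div_lt_iff₀ hK] at a2
    exact ⟨_, ⟨a1, he.2.trans a2.le⟩, a2.le⟩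
  have i0 : ∀ e, 0 ≤ Gd.indicator (1 : Env → ℝ) e := fun e =>
    Set.indicator_nonneg (fun _ _ => zero_le_one) e
  have b1 := xi_cover (pg_indicator mG) i0 E mE (fun k => ((k : ℝ) + 1) ^ 2) _
    (fun k => by positivity) (fun e => by
      by_cases he : e ∈ Gd
      · obtain ⟨k, h1, -⟩ := cov e he
        refine Or.inr ⟨k, h1, ?_⟩
        rw [Set.indicator_of_mem he]
        exact one_le_pow₀ (by linarith [Nat.cast_nonneg (α := ℝ) k])
      · exact Or.inl (Set.indicator_of_notMem he _)) bE (xi_summable.mul_left _)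
  have p2 := (pg_indicator mG).mul (pU.pow 2)
  have b2 := xi_cover p2 (fun e => mul_nonneg (i0 e) (sq_nonneg _)) E mE
    (fun k => (((k : ℝ) + 1) * (A * ν)) ^ 2) (fun k => (A * ν) ^ 2 * (D * (θ * ν)) * xiw k)
    (fun k => by positivity) (fun e => by
      by_cases he : e ∈ Gd
      · obtain ⟨k, h1, h2⟩ := cov e he
        refine Or.inr ⟨k, h1, ?_⟩
        rw [Set.indicator_of_mem he, Pi.one_apply, one_mul]
        exact pow_le_pow_left₀ he.1 h2 2
      · exact Or.inl (by rw [Set.indicator_of_notMem he, zero_mul]))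
    (fun k => by
      have := mul_le_mul_of_nonneg_left (bE k) (sq_nonneg (A * ν))
      linarith) (xi_summable.mul_left _)
  rw [integral_indicator_one mG, tsum_mul_left] at b1
  rw [tsum_mul_left] at b2
  have eO : ∀ e, U m (q (-θ)) (q (θ + 1 / ν)) e - O m (q (-θ)) 0 e = Ut e - xiO m (q (-θ)) 0 e :=
    fun e => by simp only [hUt, xiO, Int.cast_zero]; ring
  constructor
  · have s1 : {e | O m (q (-θ)) 0 e ≤ U m (q (-θ)) (q (θ + 1 / ν)) e} ⊆
        {e | xiO m (q (-θ)) 0 e ≤ 0} ∪ Gd := by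
      intro e he
      have a1 := eO e
      simp only [Set.mem_ofPred_eq] at he
      by_cases hc : xiO m (q (-θ)) 0 e ≤ 0
      · exact Or.inl hc
      · exact Or.inr ⟨by linarith, by linarith⟩
    have a1 := (measureReal_mono (μ := mu) s1 (measure_ne_top _ _)).trans
      (measureReal_union_le _ _)
    have a2 := hZ 0 le_rfl
    have a3 : 0 ≤ C * (θ * ν) := by positivity
    have a4 : 0 ≤ A ^ 2 * (D * (θ * ν) * ∑' k, xiw k) := by positivity
    linarith
  · have pX : PG fun e => Xi m (q (-θ)) (q (θ + 1 / ν)) e ^ 2 :=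
      (((pg_U _ _ _).sub (pg_L _)).max (pg_const 0)).pow 2
    have a1 := integral_mono pX.integrable
      ((p2.const_mul 2).add ((xi_pg_neg (m := m) (r := q (-θ))).const_mul 2)).integrable fun e => by
        simp only [Xi, eO]
        set x := xiO m (q (-θ)) 0 e with hx
        have c1 := le_max_left (-x) 0
        have c2 := le_max_right (-x) 0
        by_cases he : e ∈ Gd
        · rw [Set.indicator_of_mem he, Pi.one_apply, one_mul, max_eq_left (sub_nonneg.2 he.2)]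
          have c3 : (Ut e - x) ^ 2 ≤ (Ut e + max (-x) 0) ^ 2 :=
            pow_le_pow_left₀ (sub_nonneg.2 he.2) (by linarith) 2
          nlinarith [sq_nonneg (Ut e - max (-x) 0)]
        · rw [Set.indicator_of_notMem he, zero_mul, mul_zero, zero_add]
          have c3 : max (Ut e - x) 0 ≤ max (-x) 0 := by
            refine max_le ?_ c2
            by_contra hc
            exact he ⟨by linarith, by linarith⟩
          have c4 := pow_le_pow_left₀ (le_max_right _ _) c3 2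
          nlinarith
    rw [integral_add (p2.const_mul 2).integrable (xi_pg_neg.const_mul 2).integrable,
      integral_const_mul, integral_const_mul] at a1
    have a4 : 0 ≤ D * (θ * ν ^ 3) * ∑' k, xiw k := by positivity
    linarith

end Pool.Agent.P.MP_9957ef_pr
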