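import Pool.Agent.P.MP_9957ef_pr.Iface
import Pool.Agent.P.MP_9957ef_pr.Det
import Pool.Agent.P.MP_9957ef_pr.RW
import Pool.Agent.P.MP_9957ef_pr.Burke

/-! Lower tail of the local wall avoiding passage time. -/

set_option autoImplicit false

noncomputable section

open MeasureTheory ProbabilityTheory Finset

namespace Pool.Agent.P.MP_9957ef_pr

lemma yt_cS_wall (ρ s : ℝ) (e : Env) {p : Site} (hp : 1 ≤ p.2) :
    wt (cS 1 ρ s) e p = wt (cT s) e p := by
  unfold wt cS cT
  rw [if_neg (by omega), max_eq_right hp]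

lemma yt_cS_corner (X : ℤ) (ρ s : ℝ) (e : Env) : wt (cS X ρ s) e (X, 0) = 0 := by
  simp [wt, cS]

lemma yt_cS_nonneg (X : ℤ) {ρ s : ℝ} (hρ : 0 ≤ ρ) (hs : 0 ≤ s) (p : Site) : 0 ≤ cS X ρ s p := by
  unfold cS
  split_ifs <;> first | exact le_rfl | assumption | exact zero_le_one

lemma yt_inner (ρ ρ' s : ℝ) (e : Env) {u : Site} (hu : Adm 0 (1, 1) u) :
    L 0 (wt (cS 1 ρ s) e) (1, 1) u ≤ G 1 ρ' s u e := by
  have h1 : Adm 0 ((1, 0) : Site) (1, 0) := by simp [Adm]
  have h2 := L_concat2 (wt (cS 1 ρ' s) e) h1 (c := u) (by simpa using hu)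
  rw [L_self _ (by simp), yt_cS_corner] at h2
  have h3 : L 0 (wt (cS 1 ρ s) e) (1, 1) u = L 0 (wt (cS 1 ρ' s) e) (1, 1) u := by
    refine L_congr fun p hp _ => ?_
    have : 1 ≤ p.2 := hp.2.1
    rw [yt_cS_wall _ _ _ this, yt_cS_wall _ _ _ this]
  unfold G
  simp only [zero_add] at h2
  linarith

lemma yt_T_eq (ρ s : ℝ) (e : Env) (m : ℤ) :
    L 0 (wt (cS 1 ρ s) e) (1, 1) (m, m) = T s 1 m e := by
  unfold T
  exact L_congr fun p hp _ => yt_cS_wall _ _ _ hp.2.1

lemma yt_T_le (ρ s : ℝ) (e : Env) {m : ℤ} (hm : 1 ≤ m) : T s 1 m e ≤ G 1 ρ s (m, m) e := by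
  rw [← yt_T_eq ρ]
  exact yt_inner _ _ _ _ (by simp [Adm, hm])

/-- the deterministic trichotomy -/
lemma yt_det {ρ ρ' s σ r : ℝ} (hρ : 0 ≤ ρ) (hρr : ρ ≤ r) (hσ : 1 ≤ σ) {m : ℤ} {w : ℕ}
    (hw : 1 ≤ w) (hm : 2 * (w : ℤ) ≤ m) (e : Env) :
    G 1 ρ s (m, m - w) e ≤ (G 1 ρ s (m, m) e - T s 1 m e) + G 1 ρ' s (m, m - w) e ∨
    G 1 ρ s (m, m - w) e ≤ ρ * ∑ u ∈ range (2 * w), |e (1 + u, 0)| +
      G (2 * w) ρ σ (m, m - w) e ∨
    G 1 ρ s (m, m - w) e ≤ L 0 (wt (cY r (-1) w) e) (0, 0) (m, m - w) := by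
  have hadm : Adm 0 ((1, 0) : Site) (m, m - w) := by
    simp only [Adm]; omega
  obtain ⟨M, π, hπ, hopt⟩ := exists_opt (wt (cS 1 ρ s) e) hadm
  have hG : G 1 ρ s (m, m - w) e = pval (wt (cS 1 ρ s) e) M π := hopt
  by_cases hA : ∃ n ≤ M, (π n).1 = (π n).2
  · left
    obtain ⟨n, hn, hd⟩ := hA
    obtain ⟨ha1, ha2⟩ := hπ.adm hn
    have hsp := hπ.split_le (wt (cS 1 ρ s) e) hn
    obtain ⟨j, hj⟩ : ∃ j, π n = (j, j) := ⟨(π n).1, Prod.ext rfl hd.symm⟩
    rw [hj] at ha1 ha2 hsp
    have hj1 : 1 ≤ j := ha1.1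
    have hj2 : j ≤ m - w := ha2.2.1
    have hwi := wall_incr (a := (1, 0)) (x := 1) (y := j) (y' := m) (wt (cS 1 ρ s) e)
      (by simp [Adm]) hj1 (by omega)
    have hc := L_concat (wt (cS 1 ρ s) e) (a := (1, 1)) (b := (j, j)) (c := (m, m - w)) (k := 0)
      (by simp [Adm, hj1]) ha2
    have hi := yt_inner ρ ρ' s e (u := (m, m - w)) (by simp only [Adm]; omega)
    rw [yt_T_eq] at hwi
    have : G 1 ρ s (m, m) e = L 0 (wt (cS 1 ρ s) e) (1, 0) (m, m) := rfl
    linarith
  · push Not at hA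
    have hoff : ∀ n ≤ M, (π n).2 ≠ 0 → wt (cS 1 ρ s) e (π n) = |e (π n)| := by
      intro n hn h0
      have h1 : 0 ≤ (π n).2 := (hπ.adm hn).1.2.1
      have h2 := hA n hn
      unfold wt cS
      rw [if_neg h0, if_neg (by rw [max_eq_right (by omega)]; exact h2), one_mul]
    have hrow : ∀ n ≤ M, (π n).2 = 0 → wt (cS 1 ρ s) e (π n) ≤ ρ * |e (π n)| := by
      intro n _ h0
      unfold wt cS
      rw [if_pos h0]
      split_ifs
      · rw [zero_mul]; positivity
      · exact le_rfl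
    by_cases hB : ∃ n ≤ M, π n = (2 * (w : ℤ), 0)
    · right; left
      obtain ⟨n, hn, hd⟩ := hB
      have hnM : n < M := by
        rcases lt_or_eq_of_le hn with h | h
        · exact h
        · exfalso
          have := hπ.2.1
          rw [← h, hd] at this
          have h2 := congrArg Prod.snd this
          simp only at h2
          omega
      have hsp := pval_split' (wt (cS 1 ρ s) e) π hnM
      have h1 : pval (wt (cS 1 ρ s) e) n π ≤ ρ * ∑ u ∈ range (2 * w), |e (1 + u, 0)| := by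
        have h2 := le_L (wt (cS 1 ρ s) e) (hπ.take hn)
        have h3 := L_row (k := 0) (wt (cS 1 ρ s) e) (x := 1) (y := 0) (by simp) (2 * w - 1)
        have h4 : (1 : ℤ) + ((2 * w - 1 : ℕ) : ℤ) = 2 * (w : ℤ) := by omega
        have h5 : 2 * w - 1 + 1 = 2 * w := by omega
        rw [h4, h5] at h3
        rw [hd, h3] at h2
        refine h2.trans ?_
        rw [mul_sum]
        refine sum_le_sum fun u _ => ?_
        unfold wt cS
        simp only [if_true]
        split_ifs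
        · rw [zero_mul]; positivity
        · exact le_rfl
      have hdrop := hπ.drop (n := n + 1) hnM
      have h2 : pval (wt (cS 1 ρ s) e) (M - (n + 1)) (fun i => π (n + 1 + i)) ≤
          pval (wt (cS (2 * w) ρ σ) e) (M - (n + 1)) (fun i => π (n + 1 + i)) := by
        refine pval_mono fun i hi => ?_
        have hi' : n + 1 + i ≤ M := by omega
        by_cases h0 : (π (n + 1 + i)).2 = 0
        · refine (hrow _ hi' h0).trans ?_
          have hne : (π (n + 1 + i)).1 ≠ 2 * (w : ℤ) := by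
            intro h
            have : π (n + 1 + i) = π n := by rw [hd]; exact Prod.ext h h0
            have := hπ.inj hi' hn this
            omega
          unfold wt cS
          rw [if_pos h0, if_neg hne]
        · rw [hoff _ hi' h0]
          unfold wt cS
          rw [if_neg h0]
          have := abs_nonneg (e (π (n + 1 + i)))
          split_ifs
          · nlinarith
          · linarith
      have h3 := le_L (wt (cS (2 * w) ρ σ) e) hdrop
      have h4 := L_step (k := 0) (wt (cS (2 * w) ρ σ) e) (a := (2 * (w : ℤ), 0))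
        (b := (2 * (w : ℤ), 0)) (b' := π (n + 1)) (c := (m, m - w))
        (by simp only [Adm]; omega) (by rw [← hd]; exact hπ.2.2.1 n hnM) hdrop.adm_ends
      rw [L_self _ (by simp), yt_cS_corner] at h4
      have : G (2 * w) ρ σ (m, m - w) e = L 0 (wt (cS (2 * w) ρ σ) e) (2 * (w : ℤ), 0) (m, m - w) :=
        rfl
      linarith
    · right; right
      push Not at hB
      have hY : ∀ p, 0 ≤ wt (cY r (-1) w) e p := by
        refine wt_nonneg (fun p => ?_) e
        unfold cY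
        split_ifs <;> linarith
      have h1 : pval (wt (cS 1 ρ s) e) M π ≤ pval (wt (cY r (-1) w) e) M π := by
        refine pval_mono fun n hn => ?_
        by_cases h0 : (π n).2 = 0
        · refine (hrow _ hn h0).trans ?_
          have hs := hπ.sum_eq hn
          have hlt : (π n).1 ≤ 2 * (w : ℤ) := by
            by_contra hc
            have hn' : 2 * w - 1 ≤ n := by simp only at hs; omega
            have hs' := hπ.sum_eq (hn'.trans hn)
            have hmo := (hπ.mono hn' hn).2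
            have h00 : 0 ≤ (π (2 * w - 1)).2 := (hπ.adm (hn'.trans hn)).1.2.1
            refine hB (2 * w - 1) (hn'.trans hn) (Prod.ext ?_ ?_)
            · simp only at hs' ⊢; omega
            · simp only; omega
          have h1 : 1 ≤ (π n).1 := (hπ.adm hn).1.1
          unfold wt cY
          rw [if_pos h0, if_pos (by omega)]
          exact mul_le_mul_of_nonneg_right hρr (abs_nonneg _)
        · rw [hoff _ hn h0]
          unfold wt cY
          rw [if_neg h0, one_mul]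
      have h2 := le_L (wt (cY r (-1) w) e) hπ
      have h3 := L_inner (k := 0) (a := (0, 0)) (b := (m, m - w)) hY (a' := (1, 0))
        (b' := (m, m - w)) (by simp [Adm]) hadm (by simp only [Adm]; omega)
      linarith

lemma yt_shift (m z : ℤ) (r : ℝ) (w : ℕ) (e : Env) :
    Y m r z w e = Y (m - z - 1) r (-1) w (fun p => e (p + (z + 1, 0))) := by
  unfold Y
  have h1 := L_shift (k := z + 1) (a := (0, 0)) (b := (m - z - 1, m - z - 1 - w))
    (wt (cY r z w) e) (z + 1, 0)
  have e1 : ((0, 0) : Site) + (z + 1, 0) = (z + 1, 0) := by simp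
  have e2 : ((m - z - 1, m - z - 1 - w) : Site) + (z + 1, 0) = (m, m - z - 1 - w) := by
    ext <;> simp
  rw [e1, e2] at h1
  rw [h1]
  have e3 : (fun p : Site => wt (cY r z w) e (p + (z + 1, 0))) =
      wt (cY r (-1) w) (fun p => e (p + (z + 1, 0))) := by
    funext p
    unfold wt cY
    congr 1
    simp only [Prod.snd_add, Prod.fst_add, add_zero]
    by_cases h0 : p.2 = 0
    · rw [if_pos h0, if_pos h0]
      refine if_congr ?_ rfl rfl
      constructor <;> rintro ⟨h1, h2⟩ <;> constructor <;> omega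
    · rw [if_neg h0, if_neg h0]
  rw [e3]
  have e4 : z + 1 - ((z + 1, 0) : Site).1 + ((z + 1, 0) : Site).2 = -1 + 1 := by simp
  have e5 : m - z - 1 - -1 - 1 - (w : ℤ) = m - z - 1 - w := by ring
  have e6 : ((0, 0) : Site) = (-1 + 1, 0) := by simp
  rw [e4, e5, e6]
  congr 1
  · congr 1
    refine sum_congr rfl fun u _ => ?_
    congr 3
    ext
    · simp only [Prod.fst_add]; ring
    · simp only [Prod.snd_add]; ring
  · push_cast; ring

/-- the exponent in the two moderate deviation estimates -/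
lemma yt_expo {p j x y n t K h : ℝ} (hn : 0 < n) (hK : 1 ≤ K) (ht : 256 * K ≤ t)
    (htn : t ≤ n / 8) (hp : 0 ≤ p) (hj : 0 ≤ j) (hpj : p + j ≤ 2 * n ^ 3)
    (hx : |x| ≤ t / (64 * n)) (hy : |y| ≤ t / (64 * n)) (hxy : t / (128 * n) ≤ y - x)
    (hlin : 2 * (p + j) - 2 * (p - j) * (x + y) - h ≤ K * t * n - t ^ 2 * n / 64) :
    Lam p j x y - (y - x) * h ≤ -t := by
  obtain ⟨g, hg⟩ : ∃ g, g = t / (64 * n) := ⟨_, rfl⟩
  have ht0 : 0 < t := by linarith
  have hgn : g * n = t / 64 := by rw [hg]; field_simp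
  have hg0 : 0 < g := by rw [hg]; positivity
  have hg8 : g ≤ 1 / 512 := by
    rw [hg, div_le_iff₀ (by positivity)]; linarith
  have hxy' : g / 2 ≤ y - x := by
    refine le_trans (le_of_eq ?_) hxy
    rw [hg]; field_simp; norm_num
  rw [← hg] at hx hy
  have hA := (abs_le.1 (Lam_approx hp hj (hx.trans (by linarith)) (hy.trans (by linarith)))).2
  have hx2 : x ^ 2 ≤ g ^ 2 := by rw [← sq_abs x]; gcongr
  have hy2 : y ^ 2 ≤ g ^ 2 := by rw [← sq_abs y]; gcongr
  have hq : x ^ 2 + x * y + y ^ 2 ≤ 3 * g ^ 2 := by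
    have h0 := sq_nonneg (x - y)
    have : (x - y) ^ 2 = x ^ 2 - 2 * (x * y) + y ^ 2 := by ring
    linarith
  have hx4 : x ^ 4 ≤ g ^ 4 := by
    have := pow_le_pow_left₀ (sq_nonneg x) hx2 2
    rw [← pow_mul, ← pow_mul] at this
    exact this
  have hy4 : y ^ 4 ≤ g ^ 4 := by
    have := pow_le_pow_left₀ (sq_nonneg y) hy2 2
    rw [← pow_mul, ← pow_mul] at this
    exact this
  have hq0 : 0 ≤ x ^ 2 + x * y + y ^ 2 := by
    have h0 := sq_nonneg (x + y)
    have : (x + y) ^ 2 = x ^ 2 + 2 * (x * y) + y ^ 2 := by ring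
    have := sq_nonneg x
    have := sq_nonneg y
    linarith
  have h1 : (p + j) * (x ^ 2 + x * y + y ^ 2) ≤ 2 * n ^ 3 * (3 * g ^ 2) := by gcongr
  have h1' : 2 * n ^ 3 * (3 * g ^ 2) = 6 * (t / 64) ^ 2 * n := by rw [← hgn]; ring
  have h2 : (p + j) * (x ^ 4 + y ^ 4) ≤ 2 * n ^ 3 * (2 * g ^ 4) := by
    have : x ^ 4 + y ^ 4 ≤ 2 * g ^ 4 := by linarith
    gcongr
  have h2' : 2 * n ^ 3 * (2 * g ^ 4) = 4 * (t / 64) ^ 3 * g := by rw [← hgn]; ring
  have h3 : K * t * n ≤ t ^ 2 * n / 256 := by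
    have h0 : 0 < t * n := by positivity
    have := mul_le_mul_of_nonneg_right ht h0.le
    linarith
  obtain ⟨b, hb⟩ : ∃ b, b = 2 * (p + j) - 2 * (p - j) * (x + y) +
      8 / 3 * (p + j) * (x ^ 2 + x * y + y ^ 2) - h := ⟨_, rfl⟩
  have hb1 : b ≤ -(t ^ 2 * n / 128) := by rw [hb]; linarith
  have hpos : 0 < t ^ 2 * n / 128 := by positivity
  have hb2 : (y - x) * b ≤ -(g / 2 * (t ^ 2 * n / 128)) := by
    have a1 := mul_le_mul_of_nonneg_left hb1 (show 0 ≤ y - x by linarith)
    have a2 := mul_le_mul_of_nonneg_right hxy' hpos.le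
    linarith
  have hb3 : g / 2 * (t ^ 2 * n / 128) = t ^ 3 / 16384 := by
    have : g / 2 * (t ^ 2 * n / 128) = (g * n) * t ^ 2 / 256 := by ring
    rw [this, hgn]; ring
  have h4 : 4 * (t / 64) ^ 3 * g ≤ 4 * (t / 64) ^ 3 * (1 / 512) := by gcongr
  have h5 : 65536 * t ≤ t ^ 3 := by
    have a1 : 256 ≤ t := by linarith
    have a2 := mul_le_mul_of_nonneg_right (mul_le_mul a1 a1 (by norm_num) ht0.le) ht0.le
    linarith
  have h6 : Lam p j x y - (y - x) * h ≤ (y - x) * b + 22 * ((p + j) * (x ^ 4 + y ^ 4)) := by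
    rw [hb]; linarith
  linarith

lemma yt_tele {x : ℝ} {m : ℤ} {w : ℕ} (hm : (w : ℤ) + 1 ≤ m) {Φ : Env → Env}
    (hΦ : ∀ e j, 1 ≤ j → j ≤ m → q x * |Φ e (max 1 j, j)| =
      G 1 (q (-x)) (q x) (m, j) e - G 1 (q (-x)) (q x) (m, j - 1) e) (e : Env) :
    G 1 (q (-x)) (q x) (m, m) e - G 1 (q (-x)) (q x) (m, m - w) e =
      q x * ∑ u ∈ range w, |Φ e (m - u, m - u)| := by
  induction w with
  | zero => simp
  | succ w ih =>
    have ih' := ih (by push_cast at hm; omega)
    have h := hΦ e (m - w) (by push_cast at hm; omega) (by omega)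
    rw [max_eq_right (by push_cast at hm; omega)] at h
    rw [sum_range_succ, mul_add, ← ih', h]
    have : m - ((w + 1 : ℕ) : ℤ) = m - w - 1 := by push_cast; ring
    rw [this]; ring

/-- the main estimate after shifting, for large `t` -/
lemma yt_core (hGM : S_GM) {AT BT n θ t : ℝ} {m : ℤ} {w : ℕ} (hAT : 0 < AT) (hn : 16 ≤ n)
    (hθ0 : 0 ≤ θ) (hθ : θ ≤ 1 / n) (hm1 : n ^ 3 / 2 ≤ m) (hm2 : (m : ℝ) ≤ n ^ 3)
    (hw : (w : ℝ) = t * n ^ 2) (ht : 256 * (AT + 16) ≤ t) (htn : t ≤ n / 8)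
    (hT : Tail (fun e => 4 * ((m : ℝ) - (1 : ℤ) + 1) - T (q (1 / n)) 1 m e) (AT * n) BT) :
    mu.real {e | Y m (q (-θ)) (-1) w e ≤ -((AT + 21) * t * n)} ≤ (BT + 6) * Real.exp (-t) := by
  have hn0 : 0 < n := by linarith
  have ht1 : 4096 ≤ t := by linarith
  obtain ⟨x, hx⟩ : ∃ x, x = 1 / n := ⟨_, rfl⟩
  obtain ⟨g, hg⟩ : ∃ g, g = t / (64 * n) := ⟨_, rfl⟩
  rw [← hx] at hT hθ
  have hxn : x * n = 1 := by rw [hx]; field_simp
  have hx0 : 0 < x := by rw [hx]; positivity
  have hx1 : x ≤ 1 / 16 := by rw [hx]; exact one_div_le_one_div_of_le (by norm_num) hn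
  have hgx : g = t / 64 * x := by rw [hg, hx]; field_simp
  have hg2 : t / (128 * n) = g / 2 := by rw [hg]; field_simp; norm_num
  have hgx2 : 2 * x ≤ g := by
    rw [hgx]; exact mul_le_mul_of_nonneg_right (by linarith) hx0.le
  have hg8 : g ≤ 1 / 512 := by
    rw [hg, div_le_iff₀ (by positivity)]; linarith
  have hg0 : 0 < g := by linarith
  have hwx : (w : ℝ) * x = t * n := by
    rw [hw]; calc t * n ^ 2 * x = t * n * (x * n) := by ring
      _ = t * n := by rw [hxn, mul_one]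
  have hwx2 : x ^ 2 * (w : ℝ) = t := by
    calc x ^ 2 * (w : ℝ) = x * (w * x) := by ring
      _ = t * (x * n) := by rw [hwx]; ring
      _ = t := by rw [hxn, mul_one]
  have htnx : x * (t * n) = t := by
    calc x * (t * n) = t * (x * n) := by ring
      _ = t := by rw [hxn, mul_one]
  have hwg : (w : ℝ) * g = t ^ 2 * n / 64 := by
    calc (w : ℝ) * g = t / 64 * (w * x) := by rw [hgx]; ring
      _ = t ^ 2 * n / 64 := by rw [hwx]; ring
  have htn16 : 16 * t ≤ t * n := by
    have := mul_le_mul_of_nonneg_left hn (show 0 ≤ t by linarith)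
    linarith
  have hw4 : 4 * (w : ℝ) ≤ m := by
    have := mul_le_mul_of_nonneg_right htn (sq_nonneg n)
    rw [hw]; linarith
  have hw1 : (1 : ℝ) ≤ w := by
    have : 16 * (t * n) ≤ n * (t * n) := mul_le_mul_of_nonneg_right hn (by positivity)
    rw [hw]; linarith
  have hw4' : 4 * (w : ℤ) ≤ m := by exact_mod_cast hw4
  have hw1' : 1 ≤ w := by exact_mod_cast hw1
  have hax : |x| < 1 / 2 := by rw [abs_of_pos hx0]; linarith
  have hag : |g| < 1 / 2 := by rw [abs_of_pos hg0]; linarith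
  have hang : |-g| < 1 / 2 := by rw [abs_neg]; exact hag
  obtain ⟨Φ, hΦ, -, -, hΦ2⟩ := burke hax (X := 1) (r := m) (c := m) zero_le_one (by omega)
    (by omega)
  obtain ⟨H, hH⟩ : ∃ H : ℝ, H = 4 * m - 2 * w - (AT + 10) * (t * n) := ⟨_, rfl⟩
  have p1 := hT t (by linarith)
  have p2 : mu.real (Φ ⁻¹' {e | (w : ℝ) + 2 * (t * n) ≤ ∑ u ∈ range w, |e (m - u, m - u)|}) ≤
      Real.exp (-t) := by
    refine (real_preimage_le hΦ _).trans ?_
    refine (chernoff_up w (fun u => (m - u, m - u)) (fun u _ v _ h => ?_) hx0.le (by linarith)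
      _).trans (Real.exp_le_exp.2 (by linarith))
    have := congrArg Prod.fst h
    simp only at this
    omega
  have p3 : mu.real {e : Env | ∑ u ∈ range (w + 1), |e (m + 1, m - u)| ≤
      ((w + 1 : ℕ) : ℝ) - 3 * (t * n)} ≤ Real.exp (-t) := by
    refine (chernoff_down (w + 1) (fun u => (m + 1, m - u)) (fun u _ v _ h => ?_) hx0.le
      _).trans (Real.exp_le_exp.2 ?_)
    · have := congrArg Prod.snd h
      simp only at this
      omega
    · have : x ^ 2 ≤ 1 := pow_le_one₀ hx0.le (by linarith)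
      push_cast
      linarith
  have p4 : mu.real {e | t * n ≤ G 1 (q (-x)) (q x) (m, m) e - T (q x) 1 m e} ≤
      Real.exp (-t) := by
    refine (hGM x x hax hax (by linarith) m (by omega) _).trans (Real.exp_le_exp.2 ?_)
    linarith
  have p5 : mu.real {e | H - t * n ≤ G 1 (q (-g)) (q x) (m, m - w) e} ≤ Real.exp (-t) := by
    refine (G_upper hax hag (by linarith) zero_le_one (by omega) (by omega) _).trans
      (Real.exp_le_exp.2 ?_)
    refine yt_expo (K := AT + 16) hn0 (by linarith) ht htn ?_ ?_ ?_ ?_ ?_ ?_ ?_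
    · push_cast; linarith
    · push_cast; linarith
    · push_cast; linarith
    · rw [← hg, abs_of_pos hx0]; linarith
    · rw [← hg, abs_of_pos hg0]
    · rw [hg2]; linarith
    · have : 0 ≤ t ^ 2 * n := by positivity
      rw [hH]; push_cast; linarith
  have p6 : mu.real {e : Env | ((2 * w : ℕ) : ℝ) + 3 * (t * n) ≤
      ∑ u ∈ range (2 * w), |e (1 + u, 0)|} ≤ Real.exp (-t) := by
    refine (chernoff_up (2 * w) (fun u => (1 + u, 0)) (fun u _ v _ h => ?_) hx0.le (by linarith)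
      _).trans (Real.exp_le_exp.2 ?_)
    · have := congrArg Prod.fst h
      simp only at this
      omega
    · push_cast
      linarith
  have p7 : mu.real {e | H - 4 * w - 6 * (t * n) ≤ G (2 * w) (q (-x)) (q (-g)) (m, m - w) e} ≤
      Real.exp (-t) := by
    refine (G_upper hang hax (by linarith) (by omega) (by omega) (by omega) _).trans
      (Real.exp_le_exp.2 ?_)
    refine yt_expo (K := AT + 16) hn0 (by linarith) ht htn ?_ ?_ ?_ ?_ ?_ ?_ ?_
    · push_cast; linarith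
    · push_cast; linarith
    · push_cast; linarith
    · rw [← hg, abs_neg, abs_of_pos hg0]
    · rw [← hg, abs_of_pos hx0]; linarith
    · rw [hg2]; linarith
    · have := mul_le_mul_of_nonneg_left hgx2 (show (0 : ℝ) ≤ w by linarith)
      rw [hH]; push_cast; linarith
  have hsub : {e | Y m (q (-θ)) (-1) w e ≤ -((AT + 21) * t * n)} ⊆
      {e | t * (AT * n) ≤ 4 * ((m : ℝ) - (1 : ℤ) + 1) - T (q x) 1 m e} ∪
      (Φ ⁻¹' {e | (w : ℝ) + 2 * (t * n) ≤ ∑ u ∈ range w, |e (m - u, m - u)|}) ∪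
      {e : Env | ∑ u ∈ range (w + 1), |e (m + 1, m - u)| ≤ ((w + 1 : ℕ) : ℝ) - 3 * (t * n)} ∪
      {e | t * n ≤ G 1 (q (-x)) (q x) (m, m) e - T (q x) 1 m e} ∪
      {e | H - t * n ≤ G 1 (q (-g)) (q x) (m, m - w) e} ∪
      {e : Env | ((2 * w : ℕ) : ℝ) + 3 * (t * n) ≤ ∑ u ∈ range (2 * w), |e (1 + u, 0)|} ∪
      {e | H - 4 * w - 6 * (t * n) ≤ G (2 * w) (q (-x)) (q (-g)) (m, m - w) e} := by
    intro e he
    by_contra hc
    simp only [Set.mem_union, Set.mem_ofPred_eq, Set.mem_preimage, not_or, not_le] at hc he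
    obtain ⟨⟨⟨⟨⟨⟨g1, g2⟩, g3⟩, g4⟩, g5⟩, g6⟩, g7⟩ := hc
    push_cast at g1 g3 g6
    have q0 : q 0 = 2 := by norm_num [q]
    have hr1 : q (-θ) ≤ 2 := q0 ▸ q_mono (by linarith) (by norm_num)
    have hr2 : 2 - 4 * x ≤ q (-θ) := by
      have := (q_bounds (x := -θ) (by rw [abs_neg, abs_of_nonneg hθ0]; linarith)).1
      linarith
    have hρ0 : 0 ≤ q (-x) := (q_pos (by linarith)).le
    have hρr : q (-x) ≤ q (-θ) := q_mono (by linarith) (by linarith)
    have hσ : 1 ≤ q (-g) := by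
      have := (q_bounds (x := -g) (by rw [abs_neg, abs_of_pos hg0]; linarith)).1
      linarith
    have hs : q x ≤ 2 + 5 * x := by
      have a1 := (q_bounds (x := x) (by rw [abs_of_pos hx0]; linarith)).2
      have a2 := mul_le_mul_of_nonneg_left hx1 hx0.le
      linarith
    have hs0 : 0 ≤ q x := (q_pos (by linarith)).le
    have htele := yt_tele (x := x) (m := m) (w := w) (by omega) hΦ2 e
    have hTG := yt_T_le (q (-x)) (q x) e (m := m) (by omega)
    have hS0 : 0 ≤ ∑ u ∈ range w, |Φ e (m - u, m - u)| := sum_nonneg fun _ _ => abs_nonneg _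
    have hG2 : H ≤ G 1 (q (-x)) (q x) (m, m - w) e := by
      have a1 := mul_le_mul hs g2.le hS0 (by linarith)
      rw [hH]; linarith
    have hY1 : H ≤ L 0 (wt (cY (q (-θ)) (-1) w) e) (0, 0) (m, m - w) := by
      rcases yt_det (ρ' := q (-g)) (s := q x) hρ0 hρr hσ hw1' (m := m) (by omega) e with h | h | h
      · linarith
      · have hS : 0 ≤ ∑ u ∈ range (2 * w), |e (1 + u, 0)| := sum_nonneg fun _ _ => abs_nonneg _
        have a1 := mul_le_mul (hρr.trans hr1) g6.le hS (by norm_num)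
        linarith
      · linarith
    have hcol : 2 * (w : ℝ) - 10 * (t * n) ≤ q (-θ) * ∑ u ∈ range (w + 1), |e (m + 1, m - u)| := by
      have hS : 0 ≤ ∑ u ∈ range (w + 1), |e (m + 1, m - u)| := sum_nonneg fun _ _ => abs_nonneg _
      have a1 := mul_le_mul_of_nonneg_right hr2 hS
      have a2 := mul_le_mul_of_nonneg_left g3.le (show 0 ≤ 2 - 4 * x by linarith)
      linarith
    unfold Y at he
    have e1 : (-1 + 1 : ℤ) = 0 := by norm_num
    have e2 : m - -1 - 1 = m := by ring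
    rw [e1, e2, ← mul_sum] at he
    push_cast at he
    rw [hH] at hY1
    linarith
  refine (measureReal_mono hsub).trans ?_
  refine (measureReal_union_le _ _).trans ?_
  refine (add_le_add (measureReal_union_le _ _) p7).trans ?_
  refine (add_le_add (add_le_add (measureReal_union_le _ _) p6) le_rfl).trans ?_
  refine (add_le_add (add_le_add (add_le_add (measureReal_union_le _ _) p5) le_rfl)
    le_rfl).trans ?_
  refine (add_le_add (add_le_add (add_le_add (add_le_add (measureReal_union_le _ _) p4) le_rfl)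
    le_rfl) le_rfl).trans ?_
  refine (add_le_add (add_le_add (add_le_add (add_le_add (add_le_add
    (measureReal_union_le _ _) p3) le_rfl) le_rfl) le_rfl) le_rfl).trans ?_
  linarith

theorem yt (hGM : S_GM) (hTT : S_TT) : S_YT := by
  obtain ⟨AT, BT, n0, hAT, hBT, hn0, hT⟩ := hTT 1 one_pos
  refine ⟨AT + 21, BT + 6 + Real.exp (256 * (AT + 16)), 1 / 8, max n0 16, by linarith,
    by have := Real.exp_pos (256 * (AT + 16)); linarith, by norm_num, le_rfl, ?_⟩
  intro ν hν θ hθ0 hθ m z hz hm1 hm2 t ht1 htn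
  have hν0 : n0 ≤ ν := (le_max_left _ _).trans hν
  have hν1 : (16 : ℝ) ≤ ν := (le_max_right _ _).trans hν
  have hE := Real.exp_pos (256 * (AT + 16))
  have hEt := Real.exp_pos (-(t : ℝ))
  by_cases ht : 256 * (AT + 16) ≤ t
  · have hz' : (0 : ℝ) ≤ z := by exact_mod_cast hz
    have hmz : ((m - z - 1 : ℤ) : ℝ) = m - z - 1 := by push_cast; ring
    have hν3 : (2 : ℝ) ≤ (ν : ℝ) ^ 3 := by
      have : (16 : ℝ) ^ 3 ≤ (ν : ℝ) ^ 3 := by gcongr
      linarith
    have h1m : (1 : ℤ) ≤ m - z - 1 := by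
      have : (1 : ℝ) ≤ ((m - z - 1 : ℤ) : ℝ) := by rw [hmz]; linarith
      exact_mod_cast this
    have hTt := (hT ν hν0 (1 / ν) (by rw [abs_of_nonneg (by positivity)]) 1 (m - z - 1) h1m
      (by rw [hmz]; push_cast; linarith)).2
    have hc := yt_core hGM (w := t * ν ^ 2) (m := m - z - 1) (t := t) hAT hν1 hθ0 hθ
      (by rw [hmz]; exact hm1) (by rw [hmz]; linarith) (by push_cast; ring) ht (by linarith) hTt
    have hinj : Function.Injective (fun p : Site => p + (z + 1, 0)) := add_left_injective _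
    have hpre := real_preimage_le (mp_reindex hinj)
      {e | Y (m - z - 1) (q (-θ)) (-1) (t * ν ^ 2) e ≤ -((AT + 21) * t * ν)}
    have hset : {e | Y m (q (-θ)) z (t * ν ^ 2) e ≤ -((AT + 21) * t * ν)} =
        (fun (e : Env) p => e (p + (z + 1, 0))) ⁻¹'
          {e | Y (m - z - 1) (q (-θ)) (-1) (t * ν ^ 2) e ≤ -((AT + 21) * t * ν)} := by
      ext e
      simp only [Set.mem_ofPred_eq, Set.mem_preimage]
      rw [yt_shift]
    rw [hset]
    refine (hpre.trans hc).trans ?_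
    nlinarith
  · push Not at ht
    have h1 : mu.real {e | Y m (q (-θ)) z (t * ν ^ 2) e ≤ -((AT + 21) * t * ν)} ≤ 1 :=
      measureReal_le_one
    have h2 : 1 ≤ Real.exp (256 * (AT + 16)) * Real.exp (-(t : ℝ)) := by
      rw [← Real.exp_add]
      exact Real.one_le_exp (by linarith)
    nlinarith

end Pool.Agent.P.MP_9957ef_pr
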