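import Pool.Agent.P.MP_9957ef_pr.Exp1

/-! Second order part of a likelihood ratio. -/

set_option autoImplicit false

noncomputable section

open MeasureTheory ProbabilityTheory Finset

namespace Pool.Agent.P.MP_9957ef_pr

def sg (j : Site) (κ : Site → ℝ) : Site → ℝ := fun z => if z = j then κ z else 0

def vv (a b : ℝ) : ℝ := a * b / (1 + a + b)

/-- likelihood ratio minus its parts of order zero and one -/
def Ph (R : Finset Site) (κ : Site → ℝ) (e : Env) : ℝ :=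
  (LR R κ e - 1) - ∑ j ∈ R, (LR R (sg j κ) e - 1)

variable {R : Finset Site} {κ κ' : Site → ℝ}

lemma sg_nonneg (hκ : ∀ z, 0 ≤ κ z) (j z : Site) : 0 ≤ sg j κ z := by
  unfold sg; split_ifs
  · exact hκ z
  · exact le_rfl

lemma multi_pg_M (R : Finset Site) (hκ : ∀ z, 0 ≤ κ z) : PG (fun e => LR R κ e - 1) :=
  (pg_LR R hκ).sub (pg_const 1)

lemma multi_pg_Ph (R : Finset Site) (hκ : ∀ z, 0 ≤ κ z) : PG (Ph R κ) :=
  (multi_pg_M R hκ).sub (pg_sum R fun j _ => multi_pg_M R (sg_nonneg hκ j))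

lemma multi_int_LR (R : Finset Site) (hκ : ∀ z, 0 ≤ κ z) : ∫ e, LR R κ e ∂mu = 1 := by
  have h := integral_LR_mul R hκ (κ' := fun _ => 0) (fun _ => le_rfl)
  simpa [LR] using h

lemma multi_int_M (R : Finset Site) (hκ : ∀ z, 0 ≤ κ z) : ∫ e, (LR R κ e - 1) ∂mu = 0 := by
  rw [integral_sub (pg_LR R hκ).integrable (integrable_const _), multi_int_LR R hκ]
  simp

lemma multi_int_Ph (R : Finset Site) (hκ : ∀ z, 0 ≤ κ z) : ∫ e, Ph R κ e ∂mu = 0 := by
  unfold Ph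
  rw [integral_sub (multi_pg_M R hκ).integrable
    (pg_sum R fun j _ => multi_pg_M R (sg_nonneg hκ j)).integrable,
    integral_finsetSum _ fun j _ => (multi_pg_M R (sg_nonneg hκ j)).integrable,
    multi_int_M R hκ]
  simp [multi_int_M R (sg_nonneg hκ _)]

lemma multi_MM (R : Finset Site) (hκ : ∀ z, 0 ≤ κ z) (hκ' : ∀ z, 0 ≤ κ' z) :
    ∫ e, (LR R κ e - 1) * (LR R κ' e - 1) ∂mu = ∏ z ∈ R, (1 + vv (κ z) (κ' z)) - 1 := by
  have h1 : (fun e => (LR R κ e - 1) * (LR R κ' e - 1)) =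
      fun e => (LR R κ e * LR R κ' e - LR R κ e) - (LR R κ' e - 1) := by
    funext e; ring
  rw [h1, integral_sub (((pg_LR R hκ).mul (pg_LR R hκ')).sub (pg_LR R hκ)).integrable
    (multi_pg_M R hκ').integrable,
    integral_sub ((pg_LR R hκ).mul (pg_LR R hκ')).integrable (pg_LR R hκ).integrable,
    multi_int_M R hκ', multi_int_LR R hκ, integral_LR_mul R hκ hκ']
  simp [vv]

lemma multi_prod_sg_right {j : Site} (hj : j ∈ R) (κ κ' : Site → ℝ) :
    ∏ z ∈ R, (1 + vv (κ z) (sg j κ' z)) - 1 = vv (κ j) (κ' j) := by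
  rw [Finset.prod_eq_single j]
  · simp [sg]
  · intro z _ hz; simp [sg, hz, vv]
  · intro h; exact absurd hj h

lemma multi_prod_sg_left {j : Site} (hj : j ∈ R) (κ κ' : Site → ℝ) :
    ∏ z ∈ R, (1 + vv (sg j κ z) (κ' z)) - 1 = vv (κ j) (κ' j) := by
  rw [Finset.prod_eq_single j]
  · simp [sg]
  · intro z _ hz; simp [sg, hz, vv]
  · intro h; exact absurd hj h

lemma multi_inner (R : Finset Site) (hκ : ∀ z, 0 ≤ κ z) (hκ' : ∀ z, 0 ≤ κ' z) :
    ∫ e, Ph R κ e * Ph R κ' e ∂mu =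
      ∏ z ∈ R, (1 + vv (κ z) (κ' z)) - 1 - ∑ z ∈ R, vv (κ z) (κ' z) := by
  have key : ∀ {ρ : Site → ℝ}, (∀ z, 0 ≤ ρ z) →
      ∫ e, (LR R ρ e - 1) * Ph R κ' e ∂mu =
        ∏ z ∈ R, (1 + vv (ρ z) (κ' z)) - 1 - ∑ z ∈ R, vv (ρ z) (κ' z) := by
    intro ρ hρ
    have h1 : (fun e => (LR R ρ e - 1) * Ph R κ' e) = fun e =>
        (LR R ρ e - 1) * (LR R κ' e - 1) -
          ∑ j ∈ R, (LR R ρ e - 1) * (LR R (sg j κ') e - 1) := by
      funext e; unfold Ph; rw [mul_sub, Finset.mul_sum]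
    rw [h1, integral_sub ((multi_pg_M R hρ).mul (multi_pg_M R hκ')).integrable
      (pg_sum R fun j _ => (multi_pg_M R hρ).mul (multi_pg_M R (sg_nonneg hκ' j))).integrable,
      integral_finsetSum _ fun j _ =>
        ((multi_pg_M R hρ).mul (multi_pg_M R (sg_nonneg hκ' j))).integrable,
      multi_MM R hρ hκ']
    congr 1
    refine Finset.sum_congr rfl fun j hj => ?_
    rw [multi_MM R hρ (sg_nonneg hκ' j), multi_prod_sg_right hj]
  have h1 : (fun e => Ph R κ e * Ph R κ' e) = fun e =>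
      (LR R κ e - 1) * Ph R κ' e - ∑ j ∈ R, (LR R (sg j κ) e - 1) * Ph R κ' e := by
    funext e
    have : Ph R κ e = (LR R κ e - 1) - ∑ j ∈ R, (LR R (sg j κ) e - 1) := rfl
    rw [this, sub_mul, Finset.sum_mul]
  rw [h1, integral_sub ((multi_pg_M R hκ).mul (multi_pg_Ph R hκ')).integrable
    (pg_sum R fun j _ => (multi_pg_M R (sg_nonneg hκ j)).mul (multi_pg_Ph R hκ')).integrable,
    integral_finsetSum _ fun j _ =>
      ((multi_pg_M R (sg_nonneg hκ j)).mul (multi_pg_Ph R hκ')).integrable, key hκ]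
  have h0 : ∑ j ∈ R, ∫ e, (LR R (sg j κ) e - 1) * Ph R κ' e ∂mu = 0 := by
    refine Finset.sum_eq_zero fun j hj => ?_
    rw [key (sg_nonneg hκ j), multi_prod_sg_left hj, Finset.sum_eq_single j]
    · simp [sg]
    · intro z _ hz; simp [sg, hz, vv]
    · intro h; exact absurd hj h
  rw [h0, sub_zero]

lemma multi_exp_quad {u : ℝ} (hu : 0 ≤ u) : Real.exp u - 1 - u ≤ u ^ 2 * Real.exp u := by
  have h1 : 1 - u ≤ Real.exp (-u) := by have := Real.add_one_le_exp (-u); linarith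
  have h2 : Real.exp u * Real.exp (-u) = 1 := by rw [← Real.exp_add]; simp
  have h3 : 0 < Real.exp u := Real.exp_pos u
  have h4 : Real.exp u - 1 ≤ u * Real.exp u := by nlinarith
  nlinarith

lemma multi_inner_le (R : Finset Site) (hκ : ∀ z, 0 ≤ κ z) (hκ' : ∀ z, 0 ≤ κ' z) {σ C : ℝ}
    (h1 : ∑ z ∈ R, κ z * κ' z ≤ σ) (h2 : σ ≤ C) :
    ∫ e, Ph R κ e * Ph R κ' e ∂mu ≤ σ ^ 2 * Real.exp C := by
  rw [multi_inner R hκ hκ']
  have hv0 : ∀ z, 0 ≤ vv (κ z) (κ' z) := fun z => by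
    have := hκ z; have := hκ' z; unfold vv; positivity
  have hv1 : ∀ z, vv (κ z) (κ' z) ≤ κ z * κ' z := fun z => by
    have h := hκ z; have h' := hκ' z
    exact div_le_self (mul_nonneg h h') (by linarith)
  have hp : ∏ z ∈ R, (1 + vv (κ z) (κ' z)) ≤ Real.exp (∑ z ∈ R, vv (κ z) (κ' z)) := by
    rw [Real.exp_sum]
    refine Finset.prod_le_prod (fun z _ => by have := hv0 z; linarith) fun z _ => ?_
    have := Real.add_one_le_exp (vv (κ z) (κ' z)); linarith
  have hs0 : 0 ≤ ∑ z ∈ R, vv (κ z) (κ' z) := Finset.sum_nonneg fun z _ => hv0 z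
  have hs1 : ∑ z ∈ R, vv (κ z) (κ' z) ≤ σ := (Finset.sum_le_sum fun z _ => hv1 z).trans h1
  have hq := multi_exp_quad hs0
  have : (∑ z ∈ R, vv (κ z) (κ' z)) ^ 2 * Real.exp (∑ z ∈ R, vv (κ z) (κ' z)) ≤
      σ ^ 2 * Real.exp C :=
    mul_le_mul (pow_le_pow_left₀ hs0 hs1 2) (Real.exp_le_exp.2 (hs1.trans h2))
      (Real.exp_pos _).le (sq_nonneg _)
  linarith

lemma multi_tilt_sg {j : Site} (hj : j ∈ R) (κ : Site → ℝ) (e : Env) :
    tilt R (sg j κ) e = Function.update e j (e j / (1 + κ j)) := by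
  funext z
  by_cases h : z = j
  · subst h; simp [tilt, sg, hj]
  · simp [tilt, sg, h]

/-- correlation of a hinge function with the second order part -/
lemma multi_corr {g Ξ : Env → ℝ} {s : ℝ} (hs : 0 < s) (hg : PG g) (hh : ∀ i ∈ R, Hinge s g i)
    (hκ : ∀ z, 0 ≤ κ z) (hκ1 : ∀ z, κ z ≤ 1) (hΞ : PG Ξ)
    (h1 : ∀ e, g e - g (tilt R κ e) ≤ Ξ e) :
    s / 2 * ∑ j ∈ R, κ j * ∫ e, iV g j e ∂mu - ∫ e, Ξ e ∂mu ≤ ∫ e, g e * Ph R κ e ∂mu := by
  have key : ∀ {ρ : Site → ℝ}, (∀ z, 0 ≤ ρ z) →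
      ∫ e, g e * (LR R ρ e - 1) ∂mu = - ∫ e, (g e - g (tilt R ρ e)) ∂mu := by
    intro ρ hρ
    have h1 : (fun e => g e * (LR R ρ e - 1)) = fun e => LR R ρ e * g e - g e := by
      funext e; ring
    rw [h1, integral_sub ((pg_LR R hρ).mul hg).integrable hg.integrable,
      integral_sub hg.integrable (hg.tilt R hρ).integrable, integral_tilt R hρ hg]
    ring
  have h2 : (fun e => g e * Ph R κ e) = fun e =>
      g e * (LR R κ e - 1) - ∑ j ∈ R, g e * (LR R (sg j κ) e - 1) := by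
    funext e; unfold Ph; rw [mul_sub, Finset.mul_sum]
  rw [h2, integral_sub (hg.mul (multi_pg_M R hκ)).integrable
    (pg_sum R fun j _ => hg.mul (multi_pg_M R (sg_nonneg hκ j))).integrable,
    integral_finsetSum _ fun j _ => (hg.mul (multi_pg_M R (sg_nonneg hκ j))).integrable, key hκ]
  have h3 : ∫ e, (g e - g (tilt R κ e)) ∂mu ≤ ∫ e, Ξ e ∂mu :=
    integral_mono (hg.sub (hg.tilt R hκ)).integrable hΞ.integrable h1
  have h4 : ∀ j ∈ R, ∫ e, g e * (LR R (sg j κ) e - 1) ∂mu ≤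
      -(s / 2 * (κ j * ∫ e, iV g j e ∂mu)) := by
    intro j hj
    rw [key (sg_nonneg hκ j), neg_le_neg_iff]
    have hp : PG (fun e => g e - g (Function.update e j (e j / (1 + κ j)))) := by
      have := hg.sub (hg.tilt R (sg_nonneg hκ j))
      simpa only [multi_tilt_sg hj] using this
    have h5 : ∫ e, s * (κ j / (1 + κ j)) * cE {j} (iV g j) e ∂mu ≤
        ∫ e, cE {j} (fun e => g e - g (Function.update e j (e j / (1 + κ j)))) e ∂mu :=
      integral_mono (((hg.iV j).cE _).const_mul _).integrable (hp.cE _).integrable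
        fun e => hinge_tilt (hh j hj) hs hg.measurable (hκ j) e
    rw [integral_const_mul, integral_cE _ (hg.iV j), integral_cE _ hp] at h5
    simp only [multi_tilt_sg hj]
    refine le_trans ?_ h5
    have hI : 0 ≤ ∫ e, iV g j e ∂mu := integral_nonneg fun e => by
      unfold iV; split_ifs <;> norm_num
    have h6 : κ j / 2 ≤ κ j / (1 + κ j) :=
      div_le_div_of_nonneg_left (hκ j) (by have := hκ j; linarith) (by have := hκ1 j; linarith)
    have h7 := mul_le_mul_of_nonneg_right (mul_le_mul_of_nonneg_left h6 hs.le) hI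
    nlinarith
  have h8 := Finset.sum_le_sum h4
  rw [Finset.sum_neg_distrib, ← Finset.mul_sum] at h8
  linarith

end Pool.Agent.P.MP_9957ef_pr
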