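import Pool.Agent.P.MP_9957ef_pr.Multi1

/-! The multiscale overlap bound for a fixed outer environment. -/

set_option autoImplicit false

noncomputable section

open MeasureTheory ProbabilityTheory Finset

namespace Pool.Agent.P.MP_9957ef_pr

lemma multi_geom (S k : ℕ) {ν : ℝ} (hν : 0 < ν) :
    ∑ k' ∈ range S, (if k ≤ k' then 1 / (2 ^ k' * ν) else 0) ≤ 2 / (2 ^ k * ν) := by
  have h1 : ∑ k' ∈ range S, (if k ≤ k' then 1 / (2 ^ k' * ν) else 0) =
      (∑ k' ∈ Ico k S, (1 / 2 : ℝ) ^ k') / ν := by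
    rw [← Finset.sum_filter, Finset.sum_div]
    refine Finset.sum_congr ?_ fun k' _ => ?_
    · ext k'; simp [and_comm]
    · rw [one_div_pow, div_div]
  rw [h1]
  have h2 : ∑ k' ∈ Ico k S, (1 / 2 : ℝ) ^ k' ≤ (1 / 2) ^ k / (1 - 1 / 2) :=
    geom_sum_Ico_le_of_lt_one (by norm_num) (by norm_num)
  calc (∑ k' ∈ Ico k S, (1 / 2 : ℝ) ^ k') / ν ≤ ((1 / 2) ^ k / (1 - 1 / 2)) / ν :=
        div_le_div_of_nonneg_right h2 hν.le
    _ = 2 / (2 ^ k * ν) := by rw [one_div_pow]; field_simp; norm_num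

section comb

variable (R : Finset Site) (blk : ℕ → Site → ℕ) (p : Site → ℝ)

/-- square mass of a block -/
def mx (k b : ℕ) : ℝ := ∑ i ∈ R.filter (fun i => blk k i = b), p i ^ 2

/-- square mass of the intersection of two blocks -/
def mxc (k b k' b' : ℕ) : ℝ :=
  ∑ i ∈ (R.filter (fun i => blk k i = b)).filter (fun i => blk k' i = b'), p i ^ 2

lemma mx_nonneg (k b : ℕ) : 0 ≤ mx R blk p k b := Finset.sum_nonneg fun _ _ => sq_nonneg _

lemma mxc_nonneg (k b k' b' : ℕ) : 0 ≤ mxc R blk p k b k' b' :=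
  Finset.sum_nonneg fun _ _ => sq_nonneg _

lemma mxc_comm (k b k' b' : ℕ) : mxc R blk p k b k' b' = mxc R blk p k' b' k b := by
  unfold mxc; rw [Finset.filter_comm]

lemma mxc_le (k b k' b' : ℕ) : mxc R blk p k b k' b' ≤ mx R blk p k b :=
  Finset.sum_le_sum_of_subset_of_nonneg (Finset.filter_subset _ _) fun _ _ _ => sq_nonneg _

lemma sum_mxc {k' n : ℕ} (h : ∀ i ∈ R, blk k' i < n) (k b : ℕ) :
    ∑ b' ∈ range n, mxc R blk p k b k' b' = mx R blk p k b :=
  Finset.sum_fiberwise_of_maps_to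
    (fun i hi => Finset.mem_range.2 (h i (Finset.mem_filter.1 hi).1)) _

lemma sum_mx {k n : ℕ} (h : ∀ i ∈ R, blk k i < n) :
    ∑ b ∈ range n, mx R blk p k b = ∑ i ∈ R, p i ^ 2 :=
  Finset.sum_fiberwise_of_maps_to (fun i hi => Finset.mem_range.2 (h i hi)) _

lemma multi_comb {S : ℕ} {nb : ℕ → ℕ} (hb : ∀ k < S, ∀ i ∈ R, blk k i < nb k) {τ ν : ℝ}
    (hτ : 0 < τ) (hν : 0 < ν) (w : ℕ → ℕ → ℕ → ℕ → ℝ)
    (hw : ∀ k b k' b', w k b k' b' ≤
      mxc R blk p k b k' b' * √(mx R blk p k b) / (τ * (2 ^ k' * ν)))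
    (hsym : ∀ k b k' b', w k b k' b' = w k' b' k b) :
    ∑ t ∈ (range S).sigma (fun k => range (nb k)), ∑ t' ∈ (range S).sigma (fun k => range (nb k)),
      w t.1 t.2 t'.1 t'.2 ≤
      4 / τ * ∑ t ∈ (range S).sigma (fun k => range (nb k)),
        mx R blk p t.1 t.2 * √(mx R blk p t.1 t.2) / (2 ^ t.1 * ν) := by
  set T := (range S).sigma (fun k => range (nb k)) with hT
  set u : (Σ _ : ℕ, ℕ) → (Σ _ : ℕ, ℕ) → ℝ := fun t t' => if t.1 ≤ t'.1 then
    mxc R blk p t.1 t.2 t'.1 t'.2 * √(mx R blk p t.1 t.2) / (τ * (2 ^ t'.1 * ν)) else 0 with hu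
  have hu0 : ∀ t t', 0 ≤ u t t' := fun t t' => by
    have := mxc_nonneg R blk p t.1 t.2 t'.1 t'.2
    simp only [hu]; split_ifs
    · positivity
    · exact le_rfl
  have h1 : ∀ t t' : (Σ _ : ℕ, ℕ), w t.1 t.2 t'.1 t'.2 ≤ u t t' + u t' t := by
    intro t t'
    rcases le_total t.1 t'.1 with h | h
    · have : u t t' = _ := if_pos h
      have h2 := hw t.1 t.2 t'.1 t'.2
      have h3 := hu0 t' t
      linarith
    · have : u t' t = _ := if_pos h
      have h2 := hw t'.1 t'.2 t.1 t.2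
      have h3 := hu0 t t'
      rw [hsym]; linarith
  have h2 : ∀ t ∈ T, ∑ t' ∈ T, u t t' ≤
      2 / τ * (mx R blk p t.1 t.2 * √(mx R blk p t.1 t.2) / (2 ^ t.1 * ν)) := by
    intro t _
    have hx := mx_nonneg R blk p t.1 t.2
    rw [hT, Finset.sum_sigma]
    have h3 : ∀ k' ∈ range S, ∑ b' ∈ range (nb k'), u t ⟨k', b'⟩ =
        mx R blk p t.1 t.2 * √(mx R blk p t.1 t.2) / τ *
          (if t.1 ≤ k' then 1 / (2 ^ k' * ν) else 0) := by
      intro k' hk'
      simp only [hu]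
      split_ifs
      · rw [← Finset.sum_div, ← Finset.sum_mul, sum_mxc R blk p (hb k' (Finset.mem_range.1 hk'))]
        field_simp
      · simp
    rw [Finset.sum_congr rfl h3, ← Finset.mul_sum]
    calc _ ≤ mx R blk p t.1 t.2 * √(mx R blk p t.1 t.2) / τ * (2 / (2 ^ t.1 * ν)) :=
          mul_le_mul_of_nonneg_left (multi_geom S t.1 hν) (by positivity)
      _ = _ := by field_simp
  calc ∑ t ∈ T, ∑ t' ∈ T, w t.1 t.2 t'.1 t'.2 ≤ ∑ t ∈ T, ∑ t' ∈ T, (u t t' + u t' t) :=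
        Finset.sum_le_sum fun t _ => Finset.sum_le_sum fun t' _ => h1 t t'
    _ = 2 * ∑ t ∈ T, ∑ t' ∈ T, u t t' := by
        simp only [Finset.sum_add_distrib]
        rw [Finset.sum_comm (f := fun t t' => u t' t)]; ring
    _ ≤ 2 * ∑ t ∈ T, 2 / τ * (mx R blk p t.1 t.2 * √(mx R blk p t.1 t.2) / (2 ^ t.1 * ν)) :=
        mul_le_mul_of_nonneg_left (Finset.sum_le_sum h2) (by norm_num)
    _ = _ := by rw [← Finset.mul_sum]; ring

end comb

lemma multi_iV_nonneg (g : Env → ℝ) (i : Site) (e : Env) : 0 ≤ iV g i e := by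
  unfold iV; split_ifs <;> norm_num

lemma multi_iV_le_one (g : Env → ℝ) (i : Site) (e : Env) : iV g i e ≤ 1 := by
  unfold iV; split_ifs <;> norm_num

lemma multi_pg_wiV {g : Env → ℝ} (hg : PG g) (i : Site) : PG (fun e => |e i| * iV g i e) :=
  (pg_coord i).abs.mul (hg.iV i)

lemma multi_iV_le {g : Env → ℝ} {s : ℝ} {i : Site} (hs : 0 < s) (hg : PG g) (h : Hinge s g i) :
    ∫ e, iV g i e ∂mu ≤ ∫ e, |e i| * iV g i e ∂mu := by
  rw [← integral_cE {i} (hg.iV i), ← integral_cE {i} (multi_pg_wiV hg i)]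
  exact integral_mono ((hg.iV i).cE _).integrable ((multi_pg_wiV hg i).cE _).integrable
    fun e => hinge_le h hs hg.measurable e

lemma multi_cs {g Q : Env → ℝ} (hg : PG g) (hQ : PG Q) (h0 : ∫ e, Q e ∂mu = 0) (m : ℝ) {ρ : ℝ}
    (hρ : 0 < ρ) : ∫ e, g e * Q e ∂mu ≤
      ρ / 2 * ∫ e, (g e - m) ^ 2 ∂mu + 1 / (2 * ρ) * ∫ e, Q e ^ 2 ∂mu := by
  have h1 : ∫ e, g e * Q e ∂mu = ∫ e, (g e * Q e - m * Q e) ∂mu := by
    rw [integral_sub (hg.mul hQ).integrable (hQ.const_mul m).integrable, integral_const_mul, h0]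
    simp
  have ha := ((hg.sub (pg_const m)).pow 2).const_mul (ρ / 2)
  have hb := (hQ.pow 2).const_mul (1 / (2 * ρ))
  rw [h1, ← integral_const_mul, ← integral_const_mul, ← integral_add ha.integrable hb.integrable]
  refine integral_mono ((hg.mul hQ).sub (hQ.const_mul m)).integrable (ha.add hb).integrable
    fun e => ?_
  have h2 : ρ / 2 * (g e - m) ^ 2 + 1 / (2 * ρ) * Q e ^ 2 - (g e * Q e - m * Q e) =
      (ρ * (g e - m) - Q e) ^ 2 / (2 * ρ) := by field_simp; ring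
  have h3 : 0 ≤ (ρ * (g e - m) - Q e) ^ 2 / (2 * ρ) := by positivity
  show g e * Q e - m * Q e ≤ ρ / 2 * (g e - m) ^ 2 + 1 / (2 * ρ) * Q e ^ 2
  linarith

lemma multi_core {g : Env → ℝ} {R : Finset Site} {s K τ ν ρ : ℝ} {S : ℕ} {blk : ℕ → Site → ℕ}
    {nb : ℕ → ℕ} {Ξ χ : ℕ → ℕ → Env → ℝ} (hs : 1 ≤ s) (hK : 0 < K) (hτ : 0 < τ) (hρ : 0 < ρ)
    (hν : K ≤ τ * ν) (hg : PG g) (hh : ∀ i ∈ R, Hinge s g i)
    (hb : ∀ k < S, ∀ i ∈ R, blk k i < nb k)
    (hΞ : ∀ k < S, ∀ b < nb k, PG (Ξ k b) ∧ PG (χ k b) ∧ ∀ e, 0 ≤ χ k b e)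
    (h1 : ∀ k < S, ∀ b < nb k, ∀ e e' : Env, (∀ z, |e' z| ≤ |e z|) →
      (∀ z, ¬ (z ∈ R ∧ blk k z = b) → e' z = e z) → g e - g e' ≤ Ξ k b e)
    (h2 : ∀ k < S, ∀ b < nb k, ∀ e, ∑ i ∈ R.filter (fun i => blk k i = b), |e i| * iV g i e ≤
      2 ^ k * ν * Ξ k b e)
    (h3 : ∀ k < S, ∀ i ∈ R, ∀ e, iV g i e ≤ χ k (blk k i) e) (m : ℝ) :
    S * ∑ i ∈ R, (∫ e, iV g i e ∂mu) ^ 2 ≤
      τ / 2 * ∑ k ∈ range S, ((2 ^ k * ν) ^ 2 * ∑ b ∈ range (nb k), ∫ e, χ k b e ∂mu +
        ∑ i ∈ R, ∫ e, iV g i e ∂mu) +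
      2 * ρ / K * ∫ e, (g e - m) ^ 2 ∂mu +
      4 * (K ^ 4 * Real.exp (K ^ 2)) / (K * ρ * τ) *
        (∑ k ∈ range S, ∑ b ∈ range (nb k), (∫ e, Ξ k b e ∂mu) ^ 2 +
          S * ∑ i ∈ R, (∫ e, iV g i e ∂mu) ^ 2) +
      4 / K ^ 2 * ∑ k ∈ range S, ∑ b ∈ range (nb k), (∫ e, Ξ k b e ∂mu) ^ 2 := by
  classical
  have hs0 : 0 < s := by linarith
  have hν0 : 0 < ν := by
    by_contra h
    have := mul_nonpos_of_nonneg_of_nonpos hτ.le (not_lt.1 h)
    linarith
  set p : Site → ℝ := fun i => ∫ e, iV g i e ∂mu with hp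
  have hp0 : ∀ i, 0 ≤ p i := fun i => integral_nonneg (multi_iV_nonneg g i)
  have hp1 : ∀ i, p i ≤ 1 := fun i => by
    have := integral_mono (hg.iV i).integrable (integrable_const (1 : ℝ)) (multi_iV_le_one g i)
    simpa using this
  set x := mx R blk p with hx
  have hx0 : ∀ k b, 0 ≤ x k b := mx_nonneg R blk p
  set y : ℕ → ℕ → ℝ := fun k b => √(x k b) with hy
  have hy0 : ∀ k b, 0 ≤ y k b := fun k b => Real.sqrt_nonneg _
  have hyy : ∀ k b, y k b * y k b = x k b := fun k b => Real.mul_self_sqrt (hx0 k b)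
  have hμ : ∀ k : ℕ, ν ≤ 2 ^ k * ν := fun k =>
    le_mul_of_one_le_left hν0.le (one_le_pow₀ (by norm_num))
  have hμ0 : ∀ k : ℕ, 0 < 2 ^ k * ν := fun k => by positivity
  set sel : ℕ → ℕ → Prop := fun k b => τ * (2 ^ k * ν) ≤ y k b with hsel
  have hselK : ∀ k b, sel k b → K ≤ y k b := fun k b h =>
    hν.trans ((mul_le_mul_of_nonneg_left (hμ k) hτ.le).trans h)
  set κ : ℕ → ℕ → Site → ℝ := fun k b i =>
    if sel k b ∧ i ∈ R ∧ blk k i = b then K * p i / y k b else 0 with hκ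
  have hκ0 : ∀ k b z, 0 ≤ κ k b z := fun k b z => by
    have := hp0 z; have := hy0 k b
    simp only [hκ]; split_ifs
    · positivity
    · exact le_rfl
  have hκ1 : ∀ k b z, κ k b z ≤ 1 := fun k b z => by
    simp only [hκ]; split_ifs with h
    · have h4 := hselK k b h.1
      rw [div_le_one (hK.trans_le h4)]
      exact (mul_le_of_le_one_right hK.le (hp1 z)).trans h4
    · norm_num
  set lam : ℕ → ℕ → ℝ := fun k b => if sel k b then y k b else 0 with hlam
  have hlam0 : ∀ k b, 0 ≤ lam k b := fun k b => by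
    simp only [hlam]; split_ifs
    · exact hy0 k b
    · exact le_rfl
  set a : ℕ → ℕ → ℝ := fun k b => ∫ e, Ξ k b e ∂mu with ha
  set π : ℕ → ℕ → ℝ := fun k b => ∫ e, χ k b e ∂mu with hπ
  set n : ℕ → ℕ → ℝ := fun k b => ∑ i ∈ R.filter (fun i => blk k i = b), p i with hn
  have hn0 : ∀ k b, 0 ≤ n k b := fun k b => Finset.sum_nonneg fun i _ => hp0 i
  set T := (range S).sigma (fun k => range (nb k)) with hT
  have hTm : ∀ t ∈ T, t.1 < S ∧ t.2 < nb t.1 := fun t ht => by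
    simpa [hT] using ht
  have hπ0 : ∀ k < S, ∀ b < nb k, 0 ≤ π k b := fun k hk b hb' =>
    integral_nonneg (hΞ k hk b hb').2.2
  -- mass of a block versus the mean of `Ξ`
  have hxa : ∀ k < S, ∀ b < nb k, x k b ≤ 2 ^ k * ν * a k b := by
    intro k hk b hb'
    calc x k b ≤ ∑ i ∈ R.filter (fun i => blk k i = b), ∫ e, |e i| * iV g i e ∂mu := by
          refine Finset.sum_le_sum fun i hi => ?_
          have h4 := multi_iV_le hs0 hg (hh i (Finset.mem_filter.1 hi).1)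
          have h5 := hp0 i
          have h6 := hp1 i
          have h7 : p i ^ 2 ≤ p i := by nlinarith
          exact h7.trans h4
      _ = ∫ e, ∑ i ∈ R.filter (fun i => blk k i = b), |e i| * iV g i e ∂mu :=
          (integral_finsetSum _ fun i _ => (multi_pg_wiV hg i).integrable).symm
      _ ≤ ∫ e, 2 ^ k * ν * Ξ k b e ∂mu :=
          integral_mono (pg_sum _ fun i _ => multi_pg_wiV hg i).integrable
            ((hΞ k hk b hb').1.const_mul _).integrable (h2 k hk b hb')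
      _ = _ := integral_const_mul _ _
  have hxπ : ∀ k < S, ∀ b < nb k, x k b ≤ π k b * n k b := by
    intro k hk b hb'
    simp only [hn]
    rw [Finset.mul_sum]
    refine Finset.sum_le_sum fun i hi => ?_
    obtain ⟨hi1, hi2⟩ := Finset.mem_filter.1 hi
    have h4 : p i ≤ π k b := integral_mono (hg.iV i).integrable (hΞ k hk b hb').2.1.integrable
      fun e => by have := h3 k hk i hi1 e; rwa [hi2] at this
    have := hp0 i
    nlinarith
  -- one block
  have hone : ∀ t ∈ T, x t.1 t.2 ≤ τ / 2 * ((2 ^ t.1 * ν) ^ 2 * π t.1 t.2 + n t.1 t.2) +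
      4 / K * (lam t.1 t.2 * ∫ e, g e * Ph R (κ t.1 t.2) e ∂mu) + 4 / K ^ 2 * a t.1 t.2 ^ 2 := by
    rintro ⟨k, b⟩ ht
    obtain ⟨hk, hb'⟩ := hTm _ ht
    simp only at hk hb' ⊢
    have hπ' := hπ0 k hk b hb'
    have hn' := hn0 k b
    have hA : 0 ≤ τ / 2 * ((2 ^ k * ν) ^ 2 * π k b + n k b) := by positivity
    by_cases h : sel k b
    · have hyp : 0 < y k b := hK.trans_le (hselK k b h)
      have hc := multi_corr hs0 hg hh (hκ0 k b) (hκ1 k b) (hΞ k hk b hb').1 fun e => by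
        refine h1 k hk b hb' e _ (fun z => ?_) fun z hz => ?_
        · unfold tilt; split_ifs
          · have h5 := hκ0 k b z
            rw [abs_div, abs_of_pos (by linarith : 0 < 1 + κ k b z)]
            exact div_le_self (abs_nonneg _) (by linarith)
          · exact le_rfl
        · have h5 : κ k b z = 0 := if_neg fun h' => hz h'.2
          unfold tilt; rw [h5]; simp
      have hsum : ∑ j ∈ R, κ k b j * ∫ e, iV g j e ∂mu = K * y k b := by
        have h5 : ∀ j ∈ R, κ k b j * ∫ e, iV g j e ∂mu =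
            if blk k j = b then K / y k b * p j ^ 2 else 0 := by
          intro j hj
          simp only [hκ, h, hj, true_and]
          split_ifs
          · show K * p j / y k b * p j = _; ring
          · simp
        rw [Finset.sum_congr rfl h5, ← Finset.sum_filter, ← Finset.mul_sum]
        show K / y k b * x k b = _
        rw [← hyy]; field_simp
      rw [hsum] at hc
      have hl : lam k b = y k b := if_pos h
      rw [hl]
      set I := ∫ e, g e * Ph R (κ k b) e ∂mu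
      have h5 : K / 2 * y k b - a k b ≤ I := by
        have : K * y k b ≤ s * (K * y k b) := le_mul_of_one_le_left (by positivity) hs
        have h6 : (∫ e, Ξ k b e ∂mu) = a k b := rfl
        linarith
      have h6 : 4 / K * (y k b * (K / 2 * y k b - a k b)) ≤ 4 / K * (y k b * I) :=
        mul_le_mul_of_nonneg_left (mul_le_mul_of_nonneg_left h5 hyp.le) (by positivity)
      have h7 : 4 / K * (y k b * (K / 2 * y k b - a k b)) + 4 / K ^ 2 * a k b ^ 2 -
          y k b * y k b = (y k b - 2 * a k b / K) ^ 2 := by field_simp; ring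
      have h8 := sq_nonneg (y k b - 2 * a k b / K)
      rw [← hyy]; linarith
    · have hl : lam k b = 0 := if_neg h
      rw [hl]
      have h4 : y k b < τ * (2 ^ k * ν) := not_le.1 h
      have h5 : x k b ≤ (τ * (2 ^ k * ν)) ^ 2 := by
        rw [← hyy, sq]; exact mul_le_mul h4.le h4.le (hy0 k b) ((hy0 k b).trans h4.le)
      have h6 := hxπ k hk b hb'
      have h7 : x k b ≤ τ / 2 * ((2 ^ k * ν) ^ 2 * π k b + n k b) := by
        refine abs_le_of_sq_le_sq' ?_ hA |>.2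
        have h8 : x k b ^ 2 ≤ (τ * (2 ^ k * ν)) ^ 2 * (π k b * n k b) := by
          rw [sq]; exact mul_le_mul h5 h6 (hx0 k b) (sq_nonneg _)
        have h9 := sq_nonneg (τ / 2 * ((2 ^ k * ν) ^ 2 * π k b - n k b))
        nlinarith
      have h8 : 0 ≤ 4 / K ^ 2 * a k b ^ 2 := by positivity
      simp only [zero_mul, mul_zero, add_zero]
      linarith
  -- the test function
  set Q : Env → ℝ := fun e => ∑ t ∈ T, lam t.1 t.2 * Ph R (κ t.1 t.2) e with hQ
  have hPh : ∀ t : (Σ _ : ℕ, ℕ), PG (fun e => lam t.1 t.2 * Ph R (κ t.1 t.2) e) := fun t =>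
    (multi_pg_Ph R (hκ0 t.1 t.2)).const_mul _
  have hQp : PG Q := pg_sum T fun t _ => hPh t
  have hQ0 : ∫ e, Q e ∂mu = 0 := by
    simp only [hQ]
    rw [integral_finsetSum _ fun t _ => (hPh t).integrable]
    refine Finset.sum_eq_zero fun t _ => ?_
    rw [integral_const_mul, multi_int_Ph R (hκ0 t.1 t.2), mul_zero]
  have hgQ : ∫ e, g e * Q e ∂mu =
      ∑ t ∈ T, lam t.1 t.2 * ∫ e, g e * Ph R (κ t.1 t.2) e ∂mu := by
    simp only [hQ, Finset.mul_sum]
    rw [integral_finsetSum _ fun t _ => (hg.mul (hPh t)).integrable]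
    refine Finset.sum_congr rfl fun t _ => ?_
    rw [← integral_const_mul]
    congr 1; funext e; ring
  set C := K ^ 4 * Real.exp (K ^ 2) with hC
  have hC0 : 0 < C := by positivity
  set w : ℕ → ℕ → ℕ → ℕ → ℝ := fun k b k' b' =>
    if sel k b ∧ sel k' b' then mxc R blk p k b k' b' ^ 2 / (y k b * y k' b') else 0 with hw
  have hpair : ∀ k b k' b', lam k b * lam k' b' * ∫ e, Ph R (κ k b) e * Ph R (κ k' b') e ∂mu ≤
      C * w k b k' b' := by
    intro k b k' b'
    by_cases h : sel k b ∧ sel k' b'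
    · have hy1 : 0 < y k b := hK.trans_le (hselK k b h.1)
      have hy2 : 0 < y k' b' := hK.trans_le (hselK k' b' h.2)
      have hσ : ∑ z ∈ R, κ k b z * κ k' b' z =
          K ^ 2 * mxc R blk p k b k' b' / (y k b * y k' b') := by
        have h5 : ∀ j ∈ R, κ k b j * κ k' b' j = if blk k j = b ∧ blk k' j = b' then
            K ^ 2 / (y k b * y k' b') * p j ^ 2 else 0 := by
          intro j hj
          simp only [hκ, h.1, h.2, hj, true_and]
          by_cases h6 : blk k j = b <;> by_cases h7 : blk k' j = b' <;> simp [h6, h7]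
          field_simp
        rw [Finset.sum_congr rfl h5, ← Finset.sum_filter, ← Finset.mul_sum, ← Finset.filter_filter]
        show K ^ 2 / (y k b * y k' b') * mxc R blk p k b k' b' = _
        ring
      have hc0 := mxc_nonneg R blk p k b k' b'
      have hc : mxc R blk p k b k' b' ≤ y k b * y k' b' := by
        refine abs_le_of_sq_le_sq' ?_ (by positivity) |>.2
        have h5 : mxc R blk p k b k' b' ≤ x k b := mxc_le R blk p k b k' b'
        have h6 : mxc R blk p k b k' b' ≤ x k' b' := by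
          rw [mxc_comm]; exact mxc_le R blk p k' b' k b
        calc mxc R blk p k b k' b' ^ 2 ≤ x k b * x k' b' := by
              rw [sq]; exact mul_le_mul h5 h6 hc0 (hx0 k b)
          _ = _ := by rw [← hyy, ← hyy]; ring
      have hσ2 : K ^ 2 * mxc R blk p k b k' b' / (y k b * y k' b') ≤ K ^ 2 := by
        rw [div_le_iff₀ (by positivity)]
        exact mul_le_mul_of_nonneg_left hc (sq_nonneg K)
      have h5 := multi_inner_le R (hκ0 k b) (hκ0 k' b') hσ.le hσ2
      have hl1 : lam k b = y k b := if_pos h.1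
      have hl2 : lam k' b' = y k' b' := if_pos h.2
      have hw1 : w k b k' b' = _ := if_pos h
      rw [hl1, hl2, hw1]
      calc _ ≤ y k b * y k' b' * ((K ^ 2 * mxc R blk p k b k' b' / (y k b * y k' b')) ^ 2 *
            Real.exp (K ^ 2)) := mul_le_mul_of_nonneg_left h5 (by positivity)
        _ = _ := by rw [hC]; field_simp
    · have hw1 : w k b k' b' = 0 := if_neg h
      have hl : lam k b * lam k' b' = 0 := by
        rcases not_and_or.1 h with h | h
        · have : lam k b = 0 := if_neg h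
          rw [this, zero_mul]
        · have : lam k' b' = 0 := if_neg h
          rw [this, mul_zero]
      rw [hw1, hl]; simp
  have hcomb := multi_comb R blk p hb hτ hν0 w (fun k b k' b' => by
    have hc0 := mxc_nonneg R blk p k b k' b'
    have hμ' := hμ0 k'
    simp only [hw]
    split_ifs with h
    · have hy1 : 0 < y k b := hK.trans_le (hselK k b h.1)
      have hy2 : 0 < y k' b' := hK.trans_le (hselK k' b' h.2)
      have h5 : mxc R blk p k b k' b' ≤ y k b * y k b := by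
        rw [hyy]; exact mxc_le R blk p k b k' b'
      calc mxc R blk p k b k' b' ^ 2 / (y k b * y k' b') ≤
            mxc R blk p k b k' b' * (y k b * y k b) / (y k b * y k' b') := by
            rw [sq]
            exact div_le_div_of_nonneg_right (mul_le_mul_of_nonneg_left h5 hc0) (by positivity)
        _ = mxc R blk p k b k' b' * y k b / y k' b' := by field_simp
        _ ≤ _ := div_le_div_of_nonneg_left (by positivity) (by positivity) h.2
    · positivity) (fun k b k' b' => by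
    simp only [hw]
    rw [mxc_comm R blk p k b k' b', mul_comm (y k b)]
    simp only [and_comm])
  have hQ2 : ∫ e, Q e ^ 2 ∂mu ≤ C * (2 / τ * ∑ t ∈ T, (a t.1 t.2 ^ 2 + x t.1 t.2)) := by
    have h4 : ∫ e, Q e ^ 2 ∂mu = ∑ t ∈ T, ∑ t' ∈ T, lam t.1 t.2 * lam t'.1 t'.2 *
        ∫ e, Ph R (κ t.1 t.2) e * Ph R (κ t'.1 t'.2) e ∂mu := by
      simp only [hQ, sq, Finset.sum_mul_sum]
      rw [integral_finsetSum _ fun t _ => (pg_sum T fun t' _ => (hPh t).mul (hPh t')).integrable]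
      refine Finset.sum_congr rfl fun t _ => ?_
      rw [integral_finsetSum _ fun t' _ => ((hPh t).mul (hPh t')).integrable]
      refine Finset.sum_congr rfl fun t' _ => ?_
      rw [← integral_const_mul]
      congr 1; funext e; ring
    have h5 : ∑ t ∈ T, x t.1 t.2 * y t.1 t.2 / (2 ^ t.1 * ν) ≤
        1 / 2 * ∑ t ∈ T, (a t.1 t.2 ^ 2 + x t.1 t.2) := by
      rw [Finset.mul_sum]
      refine Finset.sum_le_sum fun t ht => ?_
      obtain ⟨hk, hb'⟩ := hTm _ ht
      have h6 : x t.1 t.2 * y t.1 t.2 / (2 ^ t.1 * ν) ≤ a t.1 t.2 * y t.1 t.2 := by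
        rw [div_le_iff₀ (hμ0 _)]
        have := mul_le_mul_of_nonneg_right (hxa _ hk _ hb') (hy0 t.1 t.2)
        linarith
      have h7 := sq_nonneg (a t.1 t.2 - y t.1 t.2)
      have h8 := hyy t.1 t.2
      nlinarith
    rw [h4]
    calc _ ≤ ∑ t ∈ T, ∑ t' ∈ T, C * w t.1 t.2 t'.1 t'.2 :=
          Finset.sum_le_sum fun t _ => Finset.sum_le_sum fun t' _ => hpair _ _ _ _
      _ = C * ∑ t ∈ T, ∑ t' ∈ T, w t.1 t.2 t'.1 t'.2 := by simp only [Finset.mul_sum]
      _ ≤ C * (4 / τ * (1 / 2 * ∑ t ∈ T, (a t.1 t.2 ^ 2 + x t.1 t.2))) :=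
          mul_le_mul_of_nonneg_left
            (hcomb.trans (mul_le_mul_of_nonneg_left h5 (by positivity))) hC0.le
      _ = _ := by ring
  -- sum over the blocks
  have hX : ∑ t ∈ T, x t.1 t.2 = S * ∑ i ∈ R, p i ^ 2 := by
    rw [hT, Finset.sum_sigma, Finset.sum_congr rfl fun k hk =>
      sum_mx R blk p (hb k (Finset.mem_range.1 hk))]
    simp
  have hA : ∑ t ∈ T, a t.1 t.2 ^ 2 = ∑ k ∈ range S, ∑ b ∈ range (nb k), a k b ^ 2 := by
    rw [hT, Finset.sum_sigma]
  have hN : ∑ t ∈ T, ((2 ^ t.1 * ν) ^ 2 * π t.1 t.2 + n t.1 t.2) =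
      ∑ k ∈ range S, ((2 ^ k * ν) ^ 2 * ∑ b ∈ range (nb k), π k b + ∑ i ∈ R, p i) := by
    rw [hT, Finset.sum_sigma]
    refine Finset.sum_congr rfl fun k hk => ?_
    rw [Finset.sum_add_distrib, Finset.mul_sum]
    congr 1
    exact Finset.sum_fiberwise_of_maps_to
      (fun i hi => Finset.mem_range.2 (hb k (Finset.mem_range.1 hk) i hi)) _
  have hall := Finset.sum_le_sum hone
  rw [Finset.sum_add_distrib, Finset.sum_add_distrib, ← Finset.mul_sum, ← Finset.mul_sum,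
    ← Finset.mul_sum, ← hgQ, hX, hA, hN] at hall
  rw [Finset.sum_add_distrib, hX, hA] at hQ2
  have hcs := multi_cs hg hQp hQ0 m hρ
  have h9 : 4 / K * ∫ e, g e * Q e ∂mu ≤ 4 / K * (ρ / 2 * ∫ e, (g e - m) ^ 2 ∂mu +
      1 / (2 * ρ) * (C * (2 / τ * (∑ k ∈ range S, ∑ b ∈ range (nb k), a k b ^ 2 +
        S * ∑ i ∈ R, p i ^ 2)))) := by
    refine mul_le_mul_of_nonneg_left (hcs.trans ?_) (by positivity)
    have := mul_le_mul_of_nonneg_left hQ2 (by positivity : 0 ≤ 1 / (2 * ρ))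
    linarith
  have h10 : 4 / K * (ρ / 2 * ∫ e, (g e - m) ^ 2 ∂mu +
      1 / (2 * ρ) * (C * (2 / τ * (∑ k ∈ range S, ∑ b ∈ range (nb k), a k b ^ 2 +
        S * ∑ i ∈ R, p i ^ 2)))) = 2 * ρ / K * ∫ e, (g e - m) ^ 2 ∂mu +
      4 * C / (K * ρ * τ) * (∑ k ∈ range S, ∑ b ∈ range (nb k), a k b ^ 2 +
        S * ∑ i ∈ R, p i ^ 2) := by field_simp; ring
  linarith

end Pool.Agent.P.MP_9957ef_pr
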