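import Pool.Agent.P.MP_9957ef_pr.Iface
import Pool.Agent.P.MP_9957ef_pr.Det
import Pool.Agent.P.MP_9957ef_pr.RW
import Pool.Agent.P.MP_9957ef_pr.Burke

/-! Tails of passage times. -/

set_option autoImplicit false

noncomputable section

open MeasureTheory ProbabilityTheory Finset

namespace Pool.Agent.P.MP_9957ef_pr

lemma tails_congr {r s : ℝ} (e : Env) {a b : Site} (ha : 1 ≤ a.2) :
    L 0 (wt (cS 1 r s) e) a b = L 0 (wt (cT s) e) a b := by
  refine L_congr fun z h1 _ => ?_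
  obtain ⟨_, h, _, _⟩ := h1
  have h0 : z.2 ≠ 0 := by omega
  have hm : max 1 z.2 = z.2 := max_eq_right (by omega)
  simp only [wt, cS, cT, h0, if_false, hm]

lemma tails_corner {r s : ℝ} (e : Env) : L 0 (wt (cS 1 r s) e) (1, 0) (1, 0) = 0 := by
  rw [L_self _ (by norm_num)]
  simp [wt, cS]

lemma tails_T_le_G {r s : ℝ} (e : Env) {m : ℤ} (hm : 1 ≤ m) : T s 1 m e ≤ G 1 r s (m, m) e := by
  have h := L_concat2 (k := 0) (a := (1, 0)) (b := (1, 0)) (c := (m, m)) (wt (cS 1 r s) e)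
    (by simp [Adm]) (by simp [Adm]; omega)
  rw [tails_corner, zero_add, tails_congr e (by norm_num)] at h
  simpa [T, G] using h

lemma tails_one_le_q {x : ℝ} (hx : |x| < 1 / 2) : 1 ≤ q (-x) := by
  have h := abs_lt.1 hx
  unfold q
  rw [one_le_inv₀ (by linarith)]
  linarith

lemma tails_mir {s : ℝ} (e : Env) (m u : ℤ) :
    L 0 (wt (cT s) e) (u, 1) (m, m) =
      L 0 (wt (cT s) (fun z => e (mir m z))) (0, 0) (m - 1, m - u) := by
  rw [L_mirror _ m]
  have e1 : mir m (m, m) = (0, 0) := by simp [mir]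
  have e2 : mir m (u, 1) = (m - 1, m - u) := by simp [mir]
  rw [e1, e2]
  congr 1
  funext z
  simp only [wt, cT, mir]
  congr 1
  by_cases h : z.1 = z.2
  · rw [if_pos h, if_pos (by omega)]
  · rw [if_neg h, if_neg (by omega)]

lemma tails_attr {x : ℝ} (hx : |x| < 1 / 2) (e : Env) {c j : ℤ} (hj : 1 ≤ j) (hc : j ≤ c) :
    G 0 (q (-x)) (q x) (c, j) e - G 0 (q (-x)) (q x) (c, j - 1) e ≤
      L 0 (wt (cT (q x)) e) (0, 0) (c, j) - L 0 (wt (cT (q x)) e) (0, 0) (c, j - 1) := by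
  have h := (attract (k := 0) (a := (0, 0)) (b := (c, c)) (W := wt (cS 0 (q (-x)) (q x)) e)
    (W' := wt (cT (q x)) e) (by norm_num) ?_ ?_ ?_).2 c (j - 1) (by simp [Adm]; omega)
    (by simp [Adm]; omega)
  · simpa [G] using h
  · intro z _ _ h1 h2
    simp only at h1 h2
    have h3 : z.1 ≠ z.2 := by omega
    have h4 : z.1 ≠ 0 := by omega
    simp only [wt, cS, cT, h1, if_true, h4, if_false]
    exact mul_le_mul_of_nonneg_right (tails_one_le_q hx) (abs_nonneg _)
  · intro z _ _ h1 h2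
    simp only at h1 h2
    have h3 : z.1 = z.2 := by omega
    have h4 : z.2 ≠ 0 := by omega
    have h5 : z.1 = max 0 z.2 := by omega
    simp only [wt, cS, cT, h4, if_false, if_pos h3, if_pos h5, le_refl]
  · intro z _ _ h1 h2
    simp only at h1 h2
    have h3 : z.1 ≠ z.2 := by omega
    have h4 : z.2 ≠ 0 := by omega
    have h5 : z.1 ≠ max 0 z.2 := by omega
    simp only [wt, cS, cT, h4, if_false, h3, h5]

theorem gm : S_GM := by
  intro x y hx hy hxy m hm h
  obtain ⟨Φ, hΦ, hfix, -, hcol⟩ := burke hx (X := 0) (r := m - 1) (c := m - 1) le_rfl (by omega)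
    (by omega)
  have key : ∀ (e : Env) (N : ℕ), (N : ℤ) ≤ m - 1 →
      L 0 (wt (cS 1 (q (-y)) (q x)) e) (1, 0) (1 + N, 0) +
        L 0 (wt (cT (q x)) e) (1 + N, 1) (m, m) - T (q x) 1 m e ≤
      ∑ v ∈ range N, ((1 / 2 + y)⁻¹ * |Φ (fun z => e (mir m z)) (m, m - 2 - v)| -
        (1 / 2 - x)⁻¹ * |Φ (fun z => e (mir m z)) (m - 1 - v, m - 1 - v)|) := by
    intro e N
    induction N with
    | zero =>
      intro _
      simp [tails_corner, T]
    | succ N ih =>
      intro hN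
      push_cast at hN
      have ih' := ih (by omega)
      rw [sum_range_succ]
      have h1 := L_rec_row (k := 0) (a := (1, 0)) (wt (cS 1 (q (-y)) (q x)) e)
        (i := 1 + ((N + 1 : ℕ) : ℤ)) (by norm_num) (by push_cast; omega)
      have e1 : 1 + ((N + 1 : ℕ) : ℤ) - 1 = 1 + N := by push_cast; ring
      simp only [e1] at h1
      have h2 : wt (cS 1 (q (-y)) (q x)) e (1 + ((N + 1 : ℕ) : ℤ), 0) =
          (1 / 2 + y)⁻¹ * |Φ (fun z => e (mir m z)) (m, m - 2 - N)| := by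
        rw [hfix _ _ (by simp only; omega)]
        have h3 : (1 + ((N + 1 : ℕ) : ℤ)) ≠ 1 := by push_cast; omega
        have h4 : mir m (m, m - 2 - N) = (1 + ((N + 1 : ℕ) : ℤ), 0) := by
          simp only [mir, Prod.mk.injEq]
          push_cast
          constructor <;> ring
        simp only [wt, cS, if_true, h3, if_false, h4, q, sub_neg_eq_add]
      have h5 := tails_attr hx (fun z => e (mir m z)) (c := m - 1) (j := m - 1 - N) (by omega)
        (by omega)
      rw [← hcol _ _ (by omega) (by omega)] at h5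
      have h6 : max 0 (m - 1 - (N : ℤ)) = m - 1 - N := by omega
      rw [h6] at h5
      have h7 := tails_mir (s := q x) e m (1 + N)
      have h8 := tails_mir (s := q x) e m (1 + ((N + 1 : ℕ) : ℤ))
      have e2 : m - (1 + (N : ℤ)) = m - 1 - N := by ring
      have e3 : m - (1 + ((N + 1 : ℕ) : ℤ)) = m - 1 - N - 1 := by push_cast; ring
      rw [e2] at h7
      rw [e3] at h8
      have e4 : q x = (1 / 2 - x)⁻¹ := rfl
      rw [h1, h2, h8]
      rw [h7] at ih'
      rw [← e4] at ih' ⊢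
      linarith
  have hx' := abs_lt.1 hx
  have hv := ville (fun v => (m, m - 2 - v)) (fun v => (m - 1 - v, m - 1 - v)) (m - 1).toNat 0
    (fun u _ v _ h => by simp only [Prod.mk.injEq] at h; omega)
    (fun u _ v _ h => by simp only [Prod.mk.injEq] at h; omega)
    (fun u _ v _ h => by simp only [Prod.mk.injEq] at h; omega)
    (α := 1 / 2 - x) (β := 1 / 2 + y) (l := x + y) (by linarith) hxy (by linarith) h
  rw [pow_zero, mul_one] at hv
  refine le_trans ?_ hv
  refine le_trans ?_ (real_preimage_le (hΦ.comp (mp_reindex (mir_injective m))) _)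
  refine measureReal_mono fun e he => ?_
  obtain ⟨i, h1, h2, h3⟩ := L_cut_row (k := 0) (a := (1, 0)) (b := (m, m))
    (wt (cS 1 (q (-y)) (q x)) e) (by simp [Adm]; omega) (r := 0) le_rfl (by simp only; omega)
  simp only [Adm] at h1 h2
  obtain ⟨N, rfl⟩ : ∃ N : ℕ, i = 1 + N := ⟨(i - 1).toNat, by omega⟩
  refine ⟨N, Nat.zero_le _, by omega, ?_⟩
  have h4 := key e N (by omega)
  rw [tails_congr e (a := (1 + N, 0 + 1)) (by norm_num), zero_add] at h3
  have h5 : h ≤ G 1 (q (-y)) (q x) (m, m) e - T (q x) 1 m e := he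
  unfold G at h5
  rw [h3] at h5
  exact h5.trans h4

lemma tails_upper {C0 M ν x : ℝ} (hM : 1 ≤ M) (hν : 8 * M ≤ ν) (hx : |x| ≤ (M - 1) / ν) {l : ℤ}
    (hl : 1 ≤ l) (hC : (l : ℝ) ≤ C0 * ν ^ 3) :
    Tail (fun e => T (q x) 1 l e - 4 * (l : ℝ)) ν (Real.exp (16 * C0 * M ^ 2 + 88 * C0 * M ^ 4)) := by
  intro t ht
  have hν0 : 0 < ν := by linarith
  obtain ⟨δ, hδ⟩ : ∃ δ, δ = ν⁻¹ := ⟨_, rfl⟩
  have hδ0 : 0 < δ := by rw [hδ]; positivity
  have hδν : δ * ν = 1 := by rw [hδ]; field_simp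
  have hMδ : M * δ ≤ 1 / 8 := by nlinarith
  have hδ1 : δ ≤ 1 := by nlinarith
  rw [div_eq_mul_inv, ← hδ] at hx
  have hx1 : |x| ≤ M * δ := by nlinarith
  have hy1 : |x + δ| ≤ M * δ := by
    have := abs_add_le x δ
    rw [abs_of_pos hδ0] at this
    nlinarith
  have hl1 : (1 : ℝ) ≤ l := by exact_mod_cast hl
  have hlδ : (l : ℝ) * δ ^ 3 ≤ C0 := by
    calc (l : ℝ) * δ ^ 3 ≤ C0 * ν ^ 3 * δ ^ 3 := by gcongr
      _ = C0 * (δ * ν) ^ 3 := by ring
      _ = C0 := by rw [hδν]; ring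
  have hU := G_upper (x := x) (y := x + δ) (by linarith) (by linarith) (by linarith) (X := 1)
    (i := l) (j := l) (by norm_num) (by omega) (by omega) (4 * l + t * ν)
  have hA := (abs_le.1 (Lam_approx (p := (l : ℝ) - (1 : ℤ)) (j := l) (x := x) (y := x + δ)
    (by push_cast; linarith) (by linarith) (by linarith) (by linarith))).2
  refine le_trans (measureReal_mono fun e he => ?_) (hU.trans ?_)
  · have h1 : t * ν ≤ T (q x) 1 l e - 4 * (l : ℝ) := he
    have h2 := tails_T_le_G (r := q (-(x + δ))) (s := q x) e hl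
    show 4 * l + t * ν ≤ _
    linarith
  · rw [← Real.exp_add]
    apply Real.exp_le_exp.2
    push_cast at hA ⊢
    have b1 : x ^ 2 ≤ (M * δ) ^ 2 := sq_le_sq' (abs_le.1 hx1).1 (abs_le.1 hx1).2
    have b2 : (x + δ) ^ 2 ≤ (M * δ) ^ 2 := sq_le_sq' (abs_le.1 hy1).1 (abs_le.1 hy1).2
    have b3 : x * (x + δ) ≤ (M * δ) ^ 2 := by nlinarith [sq_nonneg (x - (x + δ))]
    have b4 : x ^ 4 ≤ (M * δ) ^ 4 := by
      calc x ^ 4 = (x ^ 2) ^ 2 := by ring
        _ ≤ ((M * δ) ^ 2) ^ 2 := by gcongr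
        _ = _ := by ring
    have b5 : (x + δ) ^ 4 ≤ (M * δ) ^ 4 := by
      calc (x + δ) ^ 4 = ((x + δ) ^ 2) ^ 2 := by ring
        _ ≤ ((M * δ) ^ 2) ^ 2 := by gcongr
        _ = _ := by ring
    have b6 : x + (x + δ) ≤ 1 := by
      have := (abs_le.1 hx1).2
      have := (abs_le.1 hy1).2
      linarith
    have c1 : ((l : ℝ) - 1 + l) * (x ^ 2 + x * (x + δ) + (x + δ) ^ 2) ≤
        2 * l * (3 * (M * δ) ^ 2) := by
      apply mul_le_mul (by linarith) (by linarith) (by nlinarith [sq_nonneg (x + (x + δ))])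
        (by linarith)
    have c2 : ((l : ℝ) - 1 + l) * (x ^ 4 + (x + δ) ^ 4) ≤ 2 * l * (2 * (M * δ) ^ 4) := by
      apply mul_le_mul (by linarith) (by linarith) (by positivity) (by linarith)
    have c3 : δ * (2 * l * (3 * (M * δ) ^ 2)) ≤ 6 * C0 * M ^ 2 := by
      calc δ * (2 * l * (3 * (M * δ) ^ 2)) = 6 * (l * δ ^ 3) * M ^ 2 := by ring
        _ ≤ 6 * C0 * M ^ 2 := by gcongr
    have c4 : 2 * l * (2 * (M * δ) ^ 4) ≤ 4 * C0 * M ^ 4 := by
      calc 2 * l * (2 * (M * δ) ^ 4) = 4 * (l * δ ^ 3) * M ^ 4 * δ := by ring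
        _ ≤ 4 * C0 * M ^ 4 * 1 := by
          have : 0 ≤ C0 := le_trans (by positivity) hlδ
          gcongr
        _ = _ := by ring
    have c5 := mul_le_mul_of_nonneg_left c1 hδ0.le
    have c6 : δ * (x + (x + δ)) ≤ δ * 1 := mul_le_mul_of_nonneg_left b6 hδ0.le
    have c7 : δ * (t * ν) = t := by
      calc δ * (t * ν) = t * (δ * ν) := by ring
        _ = t := by rw [hδν, mul_one]
    have e1 : x + δ - x = δ := by ring
    rw [e1] at hA ⊢
    nlinarith

lemma tails_lower {C0 M ν : ℝ} (hM : 1 ≤ M) (hν : 8 * M ≤ ν) {l : ℤ}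
    (hl : 1 ≤ l) (hC : (l : ℝ) ≤ C0 * ν ^ 3) :
    Tail (fun e => 4 * (l : ℝ) - T (q (M / ν)) 1 l e) (ν + ν)
      (Real.exp (1 + 44 * C0 * M ^ 4) + 1) := by
  have hν0 : 0 < ν := by linarith
  obtain ⟨δ, hδ⟩ : ∃ δ, δ = ν⁻¹ := ⟨_, rfl⟩
  have hδ0 : 0 < δ := by rw [hδ]; positivity
  have hδν : δ * ν = 1 := by rw [hδ]; field_simp
  have hMδ : M * δ ≤ 1 / 8 := by nlinarith
  have hδ1 : δ ≤ 1 := by nlinarith
  rw [div_eq_mul_inv, ← hδ]
  have hx0 : 0 < M * δ := by positivity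
  have hxa : |M * δ| ≤ 1 / 8 := by rwa [abs_of_pos hx0]
  have hl1 : (1 : ℝ) ≤ l := by exact_mod_cast hl
  have hlδ : (l : ℝ) * δ ^ 3 ≤ C0 := by
    calc (l : ℝ) * δ ^ 3 ≤ C0 * ν ^ 3 * δ ^ 3 := by gcongr
      _ = C0 * (δ * ν) ^ 3 := by ring
      _ = C0 := by rw [hδν]; ring
  have hMt : ∀ t : ℝ, 0 ≤ t → t ≤ M * δ * (t * ν) := fun t ht => by
    calc t = 1 * t := (one_mul t).symm
      _ ≤ M * t := by gcongr
      _ = M * t * (δ * ν) := by rw [hδν, mul_one]
      _ = _ := by ring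
  have h1 : Tail (fun e => 4 * (l : ℝ) - G 1 (q (-0)) (q (M * δ)) (l, l) e) ν
      (Real.exp (1 + 44 * C0 * M ^ 4)) := by
    intro t ht
    have hU := G_lower (x := M * δ) (y := 0) (by linarith) (by norm_num) hx0.le (X := 1)
      (i := l) (j := l) (by norm_num) (by omega) (by omega) (4 * l - t * ν)
    have hA := (abs_le.1 (Lam_approx (p := (l : ℝ) - (1 : ℤ)) (j := l) (x := M * δ) (y := 0)
      (by push_cast; linarith) (by linarith) hxa (by norm_num))).2
    refine le_trans (measureReal_mono fun e he => ?_) (hU.trans ?_)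
    · have h1 : t * ν ≤ 4 * (l : ℝ) - G 1 (q (-0)) (q (M * δ)) (l, l) e := he
      show _ ≤ 4 * l - t * ν
      linarith
    · rw [← Real.exp_add]
      apply Real.exp_le_exp.2
      push_cast at hA ⊢
      have c2 : ((l : ℝ) - 1 + l) * (M * δ) ^ 4 ≤ 2 * C0 * M ^ 4 := by
        calc ((l : ℝ) - 1 + l) * (M * δ) ^ 4 ≤ 2 * l * (M * δ) ^ 4 := by
              gcongr
              linarith
          _ = 2 * (l * δ ^ 3) * M ^ 4 * δ := by ring
          _ ≤ 2 * C0 * M ^ 4 * 1 := by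
              have : 0 ≤ C0 := le_trans (by positivity) hlδ
              gcongr
          _ = _ := by ring
      have c3 : 0 ≤ M * δ * (((l : ℝ) - 1 + l) * (M * δ) ^ 2) := by
        have : (0 : ℝ) ≤ l - 1 + l := by linarith
        positivity
      have c4 := hMt t ht
      have c5 : 0 ≤ (M * δ) ^ 2 := by positivity
      nlinarith
  have h2 : Tail (fun e => G 1 (q (-0)) (q (M * δ)) (l, l) e - T (q (M * δ)) 1 l e) ν 1 := by
    intro t ht
    refine (gm (M * δ) 0 (by linarith) (by norm_num) (by linarith) l hl (t * ν)).trans ?_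
    rw [one_mul, add_zero]
    exact Real.exp_le_exp.2 (by linarith [hMt t ht])
  exact (h1.add h2).mono fun e => by linarith

lemma tails_shift {s : ℝ} {a b : ℤ} (e : Env) :
    T s a b e = T s 1 (b - a + 1) (fun z => e (z + (a - 1, a - 1))) := by
  rw [← T_shift]
  congr 1 <;> ring

theorem tt : S_TT := by
  intro C0 hC0
  refine ⟨5, Real.exp (1 + 44 * C0 * (C0 + 1) ^ 4) + 1 +
    Real.exp (16 * C0 * (9 * C0 + 6) ^ 2 + 88 * C0 * (9 * C0 + 6) ^ 4), 8 * (9 * C0 + 6),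
    by norm_num, ?_, by linarith, fun ν hν x hx a b hab hl => ?_⟩
  · have := Real.exp_pos (1 + 44 * C0 * (C0 + 1) ^ 4)
    have := Real.exp_pos (16 * C0 * (9 * C0 + 6) ^ 2 + 88 * C0 * (9 * C0 + 6) ^ 4)
    linarith
  have hν0 : 0 < ν := by linarith
  have hl1 : 1 ≤ b - a + 1 := by omega
  have hl2 : ((b - a + 1 : ℤ) : ℝ) ≤ C0 * ν ^ 3 := by push_cast; exact hl
  have hmp := mp_reindex (σ := fun z : Site => z + (a - 1, a - 1)) (add_left_injective _)
  have hsmall : ∀ c : ℝ, 0 ≤ c → c ≤ 9 * C0 + 6 → |c / ν| ≤ 1 / 8 := fun c h0 h1 => by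
    rw [abs_of_nonneg (by positivity), div_le_iff₀ hν0]
    linarith
  have hx8 : |x| ≤ 1 / 8 := hx.trans ((le_abs_self _).trans (hsmall C0 hC0.le (by linarith)))
  constructor
  · have h := tails_upper (C0 := C0) (M := 9 * C0 + 6) (x := x) (by linarith) hν
      (hx.trans (by gcongr; linarith)) hl1 hl2
    refine ((h.comp hmp).weaken (by linarith) ?_).mono fun e => ?_
    · have := Real.exp_pos (1 + 44 * C0 * (C0 + 1) ^ 4)
      linarith
    · rw [tails_shift e]
      push_cast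
      exact le_rfl
  · have h1 := tails_lower (C0 := C0) (M := C0 + 1) (by linarith) (by linarith) hl1 hl2
    have h2 := tails_upper (C0 := C0) (M := 9 * C0 + 6) (x := (9 * C0 + 5) / ν) (by linarith) hν
      (by rw [abs_of_nonneg (by positivity)]; apply le_of_eq; congr 1; ring) hl1 hl2
    have h3 := (h1.const_mul (t := 2) two_pos).add h2
    refine ((h3.comp hmp).weaken (by linarith) le_rfl).mono fun e => ?_
    rw [tails_shift e]
    generalize (fun z => e (z + (a - 1, a - 1))) = e'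
    have hx1 : x ≤ (C0 + 1) / ν := ((le_abs_self x).trans hx).trans (by gcongr; linarith)
    have hx2 : (C0 + 1) / ν ≤ (9 * C0 + 5) / ν :=
      div_le_div_of_nonneg_right (by linarith) hν0.le
    have q1 := (q_sub hx1 hx8 (hsmall _ (by linarith) (by linarith))).2
    have q2 := (q_sub hx2 (hsmall _ (by linarith) (by linarith))
      (hsmall _ (by linarith) (by linarith))).1
    have hx3 : -(C0 / ν) ≤ x := (abs_le.1 hx).1
    have q3 : 2 * q ((C0 + 1) / ν) - q x ≤ q ((9 * C0 + 5) / ν) := by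
      have e1 : (9 * C0 + 5) / ν = 9 * (C0 / ν) + 5 * (1 / ν) := by ring
      have e2 : (C0 + 1) / ν = C0 / ν + 1 / ν := by ring
      have : 8 * ((C0 + 1) / ν - x) ≤ 2 * ((9 * C0 + 5) / ν - (C0 + 1) / ν) := by
        rw [e1, e2]
        linarith
      linarith
    have t1 := T_convex (q x) (2 * q ((C0 + 1) / ν) - q x) 1 (b - a + 1) e'
    have e3 : (q x + (2 * q ((C0 + 1) / ν) - q x)) / 2 = q ((C0 + 1) / ν) := by ring
    rw [e3] at t1
    have t2 := T_mono q3 1 (b - a + 1) e'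
    push_cast
    linarith

theorem vd : S_VD := by
  intro C0 hC0
  obtain ⟨A, B, ν0, hA, hB, hν0, h⟩ := tt (C0 + 1) (by linarith)
  refine ⟨A, B + B, max ν0 (8 * (C0 + 1)), hA, by linarith, le_max_of_le_left hν0,
    fun ν hν x hx a b hab hl => ?_⟩
  have h1 : ν0 ≤ ν := (le_max_left _ _).trans hν
  have h2 : 8 * (C0 + 1) ≤ ν := (le_max_right _ _).trans hν
  have hν' : 0 < ν := by linarith
  have hl' : ((b : ℝ) - a + 1) ≤ (C0 + 1) * ν ^ 3 := hl.trans (by gcongr; linarith)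
  have hx1 : |x| ≤ (C0 + 1) / ν := hx.trans (by gcongr; linarith)
  have hx2 : |(C0 + 1) / ν| ≤ (C0 + 1) / ν := by rw [abs_of_nonneg (by positivity)]
  have hx3 : (C0 + 1) / ν ≤ 1 / 8 := by
    rw [div_le_iff₀ hν']
    linarith
  have t1 := (h ν h1 x hx1 a b hab hl').2
  have t2 := (h ν h1 _ hx2 a b hab hl').1
  have t3 := (t2.add t1).const_mul (t := ν / 2) (by positivity)
  refine (t3.weaken (le_of_eq (by ring)) le_rfl).mono fun e => ?_
  have hle : x ≤ (C0 + 1) / ν := (le_abs_self x).trans hx1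
  have q1 := (q_sub hle (hx1.trans hx3) (hx2.trans hx3)).1
  have hq : 0 < q x := q_pos (by linarith)
  have hx4 : x ≤ C0 / ν := (le_abs_self x).trans hx
  have e2 : (C0 + 1) / ν = C0 / ν + 1 / ν := by ring
  have q2 : 2 / ν ≤ q ((C0 + 1) / ν) - q x := by
    have : 2 / ν = 2 * (1 / ν) := by ring
    linarith
  have q3 : 0 < 2 / ν := by positivity
  have s1 := T_subgrad hq.le (by linarith : q x ≤ q ((C0 + 1) / ν)) a b e
  have s2 : 0 ≤ ∑ i ∈ wall a b, |e i| * iV (T (q x) a b) i e := by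
    refine sum_nonneg fun i _ => mul_nonneg (abs_nonneg _) ?_
    unfold iV
    split_ifs <;> norm_num
  have s3 := mul_le_mul_of_nonneg_right q2 s2
  have s4 : ∑ i ∈ wall a b, |e i| * iV (T (q x) a b) i e =
      ν / 2 * (2 / ν * ∑ i ∈ wall a b, |e i| * iV (T (q x) a b) i e) := by
    field_simp
  rw [s4]
  apply mul_le_mul_of_nonneg_left _ (by positivity)
  linarith

end Pool.Agent.P.MP_9957ef_pr
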